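import Mathlib

/-! Project RS (helper2): sums over periodic sets, interpolation. -/

set_option autoImplicit false

namespace Pool.Agent.L5helper2.RS

open Finset Filter Topology

/-- partial summation against an antitone function -/
lemma abel_bound {u : ℕ → ℝ} (hu : Antitone u) (hu0 : ∀ n, 0 ≤ u n) {e : ℕ → ℝ} {Q : ℕ}
    (hD : ∀ n, |∑ m ∈ Icc 1 n, e m| ≤ min (n : ℝ) Q) (Y : ℕ) :
    |∑ m ∈ Icc 1 Y, e m * u m| ≤ ∑ m ∈ Icc 1 Q, u m := by
  obtain ⟨D, hDd⟩ : ∃ D : ℕ → ℝ, D = fun n => ∑ m ∈ Icc 1 n, e m := ⟨_, rfl⟩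
  obtain ⟨F, hF⟩ : ∃ F : ℕ → ℝ, F = fun n => ∑ m ∈ Icc 1 n, e m * u m := ⟨_, rfl⟩
  obtain ⟨c, hc⟩ : ∃ c : ℕ → ℝ, c = fun n : ℕ => min (n : ℝ) Q := ⟨_, rfl⟩
  obtain ⟨G, hG⟩ : ∃ G : ℕ → ℝ, G = fun n => ∑ m ∈ Icc 1 n, (c m - c (m - 1)) * u m := ⟨_, rfl⟩
  have hD' : ∀ n, |D n| ≤ c n := fun n => by rw [hDd, hc]; exact hD n
  have key : ∀ n, |F n - D n * u (n + 1)| ≤ G n - c n * u (n + 1) := by
    intro n
    induction n with
    | zero =>
      have h1 : D 0 = 0 := by rw [hDd]; simp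
      have h2 : F 0 = 0 := by rw [hF]; simp
      have h3 : G 0 = 0 := by rw [hG]; simp
      have h4 : c 0 = 0 := by rw [hc]; simp
      rw [h1, h2, h3, h4]
      simp
    | succ n ih =>
      have h1 : D (n + 1) = D n + e (n + 1) := by
        rw [hDd]
        simp only
        rw [sum_Icc_succ_top (by omega)]
      have h2 : F (n + 1) = F n + e (n + 1) * u (n + 1) := by
        rw [hF]
        simp only
        rw [sum_Icc_succ_top (by omega)]
      have h3 : G (n + 1) = G n + (c (n + 1) - c n) * u (n + 1) := by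
        rw [hG]
        simp only
        rw [sum_Icc_succ_top (by omega)]
        simp
      have h4 : F (n + 1) - D (n + 1) * u (n + 1 + 1) =
          (F n - D n * u (n + 1)) + D (n + 1) * (u (n + 1) - u (n + 1 + 1)) := by
        rw [h1, h2]
        ring
      have h5 : G (n + 1) - c (n + 1) * u (n + 1 + 1) =
          (G n - c n * u (n + 1)) + c (n + 1) * (u (n + 1) - u (n + 1 + 1)) := by
        rw [h3]
        ring
      rw [h4, h5]
      have h6 : 0 ≤ u (n + 1) - u (n + 1 + 1) := sub_nonneg.2 (hu (by omega))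
      refine (abs_add_le _ _).trans (add_le_add ih ?_)
      rw [abs_mul, abs_of_nonneg h6]
      exact mul_le_mul_of_nonneg_right (hD' _) h6
  have h1 : |F Y| ≤ G Y := by
    have h2 := key Y
    have h3 : F Y = (F Y - D Y * u (Y + 1)) + D Y * u (Y + 1) := by ring
    rw [h3]
    refine (abs_add_le _ _).trans ?_
    have h4 : |D Y * u (Y + 1)| ≤ c Y * u (Y + 1) := by
      rw [abs_mul, abs_of_nonneg (hu0 _)]
      exact mul_le_mul_of_nonneg_right (hD' _) (hu0 _)
    linarith
  have h2 : G Y ≤ ∑ m ∈ Icc 1 Q, u m := by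
    have h3 : G Y = ∑ m ∈ (Icc 1 Y).filter (fun m => m ≤ Q), u m := by
      rw [hG, sum_filter]
      refine sum_congr rfl fun m hm => ?_
      rw [mem_Icc] at hm
      rw [hc]
      simp only
      have hm1 : ((m - 1 : ℕ) : ℝ) = (m : ℝ) - 1 := by
        rw [Nat.cast_sub hm.1, Nat.cast_one]
      rw [hm1]
      by_cases hmQ : m ≤ Q
      · have : (m : ℝ) ≤ Q := by exact_mod_cast hmQ
        rw [if_pos hmQ, min_eq_left this, min_eq_left (by linarith)]
        ring
      · have : (Q : ℝ) + 1 ≤ m := by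
          have : Q + 1 ≤ m := by omega
          exact_mod_cast this
        rw [if_neg hmQ, min_eq_right (by linarith), min_eq_right (by linarith)]
        ring
    rw [h3]
    refine sum_le_sum_of_subset_of_nonneg (fun m hm => ?_) fun m _ _ => hu0 m
    rw [mem_filter, mem_Icc] at hm
    rw [mem_Icc]
    omega
  have h3 : F Y = ∑ m ∈ Icc 1 Y, e m * u m := by rw [hF]
  rw [← h3]
  exact h1.trans h2

open Classical in
/-- the count of a periodic set -/
lemma per_count {S : ℕ → Prop} {Q : ℕ} (hQ : 1 ≤ Q) (hS : ∀ n, S (n + Q) ↔ S n) (n : ℕ) :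
    #((Icc 1 (n + Q)).filter S) = #((Icc 1 n).filter S) + #((Icc 1 Q).filter S) := by
  have hper : Function.Periodic S Q := fun n => propext (hS n)
  have h1 : ∀ a : ℕ, #((Icc 1 (a + Q)).filter S) = #((Icc 1 a).filter S) + Nat.count S Q := by
    intro a
    rw [← Nat.filter_Ico_card_eq_of_periodic (a + 1) Q S hper, ← card_union_of_disjoint]
    · congr 1
      ext m
      simp only [mem_filter, mem_union, mem_Icc, mem_Ico]
      constructor
      · rintro ⟨h1, h2⟩
        rcases Nat.lt_or_ge a m with h | h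
        · exact Or.inr ⟨⟨by omega, by omega⟩, h2⟩
        · exact Or.inl ⟨⟨by omega, by omega⟩, h2⟩
      · rintro (⟨h1, h2⟩ | ⟨h1, h2⟩)
        · exact ⟨⟨by omega, by omega⟩, h2⟩
        · exact ⟨⟨by omega, by omega⟩, h2⟩
    · rw [Finset.disjoint_left]
      intro m hm hm'
      rw [mem_filter, mem_Icc] at hm
      rw [mem_filter, mem_Ico] at hm'
      omega
  have h2 := h1 0
  rw [zero_add] at h2
  rw [h1 n, h2]
  simp

open Classical in
/-- the density of a set with the period `Q` -/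
noncomputable def dens (S : ℕ → Prop) (Q : ℕ) : ℝ := #((Icc 1 Q).filter S) / Q

lemma dens_nonneg (S : ℕ → Prop) (Q : ℕ) : 0 ≤ dens S Q := by
  unfold dens
  positivity

lemma dens_le (S : ℕ → Prop) {Q : ℕ} (hQ : 1 ≤ Q) : dens S Q ≤ 1 := by
  classical
  unfold dens
  rw [div_le_one (by exact_mod_cast hQ)]
  have : #((Icc 1 Q).filter S) ≤ Q := by
    refine (card_filter_le _ _).trans ?_
    simp
  exact_mod_cast this

open Classical in
lemma per_mul {S : ℕ → Prop} {Q : ℕ} (hQ : 1 ≤ Q) (hS : ∀ n, S (n + Q) ↔ S n) (n : ℕ) :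
    (#((Icc 1 (Q * n)).filter S) : ℝ) = dens S Q * (Q * n : ℕ) := by
  have hQr : (Q : ℝ) ≠ 0 := by
    have : (0 : ℝ) < Q := by exact_mod_cast hQ
    exact this.ne'
  induction n with
  | zero => simp
  | succ n ih =>
    rw [Nat.mul_succ, per_count hQ hS, Nat.cast_add, ih]
    unfold dens
    push_cast
    field_simp

open Classical in
lemma per_disc {S : ℕ → Prop} {Q : ℕ} (hQ : 1 ≤ Q) (hS : ∀ n, S (n + Q) ↔ S n) (n : ℕ) :
    |(#((Icc 1 n).filter S) : ℝ) - dens S Q * n| ≤ min (n : ℝ) Q := by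
  have h1 : ∀ n : ℕ, |(#((Icc 1 n).filter S) : ℝ) - dens S Q * n| ≤ n := by
    intro n
    have h2 : (#((Icc 1 n).filter S) : ℝ) ≤ n := by
      have : #((Icc 1 n).filter S) ≤ n := by
        refine (card_filter_le _ _).trans ?_
        simp
      exact_mod_cast this
    have h3 : (0 : ℝ) ≤ #((Icc 1 n).filter S) := by positivity
    have h4 := dens_nonneg S Q
    have h5 := dens_le S hQ
    have h6 : dens S Q * n ≤ n := mul_le_of_le_one_left (by positivity) h5
    have h7 : 0 ≤ dens S Q * n := by positivity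
    rw [abs_le]
    constructor <;> linarith
  refine le_min (h1 n) ?_
  induction n using Nat.strong_induction_on with
  | _ n ih =>
    rcases Nat.lt_or_ge n Q with h | h
    · exact (h1 n).trans (by exact_mod_cast h.le)
    · have h2 := ih (n - Q) (by omega)
      obtain ⟨a, rfl⟩ : ∃ a, n = a + Q := ⟨n - Q, by omega⟩
      rw [Nat.add_sub_cancel] at h2
      rw [per_count hQ hS]
      have hQr : (Q : ℝ) ≠ 0 := by
        have : (0 : ℝ) < Q := by exact_mod_cast hQ
        exact this.ne'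
      have e : ((#((Icc 1 a).filter S) + #((Icc 1 Q).filter S) : ℕ) : ℝ) - dens S Q * (a + Q : ℕ) =
          (#((Icc 1 a).filter S) : ℝ) - dens S Q * a := by
        unfold dens
        push_cast
        field_simp
        ring
      rw [e]
      exact h2

open Classical in
/-- weighted sums over periodic sets -/
lemma per_sum {u : ℕ → ℝ} (hu : Antitone u) (hu0 : ∀ n, 0 ≤ u n) {S : ℕ → Prop} {Q : ℕ} (hQ : 1 ≤ Q)
    (hS : ∀ n, S (n + Q) ↔ S n) (Y : ℕ) :
    |∑ m ∈ (Icc 1 Y).filter S, u m - dens S Q * ∑ m ∈ Icc 1 Y, u m| ≤ ∑ m ∈ Icc 1 Q, u m := by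
  have h := abel_bound hu hu0 (e := fun m => (if S m then (1 : ℝ) else 0) - dens S Q) (Q := Q) (fun n => by
    rw [sum_sub_distrib, sum_boole, sum_const, nsmul_eq_mul, Nat.card_Icc, Nat.add_sub_cancel, mul_comm]
    exact per_disc hQ hS n) Y
  have e : ∑ m ∈ Icc 1 Y, ((if S m then (1 : ℝ) else 0) - dens S Q) * u m =
      ∑ m ∈ (Icc 1 Y).filter S, u m - dens S Q * ∑ m ∈ Icc 1 Y, u m := by
    rw [sum_filter, mul_sum, ← sum_sub_distrib]
    refine sum_congr rfl fun m _ => ?_
    split_ifs <;> ring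
  rwa [e] at h

open Classical in
lemma per_tendsto {S : ℕ → Prop} {Q : ℕ} (hQ : 1 ≤ Q) (hS : ∀ n, S (n + Q) ↔ S n) :
    Tendsto (fun n : ℕ => (#((Icc 1 n).filter S) : ℝ) / n) atTop (𝓝 (dens S Q)) := by
  rw [tendsto_iff_dist_tendsto_zero]
  refine squeeze_zero' (Eventually.of_forall fun n => dist_nonneg) ?_
    ((tendsto_const_nhds (x := (Q : ℝ))).div_atTop (tendsto_natCast_atTop_atTop (R := ℝ)))
  filter_upwards [eventually_ge_atTop 1] with n hn
  have hn0 : (0 : ℝ) < n := by exact_mod_cast hn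
  rw [Real.dist_eq]
  have e : (#((Icc 1 n).filter S) : ℝ) / n - dens S Q = ((#((Icc 1 n).filter S) : ℝ) - dens S Q * n) / n := by
    field_simp
  rw [e, abs_div, abs_of_pos hn0]
  exact div_le_div_of_nonneg_right ((per_disc hQ hS n).trans (min_le_right _ _)) hn0.le

/-- the index of the block of `n` -/
lemma exists_idx {ns : ℕ → ℕ} (hs : StrictMono ns) :
    ∃ kk : ℕ → ℕ, Tendsto kk atTop atTop ∧ ∀ n, ns 0 ≤ n → ns (kk n) ≤ n ∧ n < ns (kk n + 1) := by
  refine ⟨fun n => Nat.findGreatest (fun k => ns k ≤ n) n, ?_, fun n hn => ⟨?_, ?_⟩⟩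
  · refine tendsto_atTop.2 fun b => ?_
    filter_upwards [eventually_ge_atTop (max b (ns b))] with n hn
    exact Nat.le_findGreatest ((le_max_left _ _).trans hn) ((le_max_right _ _).trans hn)
  · exact Nat.findGreatest_spec (P := fun k => ns k ≤ n) (Nat.zero_le n) hn
  · by_contra h
    rw [not_lt] at h
    have h1 : Nat.findGreatest (fun k => ns k ≤ n) n + 1 ≤ n := (hs.id_le _).trans h
    have h2 := Nat.le_findGreatest (P := fun k => ns k ≤ n) h1 h
    omega

/-- interpolation for a quotient of monotone functions -/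
lemma interp_mono {ns : ℕ → ℕ} (hs : StrictMono ns) {f g : ℕ → ℝ} (hf : Monotone f) (hf0 : ∀ n, 0 ≤ f n)
    (hg : Monotone g) (hg0 : ∀ᶠ n in atTop, 0 < g n)
    (hgr : Tendsto (fun k => g (ns (k + 1)) / g (ns k)) atTop (𝓝 1)) {L : ℝ}
    (hL : Tendsto (fun k => f (ns k) / g (ns k)) atTop (𝓝 L)) :
    Tendsto (fun n => f n / g n) atTop (𝓝 L) := by
  obtain ⟨kk, hkk, hb⟩ := exists_idx hs
  have hns : Tendsto ns atTop atTop := hs.tendsto_atTop
  have hU : Tendsto (fun k => f (ns (k + 1)) / g (ns (k + 1)) * (g (ns (k + 1)) / g (ns k))) atTop (𝓝 L) := by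
    have := (hL.comp (tendsto_add_atTop_nat 1)).mul hgr
    rwa [mul_one] at this
  have hD : Tendsto (fun k => f (ns k) / g (ns k) * (g (ns (k + 1)) / g (ns k))⁻¹) atTop (𝓝 L) := by
    have := hL.mul (hgr.inv₀ one_ne_zero)
    rwa [inv_one, mul_one] at this
  have hpos := hns.eventually hg0
  refine tendsto_of_tendsto_of_tendsto_of_le_of_le' (hD.comp hkk) (hU.comp hkk) ?_ ?_
  · filter_upwards [eventually_ge_atTop (ns 0), hg0, hkk.eventually hpos,
      (hkk.eventually ((tendsto_add_atTop_nat 1).eventually hpos))] with n hn h1 h2 h3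
    obtain ⟨h4, h5⟩ := hb n hn
    simp only [Function.comp]
    have e : f (ns (kk n)) / g (ns (kk n)) * (g (ns (kk n + 1)) / g (ns (kk n)))⁻¹ =
        f (ns (kk n)) / g (ns (kk n + 1)) := by
      field_simp
    rw [e]
    exact div_le_div₀ (hf0 _) (hf h4) h1 (hg h5.le)
  · filter_upwards [eventually_ge_atTop (ns 0), hg0, hkk.eventually hpos,
      (hkk.eventually ((tendsto_add_atTop_nat 1).eventually hpos))] with n hn h1 h2 h3
    obtain ⟨h4, h5⟩ := hb n hn
    simp only [Function.comp]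
    have e : f (ns (kk n + 1)) / g (ns (kk n + 1)) * (g (ns (kk n + 1)) / g (ns (kk n))) =
        f (ns (kk n + 1)) / g (ns (kk n)) := by
      field_simp
    rw [e]
    exact div_le_div₀ (hf0 _) (hf h5.le) h2 (hg h4)

/-- interpolation for a quotient of antitone functions -/
lemma interp_anti {ns : ℕ → ℕ} (hs : StrictMono ns) {f g : ℕ → ℝ} (hf : Antitone f) (hf0 : ∀ n, 0 ≤ f n)
    (hg : Antitone g) (hg0 : ∀ n, 0 < g n)
    (hgr : Tendsto (fun k => g (ns (k + 1)) / g (ns k)) atTop (𝓝 1)) {L : ℝ}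
    (hL : Tendsto (fun k => f (ns k) / g (ns k)) atTop (𝓝 L)) :
    Tendsto (fun n => f n / g n) atTop (𝓝 L) := by
  obtain ⟨kk, hkk, hb⟩ := exists_idx hs
  have hU : Tendsto (fun k => f (ns k) / g (ns k) * (g (ns (k + 1)) / g (ns k))⁻¹) atTop (𝓝 L) := by
    have := hL.mul (hgr.inv₀ one_ne_zero)
    rwa [inv_one, mul_one] at this
  have hD : Tendsto (fun k => f (ns (k + 1)) / g (ns (k + 1)) * (g (ns (k + 1)) / g (ns k))) atTop (𝓝 L) := by
    have := (hL.comp (tendsto_add_atTop_nat 1)).mul hgr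
    rwa [mul_one] at this
  refine tendsto_of_tendsto_of_tendsto_of_le_of_le' (hD.comp hkk) (hU.comp hkk) ?_ ?_
  · filter_upwards [eventually_ge_atTop (ns 0)] with n hn
    obtain ⟨h4, h5⟩ := hb n hn
    simp only [Function.comp]
    have e : f (ns (kk n + 1)) / g (ns (kk n + 1)) * (g (ns (kk n + 1)) / g (ns (kk n))) =
        f (ns (kk n + 1)) / g (ns (kk n)) := by
      have := hg0 (ns (kk n + 1))
      have := hg0 (ns (kk n))
      field_simp
    rw [e]
    exact div_le_div₀ (hf0 _) (hf h5.le) (hg0 _) (hg h4)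
  · filter_upwards [eventually_ge_atTop (ns 0)] with n hn
    obtain ⟨h4, h5⟩ := hb n hn
    simp only [Function.comp]
    have e : f (ns (kk n)) / g (ns (kk n)) * (g (ns (kk n + 1)) / g (ns (kk n)))⁻¹ =
        f (ns (kk n)) / g (ns (kk n + 1)) := by
      have := hg0 (ns (kk n + 1))
      have := hg0 (ns (kk n))
      field_simp
    rw [e]
    exact div_le_div₀ (hf0 _) (hf h4) (hg0 _) (hg h5.le)

end Pool.Agent.L5helper2.RS
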