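import Pool.Agent.L5helper2.RS.E1
import Pool.Agent.L5helper2.RS.E2
import Pool.Agent.H305R2.MertensE

/-! Project RS (helper2): the products of Mertens, the periods, Borel-Cantelli. -/

set_option autoImplicit false

namespace Pool.Agent.L5helper2.RS

open Finset MeasureTheory ProbabilityTheory Filter Topology

/-- `∏_{p ≤ n} (1 - 1/p)` -/
noncomputable def Vp (n : ℕ) : ℝ := Vs (pp (k := 1)) (Jx 1 0 n)

lemma Vp_eq (n : ℕ) : Vp n = ∏ p ∈ (Icc 1 n).filter Nat.Prime, (1 - 1 / (p : ℝ)) := by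
  unfold Vp Vs
  rw [prod_Jx (fun n => (1 - 1 / (n : ℝ))), pow_one]
  rfl

lemma Vp_pos (n : ℕ) : 0 < Vp n := Vs_pos pp_two _

lemma Vp_le (n : ℕ) : Vp n ≤ 1 := Vs_le pp_two _

lemma Jx_mono {a b : ℕ} (h : a ≤ b) (w : ℕ) : Jx 1 w a ⊆ Jx 1 w b := by
  intro j hj
  rw [mem_Jx] at hj ⊢
  exact ⟨hj.1, hj.2.trans h⟩

lemma Vp_anti : Antitone Vp := fun _ _ h => Vs_anti pp_two (Jx_mono h 0)

lemma Jx_disj (w z : ℕ) : Disjoint (Jx 1 0 w) (Jx 1 w z) := by
  rw [Finset.disjoint_left]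
  intro j h1 h2
  rw [mem_Jx] at h1 h2
  omega

lemma Jx_union [DecidableEq (Ix 1)] (w z : ℕ) : Jx 1 0 w ∪ Jx 1 w z = Jx 1 0 (max w z) := by
  ext j
  rw [mem_union, mem_Jx, mem_Jx, mem_Jx]
  have := pp_two j
  omega

lemma Jx_empty {w z : ℕ} (h : z ≤ w) : Jx 1 w z = ∅ := by
  ext j
  rw [mem_Jx]
  constructor
  · rintro ⟨h1, h2⟩
    omega
  · intro h'
    simp at h'

lemma Vp_split (w z : ℕ) : Vp (max w z) = Vp w * Vs pp (Jx 1 w z) := by
  classical
  unfold Vp Vs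
  rw [← Jx_union, prod_union (Jx_disj w z)]

/-- comparison of the weights -/
lemma u_bounds (w z : ℕ) : Vp w * Vs pp (Jx 1 w z) ≤ Vp z ∧
    Vp z - (if z < w then 1 else 0) ≤ Vp w * Vs pp (Jx 1 w z) := by
  rw [← Vp_split]
  refine ⟨Vp_anti (le_max_right _ _), ?_⟩
  split_ifs with h
  · have := Vp_le z
    have := Vp_pos (max w z)
    linarith
  · rw [max_eq_right (by omega)]
    linarith

/-- Mertens' third theorem -/
lemma Vp_mertens : Tendsto (fun n : ℕ => Vp n * Real.log n) atTop (𝓝 (Real.exp (-Real.eulerMascheroniConstant))) := by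
  have h := H305R2.mertens_three.inv₀ (Real.exp_pos _).ne'
  rw [← Real.exp_neg] at h
  refine h.congr fun n => ?_
  rw [inv_div, Vp_eq, div_eq_mul_inv, ← prod_inv_distrib, mul_comm]
  congr 1
  refine prod_congr rfl fun p _ => ?_
  rw [inv_inv, one_div]

lemma exists_per {v : ℕ → ℤ} {rk : ℕ → ℕ} {w1 : ℕ} {C : ℝ} (h : ExpData v rk w1 C) :
    ∃ Q : ℕ → ℕ, (∀ w, 1 ≤ Q w) ∧ (∀ w w', w ≤ w' → Q w ∣ Q w') ∧ (∀ w, Real.log (Q w) ≤ 4 * (w : ℝ) ^ 2) ∧
      ∀ w p : ℕ, p.Prime → p ≤ w → ∀ m, (p : ℤ) ∣ v (m + Q w) - v m := by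
  have hex : ∀ p : ℕ, ∃ t : ℕ, 1 ≤ t ∧ (p.Prime → t ≤ p ^ 4 ∧ ∀ m, (p : ℤ) ∣ v (m + t) - v m) := by
    intro p
    by_cases hp : p.Prime
    · obtain ⟨t, h1, h2, h3⟩ := h.per p hp
      exact ⟨t, h1, fun _ => ⟨h2, h3⟩⟩
    · exact ⟨1, le_rfl, fun h' => absurd h' hp⟩
  choose tp htp1 htp2 using hex
  refine ⟨fun w => ∏ p ∈ (Icc 1 w).filter Nat.Prime, tp p, ?_, ?_, ?_, ?_⟩
  · intro w
    exact Nat.one_le_iff_ne_zero.2 (prod_ne_zero_iff.2 fun p _ => by have := htp1 p; omega)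
  · intro w w' hw
    refine prod_dvd_prod_of_subset _ _ _ fun p hp => ?_
    rw [mem_filter, mem_Icc] at hp ⊢
    exact ⟨⟨hp.1.1, hp.1.2.trans hw⟩, hp.2⟩
  · intro w
    rcases Nat.eq_zero_or_pos w with h0 | h0
    · simp [h0]
    have hw : (1 : ℝ) ≤ w := by exact_mod_cast h0
    have h1 : ∏ p ∈ (Icc 1 w).filter Nat.Prime, tp p ≤ (w ^ 4) ^ w := by
      calc ∏ p ∈ (Icc 1 w).filter Nat.Prime, tp p ≤ ∏ p ∈ (Icc 1 w).filter Nat.Prime, w ^ 4 := by
            refine prod_le_prod' fun p hp => ?_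
            rw [mem_filter, mem_Icc] at hp
            exact (htp2 p hp.2).1.trans (Nat.pow_le_pow_left hp.1.2 4)
        _ = (w ^ 4) ^ #((Icc 1 w).filter Nat.Prime) := by rw [prod_const]
        _ ≤ (w ^ 4) ^ w := by
            refine Nat.pow_le_pow_right (Nat.pow_pos h0) ?_
            refine (card_filter_le _ _).trans ?_
            simp
    have h2 : ((∏ p ∈ (Icc 1 w).filter Nat.Prime, tp p : ℕ) : ℝ) ≤ (w : ℝ) ^ (4 * w) := by
      have : ((∏ p ∈ (Icc 1 w).filter Nat.Prime, tp p : ℕ) : ℝ) ≤ (((w ^ 4) ^ w : ℕ) : ℝ) := by exact_mod_cast h1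
      refine this.trans (le_of_eq ?_)
      push_cast
      rw [← pow_mul]
    have h3 : (0 : ℝ) < ((∏ p ∈ (Icc 1 w).filter Nat.Prime, tp p : ℕ) : ℝ) := by
      have : 0 < ∏ p ∈ (Icc 1 w).filter Nat.Prime, tp p :=
        Nat.pos_of_ne_zero (prod_ne_zero_iff.2 fun p _ => by have := htp1 p; omega)
      exact_mod_cast this
    have h4 := Real.log_le_log h3 h2
    rw [Real.log_pow] at h4
    have h5 : Real.log w ≤ w := (Real.log_le_sub_one_of_pos (by linarith)).trans (by linarith)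
    refine h4.trans ?_
    push_cast
    nlinarith
  · intro w p hp hpw m
    have hd : tp p ∣ ∏ p ∈ (Icc 1 w).filter Nat.Prime, tp p :=
      dvd_prod_of_mem _ (by rw [mem_filter, mem_Icc]; exact ⟨⟨hp.pos, hpw⟩, hp⟩)
    obtain ⟨k, hk⟩ := hd
    simp only
    rw [hk]
    clear hk
    induction k with
    | zero => simp
    | succ k ih =>
      have h1 := (htp2 p hp).2 (m + tp p * k)
      have e : v (m + tp p * (k + 1)) - v m = (v (m + tp p * k + tp p) - v (m + tp p * k)) +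
          (v (m + tp p * k) - v m) := by
        rw [Nat.mul_succ, ← Nat.add_assoc]
        ring
      rw [e]
      exact dvd_add h1 ih

variable {Ω : Type} [MeasurableSpace Ω] {P : Measure Ω}

/-- the lemma of Borel and Cantelli -/
lemma bc [IsProbabilityMeasure P] {F : ℕ → Set Ω} {C : ℝ}
    (h : ∀ᶠ k : ℕ in atTop, P.real (F k) ≤ C / ((k : ℝ) + 1) ^ 2) : ∀ᵐ ω ∂P, ∀ᶠ k in atTop, ω ∉ F k := by
  classical
  obtain ⟨k0, hk0⟩ := eventually_atTop.1 h
  have hC0 : 0 ≤ C := by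
    have h1 := hk0 k0 le_rfl
    have h2 : 0 ≤ C / ((k0 : ℝ) + 1) ^ 2 := measureReal_nonneg.trans h1
    by_contra hC
    have : C / ((k0 : ℝ) + 1) ^ 2 < 0 := div_neg_of_neg_of_pos (not_le.1 hC) (by positivity)
    linarith
  have hs : Summable (fun k : ℕ => C / ((k : ℝ) + 1) ^ 2) := by
    have h1 : Summable (fun k : ℕ => 1 / ((k : ℝ)) ^ 2) := Real.summable_one_div_nat_pow.2 (by norm_num)
    have h2 := (summable_nat_add_iff 1).2 h1
    refine (h2.mul_left C).congr fun k => ?_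
    push_cast
    ring
  have h1 : (∑' k, P (if k0 ≤ k then F k else ∅)) ≠ ⊤ := by
    have h2 : ∀ k, P (if k0 ≤ k then F k else ∅) ≤ ENNReal.ofReal (C / ((k : ℝ) + 1) ^ 2) := by
      intro k
      split_ifs with hk
      · rw [← ENNReal.ofReal_toReal (measure_ne_top P (F k))]
        exact ENNReal.ofReal_le_ofReal (hk0 k hk)
      · simp
    refine ne_top_of_le_ne_top ?_ (ENNReal.tsum_le_tsum h2)
    rw [← ENNReal.ofReal_tsum_of_nonneg (fun k => by positivity) hs]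
    exact ENNReal.ofReal_ne_top
  have h3 := ae_eventually_notMem h1
  filter_upwards [h3] with ω hω
  filter_upwards [hω, eventually_ge_atTop k0] with k hk hk'
  rwa [if_pos hk'] at hk

end Pool.Agent.L5helper2.RS
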