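import Pool.Agent.L5helper2.RS.S7

/-! Project RS (helper2): the convergence of the singular series. -/

set_option autoImplicit false

namespace Pool.Agent.L5helper2.RS

open Finset Polynomial MeasureTheory ProbabilityTheory Filter Topology

/-- the levels -/
def lv (M j : ℕ) : ℕ := (j + 1) ^ M

lemma lv_mono {M : ℕ} (hM : 1 ≤ M) : StrictMono (lv M) := by
  intro a b h
  exact Nat.pow_lt_pow_left (by omega) (by omega)

lemma lv_pos (M j : ℕ) : 0 < lv M j := Nat.pow_pos (by omega)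

lemma log_lv (M j : ℕ) : Real.log (lv M j : ℕ) = M * Real.log ((j : ℝ) + 1) := by
  unfold lv
  push_cast
  rw [Real.log_pow]

lemma log_ratio : Tendsto (fun k : ℕ => Real.log ((k : ℝ) + 1) / Real.log ((k : ℝ) + 2)) atTop (𝓝 1) := by
  have h5 : Tendsto (fun k : ℕ => 1 - 1 / Real.log ((k : ℝ) + 2)) atTop (𝓝 1) := by
    have h6 : Tendsto (fun k : ℕ => Real.log ((k : ℝ) + 2)) atTop atTop :=
      Real.tendsto_log_atTop.comp (tendsto_atTop_add_const_right _ _ tendsto_natCast_atTop_atTop)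
    have := (tendsto_const_nhds (x := (1 : ℝ))).div_atTop h6
    simpa using this.const_sub 1
  refine tendsto_of_tendsto_of_tendsto_of_le_of_le' h5 tendsto_const_nhds ?_ ?_
  · filter_upwards [eventually_ge_atTop 1] with k hk
    have hk0 : (1 : ℝ) ≤ k := by exact_mod_cast hk
    have hl2 : 0 < Real.log ((k : ℝ) + 2) := Real.log_pos (by linarith)
    have hl : Real.log ((k : ℝ) + 2) ≤ Real.log ((k : ℝ) + 1) + 1 := by
      have h7 : Real.log (((k : ℝ) + 2) / ((k : ℝ) + 1)) ≤ ((k : ℝ) + 2) / ((k : ℝ) + 1) - 1 :=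
        Real.log_le_sub_one_of_pos (by positivity)
      rw [Real.log_div (by positivity) (by positivity)] at h7
      have h8 : ((k : ℝ) + 2) / ((k : ℝ) + 1) ≤ 2 := by
        rw [div_le_iff₀ (by linarith)]
        linarith
      linarith
    rw [le_div_iff₀ hl2, sub_mul, one_mul, div_mul_cancel₀ _ hl2.ne']
    linarith
  · filter_upwards [eventually_ge_atTop 1] with k hk
    have hk0 : (1 : ℝ) ≤ k := by exact_mod_cast hk
    have hl2 : 0 < Real.log ((k : ℝ) + 2) := Real.log_pos (by linarith)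
    rw [div_le_one hl2]
    exact Real.log_le_log (by linarith) (by linarith)

/-- the ratio of consecutive products -/
lemma Vp_ratio_lv {M : ℕ} (hM : 1 ≤ M) : Tendsto (fun j => Vp (lv M (j + 1)) / Vp (lv M j)) atTop (𝓝 1) := by
  obtain ⟨c, hc⟩ : ∃ c : ℝ, c = Real.exp (-Real.eulerMascheroniConstant) := ⟨_, rfl⟩
  have hc0 : 0 < c := by rw [hc]; exact Real.exp_pos _
  have h := Vp_mertens
  rw [← hc] at h
  have h1 := h.comp (lv_mono hM).tendsto_atTop
  have h2 := h1.comp (tendsto_add_atTop_nat 1)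
  have h3 := h2.div h1 hc0.ne'
  rw [div_self hc0.ne'] at h3
  have h5 := h3.mul log_ratio
  rw [mul_one] at h5
  refine h5.congr' ?_
  filter_upwards [eventually_ge_atTop 1] with k hk
  have hk0 : (1 : ℝ) ≤ k := by exact_mod_cast hk
  have hM0 : (0 : ℝ) < M := by exact_mod_cast hM
  have e1 := log_lv M k
  have e2 := log_lv M (k + 1)
  have e3 : ((k + 1 : ℕ) : ℝ) + 1 = (k : ℝ) + 2 := by push_cast; ring
  rw [e3] at e2
  have hl1 : 0 < Real.log ((k : ℝ) + 1) := Real.log_pos (by linarith)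
  have hl2 : 0 < Real.log ((k : ℝ) + 2) := Real.log_pos (by linarith)
  have hV := Vp_pos (lv M k)
  simp only [Function.comp, Pi.div_apply, e1, e2]
  field_simp

variable {k : ℕ} {Ω : Type} [MeasurableSpace Ω] {P : Measure Ω} {X : Ix k → Ω → ℕ}

open Classical in
lemma Jx_split {m w z : ℕ} (h1 : m ≤ w) (h2 : w ≤ z) : Jx k m z = Jx k m w ∪ Jx k w z := by
  ext j
  rw [mem_union, mem_Jx, mem_Jx, mem_Jx]
  omega

lemma TT_split (f : Fin k → ℤ[X]) {m w z : ℕ} (h1 : m ≤ w) (h2 : w ≤ z) (ω : Ω) :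
    TT f X (Jx k m z) ω = TT f X (Jx k m w) ω * TT f X (Jx k w z) ω := by
  classical
  rw [Jx_split h1 h2]
  refine TT_mul f (fun i hi j hj => ?_) ω
  rw [mem_Jx] at hi hj
  omega

lemma Vs_Vp (n : ℕ) : Vs pp (Jx k 0 n) = Vp n ^ k := by
  unfold Vp Vs
  rw [prod_Jx (fun n => (1 - 1 / (n : ℝ))), prod_Jx (fun n => (1 - 1 / (n : ℝ))), pow_one]

lemma Vs_split (m n : ℕ) (h : m ≤ n) : Vs pp (Jx k m n) = Vp n ^ k / Vp m ^ k := by
  classical
  have h1 : Vs pp (Jx k 0 n) = Vs pp (Jx k 0 m) * Vs pp (Jx k m n) := by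
    rw [Jx_split (Nat.zero_le m) h, Vs_mul (Jx_disj' m n)]
  rw [Vs_Vp, Vs_Vp] at h1
  have := Vp_pos m
  rw [h1]
  field_simp

/-- the inequality of Chebyshev for the normalised density -/
lemma TT_cheb (h : RSys P (pp (k := k)) X) (f : Fin k → ℤ[X]) (s : Finset (Ix k)) {δ B : ℝ} (hδ : 0 < δ)
    (hB : ∫ ω, (TT f X s ω - 1) ^ 2 ∂P ≤ B) : P.real {ω | δ ≤ |TT f X s ω - 1|} ≤ B / δ ^ 2 := by
  have hP := h.prob
  have hd : DepOn X s (fun ω => (TT f X s ω - 1) ^ 2) := fun ω ω' h' => by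
    simp only
    rw [TT_dep f s ω ω' h']
  have hV := Vs_pos (pp_two (k := k)) s
  have iF : Integrable (fun ω => (TT f X s ω - 1) ^ 2) P := by
    refine bdd_int h hd (B := (1 / Vs pp s + 1) ^ 2) fun ω => ?_
    rw [abs_pow]
    refine pow_le_pow_left₀ (abs_nonneg _) ?_ 2
    have h1 := TT_nonneg f (X := X) s ω
    have h2 := TT_le f (X := X) s ω
    have h3 : 0 < 1 / Vs pp s := by positivity
    rw [abs_le]
    constructor <;> linarith
  have hm := mul_meas_ge_le_integral_of_nonneg (μ := P) (f := fun ω => (TT f X s ω - 1) ^ 2)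
    (Filter.Eventually.of_forall fun ω => sq_nonneg _) iF (δ ^ 2)
  have hset : {ω | δ ≤ |TT f X s ω - 1|} = {ω | δ ^ 2 ≤ (TT f X s ω - 1) ^ 2} := by
    ext ω
    simp only [Set.mem_ofPred_eq]
    rw [← sq_abs (TT f X s ω - 1)]
    constructor
    · intro h1
      exact pow_le_pow_left₀ hδ.le h1 2
    · intro h1
      exact (pow_le_pow_iff_left₀ hδ.le (abs_nonneg _) (by norm_num)).1 h1
  rw [hset, le_div_iff₀ (by positivity), mul_comm]
  exact hm.trans hB

/-- the tails of the singular series tend to one -/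
lemma TT_tail (h : RSys P (pp (k := k)) X) (hk : 1 ≤ k) {f : Fin k → ℤ[X]} (hf : ∀ i, 1 ≤ (f i).natDegree)
    {t : ℕ → Finset (Ix k)} (ht : ∀ n, ∀ j ∈ t n, lv (16 * k) n ≤ pp j) :
    ∀ᵐ ω ∂P, ∀ᶠ n : ℕ in atTop, |TT f X (t n) ω - 1| < 1 / ((n : ℝ) + 1) ^ 2 := by
  have hP := h.prob
  have hk0 : (0 : ℝ) < k := by exact_mod_cast hk
  obtain ⟨C, hC, hv⟩ := TT_var h hk hf
  have hF : ∀ n : ℕ, P.real {ω | 1 / ((n : ℝ) + 1) ^ 2 ≤ |TT f X (t n) ω - 1|} ≤ C / ((n : ℝ) + 1) ^ 2 := by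
    intro n
    have hn0 : (0 : ℝ) < (n : ℝ) + 1 := by positivity
    have h1 := hv (lv (16 * k) n) (lv_pos _ _) (t n) (ht n)
    have h2 := TT_cheb h f (t n) (show 0 < 1 / ((n : ℝ) + 1) ^ 2 by positivity) h1
    refine h2.trans ?_
    have e : ((lv (16 * k) n : ℕ) : ℝ) ^ (-(1 / (2 * k)) : ℝ) = (((n : ℝ) + 1) ^ 8)⁻¹ := by
      unfold lv
      push_cast
      rw [← Real.rpow_natCast, ← Real.rpow_mul hn0.le, ← Real.rpow_natCast, ← Real.rpow_neg hn0.le]
      congr 1
      push_cast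
      field_simp
      norm_num
    rw [e, div_le_div_iff₀ (by positivity) (by positivity)]
    have h3 : (1 : ℝ) ≤ (n : ℝ) + 1 := by
      have : (0 : ℝ) ≤ n := by positivity
      linarith
    have h4 : ((n : ℝ) + 1) ^ 2 ≤ ((n : ℝ) + 1) ^ 4 := pow_le_pow_right₀ h3 (by norm_num)
    calc C * (((n : ℝ) + 1) ^ 8)⁻¹ * ((n : ℝ) + 1) ^ 2 ≤ C * (((n : ℝ) + 1) ^ 8)⁻¹ * ((n : ℝ) + 1) ^ 4 :=
          mul_le_mul_of_nonneg_left h4 (by positivity)
      _ = C * (1 / ((n : ℝ) + 1) ^ 2) ^ 2 := by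
          field_simp
  have h1 := bc (Eventually.of_forall hF)
  filter_upwards [h1] with ω hω
  filter_upwards [hω] with n hn
  simpa only [Set.mem_ofPred_eq, not_le] using hn

/-- a product of factors close to one -/
lemma prod_conv {g : ℕ → ℝ} (hg : ∀ n, |g n - 1| ≤ 1 / ((n : ℝ) + 2) ^ 2) :
    ∃ T : ℝ, 0 < T ∧ Tendsto (fun n => ∏ i ∈ range n, g i) atTop (𝓝 T) := by
  have h1 : ∀ n, 0 < g n ∧ |Real.log (g n)| ≤ 2 * (1 / ((n : ℝ) + 1) ^ 2) := by
    intro n
    have h2 := hg n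
    have hn : (0 : ℝ) ≤ n := by positivity
    have h3 : 1 / ((n : ℝ) + 2) ^ 2 ≤ 1 / 2 := by
      refine one_div_le_one_div_of_le (by norm_num) ?_
      nlinarith
    have h4 : 1 / ((n : ℝ) + 2) ^ 2 ≤ 1 / ((n : ℝ) + 1) ^ 2 := by
      refine one_div_le_one_div_of_le (by positivity) ?_
      nlinarith
    obtain ⟨δ, hδ⟩ : ∃ δ, δ = g n - 1 := ⟨_, rfl⟩
    have e : g n = 1 + δ := by rw [hδ]; ring
    rw [← hδ] at h2
    have h5 := abs_le.1 (h2.trans h3)
    have h6 : 0 < g n := by rw [e]; linarith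
    refine ⟨h6, ?_⟩
    have h7 := Real.log_le_sub_one_of_pos h6
    have h8 := Real.one_sub_inv_le_log_of_pos h6
    have h9 : 1 - (g n)⁻¹ = δ / (1 + δ) := by
      rw [e]
      have : 1 + δ ≠ 0 := by linarith
      field_simp
      ring
    have h10 : |δ / (1 + δ)| ≤ 2 * |δ| := by
      rw [abs_div, abs_of_pos (by linarith : 0 < 1 + δ), div_le_iff₀ (by linarith)]
      have := abs_nonneg δ
      nlinarith
    have h11 := neg_abs_le (δ / (1 + δ))
    have h12 := le_abs_self δ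
    have h13 := abs_nonneg δ
    rw [abs_le]
    constructor
    · rw [h9] at h8
      linarith
    · rw [e] at h7 ⊢
      linarith
  have hs : Summable (fun n : ℕ => 2 * (1 / ((n : ℝ) + 1) ^ 2)) := by
    have h1 : Summable (fun k : ℕ => 1 / ((k : ℝ)) ^ 2) := Real.summable_one_div_nat_pow.2 (by norm_num)
    have h2 := (summable_nat_add_iff 1).2 h1
    refine (h2.mul_left 2).congr fun k => ?_
    push_cast
    ring
  have hs2 : Summable (fun n => Real.log (g n)) :=
    Summable.of_norm_bounded hs fun n => by rw [Real.norm_eq_abs]; exact (h1 n).2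
  refine ⟨Real.exp (∑' n, Real.log (g n)), Real.exp_pos _, ?_⟩
  have h2 := (Real.continuous_exp.tendsto _).comp hs2.hasSum.tendsto_sum_nat
  refine h2.congr fun n => ?_
  simp only [Function.comp]
  rw [Real.exp_sum]
  exact prod_congr rfl fun i _ => Real.exp_log (h1 i).1

/-- the singular series converges, and its tail is positive -/
theorem sing_one (h : RSys P (pp (k := k)) X) (hk : 1 ≤ k) {f : Fin k → ℤ[X]} (hf : ∀ i, 1 ≤ (f i).natDegree) :
    ∀ᵐ ω ∂P, ∃ (m : ℕ) (T : ℝ), 0 < T ∧ Tendsto (fun n => TT f X (Jx k m n) ω) atTop (𝓝 T) := by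
  have hM : 1 ≤ 16 * k := by omega
  have hmono := lv_mono hM
  have h1 := TT_tail h hk hf (t := fun n => Jx k (lv (16 * k) n) (lv (16 * k) (n + 1))) (fun n j hj => by
    rw [mem_Jx] at hj
    exact hj.1.le)
  filter_upwards [h1] with ω hω
  obtain ⟨J, hJ⟩ := eventually_atTop.1 hω
  obtain ⟨J0, hJ0⟩ : ∃ J0, J0 = J + 1 := ⟨_, rfl⟩
  obtain ⟨g, hg⟩ : ∃ g : ℕ → ℝ, g = fun i : ℕ => TT f X (Jx k (lv (16 * k) (J0 + i)) (lv (16 * k) (J0 + i + 1))) ω :=
    ⟨_, rfl⟩
  have hg1 : ∀ n, |g n - 1| ≤ 1 / ((n : ℝ) + 2) ^ 2 := by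
    intro n
    have h2 := hJ (J0 + n) (by omega)
    rw [hg]
    refine h2.le.trans ?_
    refine one_div_le_one_div_of_le (by positivity) ?_
    have h3 : (n : ℝ) + 2 ≤ ((J0 + n : ℕ) : ℝ) + 1 := by
      rw [hJ0]
      push_cast
      have : (0 : ℝ) ≤ J := by positivity
      linarith
    exact pow_le_pow_left₀ (by positivity) h3 2
  obtain ⟨T, hT, hlim⟩ := prod_conv hg1
  obtain ⟨m, hm⟩ : ∃ m, m = lv (16 * k) J0 := ⟨_, rfl⟩
  refine ⟨m, T, hT, ?_⟩
  have hprod : ∀ i, TT f X (Jx k m (lv (16 * k) (J0 + i))) ω = ∏ j ∈ range i, g j := by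
    intro i
    induction i with
    | zero =>
      rw [Nat.add_zero, ← hm, prod_range_zero]
      have : Jx k m m = ∅ := by
        ext j
        rw [mem_Jx]
        constructor
        · rintro ⟨h1, h2⟩
          omega
        · intro h'
          simp at h'
      rw [this]
      unfold TT Wd Vs
      have hD : Dt (∅ : Finset (Ix k)) = 1 := by
        unfold Dt
        simp
      rw [hD]
      have h3 : FF f X ∅ 0 ω = 1 := by
        unfold FF
        rw [Set.indicator_of_mem]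
        rw [av_iff]
        intro j hj
        simp at hj
      simp [h3]
    | succ i ih =>
      rw [prod_range_succ, ← ih, hg]
      rw [← Nat.add_assoc]
      refine TT_split f ?_ (hmono.monotone (by omega)) ω
      rw [hm]
      exact hmono.monotone (by omega)
  have hns : StrictMono (fun i : ℕ => lv (16 * k) (J0 + i)) := fun a b hab => hmono (by omega)
  refine interp_anti hns (f := fun n => Wd f X (Jx k m n) ω) (g := fun n => Vs pp (Jx k m n))
    (fun a b hab => Wd_anti f (Jx_mono' hab m) ω) (fun n => Wd_nonneg f _ ω)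
    (fun a b hab => Vs_anti pp_two (Jx_mono' hab m)) (fun n => Vs_pos pp_two _) ?_ ?_
  · have h2 := ((Vp_ratio_lv hM).comp (tendsto_add_atTop_nat J0)).pow k
    rw [one_pow] at h2
    refine h2.congr fun i => ?_
    simp only [Function.comp]
    have h3 : m ≤ lv (16 * k) (J0 + i) := by
      rw [hm]
      exact hmono.monotone (by omega)
    have h4 : m ≤ lv (16 * k) (J0 + (i + 1)) := by
      rw [hm]
      exact hmono.monotone (by omega)
    rw [Vs_split _ _ h3, Vs_split _ _ h4]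
    have h5 := Vp_pos m
    have h6 := Vp_pos (lv (16 * k) (J0 + i))
    have e1 : i + J0 + 1 = J0 + (i + 1) := by omega
    have e2 : i + J0 = J0 + i := by omega
    rw [e1, e2, div_pow]
    field_simp
  · refine hlim.congr fun i => ?_
    rw [← hprod i]
    rfl

end Pool.Agent.L5helper2.RS
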