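import Pool.Agent.L5helper2.RS.S9

/-! Project RS (helper2): the Bateman-Horn form. -/

set_option autoImplicit false

namespace Pool.Agent.L5helper2.RS

open Finset Polynomial MeasureTheory ProbabilityTheory Filter Topology

/-- the size of the values of a polynomial -/
lemma poly_size (g : ℤ[X]) (hg : 1 ≤ g.natDegree) : ∃ q : ℕ, 1 ≤ q ∧ ∀ᶠ m : ℕ in atTop,
    (m : ℝ) ^ g.natDegree ≤ (q : ℝ) ^ 2 * |((g.eval (m : ℤ) : ℤ) : ℝ)| ∧
      |((g.eval (m : ℤ) : ℤ) : ℝ)| ≤ (q : ℝ) ^ 2 * (m : ℝ) ^ g.natDegree := by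
  obtain ⟨Q, hQ⟩ : ∃ Q : ℝ[X], Q = g.map (Int.castRingHom ℝ) := ⟨_, rfl⟩
  have hd : Q.natDegree = g.natDegree := by
    rw [hQ]
    exact natDegree_map_eq_of_injective (RingHom.injective_int _) g
  have hg0 : g ≠ 0 := by
    rintro rfl
    simp at hg
  have hQ0 : Q ≠ 0 := by
    rw [hQ]
    exact (Polynomial.map_ne_zero_iff (RingHom.injective_int _)).2 hg0
  have hlc : Q.leadingCoeff ≠ 0 := leadingCoeff_ne_zero.2 hQ0
  have hev : ∀ m : ℕ, Q.eval (m : ℝ) = ((g.eval (m : ℤ) : ℤ) : ℝ) := by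
    intro m
    have h1 : ((m : ℤ) : ℝ) = (m : ℝ) := by push_cast; rfl
    rw [hQ, ← h1, eval_intCast_map]
    simp
  have h1 := Q.isEquivalent_atTop_lead
  obtain ⟨c1, hc1⟩ := h1.isBigO.bound
  obtain ⟨c2, hc2⟩ := h1.isBigO_symm.bound
  obtain ⟨q, hq⟩ := exists_nat_ge (max 1 (max (c1 * |Q.leadingCoeff|) (c2 / |Q.leadingCoeff|)))
  have hl : 0 < |Q.leadingCoeff| := abs_pos.2 hlc
  have hq1 : (1 : ℝ) ≤ q := (le_max_left _ _).trans hq
  have hqq : (q : ℝ) ≤ (q : ℝ) ^ 2 := by nlinarith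
  have h2 : c1 * |Q.leadingCoeff| ≤ (q : ℝ) ^ 2 :=
    ((le_max_left _ _).trans ((le_max_right _ _).trans hq)).trans hqq
  have h3 : c2 / |Q.leadingCoeff| ≤ (q : ℝ) ^ 2 :=
    ((le_max_right _ _).trans ((le_max_right _ _).trans hq)).trans hqq
  refine ⟨q, by exact_mod_cast hq1, ?_⟩
  filter_upwards [tendsto_natCast_atTop_atTop.eventually hc1, tendsto_natCast_atTop_atTop.eventually hc2] with m h4 h5
  rw [hev, Real.norm_eq_abs, Real.norm_eq_abs, abs_mul, abs_pow, Nat.abs_cast, hd] at h4 h5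
  have hm : 0 ≤ (m : ℝ) ^ g.natDegree := by positivity
  have hv := abs_nonneg ((g.eval (m : ℤ) : ℤ) : ℝ)
  constructor
  · have h6 : (m : ℝ) ^ g.natDegree ≤ c2 / |Q.leadingCoeff| * |((g.eval (m : ℤ) : ℤ) : ℝ)| := by
      rw [div_mul_eq_mul_div, le_div_iff₀ hl]
      linarith
    exact h6.trans (mul_le_mul_of_nonneg_right h3 hv)
  · calc _ ≤ c1 * (|Q.leadingCoeff| * (m : ℝ) ^ g.natDegree) := h4
      _ = c1 * |Q.leadingCoeff| * (m : ℝ) ^ g.natDegree := by ring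
      _ ≤ _ := mul_le_mul_of_nonneg_right h2 hm

variable {k : ℕ} {Ω : Type} [MeasurableSpace Ω] {P : Measure Ω} {X : Ix k → Ω → ℕ}

/-- the common bounds -/
lemma polys_size (f : Fin k → ℤ[X]) (hf : ∀ i, 1 ≤ (f i).natDegree) : ∃ (q m0 : ℕ), 1 ≤ q ∧ ∀ m : ℕ, m0 ≤ m → ∀ i,
    (m : ℝ) ^ (f i).natDegree ≤ (q : ℝ) ^ 2 * |(((f i).eval (m : ℤ) : ℤ) : ℝ)| ∧
      |(((f i).eval (m : ℤ) : ℤ) : ℝ)| ≤ (q : ℝ) ^ 2 * (m : ℝ) ^ (f i).natDegree := by
  choose q hq hq2 using fun i => poly_size (f i) (hf i)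
  obtain ⟨m0, hm0⟩ := eventually_atTop.1 (eventually_all.2 hq2)
  refine ⟨1 + univ.sup q, m0, by omega, fun m hm i => ?_⟩
  obtain ⟨h1, h2⟩ := hm0 m hm i
  have h3 : q i ≤ 1 + univ.sup q := by
    have := le_sup (f := q) (mem_univ i)
    omega
  have h4 : (q i : ℝ) ^ 2 ≤ ((1 + univ.sup q : ℕ) : ℝ) ^ 2 :=
    pow_le_pow_left₀ (by positivity) (by exact_mod_cast h3) 2
  exact ⟨h1.trans (mul_le_mul_of_nonneg_right h4 (abs_nonneg _)),
    h2.trans (mul_le_mul_of_nonneg_right h4 (by positivity))⟩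

/-- `m` is a hit: each value survives up to the power `θ` of its size -/
def hit (θ : ℝ) (f : Fin k → ℤ[X]) (X : Ix k → Ω → ℕ) (ω : Ω) (m : ℕ) : Prop :=
  ∀ j : Ix k, (pp j : ℝ) ≤ |((vl f m j : ℤ) : ℝ)| ^ θ → ¬ ((pp j : ℤ) ∣ vl f m j - X j ω)

open Classical in
/-- the number of hits -/
noncomputable def Nh (θ : ℝ) (f : Fin k → ℤ[X]) (X : Ix k → Ω → ℕ) (x : ℕ) (ω : Ω) : ℝ :=
  #((Ioc 0 x).filter (hit θ f X ω))

omit [MeasurableSpace Ω] in
lemma Nh_mono (θ : ℝ) (f : Fin k → ℤ[X]) (ω : Ω) : Monotone (fun x => Nh θ f X x ω) := by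
  classical
  intro x y h
  have h1 : #((Ioc 0 x).filter (hit θ f X ω)) ≤ #((Ioc 0 y).filter (hit θ f X ω)) :=
    card_le_card (filter_subset_filter _ (Ioc_subset_Ioc_right h))
  show Nh θ f X x ω ≤ Nh θ f X y ω
  unfold Nh
  exact_mod_cast h1

omit [MeasurableSpace Ω] in
open Classical in
lemma Ns_card (f : Fin k → ℤ[X]) (s : Finset (Ix k)) (x : ℕ) (ω : Ω) :
    Ns f X s x ω = #((Ioc 0 x).filter (fun m => ∀ j ∈ s, ¬ ((pp j : ℤ) ∣ vl f m j - X j ω))) := by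
  unfold Ns
  rw [card_filter, Nat.zero_add]
  push_cast
  refine sum_congr rfl fun m _ => ?_
  unfold FF
  rw [Set.indicator_apply]
  simp only [av_iff]

omit [MeasurableSpace Ω] in
lemma cmp_lower {θ : ℝ} {f : Fin k → ℤ[X]} {x m0 : ℕ} {z : Fin k → ℕ} (ω : Ω)
    (h : ∀ m : ℕ, m0 < m → m ≤ x → ∀ j : Ix k, (pp j : ℝ) ≤ |((vl f m j : ℤ) : ℝ)| ^ θ → pp j ≤ z j.2) :
    Ns f X (Sz z) x ω ≤ m0 + Nh θ f X x ω := by
  classical
  rw [Ns_card]
  unfold Nh
  have h1 : (Ioc 0 x).filter (fun m => ∀ j ∈ Sz z, ¬ ((pp j : ℤ) ∣ vl f m j - X j ω)) ⊆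
      Ioc 0 m0 ∪ (Ioc 0 x).filter (hit θ f X ω) := by
    intro m hm
    rw [mem_filter, mem_Ioc] at hm
    rw [mem_union, mem_Ioc, mem_filter, mem_Ioc]
    rcases Nat.lt_or_ge m0 m with h2 | h2
    · right
      refine ⟨hm.1, fun j hj => ?_⟩
      exact hm.2 j (mem_Sz.2 (h m h2 hm.1.2 j hj))
    · left
      exact ⟨hm.1.1, h2⟩
  have h2 := (card_le_card h1).trans (card_union_le _ _)
  rw [Nat.card_Ioc, Nat.sub_zero] at h2
  exact_mod_cast h2

omit [MeasurableSpace Ω] in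
lemma cmp_upper {θ : ℝ} {f : Fin k → ℤ[X]} {x y : ℕ} {z : Fin k → ℕ} (ω : Ω)
    (h : ∀ m : ℕ, y < m → m ≤ x → ∀ j : Ix k, pp j ≤ z j.2 → (pp j : ℝ) ≤ |((vl f m j : ℤ) : ℝ)| ^ θ) :
    Nh θ f X x ω ≤ y + Ns f X (Sz z) x ω := by
  classical
  rw [Ns_card]
  unfold Nh
  have h1 : (Ioc 0 x).filter (hit θ f X ω) ⊆
      Ioc 0 y ∪ (Ioc 0 x).filter (fun m => ∀ j ∈ Sz z, ¬ ((pp j : ℤ) ∣ vl f m j - X j ω)) := by
    intro m hm
    rw [mem_filter, mem_Ioc] at hm
    rw [mem_union, mem_Ioc, mem_filter, mem_Ioc]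
    rcases Nat.lt_or_ge y m with h2 | h2
    · right
      refine ⟨hm.1, fun j hj => ?_⟩
      rw [mem_Sz] at hj
      exact hm.2 j (h m h2 hm.1.2 j hj)
    · left
      exact ⟨hm.1.1, h2⟩
  have h2 := (card_le_card h1).trans (card_union_le _ _)
  rw [Nat.card_Ioc, Nat.sub_zero] at h2
  exact_mod_cast h2

lemma log_pow_div {k : ℕ} : Tendsto (fun x : ℕ => Real.log x ^ k / (x : ℝ)) atTop (𝓝 0) := by
  have h11 : (fun x : ℝ => Real.log x ^ k) =o[Filter.atTop] fun x => x ^ (1 : ℝ) := by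
    have := isLittleO_log_rpow_rpow_atTop ((k : ℕ) : ℝ) (show (0 : ℝ) < 1 by norm_num)
    simpa only [Real.rpow_natCast] using this
  have h1 := h11.tendsto_div_nhds_zero.comp (tendsto_natCast_atTop_atTop (R := ℝ))
  refine h1.congr fun n => ?_
  simp only [Function.comp]
  rw [Real.rpow_one]

lemma lv_ratio (M : ℕ) : Tendsto (fun n : ℕ => ((lv M (n + 1) : ℕ) : ℝ) / (lv M n : ℕ)) atTop (𝓝 1) := by
  have h2 : Tendsto (fun k : ℕ => 1 + 1 / ((k : ℝ) + 1)) atTop (𝓝 1) := by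
    have := (tendsto_one_div_add_atTop_nhds_zero_nat (𝕜 := ℝ)).const_add 1
    simpa using this
  have h3 := h2.pow M
  rw [one_pow] at h3
  refine h3.congr fun n => ?_
  unfold lv
  push_cast
  rw [← div_pow]
  congr 1
  field_simp

/-- the upper exponents -/
lemma exp_up {a : ℝ} (ha : 0 < a) :
    Tendsto (fun u : ℕ => 2 * (u : ℝ) / ((⌈a * (2 * u)⌉₊ + 1 : ℕ) : ℝ)) atTop (𝓝 (1 / a)) := by
  have h1 : Tendsto (fun u : ℕ => 2 * (u : ℝ)) atTop atTop :=
    tendsto_natCast_atTop_atTop.const_mul_atTop (by norm_num)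
  have h2 := (tendsto_nat_ceil_mul_div_atTop ha.le).comp h1
  have h3 := (h2.add ((tendsto_const_nhds (x := (1 : ℝ))).div_atTop h1)).inv₀ (by linarith)
  rw [add_zero, ← one_div] at h3
  refine h3.congr' ?_
  filter_upwards [eventually_ge_atTop 1] with u hu
  have hu0 : (0 : ℝ) < u := by exact_mod_cast hu
  simp only [Function.comp]
  push_cast
  have h4 : (0 : ℝ) < (⌈a * (2 * u)⌉₊ : ℝ) + 1 := by positivity
  rw [← add_div, inv_div]

/-- the lower exponents -/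
lemma exp_low {a : ℝ} (ha : 0 < a) (B : ℕ) :
    Tendsto (fun u : ℕ => 2 * (u : ℝ) / ((⌊a * ((2 * u - 2 : ℕ) : ℝ)⌋₊ - 1 : ℕ) : ℝ)) atTop (𝓝 (1 / a)) ∧
      ∀ᶠ u : ℕ in atTop, B ≤ ⌊a * ((2 * u - 2 : ℕ) : ℝ)⌋₊ - 1 := by
  have h0 : Tendsto (fun u : ℕ => ((2 * u - 2 : ℕ) : ℝ)) atTop atTop := by
    refine tendsto_natCast_atTop_atTop.comp ?_
    refine tendsto_atTop.2 fun b => ?_
    filter_upwards [eventually_ge_atTop (b + 2)] with u hu
    omega
  have hB : ∀ᶠ u : ℕ in atTop, B + 1 ≤ ⌊a * ((2 * u - 2 : ℕ) : ℝ)⌋₊ := by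
    have h1 := (h0.const_mul_atTop ha).eventually_ge_atTop ((B + 1 : ℕ) : ℝ)
    filter_upwards [h1] with u hu
    exact Nat.le_floor hu
  constructor
  · have h1 : Tendsto (fun u : ℕ => 2 * (u : ℝ)) atTop atTop :=
      tendsto_natCast_atTop_atTop.const_mul_atTop (by norm_num)
    have h2 := (tendsto_nat_floor_mul_div_atTop ha.le).comp h0
    have h3 : Tendsto (fun u : ℕ => ((2 * u - 2 : ℕ) : ℝ) / (2 * (u : ℝ))) atTop (𝓝 1) := by
      have h4 := ((tendsto_const_nhds (x := (2 : ℝ))).div_atTop h1).const_sub 1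
      rw [sub_zero] at h4
      refine h4.congr' ?_
      filter_upwards [eventually_ge_atTop 1] with u hu
      have hu0 : (0 : ℝ) < u := by exact_mod_cast hu
      rw [Nat.cast_sub (by omega)]
      push_cast
      field_simp
    have h4 := ((h2.mul h3).sub ((tendsto_const_nhds (x := (1 : ℝ))).div_atTop h1)).inv₀ (by linarith)
    rw [mul_one, sub_zero, ← one_div] at h4
    refine h4.congr' ?_
    filter_upwards [eventually_ge_atTop 2, hB] with u hu hu2
    have hu0 : (0 : ℝ) < u := by exact_mod_cast (by omega : 0 < u)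
    simp only [Function.comp]
    rw [Nat.cast_sub (show 1 ≤ ⌊a * ((2 * u - 2 : ℕ) : ℝ)⌋₊ by omega), Nat.cast_one]
    have h5 : (0 : ℝ) < ((2 * u - 2 : ℕ) : ℝ) := by exact_mod_cast (by omega : 0 < 2 * u - 2)
    rw [div_mul_div_cancel₀ h5.ne', ← sub_div, inv_div]
  · filter_upwards [hB] with u hu
    omega

/-- the law for the hits of one system of polynomials -/
theorem bh_one (h : RSys P (pp (k := k)) X) (hk : 1 ≤ k) {f : Fin k → ℤ[X]}
    (hf : ∀ i, 1 ≤ (f i).natDegree) :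
    ∀ᵐ ω ∂P, ∀ C : ℝ, Tendsto (fun n => TT f X (Jx k 0 n) ω) atTop (𝓝 C) → ∀ θ : ℝ, 0 < θ →
      Tendsto (fun x : ℕ => Nh θ f X x ω * Real.log x ^ k / x) atTop
        (𝓝 (C * ∏ i, (Real.exp (-Real.eulerMascheroniConstant) * (1 / (θ * (f i).natDegree))))) := by
  obtain ⟨q, m0, hq, hsz⟩ := polys_size f hf
  obtain ⟨d, hd⟩ : ∃ d : Fin k → ℕ, d = fun i => (f i).natDegree := ⟨_, rfl⟩
  have hd1 : ∀ i, 1 ≤ d i := fun i => by rw [hd]; exact hf i
  have h1 : ∀ᵐ ω ∂P, ∀ w : ℕ × (Fin k → ℕ), 4 ≤ w.1 → (∀ i, 16 * k ≤ w.2 i) →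
      ∀ C : ℝ, Tendsto (fun n => TT f X (Jx k 0 n) ω) atTop (𝓝 C) →
      Tendsto (fun n : ℕ => Ns f X (Sz (fun i => lv (w.2 i) n)) (lv (2 * w.1) n) ω *
        Real.log (lv (2 * w.1) n : ℕ) ^ k / (lv (2 * w.1) n : ℕ)) atTop
        (𝓝 (C * ∏ i, (Real.exp (-Real.eulerMascheroniConstant) * (2 * w.1 / w.2 i)))) := by
    rw [ae_all_iff]
    intro w
    by_cases h1 : 4 ≤ w.1
    · by_cases h2 : ∀ i, 16 * k ≤ w.2 i
      · filter_upwards [sparse_law h hk hf h1 h2] with ω hω _ _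
        exact hω
      · exact Eventually.of_forall fun ω _ h3 => absurd h3 h2
    · exact Eventually.of_forall fun ω h3 => absurd h3 h1
  filter_upwards [h1] with ω hω C hC θ hθ
  obtain ⟨e, he⟩ : ∃ e : ℝ, e = Real.exp (-Real.eulerMascheroniConstant) := ⟨_, rfl⟩
  obtain ⟨L, hL⟩ : ∃ L : ℝ, L = C * ∏ i, (e * (1 / (θ * d i))) := ⟨_, rfl⟩
  have hLe : C * ∏ i, (Real.exp (-Real.eulerMascheroniConstant) * (1 / (θ * (f i).natDegree))) = L := by
    rw [hL, he, hd]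
  rw [hLe]
  have hθd : ∀ i, 0 < θ * d i := fun i => mul_pos hθ (by exact_mod_cast hd1 i)
  -- the limits of the bounds
  have hA : Tendsto (fun u : ℕ => C * ∏ i, (e * (2 * (u : ℝ) / ((⌈θ * d i * (2 * u)⌉₊ + 1 : ℕ) : ℝ))))
      atTop (𝓝 L) := by
    rw [hL]
    refine (tendsto_finsetProd _ fun i _ => ?_).const_mul C
    exact (exp_up (hθd i)).const_mul e
  have hB : Tendsto (fun u : ℕ => C * ∏ i, (e * (2 * (u : ℝ) / ((⌊θ * d i * ((2 * u - 2 : ℕ) : ℝ)⌋₊ - 1 : ℕ) : ℝ))))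
      atTop (𝓝 L) := by
    rw [hL]
    refine (tendsto_finsetProd _ fun i _ => ?_).const_mul C
    exact (exp_low (hθd i) 0).1.const_mul e
  have hB2 : ∀ᶠ u : ℕ in atTop, ∀ i, 16 * k ≤ ⌊θ * d i * ((2 * u - 2 : ℕ) : ℝ)⌋₊ - 1 :=
    eventually_all.2 fun i => (exp_low (hθd i) (16 * k)).2
  rw [Metric.tendsto_atTop]
  intro ε hε
  obtain ⟨u, ⟨hv1, hv2⟩, hu2, hu4⟩ := (((hA.eventually_const_lt (show L - ε < L by linarith)).and
    (hB.eventually_lt_const (show L < L + ε by linarith))).and (hB2.and (eventually_ge_atTop 4))).exists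
  have hu1 : ∀ i, 16 * k ≤ ⌈θ * d i * (2 * u)⌉₊ + 1 := by
    intro i
    have h3 := hu2 i
    have h4 : ⌊θ * d i * ((2 * u - 2 : ℕ) : ℝ)⌋₊ ≤ ⌈θ * d i * (2 * u)⌉₊ := by
      refine (Nat.floor_le_ceil _).trans (Nat.ceil_mono ?_)
      refine mul_le_mul_of_nonneg_left ?_ (hθd i).le
      have : ((2 * u - 2 : ℕ) : ℝ) ≤ ((2 * u : ℕ) : ℝ) := by exact_mod_cast Nat.sub_le _ _
      push_cast at this ⊢
      exact this
    omega
  obtain ⟨x, hx⟩ : ∃ x : ℕ → ℕ, x = lv (2 * u) := ⟨_, rfl⟩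
  have hx0 : ∀ n, (0 : ℝ) < x n := fun n => by rw [hx]; exact_mod_cast lv_pos _ _
  have hxm : StrictMono x := by rw [hx]; exact lv_mono (by omega)
  obtain ⟨bp, hbp⟩ : ∃ bp : Fin k → ℕ, bp = fun i => ⌈θ * d i * (2 * u)⌉₊ + 1 := ⟨_, rfl⟩
  obtain ⟨bm, hbm⟩ : ∃ bm : Fin k → ℕ, bm = fun i => ⌊θ * d i * ((2 * u - 2 : ℕ) : ℝ)⌋₊ - 1 := ⟨_, rfl⟩
  have hv1' : L - ε < C * ∏ i, (e * (2 * (u : ℝ) / bp i)) := by rw [hbp]; exact hv1
  have hv2' : C * ∏ i, (e * (2 * (u : ℝ) / bm i)) < L + ε := by rw [hbm]; exact hv2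
  -- the lower bounds
  have hlow : Tendsto (fun n : ℕ => (Ns f X (Sz (fun i => lv (bp i) n)) (x n) ω *
      Real.log (x n) ^ k / x n - m0 * (Real.log (x n) ^ k / x n)) * ((x (n + 1) : ℝ) / x n)⁻¹) atTop
      (𝓝 (C * ∏ i, (e * (2 * (u : ℝ) / bp i)))) := by
    have h3 := hω (u, bp) hu4 (by rw [hbp]; exact hu1) C hC
    simp only at h3
    rw [← he, ← hx] at h3
    have h4 := (log_pow_div (k := k)).comp hxm.tendsto_atTop
    have h5 := (h3.sub (h4.const_mul (m0 : ℝ))).mul ((lv_ratio (2 * u)).inv₀ one_ne_zero)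
    rw [mul_zero, sub_zero, inv_one, mul_one] at h5
    refine h5.congr fun n => ?_
    simp only [Function.comp, hx]
  have hupp : Tendsto (fun n : ℕ => (Ns f X (Sz (fun i => lv (bm i) n)) (x n) ω *
      Real.log (x n) ^ k / x n + (lv (2 * u - 2) n : ℕ) * (Real.log (x n) ^ k / x n)) ) atTop
      (𝓝 (C * ∏ i, (e * (2 * (u : ℝ) / bm i)))) := by
    have h3 := hω (u, bm) hu4 (by rw [hbm]; exact hu2) C hC
    simp only at h3
    rw [← he, ← hx] at h3
    have h4 : Tendsto (fun n : ℕ => (lv (2 * u - 2) n : ℕ) * (Real.log (x n) ^ k / x n)) atTop (𝓝 0) := by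
      have h5 := ((log_pow_div (k := k)).comp (lv_mono (M := 2) (by norm_num)).tendsto_atTop).const_mul ((u : ℝ) ^ k)
      rw [mul_zero] at h5
      refine h5.congr fun n => ?_
      simp only [Function.comp]
      rw [hx, log_lv, log_lv, mul_pow, mul_pow]
      have hn : (0 : ℝ) < (n : ℝ) + 1 := by positivity
      have e1 : ((lv (2 * u) n : ℕ) : ℝ) = (lv (2 * u - 2) n : ℕ) * (lv 2 n : ℕ) := by
        unfold lv
        rw [← Nat.cast_mul, ← pow_add]
        congr 3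
        omega
      rw [e1]
      have e2 : (0 : ℝ) < (lv (2 * u - 2) n : ℕ) := by exact_mod_cast lv_pos _ _
      have e3 : (0 : ℝ) < (lv 2 n : ℕ) := by exact_mod_cast lv_pos _ _
      push_cast
      rw [mul_pow]
      field_simp
    have h6 := h3.add h4
    rw [add_zero] at h6
    exact h6
  have hupp2 := (hupp.comp (tendsto_add_atTop_nat 1)).mul (lv_ratio (2 * u))
  rw [mul_one] at hupp2
  -- comparison
  obtain ⟨r, hr⟩ : ∃ r : ℕ, (q : ℝ) ^ (2 * θ) ≤ r := exists_nat_ge _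
  have hcl : ∀ᶠ n : ℕ in atTop, Ns f X (Sz (fun i => lv (bp i) n)) (x n) ω ≤
      m0 + Nh θ f X (x n) ω := by
    filter_upwards [eventually_ge_atTop r] with n hn
    refine cmp_lower ω fun m hm hmx j hj => ?_
    have h3 := (hsz m hm.le j.2).2
    have h5 : (m : ℝ) ≤ x n := by exact_mod_cast hmx
    have hn1 : (1 : ℝ) ≤ (n : ℝ) + 1 := by
      have : (0 : ℝ) ≤ n := by positivity
      linarith
    have hn0 : (0 : ℝ) < (n : ℝ) + 1 := by linarith
    have hnr : (q : ℝ) ^ (2 * θ) ≤ (n : ℝ) + 1 := by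
      have : (r : ℝ) ≤ n := by exact_mod_cast hn
      linarith
    have h6 : (pp j : ℝ) ≤ ((lv (bp j.2) n : ℕ) : ℝ) := by
      calc (pp j : ℝ) ≤ |((vl f m j : ℤ) : ℝ)| ^ θ := hj
        _ ≤ ((q : ℝ) ^ 2 * (x n : ℝ) ^ (f j.2).natDegree) ^ θ := by
            refine Real.rpow_le_rpow (abs_nonneg _) (h3.trans ?_) hθ.le
            exact mul_le_mul_of_nonneg_left (pow_le_pow_left₀ (by positivity) h5 _) (by positivity)
        _ = (q : ℝ) ^ (2 * θ) * ((n : ℝ) + 1) ^ (θ * d j.2 * (2 * u)) := by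
            rw [Real.mul_rpow (by positivity) (by positivity), ← Real.rpow_natCast (q : ℝ) 2,
              ← Real.rpow_mul (by positivity), hx, hd]
            unfold lv
            push_cast
            rw [← pow_mul, ← Real.rpow_natCast ((n : ℝ) + 1), ← Real.rpow_mul hn0.le]
            congr 2
            push_cast
            ring
        _ ≤ ((n : ℝ) + 1) * ((n : ℝ) + 1) ^ ((⌈θ * d j.2 * (2 * u)⌉₊ : ℕ) : ℝ) := by
            refine mul_le_mul hnr (Real.rpow_le_rpow_of_exponent_le hn1 (Nat.le_ceil _)) (by positivity) hn0.le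
        _ = _ := by
            rw [hbp, Real.rpow_natCast]
            unfold lv
            push_cast
            rw [pow_succ]
            ring
    exact_mod_cast h6
  have hcu : ∀ᶠ n : ℕ in atTop, Nh θ f X (x n) ω ≤ (lv (2 * u - 2) n : ℕ) +
      Ns f X (Sz (fun i => lv (bm i) n)) (x n) ω := by
    have hk2 : 1 ≤ 2 * u - 2 := by omega
    filter_upwards [eventually_ge_atTop r, ((lv_mono hk2).tendsto_atTop).eventually_ge_atTop m0] with n hn hn2
    refine cmp_upper ω fun m hm hmx j hj => ?_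
    have h3 := (hsz m (hn2.trans hm.le) j.2).1
    have hq0 : (0 : ℝ) < q := by exact_mod_cast hq
    have hn1 : (1 : ℝ) ≤ (n : ℝ) + 1 := by
      have : (0 : ℝ) ≤ n := by positivity
      linarith
    have hn0 : (0 : ℝ) < (n : ℝ) + 1 := by positivity
    have hnr : (q : ℝ) ^ (2 * θ) ≤ (n : ℝ) + 1 := by
      have : (r : ℝ) ≤ n := by exact_mod_cast hn
      linarith
    have h5 : ((lv (2 * u - 2) n : ℕ) : ℝ) ≤ m := by exact_mod_cast hm.le
    have h6 : (pp j : ℝ) ≤ ((lv (bm j.2) n : ℕ) : ℝ) := by exact_mod_cast hj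
    have hfl : 1 ≤ ⌊θ * d j.2 * ((2 * u - 2 : ℕ) : ℝ)⌋₊ := by
      have := hu2 j.2
      omega
    have h7 : (pp j : ℝ) * (q : ℝ) ^ (2 * θ) ≤ (q : ℝ) ^ (2 * θ) * |((vl f m j : ℤ) : ℝ)| ^ θ := by
      calc (pp j : ℝ) * (q : ℝ) ^ (2 * θ) ≤ ((lv (bm j.2) n : ℕ) : ℝ) * ((n : ℝ) + 1) :=
            mul_le_mul h6 hnr (by positivity) (by positivity)
        _ = ((n : ℝ) + 1) ^ ((⌊θ * d j.2 * ((2 * u - 2 : ℕ) : ℝ)⌋₊ : ℕ) : ℝ) := by
            rw [hbm, Real.rpow_natCast]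
            unfold lv
            push_cast
            rw [← pow_succ]
            congr 1
            push_cast at hfl
            omega
        _ ≤ ((n : ℝ) + 1) ^ (θ * d j.2 * ((2 * u - 2 : ℕ) : ℝ)) := by
            refine Real.rpow_le_rpow_of_exponent_le hn1 (Nat.floor_le ?_)
            exact mul_nonneg (hθd _).le (by positivity)
        _ = (((lv (2 * u - 2) n : ℕ) : ℝ) ^ (f j.2).natDegree) ^ θ := by
            rw [hd]
            unfold lv
            push_cast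
            rw [← pow_mul, ← Real.rpow_natCast ((n : ℝ) + 1), ← Real.rpow_mul hn0.le]
            congr 1
            push_cast
            ring
        _ ≤ ((q : ℝ) ^ 2 * |((vl f m j : ℤ) : ℝ)|) ^ θ := by
            refine Real.rpow_le_rpow (by positivity) ?_ hθ.le
            exact (pow_le_pow_left₀ (by positivity) h5 _).trans h3
        _ = _ := by
            rw [Real.mul_rpow (by positivity) (abs_nonneg _), ← Real.rpow_natCast (q : ℝ) 2,
              ← Real.rpow_mul (by positivity)]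
            norm_num
    rw [mul_comm] at h7
    exact le_of_mul_le_mul_left h7 (by positivity)
  -- interpolation
  obtain ⟨kk, hkk, hb⟩ := exists_idx hxm
  have hfin : ∀ᶠ y : ℕ in atTop, dist (Nh θ f X y ω * Real.log y ^ k / y) L < ε := by
    filter_upwards [hkk.eventually (hlow.eventually_const_lt hv1'), hkk.eventually (hupp2.eventually_lt_const hv2'),
      hkk.eventually hcl, hkk.eventually ((tendsto_add_atTop_nat 1).eventually hcu), eventually_ge_atTop (x 0),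
      eventually_ge_atTop 1] with y h3 h4 h5 h6 h7 h8
    obtain ⟨h9, h10⟩ := hb y h7
    have hy0 : (0 : ℝ) < y := by exact_mod_cast h8
    have h11 : (x (kk y) : ℝ) ≤ y := by exact_mod_cast h9
    have h12 : (y : ℝ) ≤ x (kk y + 1) := by exact_mod_cast h10.le
    have hN1 := Nh_mono (X := X) θ f ω h9
    have hN2 := Nh_mono (X := X) θ f ω h10.le
    simp only at hN1 hN2
    have hl0 : 0 ≤ Real.log (x (kk y)) := Real.log_natCast_nonneg _
    have hl1 : Real.log (x (kk y)) ≤ Real.log y := Real.log_le_log (hx0 _) h11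
    have hl2 : Real.log y ≤ Real.log (x (kk y + 1)) := Real.log_le_log hy0 h12
    have hNn : 0 ≤ Nh θ f X (x (kk y)) ω := by unfold Nh; positivity
    have hNn2 : 0 ≤ Nh θ f X (x (kk y + 1)) ω := by unfold Nh; positivity
    rw [Real.dist_eq, abs_lt]
    constructor
    · have h13 : (Ns f X (Sz (fun i => lv (bp i) (kk y))) (x (kk y)) ω *
          Real.log (x (kk y)) ^ k / x (kk y) - m0 * (Real.log (x (kk y)) ^ k / x (kk y))) *
          ((x (kk y + 1) : ℝ) / x (kk y))⁻¹ ≤ Nh θ f X y ω * Real.log y ^ k / y := by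
        have e1 : (Ns f X (Sz (fun i => lv (bp i) (kk y))) (x (kk y)) ω *
          Real.log (x (kk y)) ^ k / x (kk y) - m0 * (Real.log (x (kk y)) ^ k / x (kk y))) *
          ((x (kk y + 1) : ℝ) / x (kk y))⁻¹ =
          (Ns f X (Sz (fun i => lv (bp i) (kk y))) (x (kk y)) ω - m0) *
          Real.log (x (kk y)) ^ k / x (kk y + 1) := by
          have := hx0 (kk y)
          have := hx0 (kk y + 1)
          field_simp
        rw [e1]
        calc _ ≤ Nh θ f X (x (kk y)) ω * Real.log (x (kk y)) ^ k / x (kk y + 1) := by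
              refine div_le_div_of_nonneg_right (mul_le_mul_of_nonneg_right ?_ (pow_nonneg hl0 k)) (hx0 _).le
              linarith
          _ ≤ _ := by
              refine div_le_div₀ (mul_nonneg (hNn.trans hN1) (pow_nonneg (hl0.trans hl1) k)) ?_ hy0 h12
              exact mul_le_mul hN1 (pow_le_pow_left₀ hl0 hl1 k) (pow_nonneg hl0 k) (hNn.trans hN1)
      linarith
    · have h13 : Nh θ f X y ω * Real.log y ^ k / y ≤
          (Ns f X (Sz (fun i => lv (bm i) (kk y + 1))) (x (kk y + 1)) ω *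
          Real.log (x (kk y + 1)) ^ k / x (kk y + 1) + (lv (2 * u - 2) (kk y + 1) : ℕ) *
          (Real.log (x (kk y + 1)) ^ k / x (kk y + 1))) * (((lv (2 * u) (kk y + 1) : ℕ) : ℝ) / (lv (2 * u) (kk y) : ℕ)) := by
        have e0 : ∀ n, lv (2 * u) n = x n := fun n => by rw [hx]
        rw [e0, e0]
        have e1 : (Ns f X (Sz (fun i => lv (bm i) (kk y + 1))) (x (kk y + 1)) ω *
          Real.log (x (kk y + 1)) ^ k / x (kk y + 1) + (lv (2 * u - 2) (kk y + 1) : ℕ) *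
          (Real.log (x (kk y + 1)) ^ k / x (kk y + 1))) * ((x (kk y + 1) : ℝ) / x (kk y)) =
          ((lv (2 * u - 2) (kk y + 1) : ℕ) + Ns f X (Sz (fun i => lv (bm i) (kk y + 1))) (x (kk y + 1)) ω) *
          Real.log (x (kk y + 1)) ^ k / x (kk y) := by
          have := hx0 (kk y)
          have := hx0 (kk y + 1)
          field_simp
          ring
        rw [e1]
        calc Nh θ f X y ω * Real.log y ^ k / y ≤ Nh θ f X (x (kk y + 1)) ω * Real.log (x (kk y + 1)) ^ k / x (kk y) := by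
              refine div_le_div₀ (mul_nonneg hNn2 (pow_nonneg ((hl0.trans hl1).trans hl2) k)) ?_ (hx0 _) h11
              exact mul_le_mul hN2 (pow_le_pow_left₀ (hl0.trans hl1) hl2 k) (pow_nonneg (hl0.trans hl1) k) hNn2
          _ ≤ _ := by
              refine div_le_div_of_nonneg_right (mul_le_mul_of_nonneg_right h6 (pow_nonneg ((hl0.trans hl1).trans hl2) k))
                (hx0 _).le
      simp only [Function.comp] at h4
      linarith
  obtain ⟨N, hN⟩ := eventually_atTop.1 hfin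
  exact ⟨N, hN⟩

end Pool.Agent.L5helper2.RS
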