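import Pool.Agent.L5helper2.RS.LB

/-! Project RS (helper2): the variance for sequences of exponential growth. -/

set_option autoImplicit false

namespace Pool.Agent.L5helper2.RS

open Finset MeasureTheory ProbabilityTheory
open Pool.Agent.H373R2.T7 (pz Vz mem_pz Vz_low)

lemma log_pow_small4 (C : ℕ) : ∃ N0 : ℕ, ∀ n : ℕ, N0 ≤ n → 2 * Real.log n ^ C ≤ (n : ℝ) ^ ((1 : ℝ) / 4) := by
  have h1 : (fun x : ℝ => Real.log x ^ C) =o[Filter.atTop] fun x => x ^ ((1 : ℝ) / 4) := by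
    have := isLittleO_log_rpow_rpow_atTop (C : ℝ) (show (0 : ℝ) < 1 / 4 by norm_num)
    simpa only [Real.rpow_natCast] using this
  have h2 := (h1.bound (show (0 : ℝ) < 1 / 2 by norm_num))
  obtain ⟨x0, hx0⟩ := Filter.eventually_atTop.1 h2
  refine ⟨max ⌈x0⌉₊ 1, fun n hn => ?_⟩
  have h3 : x0 ≤ n := (Nat.le_ceil _).trans (by exact_mod_cast (le_max_left _ _).trans hn)
  have h4 := hx0 n h3
  have hn1 : (1 : ℝ) ≤ n := by exact_mod_cast (le_max_right _ _).trans hn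
  rw [Real.norm_of_nonneg (pow_nonneg (Real.log_nonneg hn1) _), Real.norm_of_nonneg (by positivity)] at h4
  linarith

/-- the linear bound with the exponent 3/4 -/
theorem lin_bound4 (k : ℕ) : ∃ w0 : ℕ, 2 ≤ w0 ∧ ∀ s : Finset (Ix k), (∀ j ∈ s, w0 < pp j) →
    ∏ j ∈ s, (1 - 1 / (pp j : ℝ))⁻¹ ≤ 1 + ∑ j ∈ s, (pp j : ℝ) ^ (-(3 / 4) : ℝ) := by
  classical
  obtain ⟨C, N0, hN0, hV⟩ := V_inv_le
  obtain ⟨N1, hN1⟩ := log_pow_small4 (C * k)
  refine ⟨max N0 N1, hN0.trans (le_max_left _ _), fun s => ?_⟩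
  induction s using Finset.strongInduction with
  | H s ih =>
    intro hs
    rcases s.eq_empty_or_nonempty with h0 | hne
    · rw [h0, prod_empty, sum_empty, add_zero]
    obtain ⟨j, hj, hmax⟩ := exists_max_image s pp hne
    have hjw := hs j hj
    have hs' := ih (s.erase j) (erase_ssubset hj) fun i hi => hs i (mem_of_mem_erase hi)
    rw [← mul_prod_erase s _ hj, ← add_sum_erase s _ hj]
    obtain ⟨Q, hQ⟩ : ∃ Q : ℝ, Q = ∏ i ∈ s.erase j, (1 - 1 / (pp i : ℝ))⁻¹ := ⟨_, rfl⟩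
    rw [← hQ] at hs' ⊢
    have hp2 : (2 : ℝ) ≤ pp j := by exact_mod_cast pp_two j
    have h1 : 0 < 1 - 1 / (pp j : ℝ) := one_sub_pos (p := pp) pp_two j
    -- the product of the others
    have hQ1 : Q ≤ Real.log (pp j) ^ (C * k) := by
      have hsub : s.erase j ⊆ Jx k 0 (pp j) := by
        intro i hi
        rw [mem_Jx]
        exact ⟨lt_of_lt_of_le (by norm_num) (pp_two i), hmax i (mem_of_mem_erase hi)⟩
      have hQ2 : Q ≤ ∏ i ∈ Jx k 0 (pp j), (1 - 1 / (pp i : ℝ))⁻¹ := by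
        rw [hQ]
        refine prod_le_prod_of_subset_of_one_le hsub (fun i _ => ?_) (fun i _ _ => inv_ge_one (pp_two i))
        exact (inv_pos.2 (one_sub_pos (p := pp) pp_two i)).le
      refine hQ2.trans ?_
      rw [prod_Jx (fun n => (1 - 1 / (n : ℝ))⁻¹), pow_mul]
      refine pow_le_pow_left₀ (prod_nonneg fun n hn => ?_) ?_ k
      · have : 2 ≤ n := (mem_filter.1 hn).2.two_le
        exact zero_le_one.trans (inv_ge_one this)
      · have e : (Ioc 0 (pp j)).filter Nat.Prime = pz (pp j) := by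
          ext n
          rw [mem_filter, mem_Ioc, mem_pz]
          constructor
          · rintro ⟨⟨_, h2⟩, h3⟩
            exact ⟨h2, h3⟩
          · rintro ⟨h2, h3⟩
            exact ⟨⟨h3.pos, h2⟩, h3⟩
        rw [e, prod_inv_distrib]
        exact hV (pp j) (((le_max_left _ _).trans hjw.le))
    have h2 := hN1 (pp j) ((le_max_right _ _).trans hjw.le)
    -- the last factor
    have hp0 : (0 : ℝ) < pp j := by linarith
    have e1 : (1 - 1 / (pp j : ℝ))⁻¹ = 1 + 1 / ((pp j : ℝ) - 1) := by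
      have h3 : (pp j : ℝ) - 1 ≠ 0 := by linarith
      have h4 : (pp j : ℝ) ≠ 0 := by linarith
      field_simp
      ring
    have h3 : 1 / ((pp j : ℝ) - 1) ≤ 2 / (pp j : ℝ) := by
      rw [div_le_div_iff₀ (by linarith) (by linarith)]
      linarith
    have hQ0 : 0 ≤ Q := by
      rw [hQ]
      exact prod_nonneg fun i _ => (inv_pos.2 (one_sub_pos (p := pp) pp_two i)).le
    have h4 : Q * (1 / ((pp j : ℝ) - 1)) ≤ (pp j : ℝ) ^ (-(3 / 4) : ℝ) := by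
      calc Q * (1 / ((pp j : ℝ) - 1)) ≤ Q * (2 / (pp j : ℝ)) := mul_le_mul_of_nonneg_left h3 hQ0
        _ = (2 * Q) / (pp j : ℝ) := by ring
        _ ≤ (pp j : ℝ) ^ ((1 : ℝ) / 4) / (pp j : ℝ) := div_le_div_of_nonneg_right (by linarith) (by linarith)
        _ = (pp j : ℝ) ^ (-(3 / 4) : ℝ) := by
          rw [← Real.rpow_sub_one hp0.ne']
          norm_num
    rw [e1]
    linarith

/-- sums over well spaced sets -/
lemma win {u : ℕ → ℝ} (hu : Antitone u) (hu0 : ∀ n, 0 ≤ u n) {t Y : ℕ} (ht : 1 ≤ t) {S : Finset ℕ}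
    (hS : S ⊆ Icc 1 Y) (h2 : ∀ m ∈ S, t ≤ 2 * m) (hsep : ∀ m ∈ S, ∀ n ∈ S, m < n → t ≤ n - m) :
    ∑ m ∈ S, u m ≤ 2 / t * ∑ n ∈ Icc 1 Y, u n := by
  obtain ⟨L, hL⟩ : ∃ L : ℕ, L = (t + 1) / 2 := ⟨_, rfl⟩
  have hL1 : t ≤ 2 * L := by omega
  have hL2 : L ≤ t := by omega
  have hL0 : 0 < L := by omega
  have hd : ∀ m ∈ S, ∀ n ∈ S, m ≠ n → Disjoint (Ioc (m - L) m) (Ioc (n - L) n) := by
    intro m hm n hn hmn
    rw [Finset.disjoint_left]
    intro a ha hb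
    rw [mem_Ioc] at ha hb
    have h2m := h2 m hm
    have h2n := h2 n hn
    rcases lt_or_gt_of_ne hmn with h | h
    · have := hsep m hm n hn h
      omega
    · have := hsep n hn m hm h
      omega
  have h3 : ∑ m ∈ S, ∑ n ∈ Ioc (m - L) m, u n ≤ ∑ n ∈ Icc 1 Y, u n := by
    rw [← sum_biUnion (fun m hm n hn hmn => hd m hm n hn hmn)]
    refine sum_le_sum_of_subset_of_nonneg ?_ fun n _ _ => hu0 n
    intro n hn
    rw [mem_biUnion] at hn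
    obtain ⟨m, hm, hn⟩ := hn
    have := mem_Icc.1 (hS hm)
    rw [mem_Ioc] at hn
    rw [mem_Icc]
    omega
  have h4 : ∀ m ∈ S, (L : ℝ) * u m ≤ ∑ n ∈ Ioc (m - L) m, u n := by
    intro m hm
    have h2m := h2 m hm
    have hc : #(Ioc (m - L) m) = L := by
      rw [Nat.card_Ioc]
      omega
    calc (L : ℝ) * u m = ∑ _n ∈ Ioc (m - L) m, u m := by rw [sum_const, hc, nsmul_eq_mul]
      _ ≤ _ := sum_le_sum fun n hn => hu (mem_Ioc.1 hn).2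
  have h5 : (L : ℝ) * ∑ m ∈ S, u m ≤ ∑ n ∈ Icc 1 Y, u n := by
    rw [mul_sum]
    exact (sum_le_sum h4).trans h3
  have hA : 0 ≤ ∑ m ∈ S, u m := sum_nonneg fun m _ => hu0 m
  have ht0 : (0 : ℝ) < t := by exact_mod_cast ht
  have hL1' : (t : ℝ) ≤ 2 * L := by exact_mod_cast hL1
  rw [div_mul_eq_mul_div, le_div_iff₀ ht0]
  nlinarith

/-- the pairs with a given divisor -/
lemma pair_sum {u : ℕ → ℝ} (hu : Antitone u) (hu0 : ∀ n, 0 ≤ u n) {t Y : ℕ} (ht : 1 ≤ t) :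
    ∑ m' ∈ Icc 1 Y, ∑ m ∈ (Icc 1 Y).filter (fun m => m' < m ∧ (t ∣ m + m' ∨ t ∣ m - m')), u m * u m' ≤
      4 / t * (∑ n ∈ Icc 1 Y, u n) ^ 2 := by
  have h1 : ∀ m' ∈ Icc 1 Y, ∑ m ∈ (Icc 1 Y).filter (fun m => m' < m ∧ (t ∣ m + m' ∨ t ∣ m - m')), u m * u m' ≤
      (4 / t * ∑ n ∈ Icc 1 Y, u n) * u m' := by
    intro m' hm'
    rw [← sum_mul]
    refine mul_le_mul_of_nonneg_right ?_ (hu0 m')
    have hsub : (Icc 1 Y).filter (fun m => m' < m ∧ (t ∣ m + m' ∨ t ∣ m - m')) ⊆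
        (Icc 1 Y).filter (fun m => m' < m ∧ t ∣ m + m') ∪ (Icc 1 Y).filter (fun m => m' < m ∧ t ∣ m - m') := by
      intro m hm
      rw [mem_filter] at hm
      rw [mem_union, mem_filter, mem_filter]
      tauto
    have hm1 := mem_Icc.1 hm'
    have ha : ∑ m ∈ (Icc 1 Y).filter (fun m => m' < m ∧ t ∣ m + m'), u m ≤ 2 / t * ∑ n ∈ Icc 1 Y, u n := by
      refine win hu hu0 ht (filter_subset _ _) (fun m hm => ?_) (fun m hm n hn hmn => ?_)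
      · rw [mem_filter] at hm
        have := Nat.le_of_dvd (by omega) hm.2.2
        omega
      · rw [mem_filter] at hm hn
        have h3 : t ∣ (n + m') - (m + m') := Nat.dvd_sub hn.2.2 hm.2.2
        have := Nat.le_of_dvd (by omega) h3
        omega
    have hb : ∑ m ∈ (Icc 1 Y).filter (fun m => m' < m ∧ t ∣ m - m'), u m ≤ 2 / t * ∑ n ∈ Icc 1 Y, u n := by
      refine win hu hu0 ht (filter_subset _ _) (fun m hm => ?_) (fun m hm n hn hmn => ?_)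
      · rw [mem_filter] at hm
        have := Nat.le_of_dvd (by omega) hm.2.2
        omega
      · rw [mem_filter] at hm hn
        have h3 : t ∣ (n - m') - (m - m') := Nat.dvd_sub hn.2.2 hm.2.2
        have := Nat.le_of_dvd (by omega) h3
        omega
    calc _ ≤ ∑ m ∈ (Icc 1 Y).filter (fun m => m' < m ∧ t ∣ m + m') ∪
          (Icc 1 Y).filter (fun m => m' < m ∧ t ∣ m - m'), u m :=
          sum_le_sum_of_subset_of_nonneg hsub fun m _ _ => hu0 m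
      _ ≤ ∑ m ∈ (Icc 1 Y).filter (fun m => m' < m ∧ t ∣ m + m'), u m +
          ∑ m ∈ (Icc 1 Y).filter (fun m => m' < m ∧ t ∣ m - m'), u m := by
          rw [← sum_union_inter]
          have : 0 ≤ ∑ m ∈ (Icc 1 Y).filter (fun m => m' < m ∧ t ∣ m + m') ∩
            (Icc 1 Y).filter (fun m => m' < m ∧ t ∣ m - m'), u m := sum_nonneg fun m _ => hu0 m
          linarith
      _ ≤ 2 / t * ∑ n ∈ Icc 1 Y, u n + 2 / t * ∑ n ∈ Icc 1 Y, u n := add_le_add ha hb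
      _ = _ := by ring
  refine (sum_le_sum h1).trans ?_
  rw [← mul_sum]
  exact le_of_eq (by ring)

lemma Vs_anti {ι : Type} {p : ι → ℕ} (hp : ∀ j, 2 ≤ p j) {s t : Finset ι} (h : s ⊆ t) : Vs p t ≤ Vs p s := by
  classical
  unfold Vs
  rw [← prod_sdiff h]
  have h1 : ∏ j ∈ t \ s, (1 - 1 / (p j : ℝ)) ≤ 1 := Vs_le hp (t \ s)
  have h2 : 0 ≤ ∏ j ∈ s, (1 - 1 / (p j : ℝ)) := (Vs_pos hp s).le
  exact mul_le_of_le_one_left h2 h1

/-- the arithmetic of a sequence of exponential growth -/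
structure ExpData (v : ℕ → ℤ) (rk : ℕ → ℕ) (w0 : ℕ) (C : ℝ) : Prop where
  coll : ∀ p : ℕ, p.Prime → w0 < p → ∀ m m' : ℕ, 1 ≤ m' → m' < m → (p : ℤ) ∣ v m - v m' →
    0 < rk p ∧ (rk p ∣ m + m' ∨ rk p ∣ m - m')
  sum : ∀ s : Finset ℕ, (∀ p ∈ s, p.Prime ∧ 0 < rk p) → ∑ p ∈ s, (p : ℝ) ^ (-(5 / 8) : ℝ) * (1 / rk p) ≤ C
  per : ∀ p : ℕ, p.Prime → ∃ t : ℕ, 1 ≤ t ∧ t ≤ p ^ 4 ∧ ∀ m, (p : ℤ) ∣ v (m + t) - v m

open Classical in
/-- the variance -/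
theorem var_exp {v : ℕ → ℤ} {rk : ℕ → ℕ} {w1 : ℕ} {C : ℝ} (h : ExpData v rk w1 C) :
    ∃ w2 : ℕ, 2 ≤ w2 ∧ ∀ w : ℕ, w2 ≤ w → ∀ z : ℕ → ℕ, Monotone z → ∀ Y : ℕ,
    ∑ m ∈ Icc 1 Y, ∑ m' ∈ Icc 1 Y, Vs pp (Jx 1 w (z m)) * Vs pp (Jx 1 w (z m')) *
      (∏ j ∈ Jx 1 w (z m) ∩ Jx 1 w (z m'), rf pp (fun _ => v m) (fun _ => v m') j - 1) ≤
    8 * C * (w : ℝ) ^ (-(1 / 8) : ℝ) * (∑ m ∈ Icc 1 Y, Vs pp (Jx 1 w (z m))) ^ 2 +
      ∑ m ∈ Icc 1 Y, Vs pp (Jx 1 w (z m)) := by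
  obtain ⟨w0, hw02, hlin⟩ := lin_bound4 1
  refine ⟨max w0 w1, hw02.trans (le_max_left _ _), fun w hw z hz Y => ?_⟩
  obtain ⟨u, hu⟩ : ∃ u : ℕ → ℝ, u = fun m => Vs pp (Jx 1 w (z m)) := ⟨_, rfl⟩
  have hp := pp_two (k := 1)
  have hu0 : ∀ n, 0 ≤ u n := fun n => by rw [hu]; exact (Vs_pos hp _).le
  have hua : Antitone u := by
    intro a b hab
    rw [hu]
    have hs : Jx 1 w (z a) ⊆ Jx 1 w (z b) := by
      intro j hj
      rw [mem_Jx] at hj ⊢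
      exact ⟨hj.1, hj.2.trans (hz hab)⟩
    show Vs pp (Jx 1 w (z b)) ≤ Vs pp (Jx 1 w (z a))
    exact Vs_anti hp hs
  have hww : (w0 : ℕ) ≤ w := (le_max_left _ _).trans hw
  have hw0 : 0 < w := by omega
  have hwr : (0 : ℝ) < w := by exact_mod_cast hw0
  obtain ⟨G, hG⟩ : ∃ G : ℕ → ℕ → ℝ, G = fun m m' => Vs pp (Jx 1 w (z m)) * Vs pp (Jx 1 w (z m')) *
      (∏ j ∈ Jx 1 w (z m) ∩ Jx 1 w (z m'), rf pp (fun _ => v m) (fun _ => v m') j - 1) := ⟨_, rfl⟩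
  -- the diagonal
  have hdiag : ∀ m, G m m ≤ u m := by
    intro m
    rw [hG, hu]
    simp only [inter_self]
    have e : ∏ j ∈ Jx 1 w (z m), rf pp (fun _ => v m) (fun _ => v m) j = (Vs pp (Jx 1 w (z m)))⁻¹ := by
      unfold Vs
      rw [← prod_inv_distrib]
      refine prod_congr rfl fun j _ => ?_
      unfold rf
      rw [if_pos (by rw [sub_self]; exact dvd_zero _)]
    rw [e]
    have h1 := Vs_pos hp (Jx 1 w (z m))
    have h2 := Vs_le hp (Jx 1 w (z m))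
    have h3 : Vs pp (Jx 1 w (z m)) * Vs pp (Jx 1 w (z m)) * ((Vs pp (Jx 1 w (z m)))⁻¹ - 1) =
      Vs pp (Jx 1 w (z m)) - Vs pp (Jx 1 w (z m)) ^ 2 := by
      field_simp
    rw [h3]
    nlinarith
  -- symmetry
  have hsym : ∀ m m', G m m' = G m' m := by
    intro m m'
    rw [hG]
    simp only
    rw [mul_comm (Vs pp (Jx 1 w (z m))), inter_comm]
    congr 2
    refine prod_congr rfl fun j _ => ?_
    unfold rf
    have : ((pp j : ℤ) ∣ v m - v m') ↔ ((pp j : ℤ) ∣ v m' - v m) := dvd_sub_comm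
    simp only [this]
  -- the other pairs
  obtain ⟨J, hJ⟩ : ∃ J : Finset (Ix 1), J = (Jx 1 w (z Y)).filter (fun j => 0 < rk (pp j)) := ⟨_, rfl⟩
  have hoff : ∀ m ∈ Icc 1 Y, ∀ m' ∈ Icc 1 Y, m' < m → G m m' ≤
      u m * u m' * ∑ j ∈ J, (if rk (pp j) ∣ m + m' ∨ rk (pp j) ∣ m - m' then
        (w : ℝ) ^ (-(1 / 8) : ℝ) * (pp j : ℝ) ^ (-(5 / 8) : ℝ) else 0) := by
    intro m hm m' hm' hlt
    rw [mem_Icc] at hm hm'
    rw [hG, hu]
    simp only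
    refine mul_le_mul_of_nonneg_left ?_ (mul_nonneg (Vs_pos hp _).le (Vs_pos hp _).le)
    obtain ⟨I, hI⟩ : ∃ I : Finset (Ix 1), I = (Jx 1 w (z m) ∩ Jx 1 w (z m')).filter
      (fun j => (pp j : ℤ) ∣ v m - v m') := ⟨_, rfl⟩
    have e1 : ∏ j ∈ Jx 1 w (z m) ∩ Jx 1 w (z m'), rf pp (fun _ => v m) (fun _ => v m') j =
        ∏ j ∈ I, (1 - 1 / (pp j : ℝ))⁻¹ := by
      rw [hI, prod_filter]
      refine prod_congr rfl fun j _ => ?_
      unfold rf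
      rfl
    have h1 : ∏ j ∈ I, (1 - 1 / (pp j : ℝ))⁻¹ ≤ 1 + ∑ j ∈ I, (pp j : ℝ) ^ (-(3 / 4) : ℝ) := by
      refine hlin I fun j hj => ?_
      rw [hI, mem_filter, mem_inter, mem_Jx] at hj
      exact lt_of_le_of_lt hww hj.1.1.1
    have h2 : ∑ j ∈ I, (pp j : ℝ) ^ (-(3 / 4) : ℝ) ≤ ∑ j ∈ J, (if rk (pp j) ∣ m + m' ∨ rk (pp j) ∣ m - m' then
        (w : ℝ) ^ (-(1 / 8) : ℝ) * (pp j : ℝ) ^ (-(5 / 8) : ℝ) else 0) := by
      rw [← sum_filter]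
      have hsub : I ⊆ J.filter (fun j => rk (pp j) ∣ m + m' ∨ rk (pp j) ∣ m - m') := by
        intro j hj
        rw [hI, mem_filter, mem_inter, mem_Jx, mem_Jx] at hj
        have h3 := h.coll (pp j) j.1.2 (lt_of_le_of_lt ((le_max_right _ _).trans hw) hj.1.1.1) m m'
          hm'.1 hlt hj.2
        rw [mem_filter, hJ, mem_filter, mem_Jx]
        exact ⟨⟨⟨hj.1.1.1, hj.1.1.2.trans (hz hm.2)⟩, h3.1⟩, h3.2⟩
      refine le_trans (sum_le_sum fun j hj => ?_) (sum_le_sum_of_subset_of_nonneg hsub fun j _ _ => by positivity)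
      rw [hI, mem_filter, mem_inter, mem_Jx] at hj
      have hwj : (w : ℝ) ≤ pp j := by exact_mod_cast hj.1.1.1.le
      have hj0 : (0 : ℝ) < pp j := by linarith
      have e2 : (pp j : ℝ) ^ (-(3 / 4) : ℝ) = (pp j : ℝ) ^ (-(1 / 8) : ℝ) * (pp j : ℝ) ^ (-(5 / 8) : ℝ) := by
        rw [← Real.rpow_add hj0]
        norm_num
      rw [e2]
      refine mul_le_mul_of_nonneg_right ?_ (by positivity)
      exact Real.rpow_le_rpow_of_nonpos hwr hwj (by norm_num)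
    rw [e1]
    linarith
  -- the half of the pairs
  obtain ⟨A, hA⟩ : ∃ A : ℝ, A = ∑ n ∈ Icc 1 Y, u n := ⟨_, rfl⟩
  have hhalf : ∑ m' ∈ Icc 1 Y, ∑ m ∈ (Icc 1 Y).filter (fun m => m' < m), G m m' ≤
      4 * C * (w : ℝ) ^ (-(1 / 8) : ℝ) * A ^ 2 := by
    have h1 : ∑ m' ∈ Icc 1 Y, ∑ m ∈ (Icc 1 Y).filter (fun m => m' < m), G m m' ≤
        ∑ m' ∈ Icc 1 Y, ∑ m ∈ (Icc 1 Y).filter (fun m => m' < m), u m * u m' * ∑ j ∈ J,
          (if rk (pp j) ∣ m + m' ∨ rk (pp j) ∣ m - m' then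
          (w : ℝ) ^ (-(1 / 8) : ℝ) * (pp j : ℝ) ^ (-(5 / 8) : ℝ) else 0) := by
      refine sum_le_sum fun m' hm' => sum_le_sum fun m hm => ?_
      rw [mem_filter] at hm
      exact hoff m hm.1 m' hm' hm.2
    refine h1.trans ?_
    have e1 : ∑ m' ∈ Icc 1 Y, ∑ m ∈ (Icc 1 Y).filter (fun m => m' < m), u m * u m' * ∑ j ∈ J,
          (if rk (pp j) ∣ m + m' ∨ rk (pp j) ∣ m - m' then
          (w : ℝ) ^ (-(1 / 8) : ℝ) * (pp j : ℝ) ^ (-(5 / 8) : ℝ) else 0) =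
        ∑ j ∈ J, ((w : ℝ) ^ (-(1 / 8) : ℝ) * (pp j : ℝ) ^ (-(5 / 8) : ℝ)) *
          ∑ m' ∈ Icc 1 Y, ∑ m ∈ (Icc 1 Y).filter (fun m => m' < m ∧ (rk (pp j) ∣ m + m' ∨ rk (pp j) ∣ m - m')),
            u m * u m' := by
      simp_rw [mul_sum, sum_filter]
      rw [sum_comm (s := J)]
      refine sum_congr rfl fun m' _ => ?_
      rw [sum_comm (s := J)]
      refine sum_congr rfl fun m _ => ?_
      by_cases hlt : m' < m
      · rw [if_pos hlt]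
        refine sum_congr rfl fun j _ => ?_
        by_cases hd : rk (pp j) ∣ m + m' ∨ rk (pp j) ∣ m - m'
        · rw [if_pos hd, if_pos ⟨hlt, hd⟩]
          ring
        · rw [if_neg hd, if_neg (fun h' => hd h'.2)]
          ring
      · rw [if_neg hlt]
        symm
        refine sum_eq_zero fun j _ => ?_
        rw [if_neg (fun h' => hlt h'.1)]
    rw [e1]
    have h2 : ∀ j ∈ J, ((w : ℝ) ^ (-(1 / 8) : ℝ) * (pp j : ℝ) ^ (-(5 / 8) : ℝ)) *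
          ∑ m' ∈ Icc 1 Y, ∑ m ∈ (Icc 1 Y).filter (fun m => m' < m ∧ (rk (pp j) ∣ m + m' ∨ rk (pp j) ∣ m - m')),
            u m * u m' ≤ (4 * (w : ℝ) ^ (-(1 / 8) : ℝ) * A ^ 2) * ((pp j : ℝ) ^ (-(5 / 8) : ℝ) * (1 / rk (pp j))) := by
      intro j hj
      rw [hJ, mem_filter] at hj
      have h3 := pair_sum hua hu0 (Y := Y) (t := rk (pp j)) hj.2
      rw [← hA] at h3
      calc _ ≤ ((w : ℝ) ^ (-(1 / 8) : ℝ) * (pp j : ℝ) ^ (-(5 / 8) : ℝ)) * (4 / rk (pp j) * A ^ 2) :=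
            mul_le_mul_of_nonneg_left h3 (by positivity)
        _ = _ := by ring
    refine (sum_le_sum h2).trans ?_
    rw [← mul_sum]
    have h3 : ∑ j ∈ J, (pp j : ℝ) ^ (-(5 / 8) : ℝ) * (1 / rk (pp j)) ≤ C := by
      have hinj : Set.InjOn (fun j : Ix 1 => pp j) (J : Set (Ix 1)) := by
        intro a _ b _ hab
        have h4 : a.1 = b.1 := Subtype.ext hab
        exact Prod.ext h4 (Subsingleton.elim _ _)
      have h5 := h.sum (J.image pp) (fun p hp => by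
        rw [mem_image] at hp
        obtain ⟨j, hj, rfl⟩ := hp
        rw [hJ, mem_filter] at hj
        exact ⟨j.1.2, hj.2⟩)
      rwa [sum_image hinj] at h5
    calc (4 * (w : ℝ) ^ (-(1 / 8) : ℝ) * A ^ 2) * ∑ j ∈ J, (pp j : ℝ) ^ (-(5 / 8) : ℝ) * (1 / rk (pp j))
        ≤ (4 * (w : ℝ) ^ (-(1 / 8) : ℝ) * A ^ 2) * C := mul_le_mul_of_nonneg_left h3 (by positivity)
      _ = _ := by ring
  -- all the pairs
  have hsplit : ∑ m ∈ Icc 1 Y, ∑ m' ∈ Icc 1 Y, G m m' =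
      ∑ m' ∈ Icc 1 Y, ∑ m ∈ (Icc 1 Y).filter (fun m => m' < m), G m m' +
      ∑ m' ∈ Icc 1 Y, ∑ m ∈ (Icc 1 Y).filter (fun m => m' < m), G m m' + ∑ m ∈ Icc 1 Y, G m m := by
    have e1 : ∑ m' ∈ Icc 1 Y, ∑ m ∈ (Icc 1 Y).filter (fun m => m' < m), G m m' =
        ∑ m ∈ Icc 1 Y, ∑ m' ∈ Icc 1 Y, if m' < m then G m m' else 0 := by
      simp_rw [sum_filter]
      exact sum_comm
    have e2 : ∑ m' ∈ Icc 1 Y, ∑ m ∈ (Icc 1 Y).filter (fun m => m' < m), G m m' =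
        ∑ m ∈ Icc 1 Y, ∑ m' ∈ Icc 1 Y, if m < m' then G m m' else 0 := by
      simp_rw [sum_filter]
      refine sum_congr rfl fun m _ => sum_congr rfl fun m' _ => ?_
      rw [hsym]
    have e3 : ∑ m ∈ Icc 1 Y, G m m = ∑ m ∈ Icc 1 Y, ∑ m' ∈ Icc 1 Y, if m' = m then G m m' else 0 := by
      refine sum_congr rfl fun m hm => ?_
      rw [sum_ite_eq' (Icc 1 Y) m (fun m' => G m m'), if_pos hm]
    nth_rewrite 1 [e1]
    rw [e2, e3, ← sum_add_distrib, ← sum_add_distrib]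
    refine sum_congr rfl fun m _ => ?_
    rw [← sum_add_distrib, ← sum_add_distrib]
    refine sum_congr rfl fun m' _ => ?_
    rcases lt_trichotomy m' m with h1 | h1 | h1
    · rw [if_pos h1, if_neg (by omega), if_neg (by omega)]
      ring
    · rw [if_neg (by omega), if_neg (by omega), if_pos h1]
      ring
    · rw [if_neg (by omega), if_pos h1, if_neg (by omega)]
      ring
  have hd2 : ∑ m ∈ Icc 1 Y, G m m ≤ A := by
    rw [hA]
    exact sum_le_sum fun m _ => hdiag m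
  have eG : ∑ m ∈ Icc 1 Y, ∑ m' ∈ Icc 1 Y, Vs pp (Jx 1 w (z m)) * Vs pp (Jx 1 w (z m')) *
      (∏ j ∈ Jx 1 w (z m) ∩ Jx 1 w (z m'), rf pp (fun _ => v m) (fun _ => v m') j - 1) =
      ∑ m ∈ Icc 1 Y, ∑ m' ∈ Icc 1 Y, G m m' := by rw [hG]
  have eA : ∑ m ∈ Icc 1 Y, Vs pp (Jx 1 w (z m)) = A := by rw [hA, hu]
  rw [eG, eA, hsplit]
  linarith

end Pool.Agent.L5helper2.RS
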