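import Pool.Agent.L5helper2.RS.E3

/-! Project RS (helper2): growth of the expected counts. -/

set_option autoImplicit false

namespace Pool.Agent.L5helper2.RS

open Finset MeasureTheory ProbabilityTheory Filter Topology

/-- the sequence of the small levels -/
def ws (k : ℕ) : ℕ := (k + 1) ^ 64

/-- the sequence of the lengths -/
def Ys (k : ℕ) : ℕ := 2 ^ ((k + 1) ^ 256)

lemma ws_mono : StrictMono ws := by
  intro a b h
  exact Nat.pow_lt_pow_left (by omega) (by norm_num)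

lemma Ys_mono : StrictMono Ys := by
  intro a b h
  exact Nat.pow_lt_pow_right (by norm_num) (Nat.pow_lt_pow_left (by omega) (by norm_num))

lemma Vp_inv : ∃ K : ℝ, 0 < K ∧ ∀ᶠ n : ℕ in atTop, (Vp n)⁻¹ ≤ K * Real.log n := by
  obtain ⟨c, hc⟩ : ∃ c : ℝ, c = Real.exp (-Real.eulerMascheroniConstant) := ⟨_, rfl⟩
  have hc0 : 0 < c := by rw [hc]; exact Real.exp_pos _
  have h := Vp_mertens
  rw [← hc] at h
  refine ⟨2 / c, by positivity, ?_⟩
  filter_upwards [h.eventually_const_le (show c / 2 < c by linarith), eventually_ge_atTop 2] with n h1 h2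
  have hV := Vp_pos n
  rw [inv_le_iff_one_le_mul₀ hV]
  have : 2 / c * Real.log n * Vp n = (2 / c) * (Vp n * Real.log n) := by ring
  rw [this]
  calc (1 : ℝ) = 2 / c * (c / 2) := by field_simp
    _ ≤ _ := mul_le_mul_of_nonneg_left h1 (by positivity)

lemma g1 : ∀ᶠ k : ℕ in atTop, (Vp (ws k))⁻¹ ≤ (k : ℝ) + 1 := by
  obtain ⟨K, hK, h⟩ := Vp_inv
  have h1 := (ws_mono.tendsto_atTop).eventually h
  have h2 := (Real.isLittleO_log_id_atTop.bound (show (0 : ℝ) < 1 / (64 * K) by positivity))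
  have h3 : Tendsto (fun k : ℕ => (k : ℝ) + 1) atTop atTop :=
    tendsto_atTop_add_const_right _ _ tendsto_natCast_atTop_atTop
  filter_upwards [h1, h3.eventually h2] with k hk1 hk2
  have hk0 : (0 : ℝ) ≤ k := by positivity
  rw [Real.norm_of_nonneg (Real.log_nonneg (by linarith)), id, Real.norm_of_nonneg (by positivity)] at hk2
  refine hk1.trans ?_
  have e : Real.log (ws k : ℕ) = 64 * Real.log ((k : ℝ) + 1) := by
    unfold ws
    push_cast
    rw [Real.log_pow]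
    norm_num
  rw [e]
  calc K * (64 * Real.log ((k : ℝ) + 1)) = (64 * K) * Real.log ((k : ℝ) + 1) := by ring
    _ ≤ (64 * K) * (1 / (64 * K) * ((k : ℝ) + 1)) := mul_le_mul_of_nonneg_left hk2 (by positivity)
    _ = _ := by field_simp

/-- the ratio of consecutive products -/
lemma Vp_ratio : Tendsto (fun k => Vp (ws (k + 1)) / Vp (ws k)) atTop (𝓝 1) := by
  obtain ⟨c, hc⟩ : ∃ c : ℝ, c = Real.exp (-Real.eulerMascheroniConstant) := ⟨_, rfl⟩
  have hc0 : 0 < c := by rw [hc]; exact Real.exp_pos _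
  have h := Vp_mertens
  rw [← hc] at h
  have h1 := h.comp ws_mono.tendsto_atTop
  have h2 := h1.comp (tendsto_add_atTop_nat 1)
  have h3 := h2.div h1 hc0.ne'
  rw [div_self hc0.ne'] at h3
  -- the logarithms
  have h4 : Tendsto (fun k : ℕ => Real.log ((k : ℝ) + 1) / Real.log ((k : ℝ) + 2)) atTop (𝓝 1) := by
    have h5 : Tendsto (fun k : ℕ => 1 - 1 / Real.log ((k : ℝ) + 2)) atTop (𝓝 1) := by
      have h6 : Tendsto (fun k : ℕ => Real.log ((k : ℝ) + 2)) atTop atTop :=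
        Real.tendsto_log_atTop.comp (tendsto_atTop_add_const_right _ _ tendsto_natCast_atTop_atTop)
      have := (tendsto_const_nhds (x := (1 : ℝ))).div_atTop h6
      simpa using this.const_sub 1
    refine tendsto_of_tendsto_of_tendsto_of_le_of_le' h5 tendsto_const_nhds ?_ ?_
    · filter_upwards [eventually_ge_atTop 1] with k hk
      have hk0 : (1 : ℝ) ≤ k := by exact_mod_cast hk
      have hl2 : 0 < Real.log ((k : ℝ) + 2) := Real.log_pos (by linarith)
      have hl : Real.log ((k : ℝ) + 2) ≤ Real.log ((k : ℝ) + 1) + 1 := by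
        have h7 : Real.log (((k : ℝ) + 2) / ((k : ℝ) + 1)) ≤ ((k : ℝ) + 2) / ((k : ℝ) + 1) - 1 :=
          Real.log_le_sub_one_of_pos (by positivity)
        rw [Real.log_div (by positivity) (by positivity)] at h7
        have h8 : ((k : ℝ) + 2) / ((k : ℝ) + 1) ≤ 2 := by
          rw [div_le_iff₀ (by linarith)]
          linarith
        linarith
      rw [le_div_iff₀ hl2, sub_mul, one_mul, div_mul_cancel₀ _ hl2.ne']
      linarith
    · filter_upwards [eventually_ge_atTop 1] with k hk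
      have hk0 : (1 : ℝ) ≤ k := by exact_mod_cast hk
      have hl2 : 0 < Real.log ((k : ℝ) + 2) := Real.log_pos (by linarith)
      rw [div_le_one hl2]
      exact Real.log_le_log (by linarith) (by linarith)
  have h5 := h3.mul h4
  rw [mul_one] at h5
  refine h5.congr' ?_
  filter_upwards [eventually_ge_atTop 1] with k hk
  have hk0 : (1 : ℝ) ≤ k := by exact_mod_cast hk
  have e1 : Real.log (ws k : ℕ) = 64 * Real.log ((k : ℝ) + 1) := by
    unfold ws
    push_cast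
    rw [Real.log_pow]
    norm_num
  have e2 : Real.log (ws (k + 1) : ℕ) = 64 * Real.log ((k : ℝ) + 2) := by
    unfold ws
    push_cast
    rw [Real.log_pow, add_assoc]
    norm_num
  have hl1 : 0 < Real.log ((k : ℝ) + 1) := Real.log_pos (by linarith)
  have hl2 : 0 < Real.log ((k : ℝ) + 2) := Real.log_pos (by linarith)
  have hV := Vp_pos (ws k)
  simp only [Function.comp, Pi.div_apply, e1, e2]
  field_simp

/-- the expected counts -/
noncomputable def AA (z : ℕ → ℕ) (Y : ℕ) : ℝ := ∑ m ∈ Icc 1 Y, Vp (z m)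

lemma AA_nonneg (z : ℕ → ℕ) (Y : ℕ) : 0 ≤ AA z Y := sum_nonneg fun m _ => (Vp_pos _).le

lemma AA_up {z : ℕ → ℕ} {c : ℝ} (h : Tendsto (fun m : ℕ => (m : ℝ) * Vp (z m)) atTop (𝓝 c)) :
    ∃ C0 : ℝ, 0 < C0 ∧ ∀ Y : ℕ, 1 ≤ Y → AA z Y ≤ C0 * (1 + Real.log Y) := by
  obtain ⟨B, hB⟩ := h.bddAbove_range
  refine ⟨max B 1, lt_of_lt_of_le one_pos (le_max_right _ _), fun Y hY => ?_⟩
  have h1 : ∀ m ∈ Icc 1 Y, Vp (z m) ≤ max B 1 * ((m : ℝ))⁻¹ := by
    intro m hm
    have hm0 : (0 : ℝ) < m := by exact_mod_cast (mem_Icc.1 hm).1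
    have h2 : (m : ℝ) * Vp (z m) ≤ B := hB ⟨m, rfl⟩
    rw [← div_eq_mul_inv, le_div_iff₀ hm0]
    linarith [le_max_left B 1]
  unfold AA
  refine (sum_le_sum h1).trans ?_
  rw [← mul_sum]
  refine mul_le_mul_of_nonneg_left ?_ (by positivity)
  have h3 := harmonic_le_one_add_log Y
  rw [harmonic_eq_sum_Icc] at h3
  push_cast at h3
  exact h3

lemma AA_log {z : ℕ → ℕ} {c : ℝ} (h : Tendsto (fun m : ℕ => (m : ℝ) * Vp (z m)) atTop (𝓝 c)) :
    Tendsto (fun Y : ℕ => AA z Y / Real.log Y) atTop (𝓝 c) := by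
  -- sums over `range`
  have hl : Tendsto (fun n : ℕ => Real.log n) atTop atTop := Real.tendsto_log_atTop.comp tendsto_natCast_atTop_atTop
  have hH : Tendsto (fun n : ℕ => (harmonic n : ℝ) / Real.log n) atTop (𝓝 1) := by
    have h1 := (Real.tendsto_harmonic_sub_log).div_atTop hl
    have h2 := h1.add_const 1
    rw [zero_add] at h2
    refine h2.congr' ?_
    filter_upwards [eventually_ge_atTop 2] with n hn
    have hn0 : (2 : ℝ) ≤ n := by exact_mod_cast hn
    have : Real.log n ≠ 0 := (Real.log_pos (by linarith)).ne'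
    field_simp
    ring
  have hHt : Tendsto (fun n : ℕ => (harmonic n : ℝ)) atTop atTop := by
    have h1 := hH.pos_mul_atTop one_pos hl
    refine h1.congr' ?_
    filter_upwards [eventually_ge_atTop 2] with n hn
    have hn0 : (2 : ℝ) ≤ n := by exact_mod_cast hn
    have : Real.log n ≠ 0 := (Real.log_pos (by linarith)).ne'
    field_simp
  have h1 : (fun n : ℕ => Vp (z (n + 1)) - c * ((n : ℝ) + 1)⁻¹) =o[atTop] fun n : ℕ => ((n : ℝ) + 1)⁻¹ := by
    rw [Asymptotics.isLittleO_iff_tendsto (fun n hn => absurd hn (by positivity))]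
    have h2 := (h.comp (tendsto_add_atTop_nat 1)).sub_const c
    rw [sub_self] at h2
    refine h2.congr fun n => ?_
    simp only [Function.comp]
    push_cast
    have : (n : ℝ) + 1 ≠ 0 := by positivity
    field_simp
  have h2 := h1.sum_range (fun n => by positivity) (by
    refine hHt.congr fun n => ?_
    unfold harmonic
    push_cast
    rfl)
  have e1 : ∀ n : ℕ, ∑ i ∈ range n, ((i : ℝ) + 1)⁻¹ = harmonic n := by
    intro n
    unfold harmonic
    push_cast
    rfl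
  have e2 : ∀ n : ℕ, ∑ i ∈ range n, (Vp (z (i + 1)) - c * ((i : ℝ) + 1)⁻¹) = AA z n - c * harmonic n := by
    intro n
    rw [sum_sub_distrib, ← mul_sum, e1]
    congr 1
    unfold AA
    rw [range_eq_Ico, sum_Ico_add' (fun i => Vp (z i)) 0 n 1]
    rfl
  simp only [e1, e2] at h2
  have h3 := h2.tendsto_div_nhds_zero
  have h4 := (h3.mul hH).add (hH.const_mul c)
  rw [zero_mul, zero_add, mul_one] at h4
  refine h4.congr' ?_
  filter_upwards [eventually_ge_atTop 2] with n hn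
  have hn0 : (2 : ℝ) ≤ n := by exact_mod_cast hn
  have hlog : Real.log n ≠ 0 := (Real.log_pos (by linarith)).ne'
  have hh : (harmonic n : ℝ) ≠ 0 := by
    have : (0 : ℚ) < harmonic n := harmonic_pos (by omega)
    exact_mod_cast this.ne'
  field_simp
  ring

lemma log_Ys (k : ℕ) : Real.log (Ys k : ℕ) = ((k : ℝ) + 1) ^ 256 * Real.log 2 := by
  unfold Ys
  push_cast
  rw [Real.log_pow]
  push_cast
  ring

lemma AA_low {z : ℕ → ℕ} {c : ℝ} (hc : 0 < c) (h : Tendsto (fun m : ℕ => (m : ℝ) * Vp (z m)) atTop (𝓝 c)) :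
    ∀ᶠ k : ℕ in atTop, ((k : ℝ) + 1) ^ 200 ≤ AA z (Ys k) := by
  have h1 := ((AA_log h).comp Ys_mono.tendsto_atTop).eventually_const_le (show c / 2 < c by linarith)
  have h3 : Tendsto (fun k : ℕ => (k : ℝ) + 1) atTop atTop :=
    tendsto_atTop_add_const_right _ _ tendsto_natCast_atTop_atTop
  have hl2 : 0 < Real.log 2 := Real.log_pos (by norm_num)
  filter_upwards [h1, h3.eventually_ge_atTop (2 / (c * Real.log 2)), h3.eventually_ge_atTop 1] with k hk1 hk2 hk3
  have hk0 : (0 : ℝ) < (k : ℝ) + 1 := by linarith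
  simp only [Function.comp] at hk1
  rw [log_Ys, le_div_iff₀ (by positivity)] at hk1
  refine le_trans ?_ hk1
  rw [div_le_iff₀ (by positivity)] at hk2
  have h5 : ((k : ℝ) + 1) ^ 201 ≤ ((k : ℝ) + 1) ^ 256 := pow_le_pow_right₀ hk3 (Nat.le_add_right 201 55)
  calc ((k : ℝ) + 1) ^ 200 = ((k : ℝ) + 1) ^ 200 * 2 / 2 := by ring
    _ ≤ ((k : ℝ) + 1) ^ 200 * (((k : ℝ) + 1) * (c * Real.log 2)) / 2 :=
      div_le_div_of_nonneg_right (mul_le_mul_of_nonneg_left hk2 (pow_pos hk0 200).le) (by norm_num)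
    _ = c / 2 * (((k : ℝ) + 1) ^ 201 * Real.log 2) := by ring
    _ ≤ _ := mul_le_mul_of_nonneg_left (mul_le_mul_of_nonneg_right h5 hl2.le) (by linarith)

lemma AA_low1 {z : ℕ → ℕ} {c : ℝ} (hc : 0 < c) (h : Tendsto (fun m : ℕ => (m : ℝ) * Vp (z m)) atTop (𝓝 c)) :
    ∀ᶠ k : ℕ in atTop, ((k : ℝ) + 1) ^ 5 ≤ AA z (Ys k) := by
  filter_upwards [AA_low hc h] with k hk
  refine le_trans ?_ hk
  exact pow_le_pow_right₀ (by linarith [(Nat.cast_nonneg k : (0 : ℝ) ≤ k)]) (Nat.le_add_right 5 195)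

lemma AA_low2 {z : ℕ → ℕ} {c : ℝ} (hc : 0 < c) (h : Tendsto (fun m : ℕ => (m : ℝ) * Vp (z m)) atTop (𝓝 c)) :
    ∀ᶠ k : ℕ in atTop, ((ws k : ℕ) : ℝ) ^ 3 * ((k : ℝ) + 1) ≤ AA z (Ys k) := by
  filter_upwards [AA_low hc h] with k hk
  refine le_trans ?_ hk
  have e : ((ws k : ℕ) : ℝ) ^ 3 * ((k : ℝ) + 1) = ((k : ℝ) + 1) ^ (64 * 3 + 1) := by
    rw [pow_succ ((k : ℝ) + 1) (64 * 3), pow_mul ((k : ℝ) + 1) 64 3]
    unfold ws
    push_cast
    rfl
  rw [e]
  exact pow_le_pow_right₀ (by linarith [(Nat.cast_nonneg k : (0 : ℝ) ≤ k)]) (Nat.le_add_right (64 * 3 + 1) 7)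

lemma rpow_ws (k : ℕ) : ((ws k : ℕ) : ℝ) ^ (-(1 / 8) : ℝ) = (((k : ℝ) + 1) ^ 8)⁻¹ := by
  have hk : (0 : ℝ) ≤ (k : ℝ) + 1 := by positivity
  unfold ws
  push_cast
  rw [← Real.rpow_natCast, ← Real.rpow_mul hk, ← Real.rpow_natCast, ← Real.rpow_neg hk]
  norm_num

lemma ws_ge (k : ℕ) : k ≤ ws k := by
  unfold ws
  calc k ≤ k + 1 := by omega
    _ = (k + 1) ^ 1 := (pow_one _).symm
    _ ≤ (k + 1) ^ 64 := Nat.pow_le_pow_right (by omega) (by norm_num)

lemma log_Ys_ratio : Tendsto (fun k => Real.log (Ys (k + 1) : ℕ) / Real.log (Ys k : ℕ)) atTop (𝓝 1) := by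
  have h1 : Tendsto (fun k : ℕ => (1 + 1 / ((k : ℝ) + 1)) ^ 256) atTop (𝓝 1) := by
    have h2 : Tendsto (fun k : ℕ => 1 + 1 / ((k : ℝ) + 1)) atTop (𝓝 1) := by
      have := (tendsto_one_div_add_atTop_nhds_zero_nat (𝕜 := ℝ)).const_add 1
      simpa using this
    simpa using h2.pow 256
  refine h1.congr fun k => ?_
  rw [log_Ys, log_Ys]
  have hl2 : Real.log 2 ≠ 0 := (Real.log_pos (by norm_num)).ne'
  have hk : (k : ℝ) + 1 ≠ 0 := by positivity
  push_cast
  rw [mul_div_mul_right _ _ hl2, ← div_pow]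
  congr 1
  field_simp

attribute [irreducible] ws Ys

end Pool.Agent.L5helper2.RS
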