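import Pool.Agent.L5helper2.RS.E4

/-! Project RS (helper2): the counting of the survivors in sequences of exponential growth. -/

set_option autoImplicit false

namespace Pool.Agent.L5helper2.RS

open Finset MeasureTheory ProbabilityTheory Filter Topology

variable {Ω : Type} [MeasurableSpace Ω] {P : Measure Ω} {X : Ix 1 → Ω → ℕ}

/-- `m` survives the primes up to `w` -/
def Sv (X : Ix 1 → Ω → ℕ) (v : ℕ → ℤ) (w : ℕ) (ω : Ω) (m : ℕ) : Prop :=
  ω ∈ Av (pp (k := 1)) X (Jx 1 0 w) (fun _ => v m)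

lemma sv_iff {v : ℕ → ℤ} {w : ℕ} {ω : Ω} {m : ℕ} :
    Sv X v w ω m ↔ ∀ j : Ix 1, pp j ≤ w → ¬ ((pp j : ℤ) ∣ v m - X j ω) := by
  unfold Sv Av Bd
  simp only [Set.mem_iInter, Set.mem_preimage, Set.mem_compl_iff]
  constructor
  · intro h j hj
    exact h j (mem_Jx.2 ⟨lt_of_lt_of_le (by norm_num) (pp_two j), hj⟩)
  · intro h j hj
    exact h j (mem_Jx.1 hj).2

lemma sv_anti {v : ℕ → ℤ} {w w' : ℕ} (h : w ≤ w') {ω : Ω} {m : ℕ} (hm : Sv X v w' ω m) : Sv X v w ω m := by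
  rw [sv_iff] at hm ⊢
  exact fun j hj => hm j (hj.trans h)

lemma sv_per {v : ℕ → ℤ} {Q : ℕ → ℕ} (hQ : ∀ w p : ℕ, p.Prime → p ≤ w → ∀ m, (p : ℤ) ∣ v (m + Q w) - v m)
    {w w' : ℕ} (hw : w ≤ w') (ω : Ω) : ∀ n, Sv X v w ω (n + Q w') ↔ Sv X v w ω n := by
  intro n
  rw [sv_iff, sv_iff]
  refine forall_congr' fun j => imp_congr_right fun hj => not_congr ?_
  have h1 := hQ w' (pp j) j.1.2 (hj.trans hw) n
  constructor
  · intro h2
    have := dvd_sub h2 h1
    have e : v (n + Q w') - (X j ω : ℤ) - (v (n + Q w') - v n) = v n - X j ω := by ring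
    rwa [e] at this
  · intro h2
    have := dvd_add h2 h1
    have e : v n - (X j ω : ℤ) + (v (n + Q w') - v n) = v (n + Q w') - X j ω := by ring
    rwa [e] at this

open Classical in
/-- the error of the second moment -/
noncomputable def Err (X : Ix 1 → Ω → ℕ) (v : ℕ → ℤ) (z : ℕ → ℕ) (w Y : ℕ) (ω : Ω) : ℝ :=
  ∑ m ∈ Icc 1 Y, ((Av pp X (Jx 1 0 w ∪ Jx 1 w (z m)) (fun _ => v m)).indicator (fun _ => (1 : ℝ)) ω -
    Vs pp (Jx 1 w (z m)) * (Av pp X (Jx 1 0 w) (fun _ => v m)).indicator (fun _ => (1 : ℝ)) ω)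

open Classical in
lemma Err_eq (v : ℕ → ℤ) (z : ℕ → ℕ) (w Y : ℕ) (ω : Ω) :
    Err X v z w Y ω = #((Icc 1 Y).filter (fun m => Sv X v (max w (z m)) ω m)) -
      ∑ m ∈ (Icc 1 Y).filter (Sv X v w ω), Vs pp (Jx 1 w (z m)) := by
  unfold Err
  rw [sum_sub_distrib]
  congr 1
  · rw [card_filter]
    push_cast
    refine sum_congr rfl fun m _ => ?_
    rw [Jx_union, Set.indicator_apply]
    rfl
  · rw [sum_filter]
    refine sum_congr rfl fun m _ => ?_
    rw [Set.indicator_apply]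
    unfold Sv
    split_ifs <;> simp

/-- intersections do not depend on the instance -/
lemma inter_inst {α : Type} (i1 i2 : DecidableEq α) (s t : Finset α) :
    @Inter.inter _ (@Finset.instInter α i1) s t = @Inter.inter _ (@Finset.instInter α i2) s t := by
  rw [Subsingleton.elim i1 i2]

lemma prob_err (h : RSys P (pp (k := 1)) X) {v : ℕ → ℤ} {rk : ℕ → ℕ} {w1 : ℕ} {C : ℝ} (hv : ExpData v rk w1 C) :
    ∃ w2 : ℕ, ∀ w : ℕ, w2 ≤ w → ∀ z : ℕ → ℕ, Monotone z → ∀ Y : ℕ, ∀ δ : ℝ, 0 < δ →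
    P.real {ω | δ ≤ |Err X v z w Y ω|} ≤
      (8 * C * (w : ℝ) ^ (-(1 / 8) : ℝ) * (∑ m ∈ Icc 1 Y, Vs pp (Jx 1 w (z m))) ^ 2 +
      ∑ m ∈ Icc 1 Y, Vs pp (Jx 1 w (z m))) / δ ^ 2 := by
  obtain ⟨w2, _, hw2⟩ := var_exp hv
  refine ⟨w2, fun w hw z hz Y δ hδ => ?_⟩
  have h1 := h.cheb (Icc 1 Y) (Jx 1 0 w) (fun m => Jx 1 w (z m)) (fun m => Jx_disj w (z m)) (fun m _ => v m) δ hδ
  simp only [Jx_union] at h1
  have h2 := hw2 w hw z hz Y
  have h3 : ∀ ω, Err X v z w Y ω = ∑ m ∈ Icc 1 Y, ((Av pp X (Jx 1 0 (max w (z m))) (fun _ => v m)).indicator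
      (fun _ => (1 : ℝ)) ω - Vs pp (Jx 1 w (z m)) * (Av pp X (Jx 1 0 w) (fun _ => v m)).indicator
      (fun _ => (1 : ℝ)) ω) := by
    intro ω
    unfold Err
    simp only [Jx_union]
  simp only [h3]
  refine h1.trans (div_le_div_of_nonneg_right (le_trans (le_of_eq ?_) h2) (by positivity))
  refine sum_congr rfl fun m _ => sum_congr rfl fun m' _ => ?_
  refine congrArg (fun t : ℝ => Vs pp (Jx 1 w (z m)) * Vs pp (Jx 1 w (z m')) * (t - 1)) ?_
  exact prod_congr (inter_inst _ _ _ _) fun j _ => rfl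

open Classical in
/-- the deterministic part -/
lemma det_count {v : ℕ → ℤ} {Q : ℕ → ℕ} (hQ1 : ∀ w, 1 ≤ Q w)
    (hQ : ∀ w p : ℕ, p.Prime → p ≤ w → ∀ m, (p : ℤ) ∣ v (m + Q w) - v m)
    {z : ℕ → ℕ} (hz : Monotone z) (hzm : ∀ m, m ≤ z m) (w Y : ℕ) (ω : Ω) :
    |(#((Icc 1 Y).filter (fun m => Sv X v (z m) ω m)) : ℝ) - dens (Sv X v w ω) (Q w) / Vp w * AA z Y| ≤
      |Err X v z w Y ω| + w + AA z (Q w) / Vp w + w / Vp w := by
  have hp := pp_two (k := 1)
  obtain ⟨u, hu⟩ : ∃ u : ℕ → ℝ, u = fun m => Vs pp (Jx 1 w (z m)) := ⟨_, rfl⟩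
  have hu0 : ∀ n, 0 ≤ u n := fun n => by rw [hu]; exact (Vs_pos hp _).le
  have hua : Antitone u := by
    intro a b hab
    rw [hu]
    exact Vs_anti hp (Jx_mono (hz hab) w)
  have hV := Vp_pos w
  obtain ⟨N1, hN1⟩ : ∃ N1 : ℝ, N1 = #((Icc 1 Y).filter (fun m => Sv X v (z m) ω m)) := ⟨_, rfl⟩
  obtain ⟨N2, hN2⟩ : ∃ N2 : ℝ, N2 = #((Icc 1 Y).filter (fun m => Sv X v (max w (z m)) ω m)) := ⟨_, rfl⟩
  obtain ⟨N3, hN3⟩ : ∃ N3 : ℝ, N3 = ∑ m ∈ (Icc 1 Y).filter (Sv X v w ω), u m := ⟨_, rfl⟩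
  obtain ⟨U, hU⟩ : ∃ U : ℝ, U = ∑ m ∈ Icc 1 Y, u m := ⟨_, rfl⟩
  obtain ⟨D, hD⟩ : ∃ D : ℝ, D = dens (Sv X v w ω) (Q w) := ⟨_, rfl⟩
  -- the number of the small arguments
  have hsmall : #((Icc 1 Y).filter (fun m => z m < w)) ≤ w := by
    calc #((Icc 1 Y).filter (fun m => z m < w)) ≤ #(range w) := by
          refine card_le_card fun m hm => ?_
          rw [mem_filter] at hm
          rw [mem_range]
          exact lt_of_le_of_lt (hzm m) hm.2
      _ = w := card_range w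
  -- step 1
  have s1 : |N1 - N2| ≤ w := by
    have h1 : #((Icc 1 Y).filter (fun m => Sv X v (max w (z m)) ω m)) ≤
        #((Icc 1 Y).filter (fun m => Sv X v (z m) ω m)) := by
      refine card_le_card fun m hm => ?_
      rw [mem_filter] at hm ⊢
      exact ⟨hm.1, sv_anti (le_max_right _ _) hm.2⟩
    have h2 : #((Icc 1 Y).filter (fun m => Sv X v (z m) ω m)) ≤
        #((Icc 1 Y).filter (fun m => Sv X v (max w (z m)) ω m)) + #((Icc 1 Y).filter (fun m => z m < w)) := by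
      refine le_trans (card_le_card fun m hm => ?_) (card_union_le _ _)
      rw [mem_filter] at hm
      rw [mem_union, mem_filter, mem_filter]
      rcases Nat.lt_or_ge (z m) w with h | h
      · exact Or.inr ⟨hm.1, h⟩
      · left
        rw [max_eq_right h]
        exact hm
    have h3 : N2 ≤ N1 := by rw [hN1, hN2]; exact_mod_cast h1
    have h4 : N1 ≤ N2 + w := by
      rw [hN1, hN2]
      have := h2.trans (Nat.add_le_add_left hsmall _)
      exact_mod_cast this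
    rw [abs_le]
    constructor <;> linarith [(Nat.cast_nonneg w : (0 : ℝ) ≤ w)]
  -- step 2
  have s2 : N2 - N3 = Err X v z w Y ω := by
    rw [Err_eq, hN2, hN3, hu]
  -- step 3
  have s3 : |N3 - D * U| ≤ AA z (Q w) / Vp w := by
    have h1 := per_sum hua hu0 (hQ1 w) (sv_per hQ le_rfl ω) Y (S := Sv X v w ω)
    rw [← hD, ← hU, ← hN3] at h1
    refine h1.trans ?_
    rw [le_div_iff₀ hV]
    unfold AA
    rw [sum_mul]
    refine sum_le_sum fun m _ => ?_
    rw [hu, mul_comm]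
    exact (u_bounds w (z m)).1
  -- step 4
  have hD0 : 0 ≤ D := by rw [hD]; exact dens_nonneg _ _
  have hD1 : D ≤ 1 := by rw [hD]; exact dens_le _ (hQ1 w)
  have s4 : |D * U - D / Vp w * AA z Y| ≤ w / Vp w := by
    have h1 : Vp w * U ≤ AA z Y := by
      rw [hU, mul_sum]
      refine sum_le_sum fun m _ => ?_
      rw [hu]
      exact (u_bounds w (z m)).1
    have h2 : AA z Y - w ≤ Vp w * U := by
      have h3 : AA z Y - #((Icc 1 Y).filter (fun m => z m < w)) ≤ Vp w * U := by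
        rw [hU, mul_sum, card_filter]
        unfold AA
        push_cast
        rw [← sum_sub_distrib]
        refine sum_le_sum fun m _ => ?_
        rw [hu]
        exact (u_bounds w (z m)).2
      have h4 : (#((Icc 1 Y).filter (fun m => z m < w)) : ℝ) ≤ w := by exact_mod_cast hsmall
      linarith
    have e : D * U - D / Vp w * AA z Y = -(D * ((AA z Y - Vp w * U) / Vp w)) := by
      field_simp
      ring
    rw [e, abs_neg, abs_of_nonneg (mul_nonneg hD0 (div_nonneg (by linarith) hV.le))]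
    calc D * ((AA z Y - Vp w * U) / Vp w) ≤ 1 * ((AA z Y - Vp w * U) / Vp w) :=
          mul_le_mul_of_nonneg_right hD1 (div_nonneg (by linarith) hV.le)
      _ = (AA z Y - Vp w * U) / Vp w := one_mul _
      _ ≤ _ := div_le_div_of_nonneg_right (by linarith) hV.le
  rw [← hD, ← hN1]
  have e : N1 - D / Vp w * AA z Y = (N1 - N2) + (N2 - N3) + (N3 - D * U) + (D * U - D / Vp w * AA z Y) := by ring
  rw [e]
  refine (abs_add_le _ _).trans ?_
  refine (add_le_add ((abs_add_le _ _).trans (add_le_add (abs_add_le _ _) le_rfl)) le_rfl).trans ?_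
  rw [s2]
  linarith

end Pool.Agent.L5helper2.RS
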