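import Pool.Agent.L5helper2.RS.E5

/-! Project RS (helper2): the law for the survivors in sequences of exponential growth. -/

set_option autoImplicit false

namespace Pool.Agent.L5helper2.RS

open Finset MeasureTheory ProbabilityTheory Filter Topology

variable {Ω : Type} [MeasurableSpace Ω] {P : Measure Ω} {X : Ix 1 → Ω → ℕ}

lemma bc_F (h : RSys P (pp (k := 1)) X) {v : ℕ → ℤ} {rk : ℕ → ℕ} {w1 : ℕ} {C : ℝ} (hv : ExpData v rk w1 C)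
    {z : ℕ → ℕ} (hz : Monotone z) {c : ℝ} (hc : 0 < c)
    (hm : Tendsto (fun m : ℕ => (m : ℝ) * Vp (z m)) atTop (𝓝 c)) :
    ∀ᵐ ω ∂P, ∀ᶠ k : ℕ in atTop, |Err X v z (ws k) (Ys k) ω| < AA z (Ys k) / ((k : ℝ) + 1) := by
  have hP := h.prob
  have hC : 0 ≤ C := by simpa using hv.sum ∅ (fun p hp => absurd hp (notMem_empty p))
  obtain ⟨w2, hw2⟩ := prob_err h hv
  have key : ∀ᶠ k : ℕ in atTop, P.real {ω | AA z (Ys k) / ((k : ℝ) + 1) ≤ |Err X v z (ws k) (Ys k) ω|} ≤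
      (8 * C + 1) / ((k : ℝ) + 1) ^ 2 := by
    filter_upwards [eventually_ge_atTop w2, g1, AA_low1 hc hm] with k hk1 hk2 hk3
    obtain ⟨K, hK⟩ : ∃ K : ℝ, K = (k : ℝ) + 1 := ⟨_, rfl⟩
    rw [← hK] at hk2 hk3 ⊢
    have hK1 : 1 ≤ K := by rw [hK]; linarith [(Nat.cast_nonneg k : (0 : ℝ) ≤ k)]
    have hK0 : 0 < K := by linarith
    obtain ⟨A, hA⟩ : ∃ A : ℝ, A = AA z (Ys k) := ⟨_, rfl⟩
    rw [← hA] at hk3 ⊢
    have hA5 : K ^ 5 ≤ A := hk3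
    have hA0 : 0 < A := lt_of_lt_of_le (by positivity) hA5
    have h1 := hw2 (ws k) (hk1.trans (ws_ge k)) z hz (Ys k) (A / K) (by positivity)
    refine h1.trans ?_
    rw [rpow_ws, ← hK]
    obtain ⟨U, hU⟩ : ∃ U : ℝ, U = ∑ m ∈ Icc 1 (Ys k), Vs pp (Jx 1 (ws k) (z m)) := ⟨_, rfl⟩
    rw [← hU]
    have hU0 : 0 ≤ U := by rw [hU]; exact sum_nonneg fun m _ => (Vs_pos pp_two _).le
    have hUA : U ≤ K * A := by
      have h2 : Vp (ws k) * U ≤ A := by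
        rw [hU, hA, mul_sum]
        exact sum_le_sum fun m _ => (u_bounds (ws k) (z m)).1
      have hV := Vp_pos (ws k)
      calc U = (Vp (ws k))⁻¹ * (Vp (ws k) * U) := by field_simp
        _ ≤ K * A := mul_le_mul hk2 h2 (mul_nonneg hV.le hU0) hK0.le
    have hU2 : U ^ 2 ≤ K ^ 2 * A ^ 2 := by
      rw [← mul_pow]
      exact pow_le_pow_left₀ hU0 hUA 2
    rw [div_le_div_iff₀ (by positivity) (by positivity)]
    have e : (8 * C + 1) * (A / K) ^ 2 = (8 * C * A ^ 2 + A ^ 2) / K ^ 2 := by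
      field_simp
    rw [e, le_div_iff₀ (by positivity)]
    have h3 : 8 * C * (K ^ 8)⁻¹ * U ^ 2 * K ^ 2 * K ^ 2 ≤ 8 * C * A ^ 2 := by
      have h4 : (K ^ 8)⁻¹ * U ^ 2 * K ^ 2 * K ^ 2 ≤ A ^ 2 := by
        calc (K ^ 8)⁻¹ * U ^ 2 * K ^ 2 * K ^ 2 ≤ (K ^ 8)⁻¹ * (K ^ 2 * A ^ 2) * K ^ 2 * K ^ 2 := by gcongr
          _ = A ^ 2 / K ^ 2 := by field_simp
          _ ≤ A ^ 2 / 1 := by
            gcongr
            exact one_le_pow₀ hK1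
          _ = A ^ 2 := div_one _
      calc 8 * C * (K ^ 8)⁻¹ * U ^ 2 * K ^ 2 * K ^ 2 = 8 * C * ((K ^ 8)⁻¹ * U ^ 2 * K ^ 2 * K ^ 2) := by ring
        _ ≤ 8 * C * A ^ 2 := mul_le_mul_of_nonneg_left h4 (by positivity)
    have h4 : U * K ^ 2 * K ^ 2 ≤ A ^ 2 := by
      calc U * K ^ 2 * K ^ 2 ≤ (K * A) * K ^ 2 * K ^ 2 := by gcongr
        _ = K ^ 5 * A := by ring
        _ ≤ A * A := mul_le_mul_of_nonneg_right hA5 hA0.le
        _ = A ^ 2 := by ring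
    linarith
  filter_upwards [bc key] with ω hω
  filter_upwards [hω] with k hk
  by_contra h'
  exact hk (not_lt.1 h')

open Classical in
lemma bc_G (h : RSys P (pp (k := 1)) X) {v : ℕ → ℤ} {rk : ℕ → ℕ} {w1 : ℕ} {C : ℝ} (hv : ExpData v rk w1 C)
    {Q : ℕ → ℕ} (hQ1 : ∀ w, 1 ≤ Q w) (hQd : ∀ w w', w ≤ w' → Q w ∣ Q w')
    (hQ : ∀ w p : ℕ, p.Prime → p ≤ w → ∀ m, (p : ℤ) ∣ v (m + Q w) - v m) :
    ∀ᵐ ω ∂P, ∀ᶠ k : ℕ in atTop, |dens (Sv X v (ws (k + 1)) ω) (Q (ws (k + 1))) / Vp (ws (k + 1)) -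
      dens (Sv X v (ws k) ω) (Q (ws k)) / Vp (ws k)| ≤ 1 / ((k : ℝ) + 1) ^ 2 := by
  have hP := h.prob
  have hC : 0 ≤ C := by simpa using hv.sum ∅ (fun p hp => absurd hp (notMem_empty p))
  obtain ⟨w2, hw2⟩ := prob_err h hv
  obtain ⟨Yg, hYg⟩ : ∃ Yg : ℕ → ℕ, Yg = fun k => Q (ws (k + 1)) * (k + 1) ^ 9 := ⟨_, rfl⟩
  have key : ∀ᶠ k : ℕ in atTop, P.real {ω | (Yg k : ℝ) * Vp (ws (k + 1)) / ((k : ℝ) + 1) ^ 2 ≤
      |Err X v (fun _ => ws (k + 1)) (ws k) (Yg k) ω|} ≤ (8 * C + 2) / ((k : ℝ) + 1) ^ 2 := by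
    filter_upwards [eventually_ge_atTop w2, g1, (tendsto_add_atTop_nat 1).eventually g1] with k hk1 hk2 hk3
    obtain ⟨K, hK⟩ : ∃ K : ℝ, K = (k : ℝ) + 1 := ⟨_, rfl⟩
    push_cast at hk3
    rw [← hK] at hk2 hk3 ⊢
    have hK1 : 1 ≤ K := by rw [hK]; linarith [(Nat.cast_nonneg k : (0 : ℝ) ≤ k)]
    have hK0 : 0 < K := by linarith
    have hV := Vp_pos (ws k)
    have hV' := Vp_pos (ws (k + 1))
    obtain ⟨V, hVd⟩ : ∃ V : ℝ, V = Vs pp (Jx 1 (ws k) (ws (k + 1))) := ⟨_, rfl⟩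
    have hsp : Vp (ws (k + 1)) = Vp (ws k) * V := by
      rw [hVd, ← Vp_split, max_eq_right (ws_mono (Nat.lt_succ_self k)).le]
    have hV0 : 0 < V := by rw [hVd]; exact Vs_pos pp_two _
    obtain ⟨Y, hY⟩ : ∃ Y : ℝ, Y = (Yg k : ℝ) := ⟨_, rfl⟩
    have hY9 : K ^ 9 ≤ Y := by
      rw [hY, hYg, hK]
      push_cast
      have : (1 : ℝ) ≤ Q (ws (k + 1)) := by exact_mod_cast hQ1 (ws (k + 1))
      nlinarith [show (0 : ℝ) < ((k : ℝ) + 1) ^ 9 by positivity]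
    have hY0 : 0 < Y := lt_of_lt_of_le (by positivity) hY9
    rw [← hY]
    have h1 := hw2 (ws k) (hk1.trans (ws_ge k)) (fun _ => ws (k + 1)) monotone_const (Yg k)
      (Y * Vp (ws (k + 1)) / K ^ 2) (by positivity)
    refine h1.trans ?_
    rw [rpow_ws, ← hK, sum_const, Nat.card_Icc, Nat.add_sub_cancel, nsmul_eq_mul, ← hVd, ← hY, hsp]
    -- the bound
    have hVi : 1 / Vp (ws k) ≤ K := by rw [one_div]; exact hk2
    have h2 : 1 / (Y * V) ≤ 2 / K ^ 8 := by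
      have h3 : 1 / V ≤ 2 * K := by
        have h4 : 1 / V = Vp (ws k) * (Vp (ws (k + 1)))⁻¹ := by
          rw [hsp]
          field_simp
        rw [h4]
        calc Vp (ws k) * (Vp (ws (k + 1)))⁻¹ ≤ 1 * (K + 1) :=
              mul_le_mul (Vp_le _) hk3 (inv_pos.2 hV').le (by norm_num)
          _ ≤ 2 * K := by linarith
      calc 1 / (Y * V) = (1 / Y) * (1 / V) := by field_simp
        _ ≤ (1 / K ^ 9) * (2 * K) := by
          refine mul_le_mul ?_ h3 (by positivity) (by positivity)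
          exact one_div_le_one_div_of_le (by positivity) hY9
        _ = 2 / K ^ 8 := by field_simp
    have e : (8 * C * (K ^ 8)⁻¹ * (Y * V) ^ 2 + Y * V) / (Y * (Vp (ws k) * V) / K ^ 2) ^ 2 =
        (8 * C / K ^ 8 + 1 / (Y * V)) * K ^ 4 * (1 / Vp (ws k)) ^ 2 := by
      field_simp
    rw [e]
    have h5 : (1 / Vp (ws k)) ^ 2 ≤ K ^ 2 := pow_le_pow_left₀ (by positivity) hVi 2
    calc (8 * C / K ^ 8 + 1 / (Y * V)) * K ^ 4 * (1 / Vp (ws k)) ^ 2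
        ≤ (8 * C / K ^ 8 + 2 / K ^ 8) * K ^ 4 * K ^ 2 := by gcongr
      _ = (8 * C + 2) / K ^ 2 := by field_simp
  filter_upwards [bc key] with ω hω
  filter_upwards [hω] with k hk
  have h1 : |Err X v (fun _ => ws (k + 1)) (ws k) (Yg k) ω| < (Yg k : ℝ) * Vp (ws (k + 1)) / ((k : ℝ) + 1) ^ 2 := by
    by_contra h'
    exact hk (not_lt.1 h')
  obtain ⟨V, hVd⟩ : ∃ V : ℝ, V = Vs pp (Jx 1 (ws k) (ws (k + 1))) := ⟨_, rfl⟩
  have hlt := (ws_mono (Nat.lt_succ_self k)).le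
  have hsp : Vp (ws (k + 1)) = Vp (ws k) * V := by
    rw [hVd, ← Vp_split, max_eq_right hlt]
  have hV := Vp_pos (ws k)
  have hV' := Vp_pos (ws (k + 1))
  have hV0 : 0 < V := by rw [hVd]; exact Vs_pos pp_two _
  rw [Err_eq, sum_const, nsmul_eq_mul, ← hVd, max_eq_right hlt] at h1
  obtain ⟨q, hq⟩ := hQd (ws k) (ws (k + 1)) hlt
  have hYpos : (0 : ℝ) < Yg k := by
    rw [hYg]
    have := hQ1 (ws (k + 1))
    positivity
  have c1 : (#((Icc 1 (Yg k)).filter (fun m => Sv X v (ws (k + 1)) ω m)) : ℝ) =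
      dens (Sv X v (ws (k + 1)) ω) (Q (ws (k + 1))) * Yg k := by
    have := per_mul (hQ1 (ws (k + 1))) (sv_per (X := X) hQ (le_refl (ws (k + 1))) ω) ((k + 1) ^ 9)
    rw [hYg]
    exact this
  have c2 : (#((Icc 1 (Yg k)).filter (Sv X v (ws k) ω)) : ℝ) =
      dens (Sv X v (ws k) ω) (Q (ws k)) * Yg k := by
    have := per_mul (hQ1 (ws k)) (sv_per (X := X) hQ (le_refl (ws k)) ω) (q * (k + 1) ^ 9)
    rw [← Nat.mul_assoc, ← hq] at this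
    rw [hYg]
    exact this
  rw [c1, c2] at h1
  obtain ⟨D1, hD1⟩ : ∃ D1 : ℝ, D1 = dens (Sv X v (ws (k + 1)) ω) (Q (ws (k + 1))) := ⟨_, rfl⟩
  obtain ⟨D0, hD0⟩ : ∃ D0 : ℝ, D0 = dens (Sv X v (ws k) ω) (Q (ws k)) := ⟨_, rfl⟩
  rw [← hD1, ← hD0] at h1 ⊢
  have e1 : D1 * Yg k - D0 * Yg k * V = (Yg k * Vp (ws (k + 1))) * (D1 / Vp (ws (k + 1)) - D0 / Vp (ws k)) := by
    rw [hsp]
    field_simp
  rw [e1, abs_mul, abs_of_pos (by positivity)] at h1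
  have h2 : (Yg k : ℝ) * Vp (ws (k + 1)) / ((k : ℝ) + 1) ^ 2 = (Yg k * Vp (ws (k + 1))) * (1 / ((k : ℝ) + 1) ^ 2) := by
    ring
  rw [h2] at h1
  exact (lt_of_mul_lt_mul_left h1 (by positivity)).le

end Pool.Agent.L5helper2.RS
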