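import Pool.Agent.L5helper2.RS.E6

/-! Project RS (helper2): the law for the survivors in sequences of exponential growth, conclusion. -/

set_option autoImplicit false

namespace Pool.Agent.L5helper2.RS

open Finset MeasureTheory ProbabilityTheory Filter Topology

variable {Ω : Type} [MeasurableSpace Ω] {P : Measure Ω} {X : Ix 1 → Ω → ℕ}

lemma dens_mul {S : ℕ → Prop} {Q : ℕ} (hQ : 1 ≤ Q) (hS : ∀ n, S (n + Q) ↔ S n) {q : ℕ} (hq : 1 ≤ q) :
    dens S (Q * q) = dens S Q := by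
  classical
  have h := per_mul hQ hS q
  have h0 : (0 : ℝ) < ((Q * q : ℕ) : ℝ) := by
    have : 0 < Q * q := Nat.mul_pos hQ hq
    exact_mod_cast this
  conv_lhs => unfold dens
  rw [div_eq_iff h0.ne']
  convert h using 3

lemma dens_mono {S T : ℕ → Prop} (Q : ℕ) (h : ∀ n, S n → T n) : dens S Q ≤ dens T Q := by
  classical
  unfold dens
  refine div_le_div_of_nonneg_right ?_ (by positivity)
  have : #((Icc 1 Q).filter S) ≤ #((Icc 1 Q).filter T) :=
    card_le_card fun m hm => by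
      rw [mem_filter] at hm ⊢
      exact ⟨hm.1, h m hm.2⟩
  exact_mod_cast this

lemma dens_anti {v : ℕ → ℤ} {Q : ℕ → ℕ} (hQ1 : ∀ w, 1 ≤ Q w) (hQd : ∀ w w', w ≤ w' → Q w ∣ Q w')
    (hQ : ∀ w p : ℕ, p.Prime → p ≤ w → ∀ m, (p : ℤ) ∣ v (m + Q w) - v m) (ω : Ω) :
    Antitone (fun w => dens (Sv X v w ω) (Q w)) := by
  intro w w' hw
  obtain ⟨q, hq⟩ := hQd w w' hw
  have hq1 : 1 ≤ q := by
    rcases Nat.eq_zero_or_pos q with h | h
    · have := hQ1 w'
      rw [hq, h] at this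
      simp at this
    · exact h
  have h1 := dens_mul (hQ1 w) (sv_per (X := X) hQ (le_refl w) ω) hq1
  rw [← hq] at h1
  show dens (Sv X v w' ω) (Q w') ≤ dens (Sv X v w ω) (Q w)
  rw [← h1]
  exact dens_mono _ fun n hn => sv_anti hw hn

open Classical in
theorem exp_law (h : RSys P (pp (k := 1)) X) {v : ℕ → ℤ} {rk : ℕ → ℕ} {w1 : ℕ} {C : ℝ} (hv : ExpData v rk w1 C)
    {Q : ℕ → ℕ} (hQ1 : ∀ w, 1 ≤ Q w) (hQd : ∀ w w', w ≤ w' → Q w ∣ Q w')
    (hQl : ∀ w, Real.log (Q w) ≤ 4 * (w : ℝ) ^ 2)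
    (hQ : ∀ w p : ℕ, p.Prime → p ≤ w → ∀ m, (p : ℤ) ∣ v (m + Q w) - v m)
    {z : ℕ → ℕ} (hz : Monotone z) (hzm : ∀ m, m ≤ z m) {c : ℝ} (hc : 0 < c)
    (hm : Tendsto (fun m : ℕ => (m : ℝ) * Vp (z m)) atTop (𝓝 c)) :
    ∀ᵐ ω ∂P, ∃ κ : ℝ, 0 ≤ κ ∧ Tendsto (fun w => dens (Sv X v w ω) (Q w) / Vp w) atTop (𝓝 κ) ∧
      Tendsto (fun Y : ℕ => (#((Icc 1 Y).filter (fun m => Sv X v (z m) ω m)) : ℝ) / Real.log Y) atTop
        (𝓝 (c * κ)) := by
  have hP := h.prob
  obtain ⟨C0, hC0, hup⟩ := AA_up hm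
  filter_upwards [bc_F h hv hz hc hm, bc_G h hv hQ1 hQd hQ] with ω hF hG
  obtain ⟨R, hR⟩ : ∃ R : ℕ → ℝ, R = fun k => dens (Sv X v (ws k) ω) (Q (ws k)) / Vp (ws k) := ⟨_, rfl⟩
  have hG' : ∀ᶠ k : ℕ in atTop, ‖dist (R k) (R k.succ)‖ ≤ 1 / ((k : ℝ) + 1) ^ 2 := by
    filter_upwards [hG] with k hk
    rw [Real.norm_of_nonneg dist_nonneg, dist_comm, Real.dist_eq, hR]
    exact hk
  have hsum : Summable (fun k : ℕ => 1 / ((k : ℝ) + 1) ^ 2) := by
    have h1 : Summable (fun k : ℕ => 1 / ((k : ℝ)) ^ 2) := Real.summable_one_div_nat_pow.2 (by norm_num)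
    have h2 := (summable_nat_add_iff 1).2 h1
    refine h2.congr fun k => ?_
    push_cast
    ring
  have hcau : CauchySeq R := by
    refine cauchySeq_of_summable_dist ?_
    exact Summable.of_norm_bounded_eventually_nat hsum hG'
  obtain ⟨κ, hκ⟩ := cauchySeq_tendsto_of_complete hcau
  have hR0 : ∀ k, 0 ≤ R k := fun k => by
    rw [hR]
    exact div_nonneg (dens_nonneg _ _) (Vp_pos _).le
  refine ⟨κ, ge_of_tendsto' hκ hR0, ?_, ?_⟩
  · refine interp_anti ws_mono (f := fun w => dens (Sv X v w ω) (Q w)) (g := Vp) (dens_anti hQ1 hQd hQ ω)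
      (fun n => dens_nonneg _ _) Vp_anti Vp_pos Vp_ratio ?_
    rw [hR] at hκ
    exact hκ
  · -- the count
    obtain ⟨cnt, hcnt⟩ : ∃ cnt : ℕ → ℝ, cnt = fun Y => (#((Icc 1 Y).filter (fun m => Sv X v (z m) ω m)) : ℝ) :=
      ⟨_, rfl⟩
    have hcm : Monotone cnt := by
      intro a b hab
      rw [hcnt]
      have : #((Icc 1 a).filter (fun m => Sv X v (z m) ω m)) ≤ #((Icc 1 b).filter (fun m => Sv X v (z m) ω m)) :=
        card_le_card (filter_subset_filter _ (Icc_subset_Icc_right hab))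
      show (#((Icc 1 a).filter (fun m => Sv X v (z m) ω m)) : ℝ) ≤ #((Icc 1 b).filter (fun m => Sv X v (z m) ω m))
      exact_mod_cast this
    have hc0 : ∀ n, 0 ≤ cnt n := fun n => by rw [hcnt]; positivity
    have hmain : Tendsto (fun k => cnt (Ys k) / AA z (Ys k) - R k) atTop (𝓝 0) := by
      rw [tendsto_zero_iff_abs_tendsto_zero]
      show Tendsto (fun k => |cnt (Ys k) / AA z (Ys k) - R k|) atTop (𝓝 0)
      have hlim : Tendsto (fun k : ℕ => (3 + 5 * C0) * (1 / ((k : ℝ) + 1))) atTop (𝓝 0) := by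
        have := (tendsto_one_div_add_atTop_nhds_zero_nat (𝕜 := ℝ)).const_mul (3 + 5 * C0)
        rwa [mul_zero] at this
      refine squeeze_zero' (Eventually.of_forall fun k => abs_nonneg _) ?_ hlim
      filter_upwards [hF, g1, AA_low2 hc hm] with k hk1 hk2 hk3
      obtain ⟨K, hK⟩ : ∃ K : ℝ, K = (k : ℝ) + 1 := ⟨_, rfl⟩
      have hd := det_count (X := X) hQ1 hQ hz hzm (ws k) (Ys k) ω
      have hup1 := hup (Q (ws k)) (hQ1 _)
      have hql := hQl (ws k)
      obtain ⟨w, hw⟩ : ∃ w : ℝ, w = ((ws k : ℕ) : ℝ) := ⟨_, rfl⟩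
      have hKw : K ≤ w := by
        rw [hK, hw]
        have : k + 1 ≤ ws k := by
          unfold ws
          calc k + 1 = (k + 1) ^ 1 := (pow_one _).symm
            _ ≤ (k + 1) ^ 64 := Nat.pow_le_pow_right (by omega) (by norm_num)
        exact_mod_cast this
      rw [← hK] at hk1 hk2 hk3 ⊢
      rw [← hw] at hd hql hk3
      have hK1 : 1 ≤ K := by rw [hK]; linarith [(Nat.cast_nonneg k : (0 : ℝ) ≤ k)]
      have hK0 : 0 < K := by linarith
      have hw1 : 1 ≤ w := hK1.trans hKw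
      obtain ⟨A, hA⟩ : ∃ A : ℝ, A = AA z (Ys k) := ⟨_, rfl⟩
      rw [← hA] at hk1 hk3 hd ⊢
      have hA0 : 0 < A := lt_of_lt_of_le (by positivity) hk3
      have hV := Vp_pos (ws k)
      have hcR : cnt (Ys k) / A - R k = (cnt (Ys k) - dens (Sv X v (ws k) ω) (Q (ws k)) / Vp (ws k) * A) / A := by
        rw [hR]
        field_simp
      rw [hcR, abs_div, abs_of_pos hA0, div_le_iff₀ hA0]
      have hd' : |cnt (Ys k) - dens (Sv X v (ws k) ω) (Q (ws k)) / Vp (ws k) * A| ≤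
          |Err X v z (ws k) (Ys k) ω| + w + AA z (Q (ws k)) / Vp (ws k) + w / Vp (ws k) := by
        rw [hcnt]
        exact hd
      refine hd'.trans ?_
      have t1 : AA z (Q (ws k)) / Vp (ws k) ≤ 5 * C0 * w ^ 3 := by
        have h1 : AA z (Q (ws k)) ≤ 5 * C0 * w ^ 2 := by
          calc AA z (Q (ws k)) ≤ C0 * (1 + Real.log (Q (ws k))) := hup1
            _ ≤ C0 * (1 + 4 * w ^ 2) := by gcongr
            _ ≤ C0 * (5 * w ^ 2) := by
              refine mul_le_mul_of_nonneg_left ?_ hC0.le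
              nlinarith
            _ = _ := by ring
        calc AA z (Q (ws k)) / Vp (ws k) = AA z (Q (ws k)) * (Vp (ws k))⁻¹ := div_eq_mul_inv _ _
          _ ≤ (5 * C0 * w ^ 2) * w := mul_le_mul h1 (hk2.trans hKw) (inv_pos.2 hV).le (by positivity)
          _ = _ := by ring
      have t2 : w / Vp (ws k) ≤ w ^ 3 := by
        calc w / Vp (ws k) = w * (Vp (ws k))⁻¹ := div_eq_mul_inv _ _
          _ ≤ w * w := mul_le_mul_of_nonneg_left (hk2.trans hKw) (by linarith)
          _ ≤ w ^ 3 := by nlinarith [mul_pos (show 0 < w by linarith) (show 0 < w by linarith)]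
      have t3 : w ≤ w ^ 3 := by nlinarith [mul_pos (show 0 < w by linarith) (show 0 < w by linarith)]
      have t4 : w ^ 3 ≤ A / K := by rw [le_div_iff₀ hK0]; exact hk3
      have t5 : 5 * C0 * w ^ 3 ≤ 5 * C0 * (A / K) := by gcongr
      have e : (3 + 5 * C0) * (1 / K) * A = A / K + A / K + 5 * C0 * (A / K) + A / K := by ring
      rw [e]
      linarith
    have h1 : Tendsto (fun k => cnt (Ys k) / AA z (Ys k)) atTop (𝓝 κ) := by
      have := hmain.add hκ
      rw [zero_add] at this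
      refine this.congr fun k => ?_
      ring
    have h2 := h1.mul ((AA_log hm).comp Ys_mono.tendsto_atTop)
    have h3 : Tendsto (fun k => cnt (Ys k) / Real.log (Ys k : ℕ)) atTop (𝓝 (c * κ)) := by
      rw [mul_comm]
      refine h2.congr' ?_
      filter_upwards [AA_low1 hc hm] with k hk
      have hA0 : 0 < AA z (Ys k) := lt_of_lt_of_le (by positivity) hk
      simp only [Function.comp]
      field_simp
    have hmono : Monotone (fun n : ℕ => Real.log (n : ℝ)) := by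
      intro a b hab
      rcases Nat.eq_zero_or_pos a with h0 | h0
      · rw [h0]
        simp only [Nat.cast_zero, Real.log_zero]
        exact Real.log_natCast_nonneg b
      · exact Real.log_le_log (by exact_mod_cast h0) (by exact_mod_cast hab)
    have h4 := interp_mono Ys_mono hcm hc0 hmono (by
      filter_upwards [eventually_ge_atTop 2] with n hn
      have : (2 : ℝ) ≤ n := by exact_mod_cast hn
      exact Real.log_pos (by linarith)) log_Ys_ratio h3
    rw [hcnt] at h4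
    exact h4

end Pool.Agent.L5helper2.RS
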