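import Pool.Agent.L5helper2.RS.E7

/-! Project RS (helper2): the mean value of the density constant. -/

set_option autoImplicit false

namespace Pool.Agent.L5helper2.RS

open Finset MeasureTheory ProbabilityTheory Filter Topology

variable {Ω : Type} [MeasurableSpace Ω] {P : Measure Ω} {X : Ix 1 → Ω → ℕ}

/-- the normalised densities -/
noncomputable def RR (X : Ix 1 → Ω → ℕ) (v : ℕ → ℤ) (Q : ℕ → ℕ) (w : ℕ) (ω : Ω) : ℝ :=
  dens (Sv X v w ω) (Q w) / Vp w

open Classical in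
lemma RR_eq (v : ℕ → ℤ) (Q : ℕ → ℕ) (w : ℕ) (ω : Ω) :
    RR X v Q w ω = (∑ m ∈ Icc 1 (Q w), (Av (pp (k := 1)) X (Jx 1 0 w) (fun _ => v m)).indicator
      (fun _ => (1 : ℝ)) ω) / (Q w) / Vp w := by
  unfold RR dens
  rw [card_filter]
  push_cast
  congr 2

lemma RR_nonneg (v : ℕ → ℤ) (Q : ℕ → ℕ) (w : ℕ) (ω : Ω) : 0 ≤ RR X v Q w ω :=
  div_nonneg (dens_nonneg _ _) (Vp_pos _).le

lemma RR_le {v : ℕ → ℤ} {Q : ℕ → ℕ} (hQ1 : ∀ w, 1 ≤ Q w) (w : ℕ) (ω : Ω) : RR X v Q w ω ≤ 1 / Vp w :=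
  div_le_div_of_nonneg_right (dens_le _ (hQ1 w)) (Vp_pos _).le

lemma RR_meas (h : RSys P (pp (k := 1)) X) (v : ℕ → ℤ) (Q : ℕ → ℕ) (w : ℕ) : Measurable (RR X v Q w) := by
  have : RR X v Q w = fun ω => (∑ m ∈ Icc 1 (Q w), (Av (pp (k := 1)) X (Jx 1 0 w) (fun _ => v m)).indicator
      (fun _ => (1 : ℝ)) ω) / (Q w) / Vp w := funext fun ω => RR_eq v Q w ω
  rw [this]
  refine Measurable.div_const (Measurable.div_const ?_ _) _
  refine Finset.measurable_sum _ fun m _ => ?_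
  exact measurable_const.indicator (h.mAv _ _)

lemma RR_int (h : RSys P (pp (k := 1)) X) {v : ℕ → ℤ} {Q : ℕ → ℕ} (hQ1 : ∀ w, 1 ≤ Q w) (w : ℕ) :
    Integrable (RR X v Q w) P := by
  have hP := h.prob
  refine Integrable.of_bound (C := 1 / Vp w) (RR_meas h v Q w).aestronglyMeasurable ?_
  refine Eventually.of_forall fun ω => ?_
  rw [Real.norm_of_nonneg (RR_nonneg _ _ _ _)]
  exact RR_le hQ1 w ω

lemma RR_mean (h : RSys P (pp (k := 1)) X) {v : ℕ → ℤ} {Q : ℕ → ℕ} (hQ1 : ∀ w, 1 ≤ Q w) (w : ℕ) :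
    ∫ ω, RR X v Q w ω ∂P = 1 := by
  have hP := h.prob
  have hV := Vp_pos w
  have hQ0 : (0 : ℝ) < Q w := by exact_mod_cast hQ1 w
  simp only [RR_eq]
  rw [integral_div, integral_div, integral_finset_sum]
  · have : ∀ m ∈ Icc 1 (Q w), ∫ ω, (Av (pp (k := 1)) X (Jx 1 0 w) (fun _ => v m)).indicator
        (fun _ => (1 : ℝ)) ω ∂P = Vp w := by
      intro m _
      rw [integral_ind (h.mAv _ _), h.pAv]
      rfl
    rw [sum_congr rfl this, sum_const, Nat.card_Icc, Nat.add_sub_cancel, nsmul_eq_mul]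
    field_simp
  · intro m _
    exact int_ind (h.mAv _ _)

open Classical in
lemma RR_sq (h : RSys P (pp (k := 1)) X) {v : ℕ → ℤ} {rk : ℕ → ℕ} {w1 : ℕ} {C : ℝ} (hv : ExpData v rk w1 C)
    {Q : ℕ → ℕ} (hQ1 : ∀ w, 1 ≤ Q w) (hQd : ∀ w w', w ≤ w' → Q w ∣ Q w')
    (hQ : ∀ w p : ℕ, p.Prime → p ≤ w → ∀ m, (p : ℤ) ∣ v (m + Q w) - v m) :
    ∃ B : ℝ, ∀ᶠ W in atTop, ∫ ω, RR X v Q W ω ^ 2 ∂P ≤ B := by
  have hP := h.prob
  have hC : 0 ≤ C := by simpa using hv.sum ∅ (fun p hp => absurd hp (notMem_empty p))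
  obtain ⟨w2, hw22, hw2⟩ := var_exp hv
  have hV2 := Vp_pos w2
  refine ⟨(16 * C + 4) / Vp w2 ^ 2, ?_⟩
  filter_upwards [eventually_ge_atTop w2] with W hW
  obtain ⟨V, hVd⟩ : ∃ V : ℝ, V = Vs pp (Jx 1 w2 W) := ⟨_, rfl⟩
  have hsp : Vp W = Vp w2 * V := by
    rw [hVd, ← Vp_split, max_eq_right hW]
  have hVW := Vp_pos W
  have hV0 : 0 < V := by rw [hVd]; exact Vs_pos pp_two _
  obtain ⟨n, hn⟩ := exists_nat_ge (1 / V)
  have hn0 : 0 < n := by
    rcases Nat.eq_zero_or_pos n with h0 | h0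
    · rw [h0] at hn
      have : 0 < 1 / V := by positivity
      simp at hn
      linarith
    · exact h0
  obtain ⟨Y, hY⟩ : ∃ Y : ℕ, Y = Q W * n := ⟨_, rfl⟩
  have hYn : (n : ℝ) ≤ Y := by
    rw [hY]
    have : n ≤ Q W * n := Nat.le_mul_of_pos_left n (hQ1 W)
    exact_mod_cast this
  have hYV : 1 ≤ Y * V := by
    calc (1 : ℝ) = 1 / V * V := by field_simp
      _ ≤ Y * V := mul_le_mul_of_nonneg_right (hn.trans hYn) hV0.le
  have hY0 : (0 : ℝ) < Y := by
    have : (0 : ℝ) < n := by exact_mod_cast hn0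
    linarith
  -- the second moment
  have h1 : ∫ ω, (Err X v (fun _ => W) w2 Y ω) ^ 2 ∂P ≤ (8 * C + 1) * (Y * V) ^ 2 := by
    have h2 := h.second (Icc 1 Y) (Jx 1 0 w2) (fun _ => Jx 1 w2 W) (fun m => Jx_disj w2 W) (fun m _ => v m)
    simp only [Jx_union] at h2
    have h3 : ∀ ω, Err X v (fun _ => W) w2 Y ω = ∑ m ∈ Icc 1 Y, ((Av pp X (Jx 1 0 (max w2 W)) (fun _ => v m)).indicator
      (fun _ => (1 : ℝ)) ω - Vs pp (Jx 1 w2 W) * (Av pp X (Jx 1 0 w2) (fun _ => v m)).indicator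
      (fun _ => (1 : ℝ)) ω) := by
      intro ω
      unfold Err
      simp only [Jx_union]
    simp only [h3]
    refine h2.trans ?_
    have h4 := hw2 w2 le_rfl (fun _ => W) monotone_const Y
    refine le_trans (le_of_eq ?_) (h4.trans ?_)
    · refine sum_congr rfl fun m _ => sum_congr rfl fun m' _ => ?_
      refine congrArg (fun t : ℝ => Vs pp (Jx 1 w2 W) * Vs pp (Jx 1 w2 W) * (t - 1)) ?_
      exact prod_congr (inter_inst _ _ _ _) fun j _ => rfl
    · rw [sum_const, Nat.card_Icc, Nat.add_sub_cancel, nsmul_eq_mul, ← hVd]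
      have h5 : ((w2 : ℕ) : ℝ) ^ (-(1 / 8) : ℝ) ≤ 1 :=
        Real.rpow_le_one_of_one_le_of_nonpos (by exact_mod_cast (by omega : 1 ≤ w2)) (by norm_num)
      have h6 : Y * V ≤ (Y * V) ^ 2 := by nlinarith
      have h7 : 8 * C * ((w2 : ℕ) : ℝ) ^ (-(1 / 8) : ℝ) * (Y * V) ^ 2 ≤ 8 * C * 1 * (Y * V) ^ 2 := by gcongr
      linarith
  -- the identity
  obtain ⟨q, hq⟩ := hQd w2 W hW
  have hE : ∀ ω, Err X v (fun _ => W) w2 Y ω = (Y * Vp W) * (RR X v Q W ω - RR X v Q w2 ω) := by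
    intro ω
    rw [Err_eq, sum_const, nsmul_eq_mul, ← hVd, max_eq_right hW]
    have c1 : (#((Icc 1 Y).filter (fun m => Sv X v W ω m)) : ℝ) = dens (Sv X v W ω) (Q W) * Y := by
      have := per_mul (hQ1 W) (sv_per (X := X) hQ (le_refl W) ω) n
      rw [hY]
      exact this
    have c2 : (#((Icc 1 Y).filter (Sv X v w2 ω)) : ℝ) = dens (Sv X v w2 ω) (Q w2) * Y := by
      have := per_mul (hQ1 w2) (sv_per (X := X) hQ (le_refl w2) ω) (q * n)
      rw [← Nat.mul_assoc, ← hq] at this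
      rw [hY]
      exact this
    rw [c1, c2]
    unfold RR
    rw [hsp]
    field_simp
  have h2 : ∫ ω, (RR X v Q W ω - RR X v Q w2 ω) ^ 2 ∂P ≤ (8 * C + 1) / Vp w2 ^ 2 := by
    simp only [hE, mul_pow] at h1
    rw [integral_const_mul] at h1
    rw [le_div_iff₀ (by positivity)]
    have h3 : ((Y : ℝ) ^ 2 * V ^ 2) * ((∫ ω, (RR X v Q W ω - RR X v Q w2 ω) ^ 2 ∂P) * Vp w2 ^ 2) ≤
        ((Y : ℝ) ^ 2 * V ^ 2) * (8 * C + 1) := by
      calc _ = (Y : ℝ) ^ 2 * Vp W ^ 2 * ∫ ω, (RR X v Q W ω - RR X v Q w2 ω) ^ 2 ∂P := by rw [hsp]; ring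
        _ ≤ _ := h1
        _ = _ := by ring
    exact le_of_mul_le_mul_left h3 (by positivity)
  have i1 : Integrable (fun ω => (RR X v Q W ω - RR X v Q w2 ω) ^ 2) P := by
    refine Integrable.of_bound (C := (1 / Vp W + 1 / Vp w2) ^ 2)
      (((RR_meas h v Q W).sub (RR_meas h v Q w2)).pow_const 2).aestronglyMeasurable ?_
    refine Eventually.of_forall fun ω => ?_
    rw [Real.norm_eq_abs, abs_pow]
    refine pow_le_pow_left₀ (abs_nonneg _) ?_ 2
    have a1 := RR_nonneg (X := X) v Q W ω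
    have a2 := RR_nonneg (X := X) v Q w2 ω
    have a3 := RR_le (X := X) (v := v) hQ1 W ω
    have a4 := RR_le (X := X) (v := v) hQ1 w2 ω
    have a5 : 0 < 1 / Vp W := by positivity
    have a6 : 0 < 1 / Vp w2 := by positivity
    rw [abs_le]
    constructor <;> linarith
  calc ∫ ω, RR X v Q W ω ^ 2 ∂P ≤ ∫ ω, (2 * (RR X v Q W ω - RR X v Q w2 ω) ^ 2 + 2 / Vp w2 ^ 2) ∂P := by
        refine integral_mono_of_nonneg (Eventually.of_forall fun ω => sq_nonneg _)
          ((i1.const_mul 2).add (integrable_const _)) (Eventually.of_forall fun ω => ?_)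
        simp only
        have a2 := RR_nonneg (X := X) v Q w2 ω
        have a4 := RR_le (X := X) (v := v) hQ1 w2 ω
        have a5 : (RR X v Q w2 ω) ^ 2 ≤ (1 / Vp w2) ^ 2 := pow_le_pow_left₀ a2 a4 2
        have a6 : 2 / Vp w2 ^ 2 = 2 * (1 / Vp w2) ^ 2 := by ring
        rw [a6]
        nlinarith [sq_nonneg (RR X v Q W ω - 2 * RR X v Q w2 ω)]
    _ = 2 * ∫ ω, (RR X v Q W ω - RR X v Q w2 ω) ^ 2 ∂P + 2 / Vp w2 ^ 2 := by
        rw [integral_add (i1.const_mul 2) (integrable_const _), integral_const_mul]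
        simp
    _ ≤ 2 * ((8 * C + 1) / Vp w2 ^ 2) + 2 / Vp w2 ^ 2 := by linarith
    _ = _ := by ring

/-- the mean value of the limit -/
theorem exp_mean (h : RSys P (pp (k := 1)) X) {v : ℕ → ℤ} {rk : ℕ → ℕ} {w1 : ℕ} {C : ℝ} (hv : ExpData v rk w1 C)
    {Q : ℕ → ℕ} (hQ1 : ∀ w, 1 ≤ Q w) (hQd : ∀ w w', w ≤ w' → Q w ∣ Q w')
    (hQ : ∀ w p : ℕ, p.Prime → p ≤ w → ∀ m, (p : ℤ) ∣ v (m + Q w) - v m) {κ : Ω → ℝ}
    (hκ : ∀ᵐ ω ∂P, Tendsto (fun w => RR X v Q w ω) atTop (𝓝 (κ ω))) :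
    Integrable κ P ∧ ∫ ω, κ ω ∂P = 1 := by
  have hP := h.prob
  obtain ⟨B, hB⟩ := RR_sq h hv hQ1 hQd hQ
  have hmeas : AEStronglyMeasurable κ P :=
    aestronglyMeasurable_of_tendsto_ae atTop (fun w => (RR_meas h v Q w).aestronglyMeasurable) hκ
  have hκ0 : ∀ᵐ ω ∂P, 0 ≤ κ ω := by
    filter_upwards [hκ] with ω hω
    exact ge_of_tendsto' hω fun w => RR_nonneg _ _ _ _
  -- Fatou
  have hfat : ∫⁻ ω, ENNReal.ofReal (κ ω) ∂P ≤ 1 := by
    have h1 : ∫⁻ ω, ENNReal.ofReal (κ ω) ∂P = ∫⁻ ω, liminf (fun w => ENNReal.ofReal (RR X v Q w ω)) atTop ∂P := by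
      refine lintegral_congr_ae ?_
      filter_upwards [hκ] with ω hω
      exact ((ENNReal.tendsto_ofReal hω).liminf_eq).symm
    rw [h1]
    refine (lintegral_liminf_le fun w => (RR_meas h v Q w).ennreal_ofReal).trans ?_
    have h2 : ∀ w, ∫⁻ ω, ENNReal.ofReal (RR X v Q w ω) ∂P = 1 := by
      intro w
      rw [← ofReal_integral_eq_lintegral_ofReal (RR_int h hQ1 w) (Eventually.of_forall fun ω => RR_nonneg _ _ _ _),
        RR_mean h hQ1, ENNReal.ofReal_one]
    simp only [h2]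
    simp
  have hint : Integrable κ P := by
    refine ⟨hmeas, ?_⟩
    rw [hasFiniteIntegral_iff_ofReal hκ0]
    exact lt_of_le_of_lt hfat ENNReal.one_lt_top
  refine ⟨hint, le_antisymm ?_ ?_⟩
  · rw [integral_eq_lintegral_of_nonneg_ae hκ0 hmeas]
    exact ENNReal.toReal_le_of_le_ofReal zero_le_one (by rw [ENNReal.ofReal_one]; exact hfat)
  · -- truncation
    have key : ∀ K : ℝ, 0 < K → 1 - B / K ≤ ∫ ω, κ ω ∂P := by
      intro K hK
      have h1 : Tendsto (fun w => ∫ ω, min (RR X v Q w ω) K ∂P) atTop (𝓝 (∫ ω, min (κ ω) K ∂P)) := by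
        refine tendsto_integral_of_dominated_convergence (fun _ => K) (fun w => ?_) (integrable_const K) (fun w => ?_) ?_
        · exact ((RR_meas h v Q w).min measurable_const).aestronglyMeasurable
        · refine Eventually.of_forall fun ω => ?_
          rw [Real.norm_of_nonneg (le_min (RR_nonneg _ _ _ _) hK.le)]
          exact min_le_right _ _
        · filter_upwards [hκ] with ω hω
          exact hω.min tendsto_const_nhds
      have h2 : ∀ᶠ w in atTop, 1 - B / K ≤ ∫ ω, min (RR X v Q w ω) K ∂P := by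
        filter_upwards [hB] with w hw
        have i1 := RR_int h (v := v) hQ1 w
        have i2 : Integrable (fun ω => min (RR X v Q w ω) K) P := i1.inf (integrable_const K)
        have i3 : Integrable (fun ω => RR X v Q w ω ^ 2) P := by
          refine Integrable.of_bound (C := (1 / Vp w) ^ 2) ((RR_meas h v Q w).pow_const 2).aestronglyMeasurable ?_
          refine Eventually.of_forall fun ω => ?_
          rw [Real.norm_eq_abs, abs_pow]
          refine pow_le_pow_left₀ (abs_nonneg _) ?_ 2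
          rw [abs_of_nonneg (RR_nonneg _ _ _ _)]
          exact RR_le hQ1 w ω
        have h3 : ∫ ω, RR X v Q w ω ∂P ≤ ∫ ω, (min (RR X v Q w ω) K + RR X v Q w ω ^ 2 / K) ∂P := by
          refine integral_mono i1 (i2.add (i3.div_const K)) fun ω => ?_
          simp only
          have a1 := RR_nonneg (X := X) v Q w ω
          rcases le_total (RR X v Q w ω) K with hle | hle
          · rw [min_eq_left hle]
            have : 0 ≤ RR X v Q w ω ^ 2 / K := by positivity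
            linarith
          · rw [min_eq_right hle]
            have : RR X v Q w ω ≤ RR X v Q w ω ^ 2 / K := by
              rw [le_div_iff₀ hK]
              nlinarith
            linarith
        rw [RR_mean h hQ1, integral_add i2 (i3.div_const K), integral_div] at h3
        have h4 : (∫ ω, RR X v Q w ω ^ 2 ∂P) / K ≤ B / K := div_le_div_of_nonneg_right hw hK.le
        linarith
      have h3 : 1 - B / K ≤ ∫ ω, min (κ ω) K ∂P := ge_of_tendsto h1 h2
      refine h3.trans (integral_mono (hint.inf (integrable_const K)) hint fun ω => ?_)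
      exact min_le_left _ _
    have h1 : Tendsto (fun K : ℝ => 1 - B / K) atTop (𝓝 (1 - 0)) :=
      (tendsto_const_nhds.div_atTop tendsto_id).const_sub 1
    rw [sub_zero] at h1
    exact le_of_tendsto h1 (by
      filter_upwards [eventually_gt_atTop 0] with K hK
      exact key K hK)

end Pool.Agent.L5helper2.RS
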