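import Pool.Agent.L5helper2.RS.E8

/-! Project RS (helper2): the Pell sequence `(3 + √8)^m = d_m + b_m √8`. -/

set_option autoImplicit false

namespace Pool.Agent.L5helper2.RS

open Finset Filter Topology

/-- the pairs `(d_m, b_m)` with `(3 + √8)^m = d_m + b_m √8` -/
def pell : ℕ → ℕ × ℕ
  | 0 => (1, 0)
  | m + 1 => (3 * (pell m).1 + 8 * (pell m).2, (pell m).1 + 3 * (pell m).2)

lemma pell_succ (m : ℕ) : pell (m + 1) = (3 * (pell m).1 + 8 * (pell m).2, (pell m).1 + 3 * (pell m).2) := rfl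

lemma pell_eq (m : ℕ) : (pell m).1 ^ 2 = 8 * (pell m).2 ^ 2 + 1 := by
  induction m with
  | zero => rfl
  | succ m ih =>
    rw [pell_succ]
    simp only
    nlinarith

lemma pell_add (m n : ℕ) : (pell (m + n)).1 = (pell m).1 * (pell n).1 + 8 * (pell m).2 * (pell n).2 ∧
    (pell (m + n)).2 = (pell m).2 * (pell n).1 + (pell m).1 * (pell n).2 := by
  induction n with
  | zero => simp [pell]
  | succ n ih =>
    rw [← Nat.add_assoc, pell_succ, pell_succ]
    simp only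
    rw [ih.1, ih.2]
    constructor <;> ring

/-- `N_m = 8 d_m² + 1` -/
def NN (m : ℕ) : ℕ := 8 * (pell m).1 ^ 2 + 1

lemma NN_sub {m m' : ℕ} (h : m' < m) : ((NN m : ℕ) : ℤ) - (NN m' : ℕ) =
    64 * ((pell (m + m')).2 : ℤ) * ((pell (m - m')).2 : ℤ) := by
  obtain ⟨k, rfl⟩ : ∃ k, m = m' + k := ⟨m - m', by omega⟩
  rw [Nat.add_sub_cancel_left]
  have h1 := pell_add m' k
  have h2 := pell_add (m' + k) m'
  have h3 : ((pell k).1 : ℤ) ^ 2 = 8 * ((pell k).2 : ℤ) ^ 2 + 1 := by exact_mod_cast pell_eq k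
  unfold NN
  rw [h2.2, h1.1, h1.2]
  push_cast
  linear_combination (8 * ((pell m').1 : ℤ) ^ 2) * h3

lemma b_mul {p t : ℕ} (h : p ∣ (pell t).2) (q : ℕ) : p ∣ (pell (t * q)).2 := by
  induction q with
  | zero => simp [pell]
  | succ q ih =>
    rw [Nat.mul_succ, (pell_add _ _).2]
    exact dvd_add (dvd_mul_of_dvd_left ih _) (dvd_mul_of_dvd_right h _)

open Classical in
/-- the rank of apparition -/
noncomputable def rkP (p : ℕ) : ℕ := if h : ∃ t, 1 ≤ t ∧ p ∣ (pell t).2 then Nat.find h else 0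

lemma rkP_spec {p : ℕ} (hp : p.Prime) {n : ℕ} (hn : 1 ≤ n) (h : p ∣ (pell n).2) : 0 < rkP p ∧ rkP p ∣ n := by
  classical
  have hex : ∃ t, 1 ≤ t ∧ p ∣ (pell t).2 := ⟨n, hn, h⟩
  obtain ⟨t, ht⟩ : ∃ t, t = rkP p := ⟨_, rfl⟩
  have e : rkP p = Nat.find hex := by
    unfold rkP
    rw [dif_pos hex]
  have h1 : 1 ≤ t ∧ p ∣ (pell t).2 := by
    rw [ht, e]
    exact Nat.find_spec hex
  have hmin : ∀ s, s < t → ¬ (1 ≤ s ∧ p ∣ (pell s).2) := by
    intro s hs
    rw [ht, e] at hs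
    exact Nat.find_min hex hs
  rw [← ht]
  refine ⟨h1.1, ?_⟩
  have h2 := b_mul h1.2 (n / t)
  have h3 : (pell n).2 = (pell (t * (n / t))).2 * (pell (n % t)).1 + (pell (t * (n / t))).1 * (pell (n % t)).2 := by
    rw [← (pell_add _ _).2, Nat.div_add_mod]
  have h4 : p ∣ (pell (t * (n / t))).1 * (pell (n % t)).2 := by
    rw [h3] at h
    exact (Nat.dvd_add_right (dvd_mul_of_dvd_left h2 _)).1 h
  have h5 : ¬ p ∣ (pell (t * (n / t))).1 := by
    intro h6
    have h7 := pell_eq (t * (n / t))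
    have h8 : p ∣ 8 * (pell (t * (n / t))).2 ^ 2 + 1 := by
      rw [← h7]
      exact dvd_pow h6 (by norm_num)
    have h9 : p ∣ 8 * (pell (t * (n / t))).2 ^ 2 := dvd_mul_of_dvd_right (dvd_pow h2 (by norm_num)) _
    have h10 := (Nat.dvd_add_right h9).1 h8
    exact hp.one_lt.ne' (Nat.dvd_one.1 h10)
  have h6 : p ∣ (pell (n % t)).2 := (hp.dvd_mul.1 h4).resolve_left h5
  have h7 : n % t < t := Nat.mod_lt _ h1.1
  have h8 : ¬ 1 ≤ n % t := fun h' => hmin _ h7 ⟨h', h6⟩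
  exact Nat.dvd_of_mod_eq_zero (by omega)

lemma rkP_dvd {p : ℕ} (h : 0 < rkP p) : p ∣ (pell (rkP p)).2 := by
  classical
  unfold rkP at h ⊢
  split_ifs at h ⊢ with h1
  · exact (Nat.find_spec h1).2
  · exact absurd h (lt_irrefl 0)

lemma b_le_d (m : ℕ) : (pell m).2 ≤ (pell m).1 := by
  have := pell_eq m
  nlinarith

lemma d_le (m : ℕ) : (pell m).1 ≤ 8 ^ m := by
  induction m with
  | zero => simp [pell]
  | succ m ih =>
    rw [pell_succ]
    simp only
    have h1 := pell_eq m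
    have h2 : 8 * (pell m).2 ≤ 5 * (pell m).1 := by nlinarith
    rw [pow_succ]
    omega

lemma b_pos {m : ℕ} (h : 1 ≤ m) : 0 < (pell m).2 := by
  obtain ⟨k, rfl⟩ : ∃ k, m = k + 1 := ⟨m - 1, by omega⟩
  rw [pell_succ]
  simp only
  have := pell_eq k
  nlinarith

/-- the number of the primes with a given rank -/
lemma rk_card {t : ℕ} (ht : 1 ≤ t) (s : Finset ℕ) (hs : ∀ p ∈ s, p.Prime ∧ rkP p = t) : #s ≤ 3 * t := by
  have h1 : ∏ p ∈ s, p ∣ (pell t).2 := by
    refine Finset.prod_primes_dvd _ (fun p hp => (hs p hp).1.prime) fun p hp => ?_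
    have := hs p hp
    have h2 := rkP_dvd (p := p) (by omega)
    rwa [this.2] at h2
  have h2 : ∏ p ∈ s, p ≤ (pell t).2 := Nat.le_of_dvd (b_pos ht) h1
  have h3 : 2 ^ #s ≤ ∏ p ∈ s, p := by
    calc 2 ^ #s = ∏ _p ∈ s, 2 := by rw [prod_const]
      _ ≤ _ := prod_le_prod' fun p hp => (hs p hp).1.two_le
  have h4 : 2 ^ #s ≤ 2 ^ (3 * t) := by
    calc 2 ^ #s ≤ 8 ^ t := h3.trans (h2.trans ((b_le_d t).trans (d_le t)))
      _ = 2 ^ (3 * t) := by rw [pow_mul]; norm_num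
  exact (Nat.pow_le_pow_iff_right (by norm_num)).1 h4

lemma rk_sum : ∃ C : ℝ, ∀ s : Finset ℕ, (∀ p ∈ s, p.Prime ∧ 0 < rkP p) →
    ∑ p ∈ s, (p : ℝ) ^ (-(5 / 8) : ℝ) * (1 / rkP p) ≤ C := by
  have hs1 : Summable (fun n : ℕ => (n : ℝ) ^ (-(9 / 8) : ℝ)) := Real.summable_nat_rpow.2 (by norm_num)
  have hs2 : Summable (fun n : ℕ => (n : ℝ) ^ (-(5 / 4) : ℝ)) := Real.summable_nat_rpow.2 (by norm_num)
  refine ⟨∑' n : ℕ, (n : ℝ) ^ (-(9 / 8) : ℝ) + 3 * ∑' n : ℕ, (n : ℝ) ^ (-(5 / 4) : ℝ), fun s hs => ?_⟩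
  rw [← sum_filter_add_sum_filter_not s (fun p => p ≤ rkP p ^ 2)]
  refine add_le_add ?_ ?_
  · have h1 : ∀ p ∈ s.filter (fun p => p ≤ rkP p ^ 2), (p : ℝ) ^ (-(5 / 8) : ℝ) * (1 / rkP p) ≤
        (p : ℝ) ^ (-(9 / 8) : ℝ) := by
      intro p hp
      rw [mem_filter] at hp
      have hp0 : (0 : ℝ) < p := by exact_mod_cast (hs p hp.1).1.pos
      have hr0 : (0 : ℝ) < rkP p := by exact_mod_cast (hs p hp.1).2
      have h2 : (p : ℝ) ^ ((1 : ℝ) / 2) ≤ rkP p := by
        rw [← Real.sqrt_eq_rpow, Real.sqrt_le_left hr0.le]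
        exact_mod_cast hp.2
      have h3 : 1 / (rkP p : ℝ) ≤ (p : ℝ) ^ (-(1 / 2) : ℝ) := by
        rw [Real.rpow_neg hp0.le, one_div]
        exact inv_anti₀ (by positivity) h2
      calc (p : ℝ) ^ (-(5 / 8) : ℝ) * (1 / rkP p) ≤ (p : ℝ) ^ (-(5 / 8) : ℝ) * (p : ℝ) ^ (-(1 / 2) : ℝ) :=
            mul_le_mul_of_nonneg_left h3 (by positivity)
        _ = _ := by
          rw [← Real.rpow_add hp0]
          norm_num
    refine (sum_le_sum h1).trans (hs1.sum_le_tsum _ fun n _ => by positivity)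
  · obtain ⟨s', hs'⟩ : ∃ s', s' = s.filter (fun p => ¬ p ≤ rkP p ^ 2) := ⟨_, rfl⟩
    rw [← hs', ← sum_fiberwise_of_maps_to (s := s') (t := s'.image rkP) (g := rkP)
      (fun p hp => mem_image_of_mem _ hp)]
    have h1 : ∀ t ∈ s'.image rkP, ∑ p ∈ s'.filter (fun p => rkP p = t), (p : ℝ) ^ (-(5 / 8) : ℝ) * (1 / rkP p) ≤
        3 * (t : ℝ) ^ (-(5 / 4) : ℝ) := by
      intro t ht
      rw [mem_image] at ht
      obtain ⟨p0, hp0, hpt⟩ := ht
      have ht1 : 1 ≤ t := by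
        rw [hs', mem_filter] at hp0
        have := (hs p0 hp0.1).2
        omega
      have ht0 : (0 : ℝ) < t := by exact_mod_cast ht1
      have h2 : ∀ p ∈ s'.filter (fun p => rkP p = t), (p : ℝ) ^ (-(5 / 8) : ℝ) * (1 / rkP p) ≤
          (t : ℝ) ^ (-(5 / 4) : ℝ) * (1 / t) := by
        intro p hp
        rw [mem_filter, hs', mem_filter] at hp
        rw [hp.2]
        refine mul_le_mul_of_nonneg_right ?_ (by positivity)
        have h3 : (t : ℝ) ^ (2 : ℕ) ≤ p := by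
          have h4 := hp.1.2
          rw [hp.2] at h4
          exact_mod_cast (not_le.1 h4).le
        calc (p : ℝ) ^ (-(5 / 8) : ℝ) ≤ ((t : ℝ) ^ (2 : ℕ)) ^ (-(5 / 8) : ℝ) :=
              Real.rpow_le_rpow_of_nonpos (by positivity) h3 (by norm_num)
          _ = (t : ℝ) ^ (-(5 / 4) : ℝ) := by
            rw [← Real.rpow_natCast, ← Real.rpow_mul ht0.le]
            norm_num
      refine (sum_le_sum h2).trans ?_
      rw [sum_const, nsmul_eq_mul]
      have h3 : #(s'.filter (fun p => rkP p = t)) ≤ 3 * t := by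
        refine rk_card ht1 _ fun p hp => ?_
        rw [mem_filter, hs', mem_filter] at hp
        exact ⟨(hs p hp.1.1).1, hp.2⟩
      have h4 : (#(s'.filter (fun p => rkP p = t)) : ℝ) ≤ 3 * t := by exact_mod_cast h3
      calc (#(s'.filter (fun p => rkP p = t)) : ℝ) * ((t : ℝ) ^ (-(5 / 4) : ℝ) * (1 / t)) ≤
            (3 * t) * ((t : ℝ) ^ (-(5 / 4) : ℝ) * (1 / t)) := mul_le_mul_of_nonneg_right h4 (by positivity)
        _ = _ := by field_simp
    refine (sum_le_sum h1).trans ?_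
    rw [← mul_sum]
    exact mul_le_mul_of_nonneg_left (hs2.sum_le_tsum _ fun n _ => by positivity) (by norm_num)

/-- the periods modulo primes -/
lemma pell_per (p : ℕ) (hp : p.Prime) : ∃ t : ℕ, 1 ≤ t ∧ t ≤ p ^ 4 ∧ ∀ m,
    (p : ℤ) ∣ ((NN (m + t) : ℕ) : ℤ) - (NN m : ℕ) := by
  have : Fact p.Prime := ⟨hp⟩
  obtain ⟨f, hf⟩ : ∃ f : ZMod p × ZMod p → ZMod p × ZMod p, f = fun x => (3 * x.1 + 8 * x.2, x.1 + 3 * x.2) :=
    ⟨_, rfl⟩
  have hinj : Function.Injective f := by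
    intro x y hxy
    rw [hf] at hxy
    simp only [Prod.mk.injEq] at hxy
    refine Prod.ext ?_ ?_
    · linear_combination 3 * hxy.1 - 8 * hxy.2
    · linear_combination 3 * hxy.2 - hxy.1
  have hit : ∀ m, f^[m] (1, 0) = (((pell m).1 : ZMod p), ((pell m).2 : ZMod p)) := by
    intro m
    induction m with
    | zero => simp [pell]
    | succ m ih =>
      rw [Function.iterate_succ_apply', ih, pell_succ, hf]
      simp
  obtain ⟨i, j, hij, he⟩ := Fintype.exists_ne_map_eq_of_card_lt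
    (fun i : Fin (p * p + 1) => f^[(i : ℕ)] (1, 0)) (by simp [ZMod.card])
  wlog hlt : (i : ℕ) < j generalizing i j with H
  · exact H j i hij.symm he.symm (lt_of_le_of_ne (not_lt.1 hlt) (fun h' => hij (Fin.ext h'.symm)))
  obtain ⟨t, ht⟩ : ∃ t : ℕ, (j : ℕ) = i + t := ⟨j - i, by omega⟩
  have h1 : f^[t] (1, 0) = (1, 0) := by
    simp only [ht, Function.iterate_add_apply] at he
    exact ((hinj.iterate (i : ℕ)) he).symm
  refine ⟨t, by omega, ?_, fun m => ?_⟩
  · have h2 : (j : ℕ) < p * p + 1 := j.2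
    have h3 : p * p ≤ p ^ 4 := by
      calc p * p = p ^ 2 := by ring
        _ ≤ p ^ 4 := Nat.pow_le_pow_right hp.pos (by norm_num)
    omega
  · have h2 : f^[m + t] (1, 0) = f^[m] (1, 0) := by
      rw [Function.iterate_add_apply, h1]
    rw [hit, hit, Prod.mk.injEq] at h2
    rw [← ZMod.intCast_zmod_eq_zero_iff_dvd]
    unfold NN
    push_cast
    rw [h2.1]
    ring

lemma pell_data : ∃ C : ℝ, ExpData (fun m => ((NN m : ℕ) : ℤ)) rkP 2 C := by
  obtain ⟨C, hC⟩ := rk_sum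
  refine ⟨C, ?_, hC, pell_per⟩
  intro p hp hp2 m m' hm' hlt hd
  rw [NN_sub hlt] at hd
  have hpz : Prime (p : ℤ) := Nat.prime_iff_prime_int.1 hp
  rcases hpz.dvd_or_dvd hd with h1 | h1
  · rcases hpz.dvd_or_dvd h1 with h2 | h2
    · exfalso
      have h3 : p ∣ 2 ^ 6 := by
        have : (p : ℤ) ∣ ((2 ^ 6 : ℕ) : ℤ) := by push_cast; exact h2
        exact_mod_cast this
      have h4 := (Nat.prime_dvd_prime_iff_eq hp Nat.prime_two).1 (hp.dvd_of_dvd_pow h3)
      omega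
    · have h3 : p ∣ (pell (m + m')).2 := by exact_mod_cast h2
      obtain ⟨h4, h5⟩ := rkP_spec hp (by omega) h3
      exact ⟨h4, Or.inl h5⟩
  · have h3 : p ∣ (pell (m - m')).2 := by exact_mod_cast h1
    obtain ⟨h4, h5⟩ := rkP_spec hp (by omega) h3
    exact ⟨h4, Or.inr h5⟩

/-- the level of `m` -/
def zP (m : ℕ) : ℕ := Nat.sqrt (NN m)

lemma d_mono : Monotone (fun m => (pell m).1) := by
  refine monotone_nat_of_le_succ fun m => ?_
  rw [pell_succ]
  simp only
  omega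

lemma zP_mono : Monotone zP := by
  intro a b hab
  unfold zP NN
  have h : (pell a).1 ≤ (pell b).1 := d_mono hab
  exact Nat.sqrt_le_sqrt (by gcongr)

lemma d_ge (m : ℕ) : m + 1 ≤ (pell m).1 := by
  induction m with
  | zero => simp [pell]
  | succ m ih =>
    rw [pell_succ]
    simp only
    omega

lemma zP_bounds (m : ℕ) : (pell m).1 ≤ zP m ∧ zP m ≤ 3 * (pell m).1 := by
  unfold zP NN
  have := d_ge m
  constructor
  · rw [Nat.le_sqrt]
    nlinarith
  · have h1 : 8 * (pell m).1 ^ 2 + 1 ≤ (3 * (pell m).1) ^ 2 := by nlinarith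
    have h2 := Nat.sqrt_le_sqrt h1
    rwa [Nat.sqrt_eq'] at h2

lemma zP_ge (m : ℕ) : m ≤ zP m := by
  have := d_ge m
  have := (zP_bounds m).1
  omega

lemma pell_pow (m : ℕ) : (3 + √8 : ℝ) ^ m = (pell m).1 + (pell m).2 * √8 := by
  induction m with
  | zero => simp [pell]
  | succ m ih =>
    rw [pow_succ, ih, pell_succ]
    push_cast
    have : √(8 : ℝ) ^ 2 = 8 := Real.sq_sqrt (by norm_num)
    linear_combination ((pell m).2 : ℝ) * this

lemma d_bounds (m : ℕ) : ((pell m).1 : ℝ) ≤ (3 + √8 : ℝ) ^ m ∧ (3 + √8 : ℝ) ^ m ≤ 2 * (pell m).1 := by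
  rw [pell_pow]
  have h8 : (0 : ℝ) ≤ √8 := Real.sqrt_nonneg _
  have hb : (0 : ℝ) ≤ (pell m).2 := by positivity
  constructor
  · have := mul_nonneg hb h8
    linarith
  · have h1 : ((pell m).2 * √8 : ℝ) ≤ (pell m).1 := by
      refine le_of_sq_le_sq ?_ (by positivity)
      have h2 : ((pell m).1 : ℝ) ^ 2 = 8 * ((pell m).2 : ℝ) ^ 2 + 1 := by exact_mod_cast pell_eq m
      rw [mul_pow, Real.sq_sqrt (by norm_num), h2]
      linarith
    linarith

lemma pell_mertens : Tendsto (fun m : ℕ => (m : ℝ) * Vp (zP m)) atTop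
    (𝓝 (Real.exp (-Real.eulerMascheroniConstant) / Real.log (3 + √8))) := by
  have h8 : (0 : ℝ) ≤ √8 := Real.sqrt_nonneg _
  obtain ⟨L, hL⟩ : ∃ L : ℝ, L = Real.log (3 + √8) := ⟨_, rfl⟩
  have hL0 : 0 < L := by rw [hL]; exact Real.log_pos (by linarith)
  have hz : Tendsto zP atTop atTop := tendsto_atTop_mono zP_ge tendsto_id
  have h1 := Vp_mertens.comp hz
  have h2 : Tendsto (fun m : ℕ => Real.log (zP m) / m) atTop (𝓝 L) := by
    have hlo : Tendsto (fun m : ℕ => L - Real.log 2 / (m : ℝ)) atTop (𝓝 L) := by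
      have := (tendsto_const_nhds (x := Real.log 2)).div_atTop (tendsto_natCast_atTop_atTop (R := ℝ))
      simpa using this.const_sub L
    have hhi : Tendsto (fun m : ℕ => L + Real.log 3 / (m : ℝ)) atTop (𝓝 L) := by
      have := (tendsto_const_nhds (x := Real.log 3)).div_atTop (tendsto_natCast_atTop_atTop (R := ℝ))
      simpa using this.const_add L
    refine tendsto_of_tendsto_of_tendsto_of_le_of_le' hlo hhi ?_ ?_
    · filter_upwards [eventually_ge_atTop 1] with m hm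
      have hm0 : (0 : ℝ) < m := by exact_mod_cast hm
      have hd0 : (0 : ℝ) < (pell m).1 := by
        have := d_ge m
        exact_mod_cast (by omega : 0 < (pell m).1)
      rw [le_div_iff₀ hm0, sub_mul, div_mul_cancel₀ _ hm0.ne']
      have hdz : ((pell m).1 : ℝ) ≤ zP m := by exact_mod_cast (zP_bounds m).1
      have h3 : Real.log ((3 + √8 : ℝ) ^ m) ≤ Real.log (2 * zP m) :=
        Real.log_le_log (by positivity) ((d_bounds m).2.trans (by linarith))
      rw [Real.log_pow, Real.log_mul (by norm_num) (by linarith), ← hL] at h3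
      linarith
    · filter_upwards [eventually_ge_atTop 1] with m hm
      have hm0 : (0 : ℝ) < m := by exact_mod_cast hm
      have hd0 : (0 : ℝ) < (pell m).1 := by
        have := d_ge m
        exact_mod_cast (by omega : 0 < (pell m).1)
      have hz0 : (0 : ℝ) < zP m := lt_of_lt_of_le hd0 (by exact_mod_cast (zP_bounds m).1)
      rw [div_le_iff₀ hm0, add_mul, div_mul_cancel₀ _ hm0.ne']
      have h3 : (zP m : ℝ) ≤ 3 * (pell m).1 := by exact_mod_cast (zP_bounds m).2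
      have h4 := (d_bounds m).1
      have h5 : Real.log (zP m) ≤ Real.log (3 * (3 + √8 : ℝ) ^ m) := Real.log_le_log hz0 (by linarith)
      rw [Real.log_mul (by norm_num) (by positivity), Real.log_pow, ← hL] at h5
      linarith
  have h3 := h1.div h2 hL0.ne'
  rw [← hL]
  refine h3.congr' ?_
  filter_upwards [eventually_ge_atTop 1] with m hm
  have hm0 : (0 : ℝ) < m := by exact_mod_cast hm
  have hd1 : 2 ≤ (pell m).1 := by
    have := d_ge m
    omega
  have hz2 : (2 : ℝ) ≤ zP m := by exact_mod_cast hd1.trans (zP_bounds m).1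
  have hlog : Real.log (zP m) ≠ 0 := (Real.log_pos (by linarith)).ne'
  simp only [Function.comp, Pi.div_apply]
  field_simp

end Pool.Agent.L5helper2.RS
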