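import Pool.Agent.L5helper2.RS.Sec
import Pool.Agent.H373R2.T7.Fund

/-! Project RS (helper2): a linear bound for products of `(1 - 1/p)⁻¹`. -/

set_option autoImplicit false

namespace Pool.Agent.L5helper2.RS

open Finset MeasureTheory ProbabilityTheory
open Pool.Agent.H373R2.T7 (pz Vz mem_pz Vz_low)

/-- the indices: a prime and a component -/
abbrev Ix (k : ℕ) : Type := {p : ℕ // p.Prime} × Fin k

/-- the prime of an index -/
def pp {k : ℕ} (j : Ix k) : ℕ := (j.1 : ℕ)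

lemma pp_two {k : ℕ} (j : Ix k) : 2 ≤ pp j := j.1.2.two_le

/-- the indices with primes in `(w, z]` -/
def Jx (k w z : ℕ) : Finset (Ix k) := ((Ioc w z).subtype Nat.Prime) ×ˢ univ

lemma mem_Jx {k w z : ℕ} {j : Ix k} : j ∈ Jx k w z ↔ w < pp j ∧ pp j ≤ z := by
  unfold Jx pp
  rw [mem_product, mem_subtype, mem_Ioc]
  simp

lemma prod_Jx {k w z : ℕ} (f : ℕ → ℝ) :
    ∏ j ∈ Jx k w z, f (pp j) = (∏ p ∈ (Ioc w z).filter Nat.Prime, f p) ^ k := by
  unfold Jx
  rw [prod_product]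
  have : ∀ x ∈ (Ioc w z).subtype Nat.Prime, ∏ y : Fin k, f (pp (x, y)) = f (x : ℕ) ^ k := by
    intro x _
    simp [pp]
  rw [prod_congr rfl this, prod_pow]
  congr 1
  exact prod_subtype_eq_prod_filter (p := Nat.Prime) (s := Ioc w z) (f := f)

lemma V_inv_le : ∃ (C N0 : ℕ), 2 ≤ N0 ∧ ∀ n : ℕ, N0 ≤ n → (Vz n)⁻¹ ≤ Real.log n ^ C := by
  obtain ⟨C, N0, h⟩ := Vz_low
  refine ⟨C, max N0 2, le_max_right _ _, fun n hn => ?_⟩
  have h1 := h n ((le_max_left _ _).trans hn)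
  have hn2 : (2 : ℝ) ≤ n := by exact_mod_cast (le_max_right _ _).trans hn
  have hl : 0 < Real.log n := Real.log_pos (by linarith)
  have h2 : 0 < 1 / Real.log n ^ C := by positivity
  calc (Vz n)⁻¹ ≤ (1 / Real.log n ^ C)⁻¹ := inv_anti₀ h2 h1
    _ = _ := by rw [one_div, inv_inv]

lemma log_pow_small (C : ℕ) : ∃ N0 : ℕ, ∀ n : ℕ, N0 ≤ n → 2 * Real.log n ^ C ≤ √(n : ℝ) := by
  have h1 : (fun x : ℝ => Real.log x ^ C) =o[Filter.atTop] fun x => x ^ ((1 : ℝ) / 2) := by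
    have := isLittleO_log_rpow_rpow_atTop (C : ℝ) (show (0 : ℝ) < 1 / 2 by norm_num)
    simpa only [Real.rpow_natCast] using this
  have h2 := (h1.bound (show (0 : ℝ) < 1 / 2 by norm_num))
  obtain ⟨x0, hx0⟩ := Filter.eventually_atTop.1 h2
  refine ⟨max ⌈x0⌉₊ 1, fun n hn => ?_⟩
  have h3 : x0 ≤ n := (Nat.le_ceil _).trans (by exact_mod_cast (le_max_left _ _).trans hn)
  have h4 := hx0 n h3
  have hn1 : (1 : ℝ) ≤ n := by exact_mod_cast (le_max_right _ _).trans hn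
  rw [Real.norm_of_nonneg (pow_nonneg (Real.log_nonneg hn1) _), Real.norm_of_nonneg (by positivity),
    ← Real.sqrt_eq_rpow] at h4
  linarith

/-- the linear bound -/
theorem lin_bound (k : ℕ) : ∃ w0 : ℕ, 2 ≤ w0 ∧ ∀ s : Finset (Ix k), (∀ j ∈ s, w0 < pp j) →
    ∏ j ∈ s, (1 - 1 / (pp j : ℝ))⁻¹ ≤ 1 + ∑ j ∈ s, 1 / √(pp j : ℝ) := by
  classical
  obtain ⟨C, N0, hN0, hV⟩ := V_inv_le
  obtain ⟨N1, hN1⟩ := log_pow_small (C * k)
  refine ⟨max N0 N1, hN0.trans (le_max_left _ _), fun s => ?_⟩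
  induction s using Finset.strongInduction with
  | H s ih =>
    intro hs
    rcases s.eq_empty_or_nonempty with h0 | hne
    · rw [h0, prod_empty, sum_empty, add_zero]
    obtain ⟨j, hj, hmax⟩ := exists_max_image s pp hne
    have hjw := hs j hj
    have hs' := ih (s.erase j) (erase_ssubset hj) fun i hi => hs i (mem_of_mem_erase hi)
    rw [← mul_prod_erase s _ hj, ← add_sum_erase s _ hj]
    obtain ⟨Q, hQ⟩ : ∃ Q : ℝ, Q = ∏ i ∈ s.erase j, (1 - 1 / (pp i : ℝ))⁻¹ := ⟨_, rfl⟩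
    rw [← hQ] at hs' ⊢
    have hp2 : (2 : ℝ) ≤ pp j := by exact_mod_cast pp_two j
    have h1 : 0 < 1 - 1 / (pp j : ℝ) := one_sub_pos (p := pp) pp_two j
    -- the product of the others
    have hQ1 : Q ≤ Real.log (pp j) ^ (C * k) := by
      have hsub : s.erase j ⊆ Jx k 0 (pp j) := by
        intro i hi
        rw [mem_Jx]
        exact ⟨lt_of_lt_of_le (by norm_num) (pp_two i), hmax i (mem_of_mem_erase hi)⟩
      have hQ2 : Q ≤ ∏ i ∈ Jx k 0 (pp j), (1 - 1 / (pp i : ℝ))⁻¹ := by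
        rw [hQ]
        refine prod_le_prod_of_subset_of_one_le hsub (fun i _ => ?_) (fun i _ _ => inv_ge_one (pp_two i))
        exact (inv_pos.2 (one_sub_pos (p := pp) pp_two i)).le
      refine hQ2.trans ?_
      rw [prod_Jx (fun n => (1 - 1 / (n : ℝ))⁻¹), pow_mul]
      refine pow_le_pow_left₀ (prod_nonneg fun n hn => ?_) ?_ k
      · have : 2 ≤ n := (mem_filter.1 hn).2.two_le
        exact zero_le_one.trans (inv_ge_one this)
      · have e : (Ioc 0 (pp j)).filter Nat.Prime = pz (pp j) := by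
          ext n
          rw [mem_filter, mem_Ioc, mem_pz]
          constructor
          · rintro ⟨⟨_, h2⟩, h3⟩
            exact ⟨h2, h3⟩
          · rintro ⟨h2, h3⟩
            exact ⟨⟨h3.pos, h2⟩, h3⟩
        rw [e, prod_inv_distrib]
        exact hV (pp j) (((le_max_left _ _).trans hjw.le))
    have h2 := hN1 (pp j) ((le_max_right _ _).trans hjw.le)
    -- the last factor
    have hsq : 0 < √(pp j : ℝ) := Real.sqrt_pos.2 (by linarith)
    have e1 : (1 - 1 / (pp j : ℝ))⁻¹ = 1 + 1 / ((pp j : ℝ) - 1) := by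
      have h3 : (pp j : ℝ) - 1 ≠ 0 := by linarith
      have h4 : (pp j : ℝ) ≠ 0 := by linarith
      field_simp
      ring
    have h3 : 1 / ((pp j : ℝ) - 1) ≤ 2 / (pp j : ℝ) := by
      rw [div_le_div_iff₀ (by linarith) (by linarith)]
      linarith
    have hQ0 : 0 ≤ Q := by
      rw [hQ]
      exact prod_nonneg fun i _ => (inv_pos.2 (one_sub_pos (p := pp) pp_two i)).le
    have h4 : Q * (1 / ((pp j : ℝ) - 1)) ≤ 1 / √(pp j : ℝ) := by
      calc Q * (1 / ((pp j : ℝ) - 1)) ≤ Q * (2 / (pp j : ℝ)) := mul_le_mul_of_nonneg_left h3 hQ0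
        _ = (2 * Q) / (pp j : ℝ) := by ring
        _ ≤ √(pp j : ℝ) / (pp j : ℝ) := div_le_div_of_nonneg_right (by linarith) (by linarith)
        _ = 1 / √(pp j : ℝ) := by
          rw [div_eq_div_iff (by linarith) hsq.ne', one_mul]
          exact Real.mul_self_sqrt (by linarith)
    rw [e1]
    linarith

end Pool.Agent.L5helper2.RS
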