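import Mathlib

/-!
Project RS (helper2): systems of independent uniformly distributed residues. The second moment of the
number of the elements of a family which avoid the residues.
-/

set_option autoImplicit false

namespace Pool.Agent.L5helper2.RS

open Finset MeasureTheory ProbabilityTheory

variable {Ω : Type} [MeasurableSpace Ω] {ι : Type}

/-- independent random residues `X j` modulo `p j`, uniformly distributed -/
structure RSys (P : Measure Ω) (p : ι → ℕ) (X : ι → Ω → ℕ) : Prop where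
  prob : IsProbabilityMeasure P
  meas : ∀ j, Measurable (X j)
  ind : ∀ (s : Finset ι) (C : ι → Set ℕ),
    P.real (⋂ j ∈ s, X j ⁻¹' C j) = ∏ j ∈ s, P.real (X j ⁻¹' C j)
  unif : ∀ j r, r < p j → P.real (X j ⁻¹' {r}) = 1 / p j
  two : ∀ j, 2 ≤ p j

/-- the residues which are congruent to `v` modulo `p` -/
def Bd (p : ℕ) (v : ℤ) : Set ℕ := {x | (p : ℤ) ∣ v - x}

variable {P : Measure Ω} {p : ι → ℕ} {X : ι → Ω → ℕ}

lemma measN {S : Set ℕ} : MeasurableSet S := MeasurableSet.of_discrete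

lemma RSys.mp (h : RSys P p X) (j : ι) (S : Set ℕ) : MeasurableSet (X j ⁻¹' S) :=
  h.meas j measN

lemma RSys.ge_zero (h : RSys P p X) (j : ι) : P.real (X j ⁻¹' {x | p j ≤ x}) = 0 := by
  have := h.prob
  have h1 : P.real (X j ⁻¹' {x | x < p j}) = 1 := by
    have e : X j ⁻¹' {x | x < p j} = ⋃ r ∈ range (p j), X j ⁻¹' {r} := by
      ext ω
      simp
    rw [e, measureReal_biUnion_finset]
    · rw [sum_congr rfl fun r hr => h.unif j r (mem_range.1 hr), sum_const, card_range, nsmul_eq_mul,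
        mul_one_div, div_self]
      have := h.two j
      positivity
    · intro a _ b _ hab
      rw [Function.onFun, Set.disjoint_left]
      intro ω h1 h2
      exact hab (h1.symm.trans h2)
    · intro r _
      exact h.mp j _
  have e : X j ⁻¹' {x | p j ≤ x} = (X j ⁻¹' {x | x < p j})ᶜ := by
    ext ω
    simp
  rw [e, probReal_compl_eq_one_sub (h.mp j _), h1, sub_self]

lemma RSys.bd (h : RSys P p X) (j : ι) (v : ℤ) : P.real (X j ⁻¹' Bd (p j) v) = 1 / p j := by
  have := h.prob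
  have hp : 0 < p j := lt_of_lt_of_le (by norm_num) (h.two j)
  have hpz : (0 : ℤ) < p j := by exact_mod_cast hp
  obtain ⟨r, hr⟩ : ∃ r : ℕ, r = (v % (p j : ℤ)).toNat := ⟨_, rfl⟩
  have hr0 : (r : ℤ) = v % (p j : ℤ) := by
    rw [hr]
    exact Int.toNat_of_nonneg (Int.emod_nonneg _ hpz.ne')
  have hrp : r < p j := by
    have := Int.emod_lt_of_pos v hpz
    omega
  rw [← h.unif j r hrp]
  refine le_antisymm ?_ ?_
  · have hsub : X j ⁻¹' Bd (p j) v ⊆ X j ⁻¹' {r} ∪ X j ⁻¹' {x | p j ≤ x} := by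
      intro ω hω
      by_cases hx : p j ≤ X j ω
      · exact Or.inr hx
      · left
        show X j ω = r
        have h1 : (p j : ℤ) ∣ v - (X j ω : ℤ) := hω
        have h2 : v % (p j : ℤ) = (X j ω : ℤ) % (p j : ℤ) :=
          Int.emod_eq_emod_iff_emod_sub_eq_zero.2 (Int.emod_eq_zero_of_dvd h1)
        have h3 : (X j ω : ℤ) % (p j : ℤ) = X j ω :=
          Int.emod_eq_of_lt (by positivity) (by omega)
        omega
    calc P.real (X j ⁻¹' Bd (p j) v) ≤ P.real (X j ⁻¹' {r} ∪ X j ⁻¹' {x | p j ≤ x}) :=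
          measureReal_mono hsub
      _ ≤ P.real (X j ⁻¹' {r}) + P.real (X j ⁻¹' {x | p j ≤ x}) := measureReal_union_le _ _
      _ = _ := by rw [h.ge_zero, add_zero]
  · refine measureReal_mono (fun ω hω => ?_)
    have h1 : X j ω = r := hω
    show (p j : ℤ) ∣ v - (X j ω : ℤ)
    rw [h1, hr0]
    exact Int.dvd_self_sub_emod

lemma RSys.gd (h : RSys P p X) (j : ι) (v : ℤ) : P.real (X j ⁻¹' (Bd (p j) v)ᶜ) = 1 - 1 / p j := by
  have := h.prob
  rw [Set.preimage_compl, probReal_compl_eq_one_sub (h.mp j _), h.bd]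

lemma RSys.gd2 (h : RSys P p X) (j : ι) (v v' : ℤ) (hv : ¬ (p j : ℤ) ∣ v - v') :
    P.real (X j ⁻¹' ((Bd (p j) v)ᶜ ∩ (Bd (p j) v')ᶜ)) = 1 - 2 / p j := by
  have := h.prob
  rw [← Set.compl_union, Set.preimage_compl, probReal_compl_eq_one_sub (h.mp j _), Set.preimage_union,
    measureReal_union _ (h.mp j _), h.bd, h.bd]
  · ring
  · rw [Set.disjoint_left]
    intro ω h1 h2
    apply hv
    have h3 : (p j : ℤ) ∣ v - (X j ω : ℤ) := h1
    have h4 : (p j : ℤ) ∣ v' - (X j ω : ℤ) := h2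
    have h5 := dvd_sub h3 h4
    have e : v - (X j ω : ℤ) - (v' - (X j ω : ℤ)) = v - v' := by ring
    rwa [e] at h5

lemma RSys.gd2_le (h : RSys P p X) (j : ι) (v v' : ℤ) :
    P.real (X j ⁻¹' ((Bd (p j) v)ᶜ ∩ (Bd (p j) v')ᶜ)) ≤ 1 - 1 / p j := by
  have := h.prob
  rw [← h.gd j v]
  exact measureReal_mono (fun ω hω => hω.1)

/-- the set where the value `v j` is avoided by all `X j`, `j ∈ s` -/
def Av (p : ι → ℕ) (X : ι → Ω → ℕ) (s : Finset ι) (v : ι → ℤ) : Set Ω :=
  ⋂ j ∈ s, X j ⁻¹' (Bd (p j) (v j))ᶜ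

lemma RSys.mAv (h : RSys P p X) (s : Finset ι) (v : ι → ℤ) : MeasurableSet (Av p X s v) :=
  s.measurableSet_biInter fun j _ => h.mp j _

/-- the factor of one coordinate in the correlations -/
noncomputable def rf (p : ι → ℕ) (v v' : ι → ℤ) (j : ι) : ℝ :=
  by classical exact if (p j : ℤ) ∣ v j - v' j then (1 - 1 / (p j : ℝ))⁻¹ else 1

lemma inv_ge_one {n : ℕ} (hn : 2 ≤ n) : 1 ≤ (1 - 1 / (n : ℝ))⁻¹ := by
  have h2 : (2 : ℝ) ≤ n := by exact_mod_cast hn
  have h1 : 1 / (n : ℝ) ≤ 1 / 2 := one_div_le_one_div_of_le (by norm_num) h2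
  have h0 : 0 < 1 / (n : ℝ) := by positivity
  exact one_le_inv_iff₀.2 ⟨by linarith, by linarith⟩

lemma rf_ge_one (hp : ∀ j, 2 ≤ p j) (v v' : ι → ℤ) (j : ι) : 1 ≤ rf p v v' j := by
  classical
  unfold rf
  split_ifs
  · exact inv_ge_one (hp j)
  · exact le_rfl

lemma one_sub_pos (hp : ∀ j, 2 ≤ p j) (j : ι) : 0 < 1 - 1 / (p j : ℝ) := by
  have h2 : (2 : ℝ) ≤ p j := by exact_mod_cast hp j
  have h1 : 1 / (p j : ℝ) ≤ 1 / 2 := one_div_le_one_div_of_le (by norm_num) h2
  linarith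

lemma one_sub_le (j : ι) : 1 - 1 / (p j : ℝ) ≤ 1 := by
  have : 0 ≤ 1 / (p j : ℝ) := by positivity
  linarith

/-- `V_s = ∏_{j ∈ s} (1 - 1 / p_j)` -/
noncomputable def Vs (p : ι → ℕ) (s : Finset ι) : ℝ := ∏ j ∈ s, (1 - 1 / (p j : ℝ))

lemma Vs_pos (hp : ∀ j, 2 ≤ p j) (s : Finset ι) : 0 < Vs p s :=
  prod_pos fun j _ => one_sub_pos hp j

lemma Vs_le (hp : ∀ j, 2 ≤ p j) (s : Finset ι) : Vs p s ≤ 1 :=
  prod_le_one (fun j _ => (one_sub_pos hp j).le) fun j _ => one_sub_le j

/-- the probability of avoiding one value -/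
lemma RSys.pAv (h : RSys P p X) (s : Finset ι) (v : ι → ℤ) : P.real (Av p X s v) = Vs p s := by
  unfold Av Vs
  rw [h.ind]
  exact prod_congr rfl fun j _ => h.gd j _

open Classical in
/-- the correlations: `T` and `U`, `U'` are disjoint -/
lemma RSys.corr (h : RSys P p X) (T U U' : Finset ι) (hU : Disjoint T U) (hU' : Disjoint T U')
    (v v' : ι → ℤ) :
    P.real (Av p X (T ∪ U) v ∩ Av p X (T ∪ U') v') ≤
      P.real (Av p X T v ∩ Av p X T v') * (Vs p U * Vs p U' * ∏ j ∈ U ∩ U', rf p v v' j) := by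
  have hP := h.prob
  have hp := h.two
  -- the sets
  obtain ⟨C, hC⟩ : ∃ C : ι → Set ℕ, C = fun j =>
      (if j ∈ T ∪ U then (Bd (p j) (v j))ᶜ else Set.univ) ∩
      (if j ∈ T ∪ U' then (Bd (p j) (v' j))ᶜ else Set.univ) := ⟨_, rfl⟩
  have e1 : Av p X (T ∪ U) v ∩ Av p X (T ∪ U') v' = ⋂ j ∈ T ∪ (U ∪ U'), X j ⁻¹' C j := by
    ext ω
    simp only [Av, Set.mem_inter_iff, Set.mem_iInter, Set.mem_preimage, hC, mem_union]
    constructor
    · rintro ⟨h1, h2⟩ j hj
      constructor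
      · split_ifs with h3
        · exact h1 j h3
        · trivial
      · split_ifs with h3
        · exact h2 j h3
        · trivial
    · intro h1
      constructor
      · intro j hj
        have := (h1 j (by tauto)).1
        rwa [if_pos hj] at this
      · intro j hj
        have := (h1 j (by tauto)).2
        rwa [if_pos hj] at this
  have e2 : Av p X T v ∩ Av p X T v' = ⋂ j ∈ T, X j ⁻¹' C j := by
    ext ω
    simp only [Av, Set.mem_inter_iff, Set.mem_iInter, Set.mem_preimage, hC, mem_union]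
    constructor
    · rintro ⟨h1, h2⟩ j hj
      rw [if_pos (Or.inl hj), if_pos (Or.inl hj)]
      exact ⟨h1 j hj, h2 j hj⟩
    · intro h1
      constructor
      · intro j hj
        have := (h1 j hj).1
        rwa [if_pos (Or.inl hj)] at this
      · intro j hj
        have := (h1 j hj).2
        rwa [if_pos (Or.inl hj)] at this
  have hd : Disjoint T (U ∪ U') := disjoint_union_right.2 ⟨hU, hU'⟩
  rw [e1, e2, h.ind, h.ind, prod_union hd]
  refine mul_le_mul_of_nonneg_left ?_ (prod_nonneg fun j _ => measureReal_nonneg)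
  -- the other coordinates
  have e3 : Vs p U = ∏ j ∈ U ∪ U', (if j ∈ U then 1 - 1 / (p j : ℝ) else 1) := by
    unfold Vs
    rw [prod_ite_mem, union_inter_cancel_left]
  have e4 : Vs p U' = ∏ j ∈ U ∪ U', (if j ∈ U' then 1 - 1 / (p j : ℝ) else 1) := by
    unfold Vs
    rw [prod_ite_mem, union_inter_cancel_right]
  have e5 : ∏ j ∈ U ∩ U', rf p v v' j = ∏ j ∈ U ∪ U', (if j ∈ U ∩ U' then rf p v v' j else 1) := by
    rw [prod_ite_mem]
    congr 1
    ext j
    simp only [mem_inter, mem_union]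
    tauto
  rw [e3, e4, e5, ← prod_mul_distrib, ← prod_mul_distrib]
  refine prod_le_prod (fun j _ => measureReal_nonneg) fun j hj => ?_
  have hjT : j ∉ T := fun h' => (disjoint_left.1 hd) h' hj
  have h1 := one_sub_pos hp j
  have h1' := one_sub_le (p := p) j
  by_cases hjU : j ∈ U
  · by_cases hjU' : j ∈ U'
    · have eC : C j = (Bd (p j) (v j))ᶜ ∩ (Bd (p j) (v' j))ᶜ := by
        rw [hC]
        simp only [mem_union, hjU, hjU', or_true, if_true]
      rw [eC, if_pos hjU, if_pos hjU', if_pos (mem_inter.2 ⟨hjU, hjU'⟩)]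
      by_cases hd' : (p j : ℤ) ∣ v j - v' j
      · unfold rf
        rw [if_pos hd', mul_assoc, mul_inv_cancel₀ h1.ne', mul_one]
        exact h.gd2_le j _ _
      · unfold rf
        rw [if_neg hd', mul_one, h.gd2 j _ _ hd']
        have e : (1 - 1 / (p j : ℝ)) * (1 - 1 / (p j : ℝ)) = 1 - 2 / (p j : ℝ) + (1 / (p j : ℝ)) ^ 2 := by
          ring
        rw [e]
        have : 0 ≤ (1 / (p j : ℝ)) ^ 2 := by positivity
        linarith
    · have eC : C j = (Bd (p j) (v j))ᶜ := by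
        rw [hC]
        simp only [mem_union, hjU, hjU', hjT, or_true, if_true, or_self, if_false, Set.inter_univ]
      rw [eC, if_pos hjU, if_neg hjU', if_neg (fun h' => hjU' (mem_inter.1 h').2), mul_one, mul_one]
      exact (h.gd j _).le
  · have hjU' : j ∈ U' := (mem_union.1 hj).resolve_left hjU
    have eC : C j = (Bd (p j) (v' j))ᶜ := by
      rw [hC]
      simp only [mem_union, hjU, hjU', hjT, or_true, if_true, or_self, if_false, Set.univ_inter]
    rw [eC, if_neg hjU, if_pos hjU', if_neg (fun h' => hjU (mem_inter.1 h').1), mul_one, one_mul]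
    exact (h.gd j _).le

open Classical in
/-- one of the two sets has no further coordinates -/
lemma RSys.corr1 (h : RSys P p X) (T U : Finset ι) (hU : Disjoint T U) (v v' : ι → ℤ) :
    P.real (Av p X (T ∪ U) v ∩ Av p X T v') = P.real (Av p X T v ∩ Av p X T v') * Vs p U := by
  have hP := h.prob
  obtain ⟨C, hC⟩ : ∃ C : ι → Set ℕ, C = fun j =>
      (Bd (p j) (v j))ᶜ ∩ (if j ∈ T then (Bd (p j) (v' j))ᶜ else Set.univ) := ⟨_, rfl⟩
  have e1 : Av p X (T ∪ U) v ∩ Av p X T v' = ⋂ j ∈ T ∪ U, X j ⁻¹' C j := by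
    ext ω
    simp only [Av, Set.mem_inter_iff, Set.mem_iInter, Set.mem_preimage, hC, mem_union]
    constructor
    · rintro ⟨h1, h2⟩ j hj
      refine ⟨h1 j hj, ?_⟩
      split_ifs with h3
      · exact h2 j h3
      · trivial
    · intro h1
      refine ⟨fun j hj => (h1 j hj).1, fun j hj => ?_⟩
      have := (h1 j (Or.inl hj)).2
      rwa [if_pos hj] at this
  have e2 : Av p X T v ∩ Av p X T v' = ⋂ j ∈ T, X j ⁻¹' C j := by
    ext ω
    simp only [Av, Set.mem_inter_iff, Set.mem_iInter, Set.mem_preimage, hC]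
    constructor
    · rintro ⟨h1, h2⟩ j hj
      rw [if_pos hj]
      exact ⟨h1 j hj, h2 j hj⟩
    · intro h1
      refine ⟨fun j hj => (h1 j hj).1, fun j hj => ?_⟩
      have := (h1 j hj).2
      rwa [if_pos hj] at this
  rw [e1, e2, h.ind, h.ind, prod_union hU]
  congr 1
  unfold Vs
  refine prod_congr rfl fun j hj => ?_
  have hjT : j ∉ T := fun h' => (disjoint_left.1 hU) h' hj
  have eC : C j = (Bd (p j) (v j))ᶜ := by
    rw [hC]
    simp only [hjT, if_false, Set.inter_univ]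
  rw [eC, h.gd]

end Pool.Agent.L5helper2.RS
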