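import Pool.Agent.L5helper2.RS.E1

/-! Project RS (helper2), square-root law: the discrepancy functional. -/

set_option autoImplicit false

namespace Pool.Agent.L5helper2.RS

open Finset

/-- the discrepancy functional -/
noncomputable def LL (a L P : ℕ) (g : ℕ → ℝ) : ℝ :=
  ∑ m ∈ Ioc a (a + L), g m - (L / P : ℝ) * ∑ r ∈ range P, g r

lemma LL_sum (a L P : ℕ) {τ : Type} (T : Finset τ) (c : τ → ℝ) (g : τ → ℕ → ℝ) :
    LL a L P (fun m => ∑ t ∈ T, c t * g t m) = ∑ t ∈ T, c t * LL a L P (g t) := by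
  unfold LL
  rw [sum_comm, sum_comm (s := range P), mul_sum, ← sum_sub_distrib]
  refine sum_congr rfl fun t _ => ?_
  rw [← mul_sum, ← mul_sum]
  ring

lemma LL_congr {a L P : ℕ} {g h : ℕ → ℝ} (e : ∀ m, g m = h m) : LL a L P g = LL a L P h := by
  have : g = h := funext e
  rw [this]

lemma sum_range_per {D : ℕ} (g : ℕ → ℝ) (hg : ∀ n, g (n + D) = g n) (q : ℕ) :
    ∑ r ∈ range (D * q), g r = q * ∑ r ∈ range D, g r := by
  induction q with
  | zero => simp
  | succ q ih =>
    have h1 : ∀ n, g (D * q + n) = g n := by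
      clear ih
      induction q with
      | zero => intro n; simp
      | succ q ih =>
        intro n
        have e : D * (q + 1) + n = D * q + n + D := by ring
        rw [e, hg, ih]
    rw [Nat.mul_succ, sum_range_add, ih]
    simp only [h1]
    push_cast
    ring

lemma per_mod {D : ℕ} {g : ℕ → ℝ} (hg : ∀ n, g (n + D) = g n) (n : ℕ) : g (n % D) = g n := by
  have h1 : ∀ q r, g (r + D * q) = g r := by
    intro q
    induction q with
    | zero => intro r; simp
    | succ q ih =>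
      intro r
      have e : r + D * (q + 1) = r + D * q + D := by ring
      rw [e, hg, ih]
  have := h1 (n / D) (n % D)
  rw [Nat.mod_add_div] at this
  exact this.symm

/-- the local discrepancies -/
noncomputable def lam (a L D x : ℕ) : ℝ := #((Ioc a (a + L)).filter (fun m => m % D = x)) - L / D

lemma lam_bound (a L : ℕ) {D : ℕ} (hD : 0 < D) (x : ℕ) (hx : x < D) : |lam a L D x| ≤ 2 := by
  have hc : ∀ b : ℕ, |(b.count (fun n => n % D = x) : ℝ) - (b : ℝ) / D| ≤ 1 := by
    intro b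
    have e : b.count (fun n => n % D = x) = b.count (· ≡ x [MOD D]) := by
      congr 1
      ext n
      rw [Nat.ModEq, Nat.mod_eq_of_lt hx]
    rw [e, Nat.count_modEq_card b hD x, Nat.mod_eq_of_lt hx]
    have hD0 : (0 : ℝ) < D := by exact_mod_cast hD
    have h1 : (b : ℝ) = D * (b / D : ℕ) + (b % D : ℕ) := by exact_mod_cast (Nat.div_add_mod b D).symm
    have h2 : (b : ℝ) / D = (b / D : ℕ) + (b % D : ℕ) / D := by
      rw [div_eq_iff hD0.ne']
      rw [add_mul, div_mul_cancel₀ _ hD0.ne']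
      linarith
    have h3 : (0 : ℝ) ≤ (b % D : ℕ) / (D : ℝ) := by positivity
    have h4 : ((b % D : ℕ) : ℝ) / (D : ℝ) ≤ 1 := by
      rw [div_le_one hD0]
      exact_mod_cast (Nat.mod_lt b hD).le
    rw [h2]
    push_cast
    split_ifs
    · rw [abs_le]
      constructor <;> push_cast <;> linarith
    · rw [abs_le]
      constructor <;> push_cast <;> linarith
  have e : #((Ioc a (a + L)).filter (fun m => m % D = x)) + (a + 1).count (fun n => n % D = x) =
      (a + L + 1).count (fun n => n % D = x) := by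
    rw [Nat.count_eq_card_filter_range, Nat.count_eq_card_filter_range, ← card_union_of_disjoint]
    · congr 1
      ext m
      simp only [mem_union, mem_filter, mem_Ioc, mem_range]
      constructor
      · rintro (⟨h1, h2⟩ | ⟨h1, h2⟩)
        · exact ⟨by omega, h2⟩
        · exact ⟨by omega, h2⟩
      · rintro ⟨h1, h2⟩
        rcases Nat.lt_or_ge a m with h | h
        · exact Or.inl ⟨⟨h, by omega⟩, h2⟩
        · exact Or.inr ⟨by omega, h2⟩
    · rw [Finset.disjoint_left]
      intro m hm hm'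
      rw [mem_filter, mem_Ioc] at hm
      rw [mem_filter, mem_range] at hm'
      omega
  have h1 := hc (a + 1)
  have h2 := hc (a + L + 1)
  have e' : (#((Ioc a (a + L)).filter (fun m => m % D = x)) : ℝ) =
      (a + L + 1).count (fun n => n % D = x) - (a + 1).count (fun n => n % D = x) := by
    rw [← e]
    push_cast
    ring
  unfold lam
  rw [e']
  have e2 : ((a + L + 1).count (fun n => n % D = x) : ℝ) - (a + 1).count (fun n => n % D = x) - L / D =
      (((a + L + 1).count (fun n => n % D = x) : ℝ) - ((a + L + 1 : ℕ) : ℝ) / D) -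
      (((a + 1).count (fun n => n % D = x) : ℝ) - ((a + 1 : ℕ) : ℝ) / D) := by
    push_cast
    ring
  rw [e2]
  refine (abs_sub _ _).trans ?_
  linarith

/-- the functional on periodic functions -/
lemma LL_per (a L : ℕ) {D P : ℕ} (hD : 0 < D) (hP : 0 < P) (hDP : D ∣ P) {g : ℕ → ℝ}
    (hg : ∀ n, g (n + D) = g n) : LL a L P g = ∑ x ∈ range D, g x * lam a L D x := by
  obtain ⟨q, rfl⟩ := hDP
  have hq : 0 < q := Nat.pos_of_ne_zero (fun h => by rw [h] at hP; simp at hP)
  have hD0 : (D : ℝ) ≠ 0 := by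
    have : (0 : ℝ) < D := by exact_mod_cast hD
    exact this.ne'
  have hq0 : (q : ℝ) ≠ 0 := by
    have : (0 : ℝ) < q := by exact_mod_cast hq
    exact this.ne'
  unfold LL
  rw [sum_range_per g hg]
  have h1 : ∑ m ∈ Ioc a (a + L), g m = ∑ x ∈ range D, g x * #((Ioc a (a + L)).filter (fun m => m % D = x)) := by
    rw [← sum_fiberwise_of_maps_to (s := Ioc a (a + L)) (t := range D) (g := fun m => m % D)
      (fun m _ => mem_range.2 (Nat.mod_lt _ hD))]
    refine sum_congr rfl fun x _ => ?_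
    rw [mul_comm, ← nsmul_eq_mul, ← sum_const]
    refine sum_congr rfl fun m hm => ?_
    rw [mem_filter] at hm
    rw [← per_mod hg m, hm.2]
  rw [h1, mul_sum, mul_sum, ← sum_sub_distrib]
  refine sum_congr rfl fun x _ => ?_
  unfold lam
  push_cast
  field_simp

/-- first bound for the bilinear form -/
lemma B_bound1 (a L : ℕ) {D P : ℕ} (hD : 0 < D) (hP : 0 < P) (hDP : D ∣ P) {R : ℕ → ℕ → ℝ}
    (hR0 : ∀ m n, 0 ≤ R m n) (hR1 : ∀ m n, R (m + D) n = R m n) (hR2 : ∀ m n, R m (n + D) = R m n)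
    {κ : ℝ} (hκ : ∀ m, ∑ y ∈ range D, R m y ≤ κ) :
    |LL a L P (fun m => LL a L P (R m))| ≤ 4 * D * κ := by
  have h1 : ∀ m, LL a L P (R m) = ∑ y ∈ range D, R m y * lam a L D y := fun m => LL_per a L hD hP hDP (hR2 m)
  have h2 : ∀ m, |LL a L P (R m)| ≤ 2 * κ := by
    intro m
    rw [h1]
    refine (abs_sum_le_sum_abs _ _).trans ?_
    calc ∑ y ∈ range D, |R m y * lam a L D y| ≤ ∑ y ∈ range D, R m y * 2 := by
          refine sum_le_sum fun y hy => ?_
          rw [abs_mul, abs_of_nonneg (hR0 _ _)]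
          exact mul_le_mul_of_nonneg_left (lam_bound a L hD y (mem_range.1 hy)) (hR0 _ _)
      _ = 2 * ∑ y ∈ range D, R m y := by rw [← sum_mul, mul_comm]
      _ ≤ 2 * κ := mul_le_mul_of_nonneg_left (hκ m) (by norm_num)
  have h3 : ∀ m, LL a L P (R (m + D)) = LL a L P (R m) := fun m => LL_congr (fun n => hR1 m n)
  rw [LL_per a L hD hP hDP h3]
  refine (abs_sum_le_sum_abs _ _).trans ?_
  calc ∑ x ∈ range D, |LL a L P (R x) * lam a L D x| ≤ ∑ _x ∈ range D, (2 * κ) * 2 := by
        refine sum_le_sum fun x hx => ?_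
        rw [abs_mul]
        refine mul_le_mul (h2 x) (lam_bound a L hD x (mem_range.1 hx)) (abs_nonneg _) ?_
        exact (abs_nonneg _).trans (h2 x)
    _ = _ := by
      rw [sum_const, card_range, nsmul_eq_mul]
      ring

/-- second bound for the bilinear form -/
lemma B_bound2 (a L : ℕ) {D P : ℕ} (hD : 0 < D) (hP : 0 < P) (hDP : D ∣ P) {R : ℕ → ℕ → ℝ}
    (hR0 : ∀ m n, 0 ≤ R m n) (hR2 : ∀ m n, R m (n + D) = R m n) (hsym : ∀ m n, R m n = R n m)
    {κ : ℝ} (hκ : ∀ m, ∑ y ∈ range D, R m y ≤ κ) :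
    |LL a L P (fun m => LL a L P (R m))| ≤ ∑ m ∈ Ioc a (a + L), ∑ n ∈ Ioc a (a + L), R m n +
      3 * ((L : ℝ) ^ 2 / D) * κ := by
  have hD0 : (0 : ℝ) < D := by exact_mod_cast hD
  have hP0 : (0 : ℝ) < P := by exact_mod_cast hP
  -- the sum over a period of the length `P`
  have hrow : ∀ m, (1 / P : ℝ) * ∑ r ∈ range P, R m r = (1 / D : ℝ) * ∑ r ∈ range D, R m r := by
    intro m
    obtain ⟨q, hq⟩ := hDP
    have hq0 : (q : ℝ) ≠ 0 := by
      have : 0 < q := Nat.pos_of_ne_zero (fun h => by rw [h] at hq; simp at hq; omega)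
      have : (0 : ℝ) < q := by exact_mod_cast this
      exact this.ne'
    rw [hq, sum_range_per _ (hR2 m)]
    push_cast
    field_simp
  have hκD : ∀ m, (1 / P : ℝ) * ∑ r ∈ range P, R m r ≤ κ / D := by
    intro m
    rw [hrow, one_div, inv_mul_eq_div]
    exact div_le_div_of_nonneg_right (hκ m) hD0.le
  have hκ0 : ∀ m, 0 ≤ (1 / P : ℝ) * ∑ r ∈ range P, R m r := fun m =>
    mul_nonneg (by positivity) (sum_nonneg fun r _ => hR0 _ _)
  -- the four sums
  obtain ⟨S1, hS1⟩ : ∃ S1 : ℝ, S1 = ∑ m ∈ Ioc a (a + L), ∑ n ∈ Ioc a (a + L), R m n := ⟨_, rfl⟩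
  obtain ⟨S2, hS2⟩ : ∃ S2 : ℝ, S2 = ∑ m ∈ Ioc a (a + L), (1 / P : ℝ) * ∑ r ∈ range P, R m r := ⟨_, rfl⟩
  obtain ⟨S3, hS3⟩ : ∃ S3 : ℝ, S3 = (1 / P : ℝ) * ∑ r ∈ range P, (1 / P : ℝ) * ∑ r' ∈ range P, R r r' := ⟨_, rfl⟩
  have e : LL a L P (fun m => LL a L P (R m)) = S1 - L * S2 - L * S2 + L ^ 2 * S3 := by
    have e1 : ∑ r ∈ range P, ∑ m ∈ Ioc a (a + L), R r m = P * S2 := by
      rw [hS2, sum_comm, mul_sum]
      refine sum_congr rfl fun m _ => ?_
      rw [← mul_assoc, mul_one_div_cancel hP0.ne', one_mul]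
      exact sum_congr rfl fun r _ => hsym _ _
    have e2 : ∑ m ∈ Ioc a (a + L), ∑ r ∈ range P, R m r = P * S2 := by
      rw [hS2, mul_sum]
      refine sum_congr rfl fun m _ => ?_
      rw [← mul_assoc, mul_one_div_cancel hP0.ne', one_mul]
    have e3 : ∑ r ∈ range P, ∑ r' ∈ range P, R r r' = P ^ 2 * S3 := by
      rw [hS3, ← mul_sum]
      field_simp
    unfold LL
    rw [sum_sub_distrib, sum_sub_distrib, ← mul_sum, ← mul_sum, e1, e2, e3, hS1]
    field_simp
    ring
  have b2 : S2 ≤ L * (κ / D) := by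
    rw [hS2]
    calc _ ≤ ∑ _m ∈ Ioc a (a + L), κ / D := sum_le_sum fun m _ => hκD m
      _ = _ := by rw [sum_const, Nat.card_Ioc, Nat.add_sub_cancel_left, nsmul_eq_mul]
  have b2' : 0 ≤ S2 := by rw [hS2]; exact sum_nonneg fun m _ => hκ0 m
  have b3 : S3 ≤ κ / D := by
    rw [hS3]
    calc (1 / P : ℝ) * ∑ r ∈ range P, (1 / P : ℝ) * ∑ r' ∈ range P, R r r' ≤
          (1 / P : ℝ) * ∑ _r ∈ range P, κ / D := mul_le_mul_of_nonneg_left (sum_le_sum fun r _ => hκD r) (by positivity)
      _ = _ := by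
        rw [sum_const, card_range, nsmul_eq_mul]
        field_simp
  have b3' : 0 ≤ S3 := by
    rw [hS3]
    exact mul_nonneg (by positivity) (sum_nonneg fun r _ => hκ0 r)
  have b1' : 0 ≤ S1 := by rw [hS1]; exact sum_nonneg fun m _ => sum_nonneg fun n _ => hR0 _ _
  rw [e, ← hS1]
  have hL0 : (0 : ℝ) ≤ L := by positivity
  have c1 : L * S2 ≤ (L : ℝ) ^ 2 / D * κ := by
    calc L * S2 ≤ L * (L * (κ / D)) := mul_le_mul_of_nonneg_left b2 hL0
      _ = _ := by ring
  have c2 : (L : ℝ) ^ 2 * S3 ≤ (L : ℝ) ^ 2 / D * κ := by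
    calc (L : ℝ) ^ 2 * S3 ≤ (L : ℝ) ^ 2 * (κ / D) := mul_le_mul_of_nonneg_left b3 (by positivity)
      _ = _ := by ring
  have c3 : 0 ≤ L * S2 := mul_nonneg hL0 b2'
  have c4 : 0 ≤ (L : ℝ) ^ 2 * S3 := mul_nonneg (by positivity) b3'
  rw [abs_le]
  constructor <;> linarith

/-- the number of the residues modulo a product of primes -/
lemma crt_card (T : Finset ℕ) (A : ℕ → Finset ℕ) (K : ℕ) : (∀ p ∈ T, p.Prime) → (∀ p ∈ T, #(A p) ≤ K) →
    #((range (∏ p ∈ T, p)).filter (fun y => ∀ p ∈ T, y % p ∈ A p)) ≤ K ^ #T := by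
  classical
  induction T using Finset.induction_on with
  | empty =>
    intro _ _
    simp
  | insert q T hq ih =>
    intro hT hA
    have ih' := ih (fun p hp => hT p (mem_insert_of_mem hp)) (fun p hp => hA p (mem_insert_of_mem hp))
    have hqp := hT q (mem_insert_self _ _)
    obtain ⟨D, hD⟩ : ∃ D, D = ∏ p ∈ T, p := ⟨_, rfl⟩
    have hD0 : 0 < D := by
      rw [hD]
      exact Finset.prod_pos fun p hp => (hT p (mem_insert_of_mem hp)).pos
    have hcop : Nat.Coprime q D := by
      rw [hD]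
      refine Nat.Coprime.prod_right fun p hp => ?_
      rw [Nat.coprime_primes hqp (hT p (mem_insert_of_mem hp))]
      rintro rfl
      exact hq hp
    rw [prod_insert hq, card_insert_of_notMem hq, ← hD, pow_succ, mul_comm (K ^ #T)]
    rw [← hD] at ih'
    calc #((range (q * D)).filter (fun y => ∀ p ∈ insert q T, y % p ∈ A p)) ≤
          #((A q) ×ˢ ((range D).filter (fun y => ∀ p ∈ T, y % p ∈ A p))) := by
          apply card_le_card_of_injOn (fun y => (y % q, y % D))
          · intro y hy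
            rw [mem_coe, mem_filter, mem_range] at hy
            rw [mem_coe, mem_product, mem_filter, mem_range]
            refine ⟨hy.2 q (mem_insert_self _ _), Nat.mod_lt _ hD0, fun p hp => ?_⟩
            have hpd : p ∣ D := by
              rw [hD]
              exact dvd_prod_of_mem _ hp
            rw [Nat.mod_mod_of_dvd _ hpd]
            exact hy.2 p (mem_insert_of_mem hp)
          · intro y hy y' hy' h
            rw [mem_coe, mem_filter, mem_range] at hy hy'
            simp only [Prod.mk.injEq] at h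
            have h1 : y ≡ y' [MOD q * D] := (Nat.modEq_and_modEq_iff_modEq_mul hcop).1 ⟨h.1, h.2⟩
            exact Nat.ModEq.eq_of_lt_of_lt h1 hy.1 hy'.1
      _ = #(A q) * #((range D).filter (fun y => ∀ p ∈ T, y % p ∈ A p)) := card_product _ _
      _ ≤ K * K ^ #T := Nat.mul_le_mul (hA q (mem_insert_self _ _)) ih'

end Pool.Agent.L5helper2.RS
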