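import Pool.Agent.L5helper2.RS.S10

/-! Project RS (helper2): the Bateman-Horn form for all systems of polynomials. -/

set_option autoImplicit false

namespace Pool.Agent.L5helper2.RS

open Finset Polynomial MeasureTheory ProbabilityTheory Filter Topology

variable {k : ℕ} {Ω : Type} [MeasurableSpace Ω] {P : Measure Ω}

lemma modEq_dvd (p : ℕ) (u v : ℤ) : u ≡ v [ZMOD p] ↔ (p : ℤ) ∣ u - v := by
  rw [Int.modEq_iff_dvd]
  exact dvd_sub_comm

open Classical in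
/-- the number of the bad residues -/
noncomputable def rho (f : Fin k → ℤ[X]) (a : ℕ → Fin k → Ω → ℕ) (ω : Ω) (p : ℕ) : ℕ :=
  #((range p).filter fun r : ℕ => ∃ i, (f i).eval (r : ℤ) ≡ (a p i ω : ℤ) [ZMOD p])

omit [MeasurableSpace Ω] in
lemma rho_le (f : Fin k → ℤ[X]) (a : ℕ → Fin k → Ω → ℕ) (ω : Ω) (p : ℕ) : rho f a ω p ≤ p := by
  classical
  unfold rho
  exact (card_filter_le _ _).trans (card_range p).le

lemma Wd_prod (hk : 1 ≤ k) (f : Fin k → ℤ[X]) (a : ℕ → Fin k → Ω → ℕ) (z : ℕ) (ω : Ω) :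
    Wd f (Xa a) (Jx k 0 z) ω = ∏ p ∈ (Icc 1 z).filter Nat.Prime, (1 - (rho f a ω p : ℝ) / p) := by
  classical
  have h1 := EE_eq hk f a 1 z ω
  have h2 : EE f (Xa a) 0 1 z ω = Ns f (Xa a) (Jx k 0 z) 1 ω - (1 : ℕ) * Wd f (Xa a) (Jx k 0 z) ω := by
    rw [← LL_Ns]
    rfl
  have h3 : Ns f (Xa a) (Jx k 0 z) 1 ω = (#((Icc 1 1).filter fun m : ℕ => ∀ p : ℕ, p ≤ z → p.Prime →
        ∀ i, ¬ (f i).eval (m : ℤ) ≡ (a p i ω : ℤ) [ZMOD p]) : ℝ) := by
    rw [Ns_card]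
    have e : (Ioc 0 1).filter (fun m => ∀ j ∈ Jx k 0 z, ¬ ((pp j : ℤ) ∣ vl f m j - Xa a j ω)) =
        (Icc 1 1).filter fun m : ℕ => ∀ p : ℕ, p ≤ z → p.Prime →
        ∀ i, ¬ (f i).eval (m : ℤ) ≡ (a p i ω : ℤ) [ZMOD p] := by
      refine filter_congr fun m _ => ?_
      constructor
      · intro h p hp hpp i h4
        rw [modEq_dvd] at h4
        exact h (⟨p, hpp⟩, i) (mem_Jx.2 ⟨hpp.pos, hp⟩) h4
      · intro h j hj h4
        rw [mem_Jx] at hj
        refine h (pp j) hj.2 j.1.2 j.2 ?_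
        rw [modEq_dvd]
        exact h4
    rw [e]
  rw [h2, h3] at h1
  have h4 : ∀ p ∈ (Icc 1 z).filter Nat.Prime, (1 - (rho f a ω p : ℝ) / p) =
      (1 - (#((range p).filter fun r : ℕ => ∃ i, (f i).eval (r : ℤ) ≡ (a p i ω : ℤ) [ZMOD p]) : ℝ) / p) := by
    intro p _
    rfl
  rw [prod_congr rfl h4]
  push_cast at h1
  linarith

lemma TT_prod (hk : 1 ≤ k) (f : Fin k → ℤ[X]) (a : ℕ → Fin k → Ω → ℕ) (z : ℕ) (ω : Ω) :
    TT f (Xa a) (Jx k 0 z) ω = ∏ p ∈ (Icc 1 z).filter Nat.Prime,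
      (1 - (rho f a ω p : ℝ) / p) / (1 - 1 / (p : ℝ)) ^ k := by
  unfold TT
  rw [Wd_prod hk, Vs_Vp, Vp_eq, ← prod_pow, ← prod_div_distrib]

omit [MeasurableSpace Ω] in
open Classical in
lemma Nh_eq (θ : ℝ) (f : Fin k → ℤ[X]) (a : ℕ → Fin k → Ω → ℕ) (x : ℕ) (ω : Ω) :
    Nh θ f (Xa a) x ω = #((Icc 1 x).filter fun m : ℕ => ∀ i, ∀ p : ℕ, p.Prime →
      (p : ℝ) ≤ |(((f i).eval (m : ℤ) : ℤ) : ℝ)| ^ θ → ¬ (f i).eval (m : ℤ) ≡ (a p i ω : ℤ) [ZMOD p]) := by
  unfold Nh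
  have e : (Ioc 0 x).filter (hit θ f (Xa a) ω) = (Icc 1 x).filter fun m : ℕ => ∀ i, ∀ p : ℕ, p.Prime →
      (p : ℝ) ≤ |(((f i).eval (m : ℤ) : ℤ) : ℝ)| ^ θ → ¬ (f i).eval (m : ℤ) ≡ (a p i ω : ℤ) [ZMOD p] := by
    refine filter_congr fun m _ => ?_
    constructor
    · intro h i p hpp hp h4
      rw [modEq_dvd] at h4
      exact h (⟨p, hpp⟩, i) hp h4
    · intro h j hj h4
      refine h j.2 (pp j) j.1.2 hj ?_
      rw [modEq_dvd]
      exact h4
  rw [e]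

/-- the law for all systems of polynomials -/
theorem bh_all (hk : 1 ≤ k) (a : ℕ → Fin k → Ω → ℕ) [IsProbabilityMeasure P] (hmeas : ∀ p i, Measurable (a p i))
    (hind : iIndepFun (fun q : Nat.Primes × Fin k => a q.1 q.2) P)
    (hunif : ∀ (p : ℕ) (i : Fin k) (r : ℕ), p.Prime → r < p → P.real {ω | a p i ω = r} = 1 / p) :
    ∀ᵐ ω ∂P, ∀ f : Fin k → ℤ[X], (∀ i, 1 ≤ (f i).natDegree) → ∃ C : ℝ, 0 ≤ C ∧
      (0 < C ↔ ∀ p : ℕ, p.Prime → ∃ r : ℕ, ∀ i, ¬ (f i).eval (r : ℤ) ≡ (a p i ω : ℤ) [ZMOD p]) ∧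
      Tendsto (fun z : ℕ => ∏ p ∈ (Icc 1 z).filter Nat.Prime,
        (1 - (rho f a ω p : ℝ) / p) / (1 - 1 / (p : ℝ)) ^ k) atTop (𝓝 C) ∧
      ∀ θ : ℝ, 0 < θ → Tendsto (fun x : ℕ => Nh θ f (Xa a) x ω * Real.log x ^ k / x) atTop
        (𝓝 (C * ∏ i, (Real.exp (-Real.eulerMascheroniConstant) * (1 / (θ * (f i).natDegree))))) := by
  classical
  have hcount : Countable ℤ[X] := Cardinal.mk_le_aleph0_iff.1 (Polynomial.cardinalMk_le_max.trans (by simp))
  obtain ⟨hR, hi⟩ := sys_of a hmeas hind hunif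
  rw [ae_all_iff]
  intro f
  by_cases hf : ∀ i, 1 ≤ (f i).natDegree
  swap
  · exact Eventually.of_forall fun ω h => absurd h hf
  filter_upwards [sing_one hR hk hf, bh_one hR hk hf] with ω h1 h2 _
  obtain ⟨m, T, hT, hlim⟩ := h1
  have hC : Tendsto (fun n => TT f (Xa a) (Jx k 0 n) ω) atTop (𝓝 (TT f (Xa a) (Jx k 0 m) ω * T)) := by
    refine (hlim.const_mul _).congr' ?_
    filter_upwards [eventually_ge_atTop m] with n hn
    exact (TT_split f (Nat.zero_le m) hn ω).symm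
  refine ⟨TT f (Xa a) (Jx k 0 m) ω * T, mul_nonneg (TT_nonneg f _ ω) hT.le, ?_, ?_, h2 _ hC⟩
  · have hbad : ∀ p : ℕ, p.Prime → (¬ ∃ r : ℕ, ∀ i, ¬ (f i).eval (r : ℤ) ≡ (a p i ω : ℤ) [ZMOD p]) →
        rho f a ω p = p := by
      intro p _ hp
      push Not at hp
      unfold rho
      rw [filter_true_of_mem fun r _ => hp r, card_range]
    have hgood : ∀ p : ℕ, p.Prime → (∃ r : ℕ, ∀ i, ¬ (f i).eval (r : ℤ) ≡ (a p i ω : ℤ) [ZMOD p]) →
        rho f a ω p < p := by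
      rintro p hpp ⟨r, hr⟩
      refine lt_of_le_of_ne (rho_le f a ω p) fun h3 => ?_
      have h4 : (range p).filter (fun r : ℕ => ∃ i, (f i).eval (r : ℤ) ≡ (a p i ω : ℤ) [ZMOD p]) = range p := by
        refine eq_of_subset_of_card_le (filter_subset _ _) ?_
        rw [card_range]
        unfold rho at h3
        exact h3.ge
      have h5 : r % p ∈ range p := mem_range.2 (Nat.mod_lt _ hpp.pos)
      rw [← h4, mem_filter] at h5
      obtain ⟨i, hi2⟩ := h5.2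
      refine hr i ?_
      rw [modEq_dvd] at hi2 ⊢
      have h6 := Polynomial.sub_dvd_eval_sub (r : ℤ) ((r % p : ℕ) : ℤ) (f i)
      have h7 : (p : ℤ) ∣ (r : ℤ) - ((r % p : ℕ) : ℤ) := by
        rw [← modEq_dvd]
        push_cast
        exact (Int.mod_modEq _ _).symm
      have e : (f i).eval (r : ℤ) - (a p i ω : ℤ) = ((f i).eval (r : ℤ) - (f i).eval ((r % p : ℕ) : ℤ)) +
          ((f i).eval ((r % p : ℕ) : ℤ) - (a p i ω : ℤ)) := by ring
      rw [e]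
      exact dvd_add (h7.trans h6) hi2
    constructor
    · intro h3 p hpp
      by_contra h4
      have h5 := hbad p hpp h4
      have h6 : Tendsto (fun n => TT f (Xa a) (Jx k 0 n) ω) atTop (𝓝 0) := by
        refine tendsto_const_nhds.congr' ?_
        filter_upwards [eventually_ge_atTop p] with n hn
        rw [TT_prod hk]
        refine (prod_eq_zero (i := p) ?_ ?_).symm
        · rw [mem_filter, mem_Icc]
          exact ⟨⟨hpp.pos, hn⟩, hpp⟩
        · rw [h5]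
          have : (p : ℝ) ≠ 0 := by exact_mod_cast hpp.ne_zero
          rw [div_self this, sub_self, zero_div]
      have h7 := tendsto_nhds_unique h6 hC
      linarith
    · intro h3
      refine mul_pos ?_ hT
      rw [TT_prod hk]
      refine prod_pos fun p hp => ?_
      rw [mem_filter] at hp
      have h4 := hgood p hp.2 (h3 p hp.2)
      have hp0 : (0 : ℝ) < p := by exact_mod_cast hp.2.pos
      have hp1 : (1 : ℝ) < p := by exact_mod_cast hp.2.one_lt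
      have h5 : (rho f a ω p : ℝ) < p := by exact_mod_cast h4
      have h6 : (rho f a ω p : ℝ) / p < 1 := by
        rw [div_lt_one hp0]
        exact h5
      have h7 : 1 / (p : ℝ) < 1 := by
        rw [div_lt_one hp0]
        exact hp1
      have h8 : 0 < 1 - 1 / (p : ℝ) := by linarith
      exact div_pos (by linarith) (by positivity)
  · refine hC.congr fun n => ?_
    rw [TT_prod hk]

end Pool.Agent.L5helper2.RS
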