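import Pool.Agent.L5helper2.RS.S1

/-! Project RS (helper2), square-root law: polynomials. -/

set_option autoImplicit false

namespace Pool.Agent.L5helper2.RS

open Finset Polynomial

/-- the number of the residues with a given value -/
lemma res_count (g : ℤ[X]) (hg : 1 ≤ g.natDegree) {p : ℕ} (hp : p.Prime) (c : ℤ) :
    #((range p).filter (fun y : ℕ => (p : ℤ) ∣ c - g.eval (y : ℤ))) ≤ g.natDegree + g.leadingCoeff.natAbs := by
  have : Fact p.Prime := ⟨hp⟩
  have hg0 : g ≠ 0 := by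
    rintro rfl
    simp at hg
  by_cases hl : (p : ℤ) ∣ g.leadingCoeff
  · have h1 : p ≤ g.leadingCoeff.natAbs :=
      Nat.le_of_dvd (Int.natAbs_pos.2 (leadingCoeff_ne_zero.2 hg0)) (Int.natCast_dvd.1 hl)
    calc _ ≤ #(range p) := card_filter_le _ _
      _ = p := card_range p
      _ ≤ _ := by omega
  · obtain ⟨H, hH⟩ : ∃ H : ℤ[X], H = g - C c := ⟨_, rfl⟩
    obtain ⟨Hp, hHp⟩ : ∃ Hp : (ZMod p)[X], Hp = H.map (Int.castRingHom (ZMod p)) := ⟨_, rfl⟩
    have hne : Hp ≠ 0 := by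
      intro h0
      apply hl
      have h1 : Hp.coeff g.natDegree = 0 := by rw [h0, coeff_zero]
      rw [hHp, coeff_map, hH, coeff_sub, coeff_C, if_neg (by omega), sub_zero] at h1
      rw [← ZMod.intCast_zmod_eq_zero_iff_dvd]
      simpa using h1
    have hev : ∀ x : ℤ, ((p : ℤ) ∣ c - g.eval x) ↔ Hp.eval (x : ZMod p) = 0 := by
      intro x
      have e : c - g.eval x = -(H.eval x) := by
        rw [hH, eval_sub, eval_C]
        ring
      rw [e, dvd_neg, ← ZMod.intCast_zmod_eq_zero_iff_dvd, hHp]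
      have h := eval_intCast_map (Int.castRingHom (ZMod p)) H x
      simp only [eq_intCast, Int.cast_id] at h
      rw [h]
    have h1 : #((range p).filter (fun a : ℕ => (p : ℤ) ∣ c - g.eval (a : ℤ))) ≤ #Hp.roots.toFinset := by
      apply card_le_card_of_injOn (fun a : ℕ => (a : ZMod p))
      · intro a ha
        rw [mem_coe, mem_filter] at ha
        rw [mem_coe, Multiset.mem_toFinset, mem_roots hne]
        have := (hev a).1 ha.2
        simpa using this
      · intro a ha b hb hab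
        rw [mem_coe, mem_filter, mem_range] at ha hb
        simp only at hab
        have h2 := congrArg ZMod.val hab
        rwa [ZMod.val_cast_of_lt ha.1, ZMod.val_cast_of_lt hb.1] at h2
    have h2 : #Hp.roots.toFinset ≤ g.natDegree := by
      refine (Multiset.toFinset_card_le _).trans ((card_roots' _).trans ?_)
      rw [hHp]
      refine natDegree_map_le.trans ?_
      rw [hH, natDegree_sub_C]
    omega

/-- the number of arguments with a given value -/
lemma val_count (g : ℤ[X]) (hg : 1 ≤ g.natDegree) (c : ℤ) (I : Finset ℕ) :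
    #(I.filter (fun n : ℕ => c = g.eval (n : ℤ))) ≤ g.natDegree := by
  classical
  have hne : g - C c ≠ 0 := by
    intro h
    have := congrArg natDegree h
    rw [natDegree_sub_C, natDegree_zero] at this
    omega
  have h1 : #(I.filter (fun n : ℕ => c = g.eval (n : ℤ))) ≤ #(g - C c).roots.toFinset := by
    apply card_le_card_of_injOn (fun a : ℕ => (a : ℤ))
    · intro a ha
      rw [mem_coe, mem_filter] at ha
      rw [mem_coe, Multiset.mem_toFinset, mem_roots hne, IsRoot.def, eval_sub, eval_C, ← ha.2, sub_self]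
    · intro a _ b _ hab
      exact Nat.cast_injective hab
  refine h1.trans ((Multiset.toFinset_card_le _).trans ((card_roots' _).trans ?_))
  rw [natDegree_sub_C]

/-- polynomial values are at most a power -/
lemma eval_bound (f : ℤ[X]) : ∃ c : ℕ, ∀ x : ℕ, 2 ≤ x → ∀ m : ℕ, m ≤ x → |f.eval (m : ℤ)| ≤ (x : ℤ) ^ c := by
  induction f using Polynomial.induction_on' with
  | add p q hp hq =>
    obtain ⟨a, ha⟩ := hp
    obtain ⟨b, hb⟩ := hq
    refine ⟨max a b + 1, fun x hx m hm => ?_⟩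
    have hx' : (2 : ℤ) ≤ x := by exact_mod_cast hx
    rw [eval_add]
    have h1 : (x : ℤ) ^ a ≤ (x : ℤ) ^ max a b := pow_le_pow_right₀ (by linarith) (le_max_left _ _)
    have h2 : (x : ℤ) ^ b ≤ (x : ℤ) ^ max a b := pow_le_pow_right₀ (by linarith) (le_max_right _ _)
    have h3 : (0 : ℤ) < (x : ℤ) ^ max a b := by positivity
    calc |p.eval (m : ℤ) + q.eval (m : ℤ)| ≤ |p.eval (m : ℤ)| + |q.eval (m : ℤ)| := abs_add_le _ _
      _ ≤ (x : ℤ) ^ max a b + (x : ℤ) ^ max a b := by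
        have := ha x hx m hm
        have := hb x hx m hm
        linarith
      _ = 2 * (x : ℤ) ^ max a b := by ring
      _ ≤ x * (x : ℤ) ^ max a b := mul_le_mul_of_nonneg_right hx' h3.le
      _ = _ := by rw [pow_succ]; ring
  | monomial n a =>
    refine ⟨n + a.natAbs, fun x hx m hm => ?_⟩
    have hx' : (2 : ℤ) ≤ x := by exact_mod_cast hx
    rw [eval_monomial, abs_mul, abs_pow, pow_add, mul_comm]
    have h1 : |(m : ℤ)| ≤ x := by
      rw [abs_of_nonneg (by positivity)]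
      exact_mod_cast hm
    have h2 : |a| ≤ (x : ℤ) ^ a.natAbs := by
      have h3 : a.natAbs < 2 ^ a.natAbs := Nat.lt_two_pow_self
      calc |a| = (a.natAbs : ℤ) := Int.abs_eq_natAbs a
        _ ≤ ((2 ^ a.natAbs : ℕ) : ℤ) := by exact_mod_cast h3.le
        _ = (2 : ℤ) ^ a.natAbs := by push_cast; rfl
        _ ≤ _ := pow_le_pow_left₀ (by norm_num) hx' _
    exact mul_le_mul (pow_le_pow_left₀ (abs_nonneg _) h1 n) h2 (abs_nonneg _) (by positivity)

/-- the number of the prime factors -/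
lemma two_pow_omega (ε : ℝ) (hε : 0 < ε) : ∃ C : ℝ, 1 ≤ C ∧ ∀ n : ℕ, 1 ≤ n →
    (2 : ℝ) ^ #n.primeFactors ≤ C * (n : ℝ) ^ ε := by
  obtain ⟨M, hM⟩ := exists_nat_ge ((2 : ℝ) ^ (1 / ε))
  refine ⟨2 ^ M, one_le_pow₀ (by norm_num), fun n hn => ?_⟩
  have hn0 : (0 : ℝ) < n := by exact_mod_cast hn
  rw [← prod_const, ← prod_filter_mul_prod_filter_not n.primeFactors (fun p => p ≤ M)]
  refine mul_le_mul ?_ ?_ (by positivity) (by positivity)
  · rw [prod_const]
    refine pow_le_pow_right₀ (by norm_num) ?_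
    calc #(n.primeFactors.filter (fun p => p ≤ M)) ≤ #(Icc 1 M) := by
          refine card_le_card fun p hp => ?_
          rw [mem_filter, Nat.mem_primeFactors] at hp
          rw [mem_Icc]
          exact ⟨hp.1.1.pos, hp.2⟩
      _ = M := by simp
  · calc ∏ _p ∈ n.primeFactors.filter (fun p => ¬ p ≤ M), (2 : ℝ) ≤
          ∏ p ∈ n.primeFactors.filter (fun p => ¬ p ≤ M), (p : ℝ) ^ ε := by
          refine prod_le_prod (fun _ _ => by norm_num) fun p hp => ?_
          rw [mem_filter, not_le] at hp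
          have h1 : (M : ℝ) ≤ p := by exact_mod_cast hp.2.le
          calc (2 : ℝ) = ((2 : ℝ) ^ (1 / ε)) ^ ε := by
                rw [← Real.rpow_mul (by norm_num), one_div_mul_cancel hε.ne', Real.rpow_one]
            _ ≤ (p : ℝ) ^ ε := Real.rpow_le_rpow (by positivity) (hM.trans h1) hε.le
      _ ≤ ∏ p ∈ n.primeFactors, (p : ℝ) ^ ε := by
          refine prod_le_prod_of_subset_of_one_le (filter_subset _ _) (fun p _ => by positivity) fun p hp _ => ?_
          have : (1 : ℝ) ≤ p := by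
            rw [Nat.mem_primeFactors] at hp
            exact_mod_cast hp.1.one_lt.le
          exact Real.one_le_rpow this hε.le
      _ = ((∏ p ∈ n.primeFactors, p : ℕ) : ℝ) ^ ε := by
          push_cast
          rw [Real.finset_prod_rpow _ _ (fun p _ => by positivity)]
      _ ≤ (n : ℝ) ^ ε := by
          refine Real.rpow_le_rpow (by positivity) ?_ hε.le
          exact_mod_cast Nat.le_of_dvd hn (Nat.prod_primeFactors_dvd n)

variable {k : ℕ}

/-- the values -/
noncomputable def vl (f : Fin k → ℤ[X]) (m : ℕ) (j : Ix k) : ℤ := (f j.2).eval (m : ℤ)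

/-- the product of the primes of a set of indices -/
def Dt (t : Finset (Ix k)) : ℕ := ∏ p ∈ t.image pp, p

open Classical in
/-- coincidence for one index -/
noncomputable def Rj (f : Fin k → ℤ[X]) (j : Ix k) (m n : ℕ) : ℝ :=
  if (pp j : ℤ) ∣ vl f m j - vl f n j then 1 else 0

/-- coincidence for a set of indices -/
noncomputable def Rt (f : Fin k → ℤ[X]) (t : Finset (Ix k)) (m n : ℕ) : ℝ := ∏ j ∈ t, Rj f j m n

lemma Rj_01 (f : Fin k → ℤ[X]) (j : Ix k) (m n : ℕ) : 0 ≤ Rj f j m n ∧ Rj f j m n ≤ 1 := by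
  unfold Rj
  split_ifs <;> norm_num

lemma Rt_nonneg (f : Fin k → ℤ[X]) (t : Finset (Ix k)) (m n : ℕ) : 0 ≤ Rt f t m n :=
  prod_nonneg fun j _ => (Rj_01 f j m n).1

lemma Rt_le (f : Fin k → ℤ[X]) (t : Finset (Ix k)) (m n : ℕ) : Rt f t m n ≤ 1 :=
  prod_le_one (fun j _ => (Rj_01 f j m n).1) fun j _ => (Rj_01 f j m n).2

lemma Rt_eq_zero {f : Fin k → ℤ[X]} {t : Finset (Ix k)} {m n : ℕ} {j : Ix k} (hj : j ∈ t)
    (h : ¬ (pp j : ℤ) ∣ vl f m j - vl f n j) : Rt f t m n = 0 := by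
  classical
  refine prod_eq_zero hj ?_
  unfold Rj
  rw [if_neg h]

lemma Rj_comm (f : Fin k → ℤ[X]) (j : Ix k) (m n : ℕ) : Rj f j m n = Rj f j n m := by
  unfold Rj
  have : ((pp j : ℤ) ∣ vl f m j - vl f n j) ↔ ((pp j : ℤ) ∣ vl f n j - vl f m j) := dvd_sub_comm
  simp only [this]

lemma Rt_comm (f : Fin k → ℤ[X]) (t : Finset (Ix k)) (m n : ℕ) : Rt f t m n = Rt f t n m :=
  prod_congr rfl fun j _ => Rj_comm f j m n

lemma pp_dvd_Dt {t : Finset (Ix k)} {j : Ix k} (hj : j ∈ t) : pp j ∣ Dt t :=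
  dvd_prod_of_mem _ (mem_image_of_mem _ hj)

lemma Dt_pos (t : Finset (Ix k)) : 0 < Dt t := by
  refine Finset.prod_pos fun p hp => ?_
  rw [mem_image] at hp
  obtain ⟨j, _, rfl⟩ := hp
  exact j.1.2.pos

lemma Dt_dvd {s t : Finset (Ix k)} (h : s ⊆ t) : Dt s ∣ Dt t :=
  prod_dvd_prod_of_subset _ _ _ (image_subset_image h)

lemma vl_add (f : Fin k → ℤ[X]) (n : ℕ) (j : Ix k) {D : ℕ} (hD : pp j ∣ D) :
    (pp j : ℤ) ∣ vl f (n + D) j - vl f n j := by
  unfold vl
  have h1 := Polynomial.sub_dvd_eval_sub ((n + D : ℕ) : ℤ) (n : ℤ) (f j.2)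
  have e : ((n + D : ℕ) : ℤ) - n = D := by push_cast; ring
  rw [e] at h1
  exact (Int.natCast_dvd_natCast.2 hD).trans h1

lemma Rj_per (f : Fin k → ℤ[X]) (j : Ix k) (m n : ℕ) {D : ℕ} (hD : pp j ∣ D) : Rj f j m (n + D) = Rj f j m n := by
  unfold Rj
  have h1 := vl_add f n j hD
  have : ((pp j : ℤ) ∣ vl f m j - vl f (n + D) j) ↔ ((pp j : ℤ) ∣ vl f m j - vl f n j) := by
    have e : vl f m j - vl f n j = (vl f m j - vl f (n + D) j) + (vl f (n + D) j - vl f n j) := by ring
    rw [e]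
    exact (dvd_add_left h1).symm
  simp only [this]

lemma Rt_per (f : Fin k → ℤ[X]) (t : Finset (Ix k)) (m n : ℕ) : Rt f t m (n + Dt t) = Rt f t m n :=
  prod_congr rfl fun j hj => Rj_per f j m n (pp_dvd_Dt hj)

lemma Rt_per' (f : Fin k → ℤ[X]) (t : Finset (Ix k)) (m n : ℕ) : Rt f t (m + Dt t) n = Rt f t m n := by
  rw [Rt_comm, Rt_per, Rt_comm]

/-- a bound for the number of solutions modulo primes -/
noncomputable def Kf (f : Fin k → ℤ[X]) : ℕ := 1 + ∑ i, ((f i).natDegree + (f i).leadingCoeff.natAbs)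

lemma le_Kf (f : Fin k → ℤ[X]) (i : Fin k) : (f i).natDegree + (f i).leadingCoeff.natAbs ≤ Kf f := by
  unfold Kf
  have := single_le_sum (f := fun i => (f i).natDegree + (f i).leadingCoeff.natAbs) (fun i _ => Nat.zero_le _)
    (mem_univ i)
  omega

lemma row_sum {f : Fin k → ℤ[X]} (hf : ∀ i, 1 ≤ (f i).natDegree) (t : Finset (Ix k)) (x : ℕ) :
    ∑ y ∈ range (Dt t), Rt f t x y ≤ (Kf f : ℝ) ^ #(t.image pp) := by
  classical
  obtain ⟨A, hA⟩ : ∃ A : ℕ → Finset ℕ, A = fun p => (range p).filter (fun y : ℕ =>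
      ∀ j ∈ t, pp j = p → (p : ℤ) ∣ vl f x j - (f j.2).eval (y : ℤ)) := ⟨_, rfl⟩
  have h1 : #((range (Dt t)).filter (fun y => ∀ p ∈ t.image pp, y % p ∈ A p)) ≤ Kf f ^ #(t.image pp) := by
    refine crt_card (t.image pp) A (Kf f) ?_ ?_
    · intro p hp
      rw [mem_image] at hp
      obtain ⟨j, _, rfl⟩ := hp
      exact j.1.2
    · intro p hp
      rw [mem_image] at hp
      obtain ⟨j, hj, rfl⟩ := hp
      have h2 : A (pp j) ⊆ (range (pp j)).filter (fun y : ℕ => ((pp j : ℕ) : ℤ) ∣ vl f x j - (f j.2).eval (y : ℤ)) := by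
        intro y hy
        rw [hA, mem_filter] at hy
        rw [mem_filter]
        exact ⟨hy.1, hy.2 j hj rfl⟩
      exact (card_le_card h2).trans ((res_count (f j.2) (hf _) j.1.2 _).trans (le_Kf f _))
  have h2 : ∑ y ∈ range (Dt t), Rt f t x y ≤
      #((range (Dt t)).filter (fun y => ∀ p ∈ t.image pp, y % p ∈ A p)) := by
    rw [card_filter]
    push_cast
    refine sum_le_sum fun y _ => ?_
    split_ifs with h
    · exact Rt_le _ _ _ _
    · push Not at h
      obtain ⟨p, hp, hy⟩ := h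
      rw [mem_image] at hp
      obtain ⟨j0, hj0, rfl⟩ := hp
      rw [hA, mem_filter, mem_range] at hy
      push Not at hy
      obtain ⟨j, hj, hjp, hn⟩ := hy (Nat.mod_lt _ j0.1.2.pos)
      refine le_of_eq (Rt_eq_zero hj ?_)
      intro hd
      apply hn
      have h3 : (pp j : ℤ) ∣ vl f y j - (f j.2).eval (((y % pp j : ℕ) : ℤ)) := by
        unfold vl
        have h4 := Polynomial.sub_dvd_eval_sub ((y : ℕ) : ℤ) ((y % pp j : ℕ) : ℤ) (f j.2)
        refine dvd_trans ?_ h4
        have : ((pp j : ℕ) : ℤ) ∣ (y : ℤ) - (y : ℤ) % ((pp j : ℕ) : ℤ) := Int.dvd_self_sub_emod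
        rwa [← Int.natCast_mod] at this
      rw [← hjp]
      have e : vl f x j - (f j.2).eval (((y % pp j : ℕ) : ℤ)) = (vl f x j - vl f y j) +
        (vl f y j - (f j.2).eval (((y % pp j : ℕ) : ℤ))) := by ring
      rw [e]
      exact dvd_add hd h3
  refine h2.trans ?_
  exact_mod_cast h1

end Pool.Agent.L5helper2.RS
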