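import Pool.Agent.L5helper2.RS.S2

/-! Project RS (helper2), square-root law: the sum over the divisors. -/

set_option autoImplicit false

namespace Pool.Agent.L5helper2.RS

open Finset Polynomial

variable {k : ℕ}

/-- the correlation kernel -/
noncomputable def KK (f : Fin k → ℤ[X]) (s : Finset (Ix k)) (m n : ℕ) : ℝ :=
  ∏ j ∈ s, ((1 - 2 / (pp j : ℝ)) + 1 / (pp j : ℝ) * Rj f j m n)

open Classical in
/-- the coefficients -/
noncomputable def ct (s t : Finset (Ix k)) : ℝ := (∏ j ∈ t, 1 / (pp j : ℝ)) * ∏ j ∈ s \ t, (1 - 2 / (pp j : ℝ))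

lemma al_01 (j : Ix k) : 0 ≤ 1 - 2 / (pp j : ℝ) ∧ 1 - 2 / (pp j : ℝ) ≤ 1 := by
  have h2 : (2 : ℝ) ≤ pp j := by exact_mod_cast pp_two j
  have h1 : 2 / (pp j : ℝ) ≤ 1 := by
    rw [div_le_one (by linarith)]
    exact h2
  have h0 : 0 ≤ 2 / (pp j : ℝ) := by positivity
  constructor <;> linarith

lemma ct_bounds (s t : Finset (Ix k)) : 0 ≤ ct s t ∧ ct s t ≤ ∏ j ∈ t, 1 / (pp j : ℝ) := by
  classical
  unfold ct
  have h1 : 0 ≤ ∏ j ∈ t, 1 / (pp j : ℝ) := prod_nonneg fun j _ => by positivity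
  have h2 : 0 ≤ ∏ j ∈ s \ t, (1 - 2 / (pp j : ℝ)) := prod_nonneg fun j _ => (al_01 j).1
  have h3 : ∏ j ∈ s \ t, (1 - 2 / (pp j : ℝ)) ≤ 1 := prod_le_one (fun j _ => (al_01 j).1) fun j _ => (al_01 j).2
  exact ⟨mul_nonneg h1 h2, mul_le_of_le_one_right h1 h3⟩

lemma KK_expand (f : Fin k → ℤ[X]) (s : Finset (Ix k)) (m n : ℕ) :
    KK f s m n = ∑ t ∈ s.powerset, ct s t * Rt f t m n := by
  classical
  unfold KK
  rw [prod_congr rfl fun j _ => add_comm (1 - 2 / (pp j : ℝ)) (1 / (pp j : ℝ) * Rj f j m n), prod_add]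
  refine sum_congr rfl fun t _ => ?_
  unfold ct Rt
  rw [prod_mul_distrib]
  ring

lemma BB_expand (f : Fin k → ℤ[X]) (s : Finset (Ix k)) (a L P : ℕ) :
    LL a L P (fun m => LL a L P (KK f s m)) =
      ∑ t ∈ s.powerset, ct s t * LL a L P (fun m => LL a L P (Rt f t m)) := by
  have h1 : ∀ m, LL a L P (KK f s m) = ∑ t ∈ s.powerset, ct s t * LL a L P (Rt f t m) := by
    intro m
    rw [← LL_sum]
    exact LL_congr fun n => KK_expand f s m n
  rw [LL_congr h1, LL_sum]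

/-- the bound for one divisor -/
lemma one_div_bound {f : Fin k → ℤ[X]} (hf : ∀ i, 1 ≤ (f i).natDegree) {s t : Finset (Ix k)} (hts : t ⊆ s)
    (a : ℕ) {L : ℕ} (hL : 1 ≤ L) {ε : ℝ} (hε : 0 < ε) (hε1 : ε ≤ 1) :
    |LL a L (Dt s) (fun m => LL a L (Dt s) (Rt f t m))| ≤
      4 * Dt t * (Kf f : ℝ) ^ #(t.image pp) * ((L : ℝ) / Dt t) ^ (1 + ε) +
      (if L < Dt t then ∑ m ∈ Ioc a (a + L), ∑ n ∈ Ioc a (a + L), Rt f t m n else 0) := by
  have hD := Dt_pos t
  have hD0 : (0 : ℝ) < Dt t := by exact_mod_cast hD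
  have hL0 : (0 : ℝ) < L := by exact_mod_cast hL
  have hK0 : (0 : ℝ) ≤ (Kf f : ℝ) ^ #(t.image pp) := by positivity
  split_ifs with h
  · have h1 := B_bound2 a L hD (Dt_pos s) (Dt_dvd hts) (Rt_nonneg f t) (Rt_per f t) (Rt_comm f t) (row_sum hf t)
    refine h1.trans ?_
    have h2 : 3 * ((L : ℝ) ^ 2 / Dt t) * (Kf f : ℝ) ^ #(t.image pp) ≤
        4 * Dt t * (Kf f : ℝ) ^ #(t.image pp) * ((L : ℝ) / Dt t) ^ (1 + ε) := by
      have h3 : ((L : ℝ) / Dt t) ^ (2 : ℝ) ≤ ((L : ℝ) / Dt t) ^ (1 + ε) := by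
        refine Real.rpow_le_rpow_of_exponent_ge (by positivity) ?_ (by linarith)
        rw [div_le_one hD0]
        exact_mod_cast h.le
      have h4 : (L : ℝ) ^ 2 / Dt t = Dt t * ((L : ℝ) / Dt t) ^ (2 : ℝ) := by
        rw [Real.rpow_two]
        field_simp
      rw [h4]
      calc 3 * (Dt t * ((L : ℝ) / Dt t) ^ (2 : ℝ)) * (Kf f : ℝ) ^ #(t.image pp) =
            3 * (Dt t * (Kf f : ℝ) ^ #(t.image pp) * ((L : ℝ) / Dt t) ^ (2 : ℝ)) := by ring
        _ ≤ 4 * (Dt t * (Kf f : ℝ) ^ #(t.image pp) * ((L : ℝ) / Dt t) ^ (1 + ε)) := by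
          refine mul_le_mul (by norm_num) ?_ (by positivity) (by norm_num)
          exact mul_le_mul_of_nonneg_left h3 (by positivity)
        _ = _ := by ring
    linarith
  · have h1 := B_bound1 a L hD (Dt_pos s) (Dt_dvd hts) (Rt_nonneg f t) (Rt_per' f t) (Rt_per f t) (row_sum hf t)
    refine h1.trans ?_
    rw [add_zero]
    have h3 : 1 ≤ ((L : ℝ) / Dt t) ^ (1 + ε) := by
      refine Real.one_le_rpow ?_ (by linarith)
      rw [one_le_div hD0]
      exact_mod_cast not_lt.1 h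
    calc 4 * (Dt t : ℝ) * (Kf f : ℝ) ^ #(t.image pp) = 4 * Dt t * (Kf f : ℝ) ^ #(t.image pp) * 1 := by ring
      _ ≤ _ := mul_le_mul_of_nonneg_left h3 (by positivity)

lemma card_fib (t : Finset (Ix k)) (p : ℕ) : #(t.filter (fun j => pp j = p)) ≤ k := by
  classical
  calc #(t.filter (fun j => pp j = p)) ≤ #(univ : Finset (Fin k)) := by
        apply card_le_card_of_injOn (fun j => j.2) (fun j _ => mem_univ _)
        intro i hi j hj hij
        rw [mem_coe, mem_filter] at hi hj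
        have h1 : i.1 = j.1 := Subtype.ext (hi.2.trans hj.2.symm)
        exact Prod.ext h1 hij
    _ = k := by simp

lemma sum_pp (t : Finset (Ix k)) (g : ℕ → ℝ) (hg : ∀ n, 0 ≤ g n) (hs : Summable g) :
    ∑ j ∈ t, g (pp j) ≤ k * ∑' n, g n := by
  classical
  rw [← sum_fiberwise_of_maps_to (s := t) (t := t.image pp) (g := pp) (fun j hj => mem_image_of_mem _ hj)]
  have h1 : ∀ p ∈ t.image pp, ∑ j ∈ t.filter (fun j => pp j = p), g (pp j) ≤ k * g p := by
    intro p _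
    calc ∑ j ∈ t.filter (fun j => pp j = p), g (pp j) = ∑ _j ∈ t.filter (fun j => pp j = p), g p := by
          refine sum_congr rfl fun j hj => ?_
          rw [(mem_filter.1 hj).2]
      _ = #(t.filter (fun j => pp j = p)) * g p := by rw [sum_const, nsmul_eq_mul]
      _ ≤ k * g p := by
          refine mul_le_mul_of_nonneg_right ?_ (hg p)
          exact_mod_cast card_fib t p
  refine (sum_le_sum h1).trans ?_
  rw [← mul_sum]
  exact mul_le_mul_of_nonneg_left (hs.sum_le_tsum _ fun n _ => hg n) (by positivity)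

lemma prod_le_Dt (t : Finset (Ix k)) : ∏ j ∈ t, pp j ≤ Dt t ^ k := by
  classical
  rw [← prod_fiberwise_of_maps_to (s := t) (t := t.image pp) (g := pp) (fun j hj => mem_image_of_mem _ hj)]
  unfold Dt
  rw [← prod_pow]
  refine prod_le_prod' fun p hp => ?_
  calc ∏ j ∈ t.filter (fun j => pp j = p), pp j = ∏ _j ∈ t.filter (fun j => pp j = p), p := by
        refine prod_congr rfl fun j hj => ?_
        rw [(mem_filter.1 hj).2]
    _ = p ^ #(t.filter (fun j => pp j = p)) := by rw [prod_const]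
    _ ≤ p ^ k := by
        rw [mem_image] at hp
        obtain ⟨j, _, rfl⟩ := hp
        exact Nat.pow_le_pow_right j.1.2.pos (card_fib t _)

/-- the sum over all divisors -/
lemma sum_div (hk : 1 ≤ k) (K : ℕ) (hK : 1 ≤ K) {ε : ℝ} (hε : 0 < ε) : ∃ C : ℝ, 0 < C ∧ ∀ s : Finset (Ix k),
    ∑ t ∈ s.powerset, (∏ j ∈ t, 1 / (pp j : ℝ)) * ((K : ℝ) ^ #(t.image pp) * (Dt t : ℝ) ^ (-ε)) ≤ C := by
  classical
  have hk0 : (0 : ℝ) < k := by exact_mod_cast hk
  have hs : Summable (fun n : ℕ => (n : ℝ) ^ (-(1 + ε / k))) := by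
    rw [Real.summable_nat_rpow]
    have : 0 < ε / k := by positivity
    linarith
  refine ⟨Real.exp (K * (k * ∑' n : ℕ, (n : ℝ) ^ (-(1 + ε / k)))), Real.exp_pos _, fun s => ?_⟩
  have h1 : ∀ t ∈ s.powerset, (∏ j ∈ t, 1 / (pp j : ℝ)) * ((K : ℝ) ^ #(t.image pp) * (Dt t : ℝ) ^ (-ε)) ≤
      ∏ j ∈ t, (K : ℝ) * (pp j : ℝ) ^ (-(1 + ε / k)) := by
    intro t _
    have hD : (0 : ℝ) < Dt t := by exact_mod_cast Dt_pos t
    have h2 : (K : ℝ) ^ #(t.image pp) ≤ (K : ℝ) ^ #t :=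
      pow_le_pow_right₀ (by exact_mod_cast hK) card_image_le
    have h3 : (Dt t : ℝ) ^ (-ε) ≤ ∏ j ∈ t, (pp j : ℝ) ^ (-(ε / k)) := by
      rw [Real.finset_prod_rpow _ _ (fun j _ => by positivity)]
      have h4 : (∏ j ∈ t, (pp j : ℝ)) ≤ (Dt t : ℝ) ^ k := by
        have := prod_le_Dt t
        have h5 : ((∏ j ∈ t, pp j : ℕ) : ℝ) ≤ ((Dt t ^ k : ℕ) : ℝ) := by exact_mod_cast this
        push_cast at h5
        exact h5
      have h6 : (0 : ℝ) < ∏ j ∈ t, (pp j : ℝ) := prod_pos fun j _ => by exact_mod_cast j.1.2.pos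
      calc (Dt t : ℝ) ^ (-ε) = ((Dt t : ℝ) ^ k) ^ (-(ε / k)) := by
            rw [← Real.rpow_natCast, ← Real.rpow_mul hD.le]
            congr 1
            field_simp
        _ ≤ (∏ j ∈ t, (pp j : ℝ)) ^ (-(ε / k)) := by
            refine Real.rpow_le_rpow_of_nonpos h6 h4 ?_
            have : 0 < ε / k := by positivity
            linarith
    calc (∏ j ∈ t, 1 / (pp j : ℝ)) * ((K : ℝ) ^ #(t.image pp) * (Dt t : ℝ) ^ (-ε)) ≤
          (∏ j ∈ t, 1 / (pp j : ℝ)) * ((K : ℝ) ^ #t * ∏ j ∈ t, (pp j : ℝ) ^ (-(ε / k))) := by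
          refine mul_le_mul_of_nonneg_left ?_ (prod_nonneg fun j _ => by positivity)
          exact mul_le_mul h2 h3 (by positivity) (by positivity)
      _ = ∏ j ∈ t, (K : ℝ) * (pp j : ℝ) ^ (-(1 + ε / k)) := by
          rw [← prod_const, ← prod_mul_distrib, ← prod_mul_distrib]
          refine prod_congr rfl fun j _ => ?_
          have hj : (0 : ℝ) < pp j := by exact_mod_cast j.1.2.pos
          rw [neg_add, Real.rpow_add hj, Real.rpow_neg_one]
          field_simp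
  refine (sum_le_sum h1).trans ?_
  rw [← prod_add_one]
  calc ∏ j ∈ s, ((K : ℝ) * (pp j : ℝ) ^ (-(1 + ε / k)) + 1) ≤
        ∏ j ∈ s, Real.exp ((K : ℝ) * (pp j : ℝ) ^ (-(1 + ε / k))) :=
        prod_le_prod (fun j _ => by positivity) fun j _ => Real.add_one_le_exp _
    _ = Real.exp (∑ j ∈ s, (K : ℝ) * (pp j : ℝ) ^ (-(1 + ε / k))) := (Real.exp_sum _ _).symm
    _ ≤ _ := by
        refine Real.exp_le_exp.2 ?_
        rw [← mul_sum]
        refine mul_le_mul_of_nonneg_left ?_ (by positivity)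
        exact sum_pp s (fun n => (n : ℝ) ^ (-(1 + ε / k))) (fun n => by positivity) hs

/-- the number of the sets of divisors of a nonzero difference -/
lemma good_pairs (f : Fin k → ℤ[X]) {ε : ℝ} (hε : 0 < ε) : ∃ C : ℝ, 0 < C ∧ ∀ X : ℕ, 2 ≤ X → ∀ m n : ℕ,
    m ≤ X → n ≤ X → (∀ i, (f i).eval (m : ℤ) ≠ (f i).eval (n : ℤ)) → ∀ s : Finset (Ix k),
    ∑ t ∈ s.powerset, Rt f t m n ≤ C * (X : ℝ) ^ ε := by
  classical
  have hc : ∀ i, ∃ c : ℕ, ∀ x : ℕ, 2 ≤ x → ∀ m : ℕ, m ≤ x → |(f i).eval (m : ℤ)| ≤ (x : ℤ) ^ c :=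
    fun i => eval_bound (f i)
  choose c hc using hc
  obtain ⟨S, hS⟩ : ∃ S : ℕ, S = 1 + ∑ i, (c i + 1) := ⟨_, rfl⟩
  have hS0 : (0 : ℝ) < S := by
    rw [hS]
    positivity
  obtain ⟨C, hC1, hC⟩ := two_pow_omega (ε / S) (by positivity)
  refine ⟨C ^ k, by positivity, fun X hX m n hm hn hne s => ?_⟩
  have hX1 : (1 : ℝ) ≤ X := by exact_mod_cast (by omega : 1 ≤ X)
  have e1 : ∑ t ∈ s.powerset, Rt f t m n = ∏ j ∈ s, (Rj f j m n + 1) := by
    rw [prod_add_one]
    rfl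
  obtain ⟨N, hN⟩ : ∃ N : Fin k → ℕ, N = fun i => ((f i).eval (m : ℤ) - (f i).eval (n : ℤ)).natAbs := ⟨_, rfl⟩
  have hN1 : ∀ i, 1 ≤ N i := by
    intro i
    rw [hN]
    exact Int.natAbs_pos.2 (sub_ne_zero.2 (hne i))
  have hNX : ∀ i, N i ≤ X ^ (c i + 1) := by
    intro i
    have h1 := hc i X hX m hm
    have h2 := hc i X hX n hn
    have h3 : ((N i : ℕ) : ℤ) ≤ (X : ℤ) ^ (c i + 1) := by
      rw [hN]
      simp only [Int.natCast_natAbs]
      calc |(f i).eval (m : ℤ) - (f i).eval (n : ℤ)| ≤ |(f i).eval (m : ℤ)| + |(f i).eval (n : ℤ)| := abs_sub _ _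
        _ ≤ (X : ℤ) ^ c i + (X : ℤ) ^ c i := add_le_add h1 h2
        _ = 2 * (X : ℤ) ^ c i := by ring
        _ ≤ X * (X : ℤ) ^ c i := mul_le_mul_of_nonneg_right (by exact_mod_cast hX) (by positivity)
        _ = _ := by rw [pow_succ]; ring
    exact_mod_cast h3
  have e2 : ∏ j ∈ s, (Rj f j m n + 1) ≤ ∏ i : Fin k, (2 : ℝ) ^ #(N i).primeFactors := by
    rw [← prod_fiberwise_of_maps_to (s := s) (t := univ) (g := fun j => j.2) (fun j _ => mem_univ _)]
    refine prod_le_prod (fun i _ => prod_nonneg fun j _ => by have := (Rj_01 f j m n).1; linarith) fun i _ => ?_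
    have e3 : ∏ j ∈ s.filter (fun j => j.2 = i), (Rj f j m n + 1) =
        ∏ j ∈ (s.filter (fun j => j.2 = i)).filter (fun j => (pp j : ℤ) ∣ vl f m j - vl f n j), (2 : ℝ) := by
      rw [prod_filter (s := s.filter (fun j => j.2 = i))]
      refine prod_congr rfl fun j _ => ?_
      unfold Rj
      split_ifs <;> norm_num
    rw [e3, prod_const]
    refine pow_le_pow_right₀ (by norm_num) ?_
    apply card_le_card_of_injOn pp
    · intro j hj
      rw [mem_coe, mem_filter, mem_filter] at hj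
      rw [mem_coe, Nat.mem_primeFactors]
      refine ⟨j.1.2, ?_, by have := hN1 i; omega⟩
      have h1 := hj.2
      unfold vl at h1
      rw [hj.1.2] at h1
      rw [hN]
      exact Int.natCast_dvd.1 h1
    · intro j hj j' hj' h
      rw [mem_coe, mem_filter, mem_filter] at hj hj'
      exact Prod.ext (Subtype.ext h) (hj.1.2.trans hj'.1.2.symm)
  have e3 : ∏ i : Fin k, (2 : ℝ) ^ #(N i).primeFactors ≤ ∏ i : Fin k, C * ((X : ℝ) ^ (c i + 1)) ^ (ε / S) := by
    refine prod_le_prod (fun i _ => by positivity) fun i _ => (hC (N i) (hN1 i)).trans ?_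
    refine mul_le_mul_of_nonneg_left ?_ (by linarith)
    refine Real.rpow_le_rpow (by positivity) ?_ (by positivity)
    exact_mod_cast hNX i
  have e4 : ∏ i : Fin k, C * ((X : ℝ) ^ (c i + 1)) ^ (ε / S) ≤ C ^ k * (X : ℝ) ^ ε := by
    rw [prod_mul_distrib, prod_const, card_univ, Fintype.card_fin, Real.finset_prod_rpow _ _ (fun i _ => by positivity)]
    refine mul_le_mul_of_nonneg_left ?_ (by positivity)
    rw [prod_pow_eq_pow_sum]
    calc ((X : ℝ) ^ (∑ i, (c i + 1))) ^ (ε / S) ≤ ((X : ℝ) ^ S) ^ (ε / S) := by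
          refine Real.rpow_le_rpow (by positivity) ?_ (by positivity)
          exact pow_le_pow_right₀ hX1 (by omega)
      _ = (X : ℝ) ^ ε := by
          rw [← Real.rpow_natCast, ← Real.rpow_mul (by positivity)]
          congr 1
          field_simp
  rw [e1]
  exact e2.trans (e3.trans e4)

/-- the total bound -/
theorem B_total (hk : 1 ≤ k) {f : Fin k → ℤ[X]} (hf : ∀ i, 1 ≤ (f i).natDegree) {ε : ℝ} (hε : 0 < ε)
    (hε1 : ε ≤ 1) : ∃ C : ℝ, 0 < C ∧ ∀ X : ℕ, 2 ≤ X → ∀ a L : ℕ, 1 ≤ L → a + L ≤ X → ∀ s : Finset (Ix k),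
    |LL a L (Dt s) (fun m => LL a L (Dt s) (KK f s m))| ≤
      C * L * (X : ℝ) ^ ε * ∏ j ∈ s, (1 / (pp j : ℝ) + 1) := by
  classical
  obtain ⟨C1, hC1, h1⟩ := sum_div hk (Kf f) (by unfold Kf; omega) hε
  obtain ⟨C2, hC2, h2⟩ := good_pairs f hε
  refine ⟨4 * C1 + Kf f + C2, by positivity, fun X hX a L hL hLX s => ?_⟩
  have hL0 : (0 : ℝ) < L := by exact_mod_cast hL
  have hX1 : (1 : ℝ) ≤ X := by exact_mod_cast (by omega : 1 ≤ X)
  have hLX' : (L : ℝ) ≤ X := by exact_mod_cast (by omega : L ≤ X)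
  obtain ⟨Pi, hPi⟩ : ∃ Pi : ℝ, Pi = ∏ j ∈ s, (1 / (pp j : ℝ) + 1) := ⟨_, rfl⟩
  have hPi1 : 1 ≤ Pi := by
    rw [hPi]
    exact one_le_prodR fun j _ => by
      have : 0 ≤ 1 / (pp j : ℝ) := by positivity
      linarith
  have hXe : 1 ≤ (X : ℝ) ^ ε := Real.one_le_rpow hX1 hε.le
  rw [BB_expand, ← hPi]
  refine (abs_sum_le_sum_abs _ _).trans ?_
  have h3 : ∀ t ∈ s.powerset, |ct s t * LL a L (Dt s) (fun m => LL a L (Dt s) (Rt f t m))| ≤
      4 * (L : ℝ) ^ (1 + ε) * ((∏ j ∈ t, 1 / (pp j : ℝ)) * ((Kf f : ℝ) ^ #(t.image pp) * (Dt t : ℝ) ^ (-ε))) +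
      (∏ j ∈ t, 1 / (pp j : ℝ)) *
        (if L < Dt t then ∑ m ∈ Ioc a (a + L), ∑ n ∈ Ioc a (a + L), Rt f t m n else 0) := by
    intro t ht
    rw [mem_powerset] at ht
    rw [abs_mul, abs_of_nonneg (ct_bounds s t).1]
    have h4 := one_div_bound hf ht a hL hε hε1
    have hD : (0 : ℝ) < Dt t := by exact_mod_cast Dt_pos t
    calc _ ≤ (∏ j ∈ t, 1 / (pp j : ℝ)) * (4 * Dt t * (Kf f : ℝ) ^ #(t.image pp) * ((L : ℝ) / Dt t) ^ (1 + ε) +
          (if L < Dt t then ∑ m ∈ Ioc a (a + L), ∑ n ∈ Ioc a (a + L), Rt f t m n else 0)) :=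
          mul_le_mul (ct_bounds s t).2 h4 (abs_nonneg _) (prod_nonneg fun j _ => by positivity)
      _ = _ := by
          rw [mul_add]
          congr 1
          rw [Real.div_rpow hL0.le hD.le]
          have e : (Dt t : ℝ) ^ (-ε) = Dt t / (Dt t : ℝ) ^ (1 + ε) := by
            rw [← Real.rpow_one_sub' hD.le (by linarith)]
            congr 1
            ring
          rw [e]
          ring
  refine (sum_le_sum h3).trans ?_
  rw [sum_add_distrib, ← mul_sum]
  have h4 : 4 * (L : ℝ) ^ (1 + ε) * ∑ t ∈ s.powerset, ((∏ j ∈ t, 1 / (pp j : ℝ)) *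
      ((Kf f : ℝ) ^ #(t.image pp) * (Dt t : ℝ) ^ (-ε))) ≤ 4 * C1 * L * (X : ℝ) ^ ε := by
    calc _ ≤ 4 * (L : ℝ) ^ (1 + ε) * C1 := mul_le_mul_of_nonneg_left (h1 s) (by positivity)
      _ = 4 * C1 * L * (L : ℝ) ^ ε := by
          rw [Real.rpow_add hL0, Real.rpow_one]
          ring
      _ ≤ _ := by
          refine mul_le_mul_of_nonneg_left ?_ (by positivity)
          exact Real.rpow_le_rpow hL0.le hLX' hε.le
  -- the pairs
  have h5 : ∑ t ∈ s.powerset, (∏ j ∈ t, 1 / (pp j : ℝ)) *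
        (if L < Dt t then ∑ m ∈ Ioc a (a + L), ∑ n ∈ Ioc a (a + L), Rt f t m n else 0) ≤
      ∑ m ∈ Ioc a (a + L), ∑ n ∈ Ioc a (a + L),
        ((if ∃ i, (f i).eval (m : ℤ) = (f i).eval (n : ℤ) then Pi else 0) + C2 * (X : ℝ) ^ ε / L) := by
    have e : ∑ t ∈ s.powerset, (∏ j ∈ t, 1 / (pp j : ℝ)) *
        (if L < Dt t then ∑ m ∈ Ioc a (a + L), ∑ n ∈ Ioc a (a + L), Rt f t m n else 0) =
        ∑ m ∈ Ioc a (a + L), ∑ n ∈ Ioc a (a + L), ∑ t ∈ s.powerset,
          (if L < Dt t then (∏ j ∈ t, 1 / (pp j : ℝ)) * Rt f t m n else 0) := by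
      have e1 : ∀ t ∈ s.powerset, (∏ j ∈ t, 1 / (pp j : ℝ)) *
          (if L < Dt t then ∑ m ∈ Ioc a (a + L), ∑ n ∈ Ioc a (a + L), Rt f t m n else 0) =
          ∑ m ∈ Ioc a (a + L), ∑ n ∈ Ioc a (a + L),
          (if L < Dt t then (∏ j ∈ t, 1 / (pp j : ℝ)) * Rt f t m n else 0) := by
        intro t _
        by_cases h : L < Dt t
        · simp only [if_pos h]
          rw [mul_sum]
          refine sum_congr rfl fun m _ => ?_
          rw [mul_sum]
        · simp only [if_neg h]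
          simp
      rw [sum_congr rfl e1, sum_comm]
      refine sum_congr rfl fun m _ => ?_
      rw [sum_comm]
    rw [e]
    refine sum_le_sum fun m hm => sum_le_sum fun n hn => ?_
    rw [mem_Ioc] at hm hn
    have hq : 0 ≤ C2 * (X : ℝ) ^ ε / L := by positivity
    by_cases hb : ∃ i, (f i).eval (m : ℤ) = (f i).eval (n : ℤ)
    · rw [if_pos hb]
      have h6 : ∑ t ∈ s.powerset, (if L < Dt t then (∏ j ∈ t, 1 / (pp j : ℝ)) * Rt f t m n else 0) ≤
          ∑ t ∈ s.powerset, ∏ j ∈ t, 1 / (pp j : ℝ) := by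
        refine sum_le_sum fun t _ => ?_
        have h7 : 0 ≤ ∏ j ∈ t, 1 / (pp j : ℝ) := prod_nonneg fun j _ => by positivity
        split_ifs
        · exact mul_le_of_le_one_right h7 (Rt_le _ _ _ _)
        · exact h7
      rw [← prod_add_one, ← hPi] at h6
      linarith
    · rw [if_neg hb, zero_add]
      push Not at hb
      have h6 := h2 X hX m n (by omega) (by omega) hb s
      calc ∑ t ∈ s.powerset, (if L < Dt t then (∏ j ∈ t, 1 / (pp j : ℝ)) * Rt f t m n else 0) ≤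
            ∑ t ∈ s.powerset, (1 / (L : ℝ)) * Rt f t m n := by
            refine sum_le_sum fun t _ => ?_
            split_ifs with h
            · refine mul_le_mul_of_nonneg_right ?_ (Rt_nonneg _ _ _ _)
              have h7 : (L : ℝ) ≤ ∏ j ∈ t, (pp j : ℝ) := by
                have h8 : Dt t ≤ ∏ j ∈ t, pp j := by
                  unfold Dt
                  rw [← prod_fiberwise_of_maps_to (s := t) (t := t.image pp) (g := pp)
                    (fun j hj => mem_image_of_mem _ hj)]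
                  refine prod_le_prod' fun p hp => ?_
                  rw [mem_image] at hp
                  obtain ⟨j, hj, rfl⟩ := hp
                  have h9 := Finset.dvd_prod_of_mem (fun i : Ix k => pp i) (show j ∈ t.filter (fun i => pp i = pp j) from
                    mem_filter.2 ⟨hj, rfl⟩)
                  exact Nat.le_of_dvd (Finset.prod_pos fun i _ => i.1.2.pos) h9
                have h9 : (Dt t : ℝ) ≤ ((∏ j ∈ t, pp j : ℕ) : ℝ) := by exact_mod_cast h8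
                push_cast at h9
                have h10 : (L : ℝ) ≤ Dt t := by exact_mod_cast h.le
                linarith
              simp only [one_div, prod_inv_distrib]
              exact inv_anti₀ hL0 h7
            · exact mul_nonneg (by positivity) (Rt_nonneg _ _ _ _)
        _ = (1 / (L : ℝ)) * ∑ t ∈ s.powerset, Rt f t m n := by rw [mul_sum]
        _ ≤ (1 / (L : ℝ)) * (C2 * (X : ℝ) ^ ε) := mul_le_mul_of_nonneg_left h6 (by positivity)
        _ = _ := by ring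
  have h6 : ∑ m ∈ Ioc a (a + L), ∑ n ∈ Ioc a (a + L),
        ((if ∃ i, (f i).eval (m : ℤ) = (f i).eval (n : ℤ) then Pi else 0) + C2 * (X : ℝ) ^ ε / L) ≤
      L * (Kf f * Pi) + L * (C2 * (X : ℝ) ^ ε) := by
    have h7 : ∀ m ∈ Ioc a (a + L), ∑ n ∈ Ioc a (a + L),
        ((if ∃ i, (f i).eval (m : ℤ) = (f i).eval (n : ℤ) then Pi else 0) + C2 * (X : ℝ) ^ ε / L) ≤
        Kf f * Pi + C2 * (X : ℝ) ^ ε := by
      intro m _
      rw [sum_add_distrib, sum_const, Nat.card_Ioc, Nat.add_sub_cancel_left, nsmul_eq_mul]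
      refine add_le_add ?_ (le_of_eq (by field_simp))
      rw [← sum_filter, sum_const, nsmul_eq_mul]
      refine mul_le_mul_of_nonneg_right ?_ (by linarith)
      have h8 : (Ioc a (a + L)).filter (fun n : ℕ => ∃ i, (f i).eval (m : ℤ) = (f i).eval (n : ℤ)) ⊆
          (univ : Finset (Fin k)).biUnion (fun i => (Ioc a (a + L)).filter
            (fun n : ℕ => (f i).eval (m : ℤ) = (f i).eval (n : ℤ))) := by
        intro n hn
        rw [mem_filter] at hn
        obtain ⟨i, hi⟩ := hn.2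
        rw [mem_biUnion]
        exact ⟨i, mem_univ _, mem_filter.2 ⟨hn.1, hi⟩⟩
      have h9 : #((Ioc a (a + L)).filter (fun n : ℕ => ∃ i, (f i).eval (m : ℤ) = (f i).eval (n : ℤ))) ≤ Kf f := by
        refine (card_le_card h8).trans (card_biUnion_le.trans ?_)
        unfold Kf
        refine le_trans (sum_le_sum fun i _ => (val_count (f i) (hf i) _ _).trans
          (Nat.le_add_right _ (f i).leadingCoeff.natAbs)) (by omega)
      exact_mod_cast h9
    refine (sum_le_sum h7).trans ?_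
    rw [sum_const, Nat.card_Ioc, Nat.add_sub_cancel_left, nsmul_eq_mul]
    exact le_of_eq (by ring)
  have g1 : 4 * C1 * L * (X : ℝ) ^ ε ≤ 4 * C1 * L * (X : ℝ) ^ ε * Pi := le_mul_of_one_le_right (by positivity) hPi1
  have g2 : L * (Kf f * Pi) ≤ Kf f * L * (X : ℝ) ^ ε * Pi := by
    calc L * (Kf f * Pi) = (Kf f * L * Pi) * 1 := by ring
      _ ≤ (Kf f * L * Pi) * (X : ℝ) ^ ε := mul_le_mul_of_nonneg_left hXe (by positivity)
      _ = _ := by ring
  have g3 : L * (C2 * (X : ℝ) ^ ε) ≤ C2 * L * (X : ℝ) ^ ε * Pi := by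
    calc L * (C2 * (X : ℝ) ^ ε) = (C2 * L * (X : ℝ) ^ ε) * 1 := by ring
      _ ≤ _ := mul_le_mul_of_nonneg_left hPi1 (by positivity)
  have e : (4 * C1 + Kf f + C2) * L * (X : ℝ) ^ ε * Pi = 4 * C1 * L * (X : ℝ) ^ ε * Pi +
      Kf f * L * (X : ℝ) ^ ε * Pi + C2 * L * (X : ℝ) ^ ε * Pi := by ring
  rw [e]
  linarith

end Pool.Agent.L5helper2.RS
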