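import Pool.Agent.L5helper2.RS.S3

/-! Project RS (helper2), square-root law: the second moment and the maximal inequality. -/

set_option autoImplicit false

namespace Pool.Agent.L5helper2.RS

open Finset Polynomial MeasureTheory ProbabilityTheory

variable {k : ℕ} {Ω : Type} [MeasurableSpace Ω] {P : Measure Ω} {X : Ix k → Ω → ℕ}

/-- `Y` depends only on the coordinates in `S` -/
def DepOn {τ : Type} (X : Ix k → Ω → ℕ) (S : Finset (Ix k)) (Y : Ω → τ) : Prop :=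
  ∀ ω ω', (∀ i ∈ S, X i ω = X i ω') → Y ω = Y ω'

omit [MeasurableSpace Ω] in
lemma DepOn.mono {τ : Type} {S T : Finset (Ix k)} {Y : Ω → τ} (h : DepOn X S Y) (hST : S ⊆ T) : DepOn X T Y :=
  fun ω ω' h' => h ω ω' fun i hi => h' i (hST hi)

omit [MeasurableSpace Ω] in
lemma DepOn.mul {S : Finset (Ix k)} {Y Z : Ω → ℝ} (hY : DepOn X S Y) (hZ : DepOn X S Z) :
    DepOn X S (fun ω => Y ω * Z ω) := fun ω ω' h' => by
  simp only
  rw [hY ω ω' h', hZ ω ω' h']

omit [MeasurableSpace Ω] in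
lemma DepOn.fac {S : Finset (Ix k)} {Y : Ω → ℝ} (h : DepOn X S Y) :
    ∃ G : (S → ℕ) → ℝ, Y = G ∘ (fun ω (i : S) => X i ω) := by
  rw [← Function.factorsThrough_iff]
  intro ω ω' h'
  refine h ω ω' fun i hi => ?_
  exact congrFun h' ⟨i, hi⟩

lemma tuple_meas (hX : ∀ j, Measurable (X j)) (S : Finset (Ix k)) : Measurable (fun ω (i : S) => X i ω) :=
  measurable_pi_lambda _ fun i => hX i

lemma DepOn.meas (hX : ∀ j, Measurable (X j)) {S : Finset (Ix k)} {Y : Ω → ℝ} (h : DepOn X S Y) :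
    Measurable Y := by
  obtain ⟨G, rfl⟩ := h.fac
  exact (measurable_of_countable G).comp (tuple_meas hX S)

lemma dep_int (hX : ∀ j, Measurable (X j)) (hi : iIndepFun X P) {S T : Finset (Ix k)} (hST : Disjoint S T)
    {Y Z : Ω → ℝ} (hY : DepOn X S Y) (hZ : DepOn X T Z) :
    ∫ ω, Y ω * Z ω ∂P = (∫ ω, Y ω ∂P) * ∫ ω, Z ω ∂P := by
  have h1 := hi.indepFun_finset S T hST hX
  obtain ⟨G, hG⟩ := hY.fac
  obtain ⟨H, hH⟩ := hZ.fac
  have h2 : IndepFun Y Z P := by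
    rw [hG, hH]
    exact h1.comp (measurable_of_countable G) (measurable_of_countable H)
  exact h2.integral_fun_mul_eq_mul_integral (hY.meas hX).aestronglyMeasurable (hZ.meas hX).aestronglyMeasurable

/-- the indicator of the survival of `m` -/
noncomputable def FF (f : Fin k → ℤ[X]) (X : Ix k → Ω → ℕ) (s : Finset (Ix k)) (m : ℕ) (ω : Ω) : ℝ :=
  (Av pp X s (vl f m)).indicator (fun _ => (1 : ℝ)) ω

omit [MeasurableSpace Ω] in
lemma FF_01 (f : Fin k → ℤ[X]) (s : Finset (Ix k)) (m : ℕ) (ω : Ω) : 0 ≤ FF f X s m ω ∧ FF f X s m ω ≤ 1 := by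
  classical
  unfold FF
  rw [Set.indicator_apply]
  split_ifs <;> norm_num

omit [MeasurableSpace Ω] in
lemma av_iff {s : Finset (Ix k)} {v : Ix k → ℤ} {ω : Ω} :
    ω ∈ Av pp X s v ↔ ∀ j ∈ s, ¬ ((pp j : ℤ) ∣ v j - X j ω) := by
  unfold Av Bd
  simp only [Set.mem_iInter, Set.mem_preimage, Set.mem_compl_iff]
  rfl

omit [MeasurableSpace Ω] in
lemma FF_dep (f : Fin k → ℤ[X]) (s : Finset (Ix k)) (m : ℕ) : DepOn X s (FF f X s m) := by
  classical
  intro ω ω' h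
  unfold FF
  rw [Set.indicator_apply, Set.indicator_apply]
  have : ω ∈ Av pp X s (vl f m) ↔ ω' ∈ Av pp X s (vl f m) := by
    rw [av_iff, av_iff]
    refine forall_congr' fun j => imp_congr_right fun hj => ?_
    rw [h j hj]
  simp only [this]

open Classical in
lemma FF_union (f : Fin k → ℤ[X]) (s t : Finset (Ix k)) (m : ℕ) (ω : Ω) :
    FF f X (s ∪ t) m ω = FF f X s m ω * FF f X t m ω := by
  unfold FF
  rw [ind_mul]
  congr 1
  ext ω'
  rw [Set.mem_inter_iff, av_iff, av_iff, av_iff]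
  constructor
  · intro h
    exact ⟨fun j hj => h j (mem_union_left _ hj), fun j hj => h j (mem_union_right _ hj)⟩
  · rintro ⟨h1, h2⟩ j hj
    rcases mem_union.1 hj with h | h
    · exact h1 j h
    · exact h2 j h

omit [MeasurableSpace Ω] in
lemma FF_per (f : Fin k → ℤ[X]) (s : Finset (Ix k)) (m : ℕ) (ω : Ω) {D : ℕ} (hD : ∀ j ∈ s, pp j ∣ D) :
    FF f X s (m + D) ω = FF f X s m ω := by
  classical
  unfold FF
  rw [Set.indicator_apply, Set.indicator_apply]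
  have : ω ∈ Av pp X s (vl f (m + D)) ↔ ω ∈ Av pp X s (vl f m) := by
    rw [av_iff, av_iff]
    refine forall_congr' fun j => imp_congr_right fun hj => not_congr ?_
    have h1 := vl_add f m j (hD j hj)
    have e : vl f m j - (X j ω : ℤ) = (vl f (m + D) j - X j ω) - (vl f (m + D) j - vl f m j) := by ring
    rw [e]
    exact (dvd_sub_left h1).symm
  simp only [this]

lemma FF_meas (h : RSys P (pp (k := k)) X) (f : Fin k → ℤ[X]) (s : Finset (Ix k)) (m : ℕ) :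
    Measurable (FF f X s m) := measurable_const.indicator (h.mAv _ _)

lemma FF_integrable (h : RSys P (pp (k := k)) X) (f : Fin k → ℤ[X]) (s : Finset (Ix k)) (m : ℕ) :
    Integrable (FF f X s m) P := by
  have := h.prob
  exact int_ind (h.mAv _ _)

lemma FF_int (h : RSys P (pp (k := k)) X) (f : Fin k → ℤ[X]) (s : Finset (Ix k)) (m : ℕ) :
    ∫ ω, FF f X s m ω ∂P = Vs pp s := by
  unfold FF
  rw [integral_ind (h.mAv _ _), h.pAv]

lemma FF_corr (h : RSys P (pp (k := k)) X) (f : Fin k → ℤ[X]) (s : Finset (Ix k)) (m n : ℕ) :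
    ∫ ω, FF f X s m ω * FF f X s n ω ∂P = KK f s m n := by
  classical
  unfold FF
  simp only [ind_mul]
  rw [integral_ind ((h.mAv _ _).inter (h.mAv _ _))]
  have e : Av pp X s (vl f m) ∩ Av pp X s (vl f n) =
      ⋂ j ∈ s, X j ⁻¹' ((Bd (pp j) (vl f m j))ᶜ ∩ (Bd (pp j) (vl f n j))ᶜ) := by
    ext ω
    simp only [Av, Set.mem_inter_iff, Set.mem_iInter, Set.mem_preimage]
    constructor
    · rintro ⟨h1, h2⟩ j hj
      exact ⟨h1 j hj, h2 j hj⟩
    · intro h1
      exact ⟨fun j hj => (h1 j hj).1, fun j hj => (h1 j hj).2⟩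
  rw [e, h.ind]
  unfold KK
  refine prod_congr rfl fun j _ => ?_
  unfold Rj
  split_ifs with hd
  · have e2 : (Bd (pp j) (vl f m j))ᶜ ∩ (Bd (pp j) (vl f n j))ᶜ = (Bd (pp j) (vl f m j))ᶜ := by
      have : Bd (pp j) (vl f m j) = Bd (pp j) (vl f n j) := by
        ext x
        show ((pp j : ℤ) ∣ vl f m j - (x : ℤ)) ↔ ((pp j : ℤ) ∣ vl f n j - (x : ℤ))
        have e : vl f m j - (x : ℤ) = (vl f m j - vl f n j) + (vl f n j - (x : ℤ)) := by ring
        rw [e]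
        exact dvd_add_right hd
      rw [← this, Set.inter_self]
    rw [e2, h.gd]
    ring
  · rw [h.gd2 j _ _ hd]
    ring

/-- integrals of the functional -/
lemma int_LL {a L D : ℕ} {g : ℕ → Ω → ℝ} (hg : ∀ m, Integrable (g m) P) :
    Integrable (fun ω => LL a L D (fun m => g m ω)) P ∧
      ∫ ω, LL a L D (fun m => g m ω) ∂P = LL a L D (fun m => ∫ ω, g m ω ∂P) := by
  unfold LL
  have i1 : Integrable (fun ω => ∑ m ∈ Ioc a (a + L), g m ω) P := integrable_finset_sum _ fun m _ => hg m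
  have i2 : Integrable (fun ω => (L / D : ℝ) * ∑ r ∈ range D, g r ω) P :=
    (integrable_finset_sum _ fun m _ => hg m).const_mul _
  refine ⟨i1.sub i2, ?_⟩
  rw [integral_sub i1 i2, integral_const_mul, integral_finset_sum _ fun m _ => hg m,
    integral_finset_sum _ fun m _ => hg m]

lemma LL_mul_left (a L D : ℕ) (g : ℕ → ℝ) (c : ℝ) : LL a L D (fun m => c * g m) = c * LL a L D g := by
  unfold LL
  rw [← mul_sum, ← mul_sum]
  ring

/-- the error in `(a, a + L]` for the primes up to `z` -/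
noncomputable def EE (f : Fin k → ℤ[X]) (X : Ix k → Ω → ℕ) (a L z : ℕ) (ω : Ω) : ℝ :=
  LL a L (Dt (Jx k 0 z)) (fun m => FF f X (Jx k 0 z) m ω)

lemma EE_sq (h : RSys P (pp (k := k)) X) (f : Fin k → ℤ[X]) (a L z : ℕ) :
    ∫ ω, EE f X a L z ω ^ 2 ∂P =
      LL a L (Dt (Jx k 0 z)) (fun m => LL a L (Dt (Jx k 0 z)) (KK f (Jx k 0 z) m)) := by
  have hP := h.prob
  have e : ∀ ω, EE f X a L z ω ^ 2 = LL a L (Dt (Jx k 0 z)) (fun m => LL a L (Dt (Jx k 0 z)) (fun n =>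
      FF f X (Jx k 0 z) m ω * FF f X (Jx k 0 z) n ω)) := by
    intro ω
    unfold EE
    simp only [LL_mul_left]
    have e1 : ∀ m, FF f X (Jx k 0 z) m ω * LL a L (Dt (Jx k 0 z)) (fun n => FF f X (Jx k 0 z) n ω) =
        LL a L (Dt (Jx k 0 z)) (fun n => FF f X (Jx k 0 z) n ω) * FF f X (Jx k 0 z) m ω := fun m => mul_comm _ _
    simp only [e1]
    rw [LL_mul_left, sq]
  have hi : ∀ m n, Integrable (fun ω => FF f X (Jx k 0 z) m ω * FF f X (Jx k 0 z) n ω) P := by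
    intro m n
    refine Integrable.of_bound (C := 1) ((FF_meas h f _ m).mul (FF_meas h f _ n)).aestronglyMeasurable ?_
    refine Filter.Eventually.of_forall fun ω => ?_
    have h1 := FF_01 (X := X) f (Jx k 0 z) m ω
    have h2 := FF_01 (X := X) f (Jx k 0 z) n ω
    rw [Real.norm_of_nonneg (mul_nonneg h1.1 h2.1)]
    exact mul_le_one₀ h1.2 h2.1 h2.2
  simp only [e]
  rw [(int_LL fun m => (int_LL fun n => hi m n).1).2]
  refine LL_congr fun m => ?_
  rw [(int_LL fun n => hi m n).2]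
  exact LL_congr fun n => FF_corr h f _ m n

lemma LL_period (a L : ℕ) {D P : ℕ} (hD : 0 < D) (hP : 0 < P) (hDP : D ∣ P) {g : ℕ → ℝ}
    (hg : ∀ n, g (n + D) = g n) : LL a L P g = LL a L D g := by
  rw [LL_per a L hD hP hDP hg, LL_per a L hD hD dvd_rfl hg]

lemma Jx_mono' {a b : ℕ} (h : a ≤ b) (w : ℕ) : Jx k w a ⊆ Jx k w b := by
  intro j hj
  rw [mem_Jx] at hj ⊢
  exact ⟨hj.1, hj.2.trans h⟩

lemma Jx_disj' (w z : ℕ) : Disjoint (Jx k 0 w) (Jx k w z) := by
  rw [Finset.disjoint_left]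
  intro j h1 h2
  rw [mem_Jx] at h1 h2
  omega

lemma EE_bound (f : Fin k → ℤ[X]) (a L z : ℕ) (ω : Ω) : |EE f X a L z ω| ≤ 2 * L := by
  unfold EE LL
  have hD : (0 : ℝ) < Dt (Jx k 0 z) := by exact_mod_cast Dt_pos (Jx k 0 z)
  have h1 : 0 ≤ ∑ m ∈ Ioc a (a + L), FF f X (Jx k 0 z) m ω := sum_nonneg fun m _ => (FF_01 f _ m ω).1
  have h2 : ∑ m ∈ Ioc a (a + L), FF f X (Jx k 0 z) m ω ≤ L := by
    calc _ ≤ ∑ _m ∈ Ioc a (a + L), (1 : ℝ) := sum_le_sum fun m _ => (FF_01 f _ m ω).2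
      _ = L := by simp
  have h3 : 0 ≤ ∑ r ∈ range (Dt (Jx k 0 z)), FF f X (Jx k 0 z) r ω := sum_nonneg fun m _ => (FF_01 f _ m ω).1
  have h4 : ∑ r ∈ range (Dt (Jx k 0 z)), FF f X (Jx k 0 z) r ω ≤ Dt (Jx k 0 z) := by
    calc _ ≤ ∑ _m ∈ range (Dt (Jx k 0 z)), (1 : ℝ) := sum_le_sum fun m _ => (FF_01 f _ m ω).2
      _ = _ := by simp
  have h5 : (L / Dt (Jx k 0 z) : ℝ) * ∑ r ∈ range (Dt (Jx k 0 z)), FF f X (Jx k 0 z) r ω ≤ L := by
    calc _ ≤ (L / Dt (Jx k 0 z) : ℝ) * Dt (Jx k 0 z) := mul_le_mul_of_nonneg_left h4 (by positivity)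
      _ = L := by field_simp
  have h6 : 0 ≤ (L / Dt (Jx k 0 z) : ℝ) * ∑ r ∈ range (Dt (Jx k 0 z)), FF f X (Jx k 0 z) r ω :=
    mul_nonneg (by positivity) h3
  have hL : (0 : ℝ) ≤ L := by positivity
  rw [abs_le]
  constructor <;> linarith

omit [MeasurableSpace Ω] in
lemma EE_dep (f : Fin k → ℤ[X]) (a L z : ℕ) : DepOn X (Jx k 0 z) (EE f X a L z) := by
  intro ω ω' h
  unfold EE
  exact LL_congr fun m => FF_dep f _ m ω ω' h

/-- the martingale property -/
lemma EE_orth (h : RSys P (pp (k := k)) X) (hi : iIndepFun X P) (f : Fin k → ℤ[X]) (a L : ℕ) {n z : ℕ}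
    (hnz : n ≤ z) {Y : Ω → ℝ} (hY : DepOn X (Jx k 0 n) Y) {B : ℝ} (hB : ∀ ω, |Y ω| ≤ B) :
    ∫ ω, Y ω * EE f X a L z ω ∂P = Vs pp (Jx k n z) * ∫ ω, Y ω * EE f X a L n ω ∂P := by
  classical
  have hP := h.prob
  have hYm := hY.meas h.meas
  have hint : ∀ (s : Finset (Ix k)) (m : ℕ), Integrable (fun ω => Y ω * FF f X s m ω) P := by
    intro s m
    refine Integrable.of_bound (C := B) (hYm.mul (FF_meas h f s m)).aestronglyMeasurable ?_
    refine Filter.Eventually.of_forall fun ω => ?_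
    have h1 := FF_01 (X := X) f s m ω
    rw [Real.norm_eq_abs, abs_mul, abs_of_nonneg h1.1]
    exact (mul_le_of_le_one_right (abs_nonneg _) h1.2).trans (hB ω)
  have e1 : ∀ w, ∫ ω, Y ω * EE f X a L w ω ∂P =
      LL a L (Dt (Jx k 0 w)) (fun m => ∫ ω, Y ω * FF f X (Jx k 0 w) m ω ∂P) := by
    intro w
    rw [← (int_LL fun m => hint (Jx k 0 w) m).2]
    congr 1
    ext ω
    rw [LL_mul_left]
    rfl
  have hun : Jx k 0 z = Jx k 0 n ∪ Jx k n z := by
    ext j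
    rw [mem_union, mem_Jx, mem_Jx, mem_Jx]
    have := pp_two j
    omega
  have e2 : ∀ m, ∫ ω, Y ω * FF f X (Jx k 0 z) m ω ∂P =
      Vs pp (Jx k n z) * ∫ ω, Y ω * FF f X (Jx k 0 n) m ω ∂P := by
    intro m
    have e3 : ∀ ω, Y ω * FF f X (Jx k 0 z) m ω = (Y ω * FF f X (Jx k 0 n) m ω) * FF f X (Jx k n z) m ω := by
      intro ω
      rw [hun, FF_union]
      ring
    simp only [e3]
    rw [dep_int h.meas hi (Jx_disj' n z) (hY.mul (FF_dep f _ m)) (FF_dep f (Jx k n z) m), FF_int h, mul_comm]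
  rw [e1, e1]
  simp only [e2]
  rw [LL_mul_left]
  congr 1
  refine LL_period a L (Dt_pos _) (Dt_pos _) (Dt_dvd (Jx_mono' hnz 0)) fun m => ?_
  refine integral_congr_ae (Filter.Eventually.of_forall fun ω => ?_)
  simp only
  rw [FF_per f (Jx k 0 n) m ω fun j hj => pp_dvd_Dt hj]

/-- the maximal inequality of Kolmogorov and Doob -/
theorem EE_max (h : RSys P (pp (k := k)) X) (hi : iIndepFun X P) (f : Fin k → ℤ[X]) (a L z : ℕ) {δ : ℝ}
    (hδ : 0 < δ) :
    P.real {ω | ∃ n ≤ z, δ ≤ |EE f X a L n ω|} ≤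
      (∫ ω, EE f X a L z ω ^ 2 ∂P) / (δ ^ 2 * Vs pp (Jx k 0 z) ^ 2) := by
  classical
  have hP := h.prob
  have hp := pp_two (k := k)
  -- the martingale
  obtain ⟨M, hM⟩ : ∃ M : ℕ → Ω → ℝ, M = fun n ω => EE f X a L n ω / Vs pp (Jx k 0 n) := ⟨_, rfl⟩
  have hV : ∀ n, 0 < Vs pp (Jx k 0 n) := fun n => Vs_pos hp _
  have hMd : ∀ n, DepOn X (Jx k 0 n) (M n) := by
    intro n ω ω' h'
    rw [hM]
    simp only
    rw [EE_dep f a L n ω ω' h']
  have hMm : ∀ n, Measurable (M n) := fun n => (hMd n).meas h.meas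
  have hMb : ∀ n ω, |M n ω| ≤ 2 * L / Vs pp (Jx k 0 n) := by
    intro n ω
    rw [hM]
    simp only
    rw [abs_div, abs_of_pos (hV n)]
    exact div_le_div_of_nonneg_right (EE_bound f a L n ω) (hV n).le
  have hMi : ∀ (n : ℕ) {Y : Ω → ℝ}, Measurable Y → (∃ B, ∀ ω, |Y ω| ≤ B) → Integrable Y P := by
    intro n Y hYm hYB
    obtain ⟨B, hB⟩ := hYB
    refine Integrable.of_bound (C := B) hYm.aestronglyMeasurable ?_
    exact Filter.Eventually.of_forall fun ω => by rw [Real.norm_eq_abs]; exact hB ω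
  have hsplit : ∀ n, n ≤ z → Vs pp (Jx k 0 z) = Vs pp (Jx k 0 n) * Vs pp (Jx k n z) := by
    intro n hn
    have hun : Jx k 0 z = Jx k 0 n ∪ Jx k n z := by
      ext j
      rw [mem_union, mem_Jx, mem_Jx, mem_Jx]
      have := pp_two j
      omega
    unfold Vs
    rw [hun, prod_union (Jx_disj' n z)]
  have horth : ∀ n, n ≤ z → ∀ Y : Ω → ℝ, DepOn X (Jx k 0 n) Y → (∃ B, ∀ ω, |Y ω| ≤ B) →
      ∫ ω, Y ω * M z ω ∂P = ∫ ω, Y ω * M n ω ∂P := by
    intro n hn Y hY hB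
    obtain ⟨B, hB⟩ := hB
    have h1 := EE_orth h hi f a L hn hY hB
    have e : ∀ w, ∫ ω, Y ω * M w ω ∂P = (∫ ω, Y ω * EE f X a L w ω ∂P) / Vs pp (Jx k 0 w) := by
      intro w
      rw [← integral_div]
      congr 1
      ext ω
      rw [hM]
      ring
    rw [e, e, h1, hsplit n hn]
    have := hV n
    have h2 : 0 < Vs pp (Jx k n z) := Vs_pos hp _
    field_simp
  -- the stopping sets
  obtain ⟨A, hA⟩ : ∃ A : ℕ → Set Ω, A = fun n => {ω | δ ≤ |M n ω| ∧ ∀ j < n, |M j ω| < δ} := ⟨_, rfl⟩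
  have hAm : ∀ n, MeasurableSet (A n) := by
    intro n
    rw [hA]
    have e : {ω | δ ≤ |M n ω| ∧ ∀ j < n, |M j ω| < δ} = {ω | δ ≤ |M n ω|} ∩ ⋂ j ∈ range n, {ω | |M j ω| < δ} := by
      ext ω
      simp
    show MeasurableSet {ω | δ ≤ |M n ω| ∧ ∀ j < n, |M j ω| < δ}
    rw [e]
    refine MeasurableSet.inter (measurableSet_le measurable_const (hMm n).abs) ?_
    exact (range n).measurableSet_biInter fun j _ => measurableSet_lt (hMm j).abs measurable_const
  have hAd : ∀ n, DepOn X (Jx k 0 n) ((A n).indicator (fun _ => (1 : ℝ))) := by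
    intro n ω ω' h'
    rw [Set.indicator_apply, Set.indicator_apply]
    have : ω ∈ A n ↔ ω' ∈ A n := by
      rw [hA]
      simp only [Set.mem_ofPred_eq]
      have h1 : ∀ j ≤ n, M j ω = M j ω' := fun j hj => (hMd j).mono (Jx_mono' hj 0) ω ω' h'
      constructor
      · rintro ⟨h2, h3⟩
        exact ⟨by rw [← h1 n le_rfl]; exact h2, fun j hj => by rw [← h1 j hj.le]; exact h3 j hj⟩
      · rintro ⟨h2, h3⟩
        exact ⟨by rw [h1 n le_rfl]; exact h2, fun j hj => by rw [h1 j hj.le]; exact h3 j hj⟩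
    simp only [this]
  have hdisj : Set.PairwiseDisjoint (↑(range (z + 1))) A := by
    intro i _ j _ hij
    rw [Function.onFun, Set.disjoint_left]
    intro ω h1 h2
    rw [hA] at h1 h2
    rcases lt_or_gt_of_ne hij with h3 | h3
    · exact absurd h1.1 (not_le.2 (h2.2 i h3))
    · exact absurd h2.1 (not_le.2 (h1.2 j h3))
  -- the event
  have hcov : {ω | ∃ n ≤ z, δ ≤ |EE f X a L n ω|} ⊆ ⋃ n ∈ range (z + 1), A n := by
    intro ω hω
    obtain ⟨n, hn, h1⟩ := hω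
    have hex : ∃ n, n ≤ z ∧ δ ≤ |M n ω| := by
      refine ⟨n, hn, h1.trans ?_⟩
      rw [hM]
      simp only
      rw [abs_div, abs_of_pos (hV n), le_div_iff₀ (hV n)]
      exact mul_le_of_le_one_right (abs_nonneg _) (Vs_le hp _)
    rw [Set.mem_iUnion₂]
    refine ⟨Nat.find hex, mem_range.2 (by have := (Nat.find_spec hex).1; omega), ?_⟩
    rw [hA]
    refine ⟨(Nat.find_spec hex).2, fun j hj => ?_⟩
    by_contra h2
    exact Nat.find_min hex hj ⟨hj.le.trans (Nat.find_spec hex).1, not_lt.1 h2⟩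
  -- one stopping set
  have hone : ∀ n ∈ range (z + 1), δ ^ 2 * P.real (A n) ≤
      ∫ ω, (A n).indicator (fun _ => (1 : ℝ)) ω * M z ω ^ 2 ∂P := by
    intro n hn
    have hnz : n ≤ z := by
      rw [mem_range] at hn
      omega
    obtain ⟨I, hI⟩ : ∃ I : Ω → ℝ, I = (A n).indicator (fun _ => (1 : ℝ)) := ⟨_, rfl⟩
    rw [← hI]
    have hI01 : ∀ ω, 0 ≤ I ω ∧ I ω ≤ 1 := by
      intro ω
      rw [hI, Set.indicator_apply]
      split_ifs <;> norm_num
    have hIm : Measurable I := by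
      rw [hI]
      exact measurable_const.indicator (hAm n)
    have hId : DepOn X (Jx k 0 n) I := by rw [hI]; exact hAd n
    have hbd : ∀ {Y Z : Ω → ℝ} {B C : ℝ}, (∀ ω, |Y ω| ≤ B) → (∀ ω, |Z ω| ≤ C) →
        ∀ ω, |I ω * (Y ω * Z ω)| ≤ B * C := by
      intro Y Z B C h1 h2 ω
      rw [abs_mul, abs_mul, abs_of_nonneg (hI01 ω).1]
      have h3 : |Y ω| * |Z ω| ≤ B * C := mul_le_mul (h1 ω) (h2 ω) (abs_nonneg _) ((abs_nonneg _).trans (h1 ω))
      exact (mul_le_of_le_one_left (mul_nonneg (abs_nonneg _) (abs_nonneg _)) (hI01 ω).2).trans h3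
    have i1 : Integrable (fun ω => I ω * (M n ω * M n ω)) P :=
      hMi n (hIm.mul ((hMm n).mul (hMm n))) ⟨_, hbd (hMb n) (hMb n)⟩
    have i2 : Integrable (fun ω => I ω * (M n ω * M z ω)) P :=
      hMi n (hIm.mul ((hMm n).mul (hMm z))) ⟨_, hbd (hMb n) (hMb z)⟩
    have i3 : Integrable (fun ω => I ω * (M z ω * M z ω)) P :=
      hMi n (hIm.mul ((hMm z).mul (hMm z))) ⟨_, hbd (hMb z) (hMb z)⟩
    have hor : ∫ ω, I ω * (M n ω * M z ω) ∂P = ∫ ω, I ω * (M n ω * M n ω) ∂P := by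
      have h1 := horth n hnz (fun ω => I ω * M n ω) (hId.mul (hMd n)) ⟨2 * L / Vs pp (Jx k 0 n), fun ω => by
        rw [abs_mul, abs_of_nonneg (hI01 ω).1]
        exact (mul_le_of_le_one_left (abs_nonneg _) (hI01 ω).2).trans (hMb n ω)⟩
      simp only [mul_assoc] at h1
      exact h1
    have hle : ∫ ω, I ω * (M n ω * M n ω) ∂P ≤ ∫ ω, I ω * (M z ω * M z ω) ∂P := by
      have h1 : 0 ≤ ∫ ω, (I ω * (M z ω * M z ω) - 2 * (I ω * (M n ω * M z ω)) + I ω * (M n ω * M n ω)) ∂P := by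
        refine integral_nonneg fun ω => ?_
        have : I ω * (M z ω * M z ω) - 2 * (I ω * (M n ω * M z ω)) + I ω * (M n ω * M n ω) =
          I ω * (M z ω - M n ω) ^ 2 := by ring
        simp only [Pi.zero_apply]
        rw [this]
        exact mul_nonneg (hI01 ω).1 (sq_nonneg _)
      have i4 : Integrable (fun ω => I ω * (M z ω * M z ω) - 2 * (I ω * (M n ω * M z ω))) P :=
        i3.sub (i2.const_mul 2)
      rw [integral_add i4 i1, integral_sub i3 (i2.const_mul 2), integral_const_mul, hor] at h1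
      linarith
    have hlow : δ ^ 2 * P.real (A n) ≤ ∫ ω, I ω * (M n ω * M n ω) ∂P := by
      have h1 : δ ^ 2 * P.real (A n) = ∫ ω, δ ^ 2 * I ω ∂P := by
        rw [integral_const_mul, hI, integral_ind (hAm n)]
      rw [h1]
      refine integral_mono ((hMi n hIm ⟨1, fun ω => by
        rw [abs_of_nonneg (hI01 ω).1]; exact (hI01 ω).2⟩).const_mul _) i1 fun ω => ?_
      simp only
      by_cases hω : ω ∈ A n
      · have h2 : I ω = 1 := by rw [hI, Set.indicator_of_mem hω]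
        rw [h2, mul_one, one_mul, ← sq]
        rw [hA] at hω
        calc δ ^ 2 ≤ |M n ω| ^ 2 := pow_le_pow_left₀ hδ.le hω.1 2
          _ = M n ω ^ 2 := sq_abs _
      · have h2 : I ω = 0 := by rw [hI, Set.indicator_of_notMem hω]
        rw [h2]
        simp
    refine (hlow.trans hle).trans (le_of_eq ?_)
    simp only [sq]
  -- the sum
  have hMzi : Integrable (fun ω => M z ω ^ 2) P := hMi z ((hMm z).pow_const 2) ⟨(2 * L / Vs pp (Jx k 0 z)) ^ 2,
    fun ω => by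
      rw [abs_pow]
      exact pow_le_pow_left₀ (abs_nonneg _) (hMb z ω) 2⟩
  have hsum : ∑ n ∈ range (z + 1), ∫ ω, (A n).indicator (fun _ => (1 : ℝ)) ω * M z ω ^ 2 ∂P ≤
      ∫ ω, M z ω ^ 2 ∂P := by
    have hii : ∀ n, Integrable (fun ω => (A n).indicator (fun _ => (1 : ℝ)) ω * M z ω ^ 2) P := by
      intro n
      have : (fun ω => (A n).indicator (fun _ => (1 : ℝ)) ω * M z ω ^ 2) =
          (A n).indicator (fun ω => M z ω ^ 2) := by
        ext ω
        rw [Set.indicator_apply, Set.indicator_apply]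
        split_ifs <;> simp
      rw [this]
      exact hMzi.indicator (hAm n)
    rw [← integral_finset_sum _ fun n _ => hii n]
    refine integral_mono (integrable_finset_sum _ fun n _ => hii n) hMzi fun ω => ?_
    simp only
    rw [← sum_mul]
    refine mul_le_of_le_one_left (sq_nonneg _) ?_
    by_cases hω : ∃ n ∈ range (z + 1), ω ∈ A n
    · obtain ⟨n, hn, hωn⟩ := hω
      rw [sum_eq_single_of_mem n hn fun i hi' hin => ?_]
      · rw [Set.indicator_of_mem hωn]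
      · rw [Set.indicator_of_notMem]
        intro hωi
        exact (Set.disjoint_left.1 (hdisj (mem_coe.2 hi') (mem_coe.2 hn) hin)) hωi hωn
    · push Not at hω
      rw [sum_eq_zero fun n hn => Set.indicator_of_notMem (hω n hn) _]
      exact zero_le_one
  have hPA : P.real (⋃ n ∈ range (z + 1), A n) = ∑ n ∈ range (z + 1), P.real (A n) :=
    measureReal_biUnion_finset hdisj fun n _ => hAm n
  have hfin : δ ^ 2 * P.real {ω | ∃ n ≤ z, δ ≤ |EE f X a L n ω|} ≤ ∫ ω, M z ω ^ 2 ∂P := by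
    calc δ ^ 2 * P.real {ω | ∃ n ≤ z, δ ≤ |EE f X a L n ω|} ≤ δ ^ 2 * P.real (⋃ n ∈ range (z + 1), A n) :=
          mul_le_mul_of_nonneg_left (measureReal_mono hcov (measure_ne_top _ _)) (by positivity)
      _ = ∑ n ∈ range (z + 1), δ ^ 2 * P.real (A n) := by rw [hPA, mul_sum]
      _ ≤ _ := (sum_le_sum hone).trans hsum
  have e : ∫ ω, M z ω ^ 2 ∂P = (∫ ω, EE f X a L z ω ^ 2 ∂P) / Vs pp (Jx k 0 z) ^ 2 := by
    rw [← integral_div, hM]
    congr 1
    ext ω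
    rw [div_pow]
  rw [e] at hfin
  have hVz := hV z
  rw [le_div_iff₀ (by positivity)]
  rw [le_div_iff₀ (by positivity)] at hfin
  calc P.real {ω | ∃ n ≤ z, δ ≤ |EE f X a L n ω|} * (δ ^ 2 * Vs pp (Jx k 0 z) ^ 2) =
        δ ^ 2 * P.real {ω | ∃ n ≤ z, δ ≤ |EE f X a L n ω|} * Vs pp (Jx k 0 z) ^ 2 := by ring
    _ ≤ _ := hfin

end Pool.Agent.L5helper2.RS
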