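import Pool.Agent.L5helper2.RS.S4
import Pool.Agent.L5helper2.RS.E3

/-! Project RS (helper2), square-root law: all lengths and all levels. -/

set_option autoImplicit false

namespace Pool.Agent.L5helper2.RS

open Finset Polynomial MeasureTheory ProbabilityTheory Filter Topology
open Pool.Agent.H373R2.T7 (pz Vz mem_pz Vz_low)

variable {k : ℕ} {Ω : Type} [MeasurableSpace Ω] {P : Measure Ω} {X : Ix k → Ω → ℕ}

lemma Vs_anti' {a b : ℕ} (h : a ≤ b) : Vs pp (Jx k 0 b) ≤ Vs pp (Jx k 0 a) :=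
  Vs_anti pp_two (Jx_mono' h 0)

/-- the products are at least a small power -/
lemma Vs_low (θ : ℝ) (hθ : 0 < θ) : ∃ C : ℝ, 1 ≤ C ∧ ∀ n : ℕ, 1 ≤ n → (Vs pp (Jx k 0 n))⁻¹ ≤ C * (n : ℝ) ^ θ := by
  obtain ⟨C, N0, hN0, hV⟩ := V_inv_le
  have h1 : (fun x : ℝ => Real.log x ^ (C * k)) =o[Filter.atTop] fun x => x ^ θ := by
    have := isLittleO_log_rpow_rpow_atTop ((C * k : ℕ) : ℝ) hθ
    simpa only [Real.rpow_natCast] using this
  have h2 := (h1.bound (show (0 : ℝ) < 1 by norm_num))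
  obtain ⟨x0, hx0⟩ := Filter.eventually_atTop.1 h2
  obtain ⟨N, hN⟩ : ∃ N : ℕ, N = max N0 ⌈x0⌉₊ := ⟨_, rfl⟩
  refine ⟨max 1 (Vs pp (Jx k 0 N))⁻¹, le_max_left _ _, fun n hn => ?_⟩
  have hn1 : (1 : ℝ) ≤ n := by exact_mod_cast hn
  have hnθ : 1 ≤ (n : ℝ) ^ θ := Real.one_le_rpow hn1 hθ.le
  rcases Nat.lt_or_ge n N with h | h
  · calc (Vs pp (Jx k 0 n))⁻¹ ≤ (Vs pp (Jx k 0 N))⁻¹ := inv_anti₀ (Vs_pos pp_two _) (Vs_anti' h.le)
      _ ≤ max 1 (Vs pp (Jx k 0 N))⁻¹ := le_max_right _ _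
      _ = max 1 (Vs pp (Jx k 0 N))⁻¹ * 1 := (mul_one _).symm
      _ ≤ _ := mul_le_mul_of_nonneg_left hnθ (le_trans zero_le_one (le_max_left _ _))
  · have e : (Vs pp (Jx k 0 n))⁻¹ = ((Vz n)⁻¹) ^ k := by
      unfold Vs
      rw [prod_Jx (fun n => (1 - 1 / (n : ℝ))), inv_pow]
      congr 2
    have h3 := hV n ((le_trans (le_max_left _ _) (by rw [← hN]; exact h)))
    have h4 : x0 ≤ n := (Nat.le_ceil _).trans (by
      have : ⌈x0⌉₊ ≤ n := le_trans (le_max_right _ _) (by rw [← hN]; exact h)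
      exact_mod_cast this)
    have h5 := hx0 n h4
    rw [Real.norm_of_nonneg (pow_nonneg (Real.log_nonneg hn1) _), Real.norm_of_nonneg (by positivity), one_mul] at h5
    rw [e]
    calc ((Vz n)⁻¹) ^ k ≤ (Real.log n ^ C) ^ k := by
          refine pow_le_pow_left₀ ?_ h3 k
          have h6 : 0 ≤ Vz n := by
            unfold Vz
            refine prod_nonneg fun p hp => ?_
            have : (1 : ℝ) ≤ p := by exact_mod_cast (mem_pz.1 hp).2.one_lt.le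
            have : 1 / (p : ℝ) ≤ 1 := by
              rw [div_le_one (by linarith)]
              exact this
            linarith
          exact inv_nonneg.2 h6
      _ = Real.log n ^ (C * k) := by rw [← pow_mul]
      _ ≤ (n : ℝ) ^ θ := h5
      _ = 1 * (n : ℝ) ^ θ := (one_mul _).symm
      _ ≤ _ := mul_le_mul_of_nonneg_right (le_max_left _ _) (by positivity)

/-- the probability of a large error in one interval -/
theorem prob_EE (h : RSys P (pp (k := k)) X) (hi : iIndepFun X P) (hk : 1 ≤ k) {f : Fin k → ℤ[X]}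
    (hf : ∀ i, 1 ≤ (f i).natDegree) (A : ℕ) {ε : ℝ} (hε : 0 < ε) (hε1 : ε ≤ 1) :
    ∃ C : ℝ, 0 < C ∧ ∀ Y : ℕ, 2 ≤ Y → ∀ a L : ℕ, 1 ≤ L → a + L ≤ Y → ∀ z : ℕ, z ≤ Y ^ A → ∀ δ : ℝ, 0 < δ →
    P.real {ω | ∃ n ≤ z, δ ≤ |EE f X a L n ω|} ≤ C * L * (Y : ℝ) ^ ε / δ ^ 2 := by
  obtain ⟨C0, hC0, h1⟩ := B_total hk hf (show 0 < ε / 2 by positivity) (by linarith)
  obtain ⟨C1, hC1, h2⟩ := Vs_low (k := k) (ε / (6 * (A + 1))) (by positivity)
  refine ⟨C0 * C1 ^ 3, by positivity, fun Y hY a L hL hLY z hz δ hδ => ?_⟩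
  have hY1 : (1 : ℝ) ≤ Y := by exact_mod_cast (by omega : 1 ≤ Y)
  have hY0 : (0 : ℝ) < Y := by linarith
  have hp := pp_two (k := k)
  refine (EE_max h hi f a L z hδ).trans ?_
  rw [EE_sq h]
  obtain ⟨V, hV⟩ : ∃ V : ℝ, V = Vs pp (Jx k 0 z) := ⟨_, rfl⟩
  have hV0 : 0 < V := by rw [hV]; exact Vs_pos hp _
  have h3 := (le_abs_self _).trans (h1 Y hY a L hL hLY (Jx k 0 z))
  have hPi : ∏ j ∈ Jx k 0 z, (1 / (pp j : ℝ) + 1) ≤ V⁻¹ := by
    rw [hV]
    unfold Vs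
    rw [← prod_inv_distrib]
    refine prod_le_prod (fun j _ => by positivity) fun j _ => ?_
    have h4 := one_sub_pos hp j
    rw [le_inv_comm₀ (by positivity) h4, ← one_div, le_div_iff₀ (by positivity)]
    have h5 : (1 - 1 / (pp j : ℝ)) * (1 / (pp j : ℝ) + 1) = 1 - (1 / (pp j : ℝ)) ^ 2 := by ring
    rw [h5]
    have : 0 ≤ (1 / (pp j : ℝ)) ^ 2 := by positivity
    linarith
  have hVi : V⁻¹ ≤ C1 * (Y : ℝ) ^ (ε / 6) := by
    have h4 := h2 (Y ^ A) (Nat.pow_pos (by omega))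
    have h5 : V⁻¹ ≤ (Vs pp (Jx k 0 (Y ^ A)))⁻¹ := by
      rw [hV]
      exact inv_anti₀ (Vs_pos hp _) (Vs_anti' hz)
    refine h5.trans (h4.trans ?_)
    refine mul_le_mul_of_nonneg_left ?_ (by linarith)
    push_cast
    rw [← Real.rpow_natCast, ← Real.rpow_mul hY0.le]
    refine Real.rpow_le_rpow_of_exponent_le hY1 ?_
    rw [← mul_div_assoc, div_le_div_iff₀ (by positivity) (by norm_num)]
    have hA : (0 : ℝ) ≤ A := by positivity
    nlinarith
  rw [← hV, div_le_div_iff₀ (by positivity) (by positivity)]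
  have h4 : LL a L (Dt (Jx k 0 z)) (fun m => LL a L (Dt (Jx k 0 z)) (KK f (Jx k 0 z) m)) ≤
      C0 * C1 ^ 3 * L * (Y : ℝ) ^ ε * V ^ 2 := by
    have h5 : V⁻¹ ≤ C1 ^ 3 * (Y : ℝ) ^ (ε / 2) * V ^ 2 := by
      have h6 : V⁻¹ ^ 3 ≤ (C1 * (Y : ℝ) ^ (ε / 6)) ^ 3 := pow_le_pow_left₀ (by positivity) hVi 3
      have h7 : (C1 * (Y : ℝ) ^ (ε / 6)) ^ 3 = C1 ^ 3 * (Y : ℝ) ^ (ε / 2) := by
        rw [mul_pow, ← Real.rpow_natCast ((Y : ℝ) ^ (ε / 6)), ← Real.rpow_mul hY0.le]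
        congr 2
        push_cast
        ring
      rw [h7] at h6
      calc V⁻¹ = V⁻¹ ^ 3 * V ^ 2 := by field_simp
        _ ≤ _ := mul_le_mul_of_nonneg_right h6 (by positivity)
    calc _ ≤ C0 * L * (Y : ℝ) ^ (ε / 2) * ∏ j ∈ Jx k 0 z, (1 / (pp j : ℝ) + 1) := h3
      _ ≤ C0 * L * (Y : ℝ) ^ (ε / 2) * (C1 ^ 3 * (Y : ℝ) ^ (ε / 2) * V ^ 2) :=
        mul_le_mul_of_nonneg_left (hPi.trans h5) (by positivity)
      _ = C0 * C1 ^ 3 * L * ((Y : ℝ) ^ (ε / 2) * (Y : ℝ) ^ (ε / 2)) * V ^ 2 := by ring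
      _ = _ := by
        rw [← Real.rpow_add hY0, add_halves]
  calc _ ≤ C0 * C1 ^ 3 * L * (Y : ℝ) ^ ε * V ^ 2 * δ ^ 2 := mul_le_mul_of_nonneg_right h4 (by positivity)
    _ = _ := by ring

/-- sums over initial segments from dyadic intervals -/
lemma dyadic_bound {G : ℕ → ℕ → ℝ} (hG : ∀ a y y', G a (y + y') = G a y + G (a + y) y') {K : ℕ} {δ : ℝ}
    (hδ : 0 ≤ δ) (hd : ∀ i ≤ K, ∀ j < 2 ^ (K - i), |G (j * 2 ^ i) (2 ^ i)| ≤ δ) :
    ∀ i ≤ K, ∀ j < 2 ^ (K - i), ∀ y ≤ 2 ^ i, |G (j * 2 ^ i) y| ≤ (i + 1) * δ := by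
  have h0 : ∀ a, G a 0 = 0 := by
    intro a
    have := hG a 0 0
    simp at this
    exact this
  intro i
  induction i with
  | zero =>
    intro hi j hj y hy
    rw [pow_zero] at hy
    rcases Nat.le_one_iff_eq_zero_or_eq_one.1 hy with h | h
    · rw [h, h0, abs_zero]
      positivity
    · have := hd 0 hi j hj
      rw [pow_zero] at this ⊢
      rw [h]
      push_cast
      linarith
  | succ i ih =>
    intro hi j hj y hy
    have e1 : 2 ^ (K - i) = 2 * 2 ^ (K - (i + 1)) := by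
      rw [← pow_succ']
      congr 1
      omega
    have e2 : j * 2 ^ (i + 1) = (2 * j) * 2 ^ i := by ring
    rw [e2]
    rcases le_or_gt y (2 ^ i) with h | h
    · have h1 := ih (by omega) (2 * j) (by omega) y h
      refine h1.trans ?_
      push_cast
      nlinarith
    · obtain ⟨y', rfl⟩ : ∃ y', y = 2 ^ i + y' := ⟨y - 2 ^ i, by omega⟩
      rw [hG]
      have h1 := hd i (by omega) (2 * j) (by omega)
      have e3 : 2 * j * 2 ^ i + 2 ^ i = (2 * j + 1) * 2 ^ i := by ring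
      have h2 := ih (by omega) (2 * j + 1) (by omega) y' (by rw [pow_succ] at hy; omega)
      rw [e3]
      refine (abs_add_le _ _).trans ?_
      push_cast
      linarith

lemma EE_add (f : Fin k → ℤ[X]) (z : ℕ) (ω : Ω) (a y y' : ℕ) :
    EE f X a (y + y') z ω = EE f X a y z ω + EE f X (a + y) y' z ω := by
  unfold EE LL
  have e : Ioc a (a + (y + y')) = Ioc a (a + y) ∪ Ioc (a + y) (a + y + y') := by
    ext m
    simp only [mem_union, mem_Ioc]
    omega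
  have hdis : Disjoint (Ioc a (a + y)) (Ioc (a + y) (a + y + y')) := by
    rw [Finset.disjoint_left]
    intro m h1 h2
    rw [mem_Ioc] at h1 h2
    omega
  rw [e, sum_union hdis]
  push_cast
  ring

/-- the law for one family of polynomials -/
theorem sqrt_one (h : RSys P (pp (k := k)) X) (hi : iIndepFun X P) (hk : 1 ≤ k) {f : Fin k → ℤ[X]}
    (hf : ∀ i, 1 ≤ (f i).natDegree) (A : ℕ) {ε : ℝ} (hε : 0 < ε) :
    ∀ᵐ ω ∂P, ∀ᶠ x : ℕ in atTop, ∀ z ≤ x ^ A, |EE f X 0 x z ω| ≤ (x : ℝ) ^ (1 / 2 + ε) := by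
  have hP := h.prob
  obtain ⟨η, hη⟩ : ∃ η : ℝ, η = min (ε / 2) 1 := ⟨_, rfl⟩
  have hη0 : 0 < η := by
    rw [hη]
    exact lt_min (by positivity) one_pos
  have hη1 : η ≤ 1 := by rw [hη]; exact min_le_right _ _
  have hηε : η ≤ ε / 2 := by rw [hη]; exact min_le_left _ _
  obtain ⟨C, hC, hpr⟩ := prob_EE h hi hk hf A hη0 hη1
  -- the events
  obtain ⟨δ, hδ⟩ : ∃ δ : ℕ → ℝ, δ = fun K => ((2 ^ K : ℕ) : ℝ) ^ (1 / 2 + η) := ⟨_, rfl⟩
  have hδ0 : ∀ K, 0 < δ K := fun K => by rw [hδ]; positivity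
  obtain ⟨B, hB⟩ : ∃ B : ℕ → Set Ω, B = fun K => ⋃ i ∈ range (K + 1), ⋃ j ∈ range (2 ^ (K - i)),
      {ω | ∃ n ≤ (2 ^ K) ^ A, δ K ≤ |EE f X (j * 2 ^ i) (2 ^ i) n ω|} := ⟨_, rfl⟩
  have hPB : ∀ K : ℕ, 1 ≤ K → P.real (B K) ≤ (K + 1) * (C * ((2 ^ K : ℕ) : ℝ) ^ (-η)) := by
    intro K hK
    have h2K : 2 ≤ 2 ^ K := by
      calc 2 = 2 ^ 1 := rfl
        _ ≤ 2 ^ K := Nat.pow_le_pow_right (by norm_num) hK
    have h2K0 : (0 : ℝ) < ((2 ^ K : ℕ) : ℝ) := by positivity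
    rw [hB]
    refine (measureReal_biUnion_finset_le _ _).trans ?_
    calc ∑ i ∈ range (K + 1), P.real (⋃ j ∈ range (2 ^ (K - i)),
          {ω | ∃ n ≤ (2 ^ K) ^ A, δ K ≤ |EE f X (j * 2 ^ i) (2 ^ i) n ω|}) ≤
          ∑ _i ∈ range (K + 1), C * ((2 ^ K : ℕ) : ℝ) ^ (-η) := by
          refine sum_le_sum fun i hi' => ?_
          rw [mem_range] at hi'
          refine (measureReal_biUnion_finset_le _ _).trans ?_
          have e2 : 2 ^ (K - i) * 2 ^ i = 2 ^ K := by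
            rw [← pow_add]
            congr 1
            omega
          calc ∑ j ∈ range (2 ^ (K - i)), P.real {ω | ∃ n ≤ (2 ^ K) ^ A, δ K ≤ |EE f X (j * 2 ^ i) (2 ^ i) n ω|} ≤
                ∑ _j ∈ range (2 ^ (K - i)), C * ((2 ^ i : ℕ) : ℝ) * ((2 ^ K : ℕ) : ℝ) ^ η / δ K ^ 2 := by
                refine sum_le_sum fun j hj => ?_
                rw [mem_range] at hj
                refine hpr (2 ^ K) h2K (j * 2 ^ i) (2 ^ i) (Nat.one_le_two_pow) ?_ _ le_rfl (δ K) (hδ0 K)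
                calc j * 2 ^ i + 2 ^ i = (j + 1) * 2 ^ i := by ring
                  _ ≤ 2 ^ (K - i) * 2 ^ i := Nat.mul_le_mul_right _ hj
                  _ = 2 ^ K := e2
            _ = C * (((2 ^ (K - i) : ℕ) : ℝ) * ((2 ^ i : ℕ) : ℝ)) * ((2 ^ K : ℕ) : ℝ) ^ η / δ K ^ 2 := by
                rw [sum_const, card_range, nsmul_eq_mul]
                ring
            _ = C * ((2 ^ K : ℕ) : ℝ) ^ (-η) := by
                rw [← Nat.cast_mul, e2, hδ]
                simp only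
                rw [← Real.rpow_natCast (((2 ^ K : ℕ) : ℝ) ^ (1 / 2 + η)), ← Real.rpow_mul h2K0.le,
                  div_eq_iff (by positivity)]
                have e3 : C * ((2 ^ K : ℕ) : ℝ) ^ (-η) * ((2 ^ K : ℕ) : ℝ) ^ ((1 / 2 + η) * ((2 : ℕ) : ℝ)) =
                    C * (((2 ^ K : ℕ) : ℝ) ^ (-η) * ((2 ^ K : ℕ) : ℝ) ^ ((1 / 2 + η) * ((2 : ℕ) : ℝ))) := by ring
                have e4 : C * ((2 ^ K : ℕ) : ℝ) * ((2 ^ K : ℕ) : ℝ) ^ η =
                    C * (((2 ^ K : ℕ) : ℝ) ^ (1 : ℝ) * ((2 ^ K : ℕ) : ℝ) ^ η) := by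
                  rw [Real.rpow_one]
                  ring
                rw [e3, e4, ← Real.rpow_add h2K0, ← Real.rpow_add h2K0]
                congr 2
                push_cast
                ring
      _ = _ := by
          rw [sum_const, card_range, nsmul_eq_mul]
          push_cast
          ring
  have hbc : ∀ᵐ ω ∂P, ∀ᶠ K in atTop, ω ∉ B K := by
    refine bc (C := C) ?_
    have hr : |(2 : ℝ) ^ (-η)| < 1 := by
      rw [abs_of_pos (by positivity)]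
      exact Real.rpow_lt_one_of_one_lt_of_neg (by norm_num) (by linarith)
    have ht := tendsto_pow_const_mul_const_pow_of_abs_lt_one 3 hr
    have ht' := (ht.comp (tendsto_add_atTop_nat 1)).mul_const (((2 : ℝ) ^ (-η))⁻¹)
    rw [zero_mul] at ht'
    filter_upwards [eventually_ge_atTop 1, ht'.eventually_le_const one_pos] with K hK1 hK2
    refine (hPB K hK1).trans ?_
    have hK0 : (0 : ℝ) < (K : ℝ) + 1 := by positivity
    rw [le_div_iff₀ (by positivity)]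
    simp only [Function.comp] at hK2
    have e : ((2 ^ K : ℕ) : ℝ) ^ (-η) = ((2 : ℝ) ^ (-η)) ^ K := by
      push_cast
      rw [← Real.rpow_natCast, ← Real.rpow_mul (by norm_num), ← Real.rpow_natCast, ← Real.rpow_mul (by norm_num), mul_comm]
    rw [e]
    have e2 : (((K + 1 : ℕ) : ℝ) ^ 3 * ((2 : ℝ) ^ (-η)) ^ (K + 1)) * ((2 : ℝ) ^ (-η))⁻¹ =
        ((K : ℝ) + 1) ^ 3 * ((2 : ℝ) ^ (-η)) ^ K := by
      have h2 : (2 : ℝ) ^ (-η) ≠ 0 := by positivity
      rw [pow_succ ((2 : ℝ) ^ (-η)) K, mul_assoc, mul_assoc, mul_inv_cancel₀ h2, mul_one]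
      push_cast
      rfl
    rw [e2] at hK2
    calc ((K : ℝ) + 1) * (C * ((2 : ℝ) ^ (-η)) ^ K) * ((K : ℝ) + 1) ^ 2 =
          C * (((K : ℝ) + 1) ^ 3 * ((2 : ℝ) ^ (-η)) ^ K) := by ring
      _ ≤ C * 1 := mul_le_mul_of_nonneg_left hK2 hC.le
      _ = C := mul_one _
  filter_upwards [hbc] with ω hω
  -- the index `K` of `x`
  have hclog : Tendsto (fun x : ℕ => Nat.clog 2 x) atTop atTop := by
    refine tendsto_atTop.2 fun b => ?_
    filter_upwards [eventually_gt_atTop (2 ^ b)] with x hx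
    exact ((Nat.lt_clog_iff_pow_lt (by norm_num)).2 hx).le
  have hgrow : ∀ᶠ x : ℕ in atTop, ((Nat.clog 2 x : ℝ) + 1) * (2 * (x : ℝ)) ^ (1 / 2 + η) ≤ (x : ℝ) ^ (1 / 2 + ε) := by
    have h1 : Tendsto (fun x : ℕ => (Real.log x) / (x : ℝ) ^ (ε / 4)) atTop (𝓝 0) := by
      have := (isLittleO_log_rpow_atTop (show 0 < ε / 4 by positivity)).tendsto_div_nhds_zero
      exact this.comp tendsto_natCast_atTop_atTop
    have h2 : Tendsto (fun x : ℕ => (x : ℝ) ^ (ε / 4)) atTop atTop :=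
      (tendsto_rpow_atTop (show 0 < ε / 4 by positivity)).comp tendsto_natCast_atTop_atTop
    filter_upwards [h1.eventually_le_const one_pos, h2.eventually_ge_atTop (2 ^ (5 : ℝ)), eventually_ge_atTop 3]
      with x hx1 hx2 hx3
    have hx0 : (3 : ℝ) ≤ x := by exact_mod_cast hx3
    have hxp : (0 : ℝ) < x := by linarith
    have hxe : (0 : ℝ) < (x : ℝ) ^ (ε / 4) := by positivity
    rw [div_le_one hxe] at hx1
    have hlog1 : 1 ≤ Real.log x := by
      rw [← Real.log_exp 1]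
      refine Real.log_le_log (Real.exp_pos _) ?_
      have := Real.exp_one_lt_d9
      linarith
    have hcl : (Nat.clog 2 x : ℝ) ≤ 2 * Real.log x + 1 := by
      have h3 : 2 ^ (Nat.clog 2 x - 1) < x := Nat.pow_pred_clog_lt_self (by norm_num) (by omega)
      have h4 : (2 : ℝ) ^ (Nat.clog 2 x - 1) ≤ x := by exact_mod_cast h3.le
      have h5 := Real.log_le_log (by positivity) h4
      rw [Real.log_pow] at h5
      have h6 : 1 / 2 < Real.log 2 := by
        have := Real.log_two_gt_d9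
        linarith
      have h7 : ((Nat.clog 2 x : ℕ) : ℝ) ≤ ((Nat.clog 2 x - 1 : ℕ) : ℝ) + 1 := by
        have : Nat.clog 2 x ≤ Nat.clog 2 x - 1 + 1 := by omega
        exact_mod_cast this
      have h8 : (0 : ℝ) ≤ ((Nat.clog 2 x - 1 : ℕ) : ℝ) := by positivity
      nlinarith
    have h3 : (Nat.clog 2 x : ℝ) + 1 ≤ 4 * (x : ℝ) ^ (ε / 4) := by linarith
    have h4 : (2 : ℝ) ^ (1 / 2 + η) ≤ 2 ^ (2 : ℝ) :=
      Real.rpow_le_rpow_of_exponent_le (by norm_num) (by linarith)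
    have h5 : (x : ℝ) ^ (1 / 2 + η) ≤ (x : ℝ) ^ (1 / 2 + ε / 2) :=
      Real.rpow_le_rpow_of_exponent_le (by linarith) (by linarith)
    have h6 : (32 : ℝ) ≤ (x : ℝ) ^ (ε / 4) := by
      have : (2 : ℝ) ^ (5 : ℝ) = 32 := by norm_num
      linarith
    have h7 : (2 : ℝ) ^ (2 : ℝ) = 4 := by norm_num
    rw [h7] at h4
    rw [Real.mul_rpow (by norm_num) hxp.le]
    calc ((Nat.clog 2 x : ℝ) + 1) * ((2 : ℝ) ^ (1 / 2 + η) * (x : ℝ) ^ (1 / 2 + η)) ≤
          (4 * (x : ℝ) ^ (ε / 4)) * (4 * (x : ℝ) ^ (1 / 2 + ε / 2)) := by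
          refine mul_le_mul h3 ?_ (by positivity) (by positivity)
          exact mul_le_mul h4 h5 (by positivity) (by norm_num)
      _ = 16 * ((x : ℝ) ^ (ε / 4) * (x : ℝ) ^ (1 / 2 + ε / 2)) := by ring
      _ ≤ (x : ℝ) ^ (ε / 4) * ((x : ℝ) ^ (ε / 4) * (x : ℝ) ^ (1 / 2 + ε / 2)) :=
          mul_le_mul_of_nonneg_right (by linarith) (by positivity)
      _ = (x : ℝ) ^ (1 / 2 + ε) := by
          rw [← Real.rpow_add hxp, ← Real.rpow_add hxp]
          congr 1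
          ring
  filter_upwards [hclog.eventually hω, hgrow, eventually_ge_atTop 2] with x hx1 hx2 hx3 z hz
  obtain ⟨K, hK⟩ : ∃ K : ℕ, K = Nat.clog 2 x := ⟨_, rfl⟩
  rw [← hK] at hx1 hx2
  have hxK : x ≤ 2 ^ K := by rw [hK]; exact Nat.le_pow_clog (by norm_num) x
  have hKx : 2 ^ K ≤ 2 * x := by
    have h3 : 2 ^ (K - 1) < x := by rw [hK]; exact Nat.pow_pred_clog_lt_self (by norm_num) (by omega)
    have hK1 : 1 ≤ K := by
      by_contra h'
      have : K = 0 := by omega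
      rw [this] at hxK
      simp at hxK
      omega
    have : 2 ^ K = 2 * 2 ^ (K - 1) := by
      rw [← pow_succ']
      congr 1
      omega
    omega
  have hdy := dyadic_bound (G := fun a y => EE f X a y z ω) (fun a y y' => EE_add f z ω a y y') (hδ0 K).le
    (K := K) (fun i hi' j hj => by
      by_contra hn
      apply hx1
      rw [hB]
      simp only [Set.mem_iUnion]
      refine ⟨i, mem_range.2 (by omega), j, mem_range.2 hj, z, ?_, (not_le.1 hn).le⟩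
      exact hz.trans (Nat.pow_le_pow_left hxK A)) K le_rfl 0 (by simp) x hxK
  simp only [zero_mul] at hdy
  refine hdy.trans (le_trans ?_ hx2)
  refine mul_le_mul_of_nonneg_left ?_ (by positivity)
  rw [hδ]
  refine Real.rpow_le_rpow (by positivity) ?_ (by linarith)
  exact_mod_cast hKx

end Pool.Agent.L5helper2.RS
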