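import Pool.Agent.L5helper2.RS.S5

/-! Project RS (helper2), square-root law: the main term. -/

set_option autoImplicit false

namespace Pool.Agent.L5helper2.RS

open Finset Polynomial MeasureTheory ProbabilityTheory Filter Topology

/-- products of periodic functions -/
lemma crt_prod (T : Finset ℕ) (g : ℕ → ℕ → ℝ) : (∀ p ∈ T, p.Prime) → (∀ p ∈ T, ∀ n, g p (n + p) = g p n) →
    ∑ r ∈ range (∏ p ∈ T, p), ∏ p ∈ T, g p r = ∏ p ∈ T, ∑ r ∈ range p, g p r := by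
  classical
  induction T using Finset.induction_on with
  | empty =>
    intro _ _
    simp
  | insert q T hq ih =>
    intro hT hg
    have ih' := ih (fun p hp => hT p (mem_insert_of_mem hp)) (fun p hp => hg p (mem_insert_of_mem hp))
    have hqp := hT q (mem_insert_self _ _)
    obtain ⟨D, hD⟩ : ∃ D, D = ∏ p ∈ T, p := ⟨_, rfl⟩
    have hD0 : 0 < D := by
      rw [hD]
      exact Finset.prod_pos fun p hp => (hT p (mem_insert_of_mem hp)).pos
    have hcop : Nat.Coprime q D := by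
      rw [hD]
      refine Nat.Coprime.prod_right fun p hp => ?_
      rw [Nat.coprime_primes hqp (hT p (mem_insert_of_mem hp))]
      rintro rfl
      exact hq hp
    rw [prod_insert hq, prod_insert hq, ← ih', ← hD, sum_mul_sum, ← sum_product']
    have hinj : Set.InjOn (fun y : ℕ => (y % q, y % D)) (range (q * D)) := by
      intro y hy y' hy' h
      rw [mem_coe, mem_range] at hy hy'
      simp only [Prod.mk.injEq] at h
      have h1 : y ≡ y' [MOD q * D] := (Nat.modEq_and_modEq_iff_modEq_mul hcop).1 ⟨h.1, h.2⟩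
      exact Nat.ModEq.eq_of_lt_of_lt h1 hy hy'
    have himg : (range (q * D)).image (fun y : ℕ => (y % q, y % D)) = range q ×ˢ range D := by
      refine eq_of_subset_of_card_le ?_ ?_
      · intro u hu
        rw [mem_image] at hu
        obtain ⟨y, _, rfl⟩ := hu
        rw [mem_product, mem_range, mem_range]
        exact ⟨Nat.mod_lt _ hqp.pos, Nat.mod_lt _ hD0⟩
      · rw [card_image_of_injOn hinj, card_product, card_range, card_range, card_range]
    rw [← himg, sum_image hinj]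
    refine sum_congr rfl fun r _ => ?_
    rw [prod_insert hq]
    congr 1
    · exact (per_mod (hg q (mem_insert_self _ _)) r).symm
    · refine prod_congr rfl fun p hp => ?_
      have hpd : p ∣ D := by
        rw [hD]
        exact dvd_prod_of_mem _ hp
      have h1 := per_mod (hg p (mem_insert_of_mem hp)) r
      have h2 := per_mod (hg p (mem_insert_of_mem hp)) (r % D)
      rw [Nat.mod_mod_of_dvd _ hpd] at h2
      rw [← h1, h2]

variable {k : ℕ} {Ω : Type} [MeasurableSpace Ω] {P : Measure Ω}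

/-- the system of the residues -/
def Xa (a : ℕ → Fin k → Ω → ℕ) (j : Ix k) : Ω → ℕ := a (pp j) j.2

lemma sys_of (a : ℕ → Fin k → Ω → ℕ) [IsProbabilityMeasure P] (hmeas : ∀ p i, Measurable (a p i))
    (hind : iIndepFun (fun q : Nat.Primes × Fin k => a q.1 q.2) P)
    (hunif : ∀ (p : ℕ) (i : Fin k) (r : ℕ), p.Prime → r < p → P.real {ω | a p i ω = r} = 1 / p) :
    RSys P (pp (k := k)) (Xa a) ∧ iIndepFun (Xa a) P := by
  have h1 : iIndepFun (Xa a) P := hind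
  refine ⟨⟨inferInstance, fun j => hmeas _ _, ?_, ?_, pp_two⟩, h1⟩
  · intro s C
    have h2 := h1.measure_inter_preimage_eq_mul s (sets := C) fun i _ => MeasurableSet.of_discrete
    rw [measureReal_def]
    have h3 : P (⋂ j ∈ s, Xa a j ⁻¹' C j) = ∏ j ∈ s, P (Xa a j ⁻¹' C j) := h2
    rw [h3, ENNReal.toReal_prod]
    rfl
  · intro j r hr
    exact hunif (pp j) j.2 r j.1.2 hr

open Classical in
/-- the main term -/
lemma EE_eq (hk : 1 ≤ k) (f : Fin k → ℤ[X]) (a : ℕ → Fin k → Ω → ℕ) (x z : ℕ) (ω : Ω) :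
    EE f (Xa a) 0 x z ω =
      (#((Icc 1 x).filter fun m : ℕ => ∀ p : ℕ, p ≤ z → p.Prime →
        ∀ i, ¬ (f i).eval (m : ℤ) ≡ (a p i ω : ℤ) [ZMOD p]) : ℝ) -
      x * ∏ p ∈ (Icc 1 z).filter Nat.Prime,
        (1 - (#((range p).filter fun r : ℕ => ∃ i, (f i).eval (r : ℤ) ≡ (a p i ω : ℤ) [ZMOD p]) : ℝ) / p) := by
  obtain ⟨T, hT⟩ : ∃ T : Finset ℕ, T = (Icc 1 z).filter Nat.Prime := ⟨_, rfl⟩
  have hTp : ∀ p ∈ T, p.Prime := fun p hp => by rw [hT, mem_filter] at hp; exact hp.2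
  have hmT : ∀ p, p ∈ T ↔ p ≤ z ∧ p.Prime := by
    intro p
    rw [hT, mem_filter, mem_Icc]
    constructor
    · rintro ⟨⟨_, h2⟩, h3⟩
      exact ⟨h2, h3⟩
    · rintro ⟨h2, h3⟩
      exact ⟨⟨h3.pos, h2⟩, h3⟩
  obtain ⟨g, hg⟩ : ∃ g : ℕ → ℕ → ℝ, g = fun (p : ℕ) (m : ℕ) =>
      if ∀ i, ¬ (f i).eval (m : ℤ) ≡ (a p i ω : ℤ) [ZMOD p] then 1 else 0 := ⟨_, rfl⟩
  have hcong : ∀ (p : ℕ) (u v : ℤ), u ≡ v [ZMOD p] ↔ (p : ℤ) ∣ u - v := by
    intro p u v
    rw [Int.modEq_iff_dvd]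
    exact dvd_sub_comm
  have hper : ∀ p ∈ T, ∀ n, g p (n + p) = g p n := by
    intro p hp n
    rw [hg]
    have : (∀ i, ¬ (f i).eval ((n + p : ℕ) : ℤ) ≡ (a p i ω : ℤ) [ZMOD p]) ↔
        ∀ i, ¬ (f i).eval (n : ℤ) ≡ (a p i ω : ℤ) [ZMOD p] := by
      refine forall_congr' fun i => not_congr ?_
      have h1 := Polynomial.sub_dvd_eval_sub ((n + p : ℕ) : ℤ) (n : ℤ) (f i)
      have e : ((n + p : ℕ) : ℤ) - n = p := by push_cast; ring
      rw [e] at h1
      rw [hcong, hcong]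
      have e2 : (f i).eval (n : ℤ) - (a p i ω : ℤ) = ((f i).eval ((n + p : ℕ) : ℤ) - (a p i ω : ℤ)) -
        ((f i).eval ((n + p : ℕ) : ℤ) - (f i).eval (n : ℤ)) := by ring
      rw [e2]
      exact (dvd_sub_left h1).symm
    simp only [this]
  have hFF : ∀ m, FF f (Xa a) (Jx k 0 z) m ω = ∏ p ∈ T, g p m := by
    intro m
    have h1 : ∏ p ∈ T, g p m = if ∀ p ∈ T, ∀ i, ¬ (f i).eval (m : ℤ) ≡ (a p i ω : ℤ) [ZMOD p] then 1 else 0 := by
      rw [hg]
      simp only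
      rw [prod_ite_zero, prod_const_one]
    rw [h1]
    unfold FF
    rw [Set.indicator_apply]
    have : ω ∈ Av pp (Xa a) (Jx k 0 z) (vl f m) ↔
        ∀ p ∈ T, ∀ i, ¬ (f i).eval (m : ℤ) ≡ (a p i ω : ℤ) [ZMOD p] := by
      rw [av_iff]
      constructor
      · intro h p hp i h2
        rw [hmT] at hp
        rw [hcong] at h2
        exact h (⟨p, hp.2⟩, i) (mem_Jx.2 ⟨hp.2.pos, hp.1⟩) h2
      · intro h j hj h2
        rw [mem_Jx] at hj
        have h3 := h (pp j) ((hmT _).2 ⟨hj.2, j.1.2⟩) j.2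
        rw [hcong] at h3
        exact h3 h2
    simp only [this]
  have hDt : Dt (Jx k 0 z) = ∏ p ∈ T, p := by
    unfold Dt
    congr 1
    ext p
    rw [mem_image, hmT]
    constructor
    · rintro ⟨j, hj, rfl⟩
      rw [mem_Jx] at hj
      exact ⟨hj.2, j.1.2⟩
    · rintro ⟨h1, h2⟩
      exact ⟨(⟨p, h2⟩, ⟨0, hk⟩), mem_Jx.2 ⟨h2.pos, h1⟩, rfl⟩
  unfold EE LL
  simp only [hFF]
  rw [hDt, crt_prod T g hTp hper, Nat.zero_add]
  congr 1
  · have e : Ioc 0 x = Icc 1 x := rfl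
    rw [e, card_filter]
    push_cast
    refine sum_congr rfl fun m _ => ?_
    rw [hg]
    simp only
    rw [prod_ite_zero, prod_const_one]
    have : (∀ p ∈ T, ∀ i, ¬ (f i).eval (m : ℤ) ≡ (a p i ω : ℤ) [ZMOD p]) ↔
        ∀ p ≤ z, p.Prime → ∀ i, ¬ (f i).eval (m : ℤ) ≡ (a p i ω : ℤ) [ZMOD p] := by
      constructor
      · intro h p h1 h2
        exact h p ((hmT p).2 ⟨h1, h2⟩)
      · intro h p hp
        exact h p ((hmT p).1 hp).1 ((hmT p).1 hp).2
    simp only [this]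
  · rw [div_mul_eq_mul_div, mul_div_assoc]
    congr 1
    push_cast
    rw [← prod_div_distrib, hT]
    refine prod_congr rfl fun p hp => ?_
    have hp0 : (0 : ℝ) < p := by
      rw [mem_filter] at hp
      exact_mod_cast hp.2.pos
    rw [hg]
    simp only
    rw [sum_boole, eq_sub_iff_add_eq, ← add_div, div_eq_one_iff_eq hp0.ne']
    have h1 := card_filter_add_card_filter_not (s := range p)
      (fun r : ℕ => ∀ i, ¬ (f i).eval (r : ℤ) ≡ (a p i ω : ℤ) [ZMOD p])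
    rw [card_range] at h1
    have h2 : (range p).filter (fun r : ℕ => ¬ ∀ i, ¬ (f i).eval (r : ℤ) ≡ (a p i ω : ℤ) [ZMOD p]) =
        (range p).filter (fun r : ℕ => ∃ i, (f i).eval (r : ℤ) ≡ (a p i ω : ℤ) [ZMOD p]) := by
      refine filter_congr fun r _ => ?_
      push Not
      rfl
    rw [h2] at h1
    exact_mod_cast h1

open Classical in
/-- the law with the square root error for all polynomials -/
theorem sqrt_law (hk : 1 ≤ k) (a : ℕ → Fin k → Ω → ℕ) [IsProbabilityMeasure P] (hmeas : ∀ p i, Measurable (a p i))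
    (hind : iIndepFun (fun q : Nat.Primes × Fin k => a q.1 q.2) P)
    (hunif : ∀ (p : ℕ) (i : Fin k) (r : ℕ), p.Prime → r < p → P.real {ω | a p i ω = r} = 1 / p) :
    ∀ᵐ ω ∂P, ∀ f : Fin k → ℤ[X], (∀ i, 1 ≤ (f i).natDegree) → ∀ (A : ℕ) (ε : ℝ), 0 < ε →
      ∃ x0 : ℕ, ∀ x ≥ x0, ∀ z ≤ x ^ A,
      |(#((Icc 1 x).filter fun m : ℕ => ∀ p : ℕ, p ≤ z → p.Prime →
          ∀ i, ¬ (f i).eval (m : ℤ) ≡ (a p i ω : ℤ) [ZMOD p]) : ℝ) -
        x * ∏ p ∈ (Icc 1 z).filter Nat.Prime,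
        (1 - (#((range p).filter fun r : ℕ => ∃ i, (f i).eval (r : ℤ) ≡ (a p i ω : ℤ) [ZMOD p]) : ℝ) / p)| ≤
      (x : ℝ) ^ (1 / 2 + ε) := by
  have hcount : Countable ℤ[X] := Cardinal.mk_le_aleph0_iff.1 (Polynomial.cardinalMk_le_max.trans (by simp))
  obtain ⟨hR, hi⟩ := sys_of a hmeas hind hunif
  have h1 : ∀ᵐ ω ∂P, ∀ f : Fin k → ℤ[X], (∀ i, 1 ≤ (f i).natDegree) → ∀ (A q : ℕ),
      ∀ᶠ x : ℕ in atTop, ∀ z ≤ x ^ A, |EE f (Xa a) 0 x z ω| ≤ (x : ℝ) ^ (1 / 2 + 1 / ((q : ℝ) + 1)) := by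
    rw [ae_all_iff]
    intro f
    by_cases hf : ∀ i, 1 ≤ (f i).natDegree
    · have h2 : ∀ᵐ ω ∂P, ∀ (A q : ℕ),
          ∀ᶠ x : ℕ in atTop, ∀ z ≤ x ^ A, |EE f (Xa a) 0 x z ω| ≤ (x : ℝ) ^ (1 / 2 + 1 / ((q : ℝ) + 1)) := by
        rw [ae_all_iff]
        intro A
        rw [ae_all_iff]
        intro q
        exact sqrt_one hR hi hk hf A (by positivity)
      filter_upwards [h2] with ω hω _
      exact hω
    · exact Eventually.of_forall fun ω h => absurd h hf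
  filter_upwards [h1] with ω hω f hf A ε hε
  obtain ⟨q, hq⟩ := exists_nat_one_div_lt hε
  obtain ⟨x0, hx0⟩ := eventually_atTop.1 (hω f hf A q)
  refine ⟨max x0 1, fun x hx z hz => ?_⟩
  have h2 := hx0 x ((le_max_left _ _).trans hx) z hz
  rw [EE_eq hk] at h2
  refine h2.trans ?_
  have hx1 : (1 : ℝ) ≤ x := by exact_mod_cast (le_max_right _ _).trans hx
  exact Real.rpow_le_rpow_of_exponent_le hx1 (by linarith)

end Pool.Agent.L5helper2.RS
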