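import Pool.Agent.L5helper2.RS.S6
import Pool.Agent.L5helper2.RS.E4

/-! Project RS (helper2): the singular series. -/

set_option autoImplicit false

namespace Pool.Agent.L5helper2.RS

open Finset Polynomial MeasureTheory ProbabilityTheory Filter Topology

variable {k : ℕ} {Ω : Type} [MeasurableSpace Ω] {P : Measure Ω} {X : Ix k → Ω → ℕ}

/-- the density of the survivors -/
noncomputable def Wd (f : Fin k → ℤ[X]) (X : Ix k → Ω → ℕ) (s : Finset (Ix k)) (ω : Ω) : ℝ :=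
  (1 / (Dt s : ℝ)) * ∑ r ∈ range (Dt s), FF f X s r ω

/-- the normalised density of the survivors -/
noncomputable def TT (f : Fin k → ℤ[X]) (X : Ix k → Ω → ℕ) (s : Finset (Ix k)) (ω : Ω) : ℝ :=
  Wd f X s ω / Vs pp s

/-- two coprime moduli -/
lemma crt_two {D E : ℕ} (hD : 0 < D) (hE : 0 < E) (hc : Nat.Coprime D E) (g h : ℕ → ℝ)
    (hg : ∀ n, g (n + D) = g n) (hh : ∀ n, h (n + E) = h n) :
    ∑ r ∈ range (D * E), g r * h r = (∑ r ∈ range D, g r) * ∑ r ∈ range E, h r := by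
  rw [sum_mul_sum, ← sum_product']
  have hinj : Set.InjOn (fun y : ℕ => (y % D, y % E)) (range (D * E)) := by
    intro y hy y' hy' h
    rw [mem_coe, mem_range] at hy hy'
    simp only [Prod.mk.injEq] at h
    have h1 : y ≡ y' [MOD D * E] := (Nat.modEq_and_modEq_iff_modEq_mul hc).1 ⟨h.1, h.2⟩
    exact Nat.ModEq.eq_of_lt_of_lt h1 hy hy'
  have himg : (range (D * E)).image (fun y : ℕ => (y % D, y % E)) = range D ×ˢ range E := by
    refine eq_of_subset_of_card_le ?_ ?_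
    · intro u hu
      rw [mem_image] at hu
      obtain ⟨y, _, rfl⟩ := hu
      rw [mem_product, mem_range, mem_range]
      exact ⟨Nat.mod_lt _ hD, Nat.mod_lt _ hE⟩
    · rw [card_image_of_injOn hinj, card_product, card_range, card_range, card_range]
  rw [← himg, sum_image hinj]
  refine sum_congr rfl fun r _ => ?_
  rw [per_mod hg, per_mod hh]

/-- the density with another period -/
lemma Wd_per (f : Fin k → ℤ[X]) {s t : Finset (Ix k)} (h : s ⊆ t) (ω : Ω) :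
    Wd f X s ω = (1 / (Dt t : ℝ)) * ∑ r ∈ range (Dt t), FF f X s r ω := by
  obtain ⟨q, hq⟩ := Dt_dvd h
  have hs0 : (0 : ℝ) < Dt s := by exact_mod_cast Dt_pos s
  have hq0 : (q : ℝ) ≠ 0 := by
    have h1 := Dt_pos t
    have : 0 < q := Nat.pos_of_ne_zero (fun h' => by rw [hq, h'] at h1; simp at h1)
    have : (0 : ℝ) < q := by exact_mod_cast this
    exact this.ne'
  unfold Wd
  rw [hq, sum_range_per _ (fun n => FF_per f s n ω fun j hj => pp_dvd_Dt hj)]
  push_cast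
  field_simp

lemma Wd_nonneg (f : Fin k → ℤ[X]) (s : Finset (Ix k)) (ω : Ω) : 0 ≤ Wd f X s ω :=
  mul_nonneg (by positivity) (sum_nonneg fun r _ => (FF_01 f s r ω).1)

lemma Wd_le (f : Fin k → ℤ[X]) (s : Finset (Ix k)) (ω : Ω) : Wd f X s ω ≤ 1 := by
  have hs0 : (0 : ℝ) < Dt s := by exact_mod_cast Dt_pos s
  unfold Wd
  calc (1 / (Dt s : ℝ)) * ∑ r ∈ range (Dt s), FF f X s r ω ≤ (1 / (Dt s : ℝ)) * ∑ _r ∈ range (Dt s), (1 : ℝ) :=
        mul_le_mul_of_nonneg_left (sum_le_sum fun r _ => (FF_01 f s r ω).2) (by positivity)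
    _ = 1 := by
        rw [sum_const, card_range, nsmul_eq_mul]
        field_simp

lemma Wd_anti (f : Fin k → ℤ[X]) {s t : Finset (Ix k)} (h : s ⊆ t) (ω : Ω) : Wd f X t ω ≤ Wd f X s ω := by
  classical
  rw [Wd_per f h ω]
  unfold Wd
  refine mul_le_mul_of_nonneg_left (sum_le_sum fun r _ => ?_) (by positivity)
  have e : t = s ∪ t := (union_eq_right.2 h).symm
  rw [e, FF_union]
  exact mul_le_of_le_one_right (FF_01 f s r ω).1 (FF_01 f t r ω).2

open Classical in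
lemma Wd_mul (f : Fin k → ℤ[X]) {s t : Finset (Ix k)} (h : ∀ i ∈ s, ∀ j ∈ t, pp i ≠ pp j) (ω : Ω) :
    Wd f X (s ∪ t) ω = Wd f X s ω * Wd f X t ω := by
  have hD : Dt (s ∪ t) = Dt s * Dt t := by
    unfold Dt
    rw [image_union, prod_union]
    rw [Finset.disjoint_left]
    intro p h1 h2
    rw [mem_image] at h1 h2
    obtain ⟨i, hi, rfl⟩ := h1
    obtain ⟨j, hj, hij⟩ := h2
    exact h i hi j hj hij.symm
  have hc : Nat.Coprime (Dt s) (Dt t) := by
    unfold Dt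
    refine Nat.Coprime.prod_left fun p hp => Nat.Coprime.prod_right fun q hq => ?_
    rw [mem_image] at hp hq
    obtain ⟨i, hi, rfl⟩ := hp
    obtain ⟨j, hj, rfl⟩ := hq
    exact (Nat.coprime_primes i.1.2 j.1.2).2 (h i hi j hj)
  unfold Wd
  rw [hD]
  simp only [FF_union]
  rw [crt_two (Dt_pos s) (Dt_pos t) hc _ _ (fun n => FF_per f s n ω fun j hj => pp_dvd_Dt hj)
    (fun n => FF_per f t n ω fun j hj => pp_dvd_Dt hj)]
  push_cast
  field_simp

lemma Wd_dep (f : Fin k → ℤ[X]) (s : Finset (Ix k)) : DepOn X s (Wd f X s) := by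
  intro ω ω' h
  unfold Wd
  congr 1
  exact sum_congr rfl fun r _ => FF_dep f s r ω ω' h

lemma TT_dep (f : Fin k → ℤ[X]) (s : Finset (Ix k)) : DepOn X s (TT f X s) := by
  intro ω ω' h
  unfold TT
  rw [Wd_dep f s ω ω' h]

open Classical in
lemma Vs_mul {s t : Finset (Ix k)} (h : Disjoint s t) : Vs pp (s ∪ t) = Vs pp s * Vs pp t := by
  unfold Vs
  rw [prod_union h]

lemma TT_nonneg (f : Fin k → ℤ[X]) (s : Finset (Ix k)) (ω : Ω) : 0 ≤ TT f X s ω :=
  div_nonneg (Wd_nonneg f s ω) (Vs_pos pp_two s).le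

lemma TT_le (f : Fin k → ℤ[X]) (s : Finset (Ix k)) (ω : Ω) : TT f X s ω ≤ 1 / Vs pp s :=
  div_le_div_of_nonneg_right (Wd_le f s ω) (Vs_pos pp_two s).le

open Classical in
lemma TT_mul (f : Fin k → ℤ[X]) {s t : Finset (Ix k)} (h : ∀ i ∈ s, ∀ j ∈ t, pp i ≠ pp j) (ω : Ω) :
    TT f X (s ∪ t) ω = TT f X s ω * TT f X t ω := by
  have hd : Disjoint s t := by
    rw [Finset.disjoint_left]
    intro i hi hj
    exact h i hi i hj rfl
  unfold TT
  rw [Wd_mul f h, Vs_mul hd]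
  have h1 := Vs_pos pp_two s
  have h2 := Vs_pos pp_two t
  field_simp

lemma bdd_int (h : RSys P (pp (k := k)) X) {Y : Ω → ℝ} {s : Finset (Ix k)} (hY : DepOn X s Y) {B : ℝ}
    (hB : ∀ ω, |Y ω| ≤ B) : Integrable Y P := by
  have := h.prob
  refine Integrable.of_bound (C := B) (hY.meas h.meas).aestronglyMeasurable ?_
  exact Eventually.of_forall fun ω => by rw [Real.norm_eq_abs]; exact hB ω

lemma TT_abs (f : Fin k → ℤ[X]) (s : Finset (Ix k)) (ω : Ω) : |TT f X s ω| ≤ 1 / Vs pp s := by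
  rw [abs_of_nonneg (TT_nonneg f s ω)]
  exact TT_le f s ω

lemma TT_mean (h : RSys P (pp (k := k)) X) (f : Fin k → ℤ[X]) (s : Finset (Ix k)) :
    ∫ ω, TT f X s ω ∂P = 1 := by
  have hs0 : (0 : ℝ) < Dt s := by exact_mod_cast Dt_pos s
  have hV := Vs_pos pp_two s
  unfold TT Wd
  rw [integral_div, integral_const_mul, integral_finset_sum _ fun r _ => FF_integrable h f s r]
  simp only [FF_int h]
  rw [sum_const, card_range, nsmul_eq_mul]
  field_simp

/-- the second moment of the normalised density -/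
lemma TT_sq (h : RSys P (pp (k := k)) X) (hk : 1 ≤ k) {f : Fin k → ℤ[X]} (hf : ∀ i, 1 ≤ (f i).natDegree)
    (s : Finset (Ix k)) : ∫ ω, TT f X s ω ^ 2 ∂P ≤
      Real.exp (4 * Kf f * ∑ j ∈ s, (pp j : ℝ) ^ (-(1 + 1 / (k : ℝ)))) := by
  classical
  have hP := h.prob
  have hs0 : (0 : ℝ) < Dt s := by exact_mod_cast Dt_pos s
  have hV := Vs_pos pp_two s
  have hk0 : (0 : ℝ) < k := by exact_mod_cast hk
  have hK1 : (1 : ℝ) ≤ Kf f := by
    have : 1 ≤ Kf f := by unfold Kf; omega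
    exact_mod_cast this
  -- the moments of the density
  have e1 : ∫ ω, TT f X s ω ^ 2 ∂P = (1 / (Dt s : ℝ)) ^ 2 * (∑ r ∈ range (Dt s), ∑ r' ∈ range (Dt s), KK f s r r') /
      Vs pp s ^ 2 := by
    unfold TT Wd
    simp only [div_pow, mul_pow]
    rw [integral_div, integral_const_mul]
    congr 2
    have e2 : ∀ ω, (∑ r ∈ range (Dt s), FF f X s r ω) ^ 2 = ∑ r ∈ range (Dt s), ∑ r' ∈ range (Dt s),
        FF f X s r ω * FF f X s r' ω := by
      intro ω
      rw [sq, sum_mul_sum]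
    have hi : ∀ m n, Integrable (fun ω => FF f X s m ω * FF f X s n ω) P := by
      intro m n
      refine bdd_int h ((FF_dep f s m).mul (FF_dep f s n)) (B := 1) fun ω => ?_
      have h1 := FF_01 (X := X) f s m ω
      have h2 := FF_01 (X := X) f s n ω
      rw [abs_of_nonneg (mul_nonneg h1.1 h2.1)]
      exact mul_le_one₀ h1.2 h2.1 h2.2
    simp only [e2]
    rw [integral_finset_sum _ fun m _ => integrable_finset_sum _ fun n _ => hi m n]
    refine sum_congr rfl fun m _ => ?_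
    rw [integral_finset_sum _ fun n _ => hi m n]
    exact sum_congr rfl fun n _ => FF_corr h f s m n
  -- the average of one relation
  have e3 : ∀ t ∈ s.powerset, (1 / (Dt s : ℝ)) ^ 2 * ∑ r ∈ range (Dt s), ∑ r' ∈ range (Dt s), Rt f t r r' ≤
      (Kf f : ℝ) ^ #(t.image pp) / Dt t := by
    intro t ht
    rw [mem_powerset] at ht
    have ht0 : (0 : ℝ) < Dt t := by exact_mod_cast Dt_pos t
    obtain ⟨q, hq⟩ := Dt_dvd ht
    have hq0 : (q : ℝ) ≠ 0 := by
      have h1 := Dt_pos s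
      have : 0 < q := Nat.pos_of_ne_zero (fun h' => by rw [hq, h'] at h1; simp at h1)
      have : (0 : ℝ) < q := by exact_mod_cast this
      exact this.ne'
    have hrow : ∀ m, (1 / (Dt s : ℝ)) * ∑ r ∈ range (Dt s), Rt f t m r ≤ (Kf f : ℝ) ^ #(t.image pp) / Dt t := by
      intro m
      have h2 := row_sum hf t m
      rw [hq, sum_range_per _ (Rt_per f t m)]
      push_cast
      calc 1 / ((Dt t : ℝ) * q) * (q * ∑ r ∈ range (Dt t), Rt f t m r) =
            (∑ r ∈ range (Dt t), Rt f t m r) / Dt t := by field_simp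
        _ ≤ _ := div_le_div_of_nonneg_right h2 ht0.le
    calc (1 / (Dt s : ℝ)) ^ 2 * ∑ r ∈ range (Dt s), ∑ r' ∈ range (Dt s), Rt f t r r' =
          (1 / (Dt s : ℝ)) * ∑ r ∈ range (Dt s), (1 / (Dt s : ℝ)) * ∑ r' ∈ range (Dt s), Rt f t r r' := by
          rw [← mul_sum, sq, mul_assoc]
      _ ≤ (1 / (Dt s : ℝ)) * ∑ _r ∈ range (Dt s), (Kf f : ℝ) ^ #(t.image pp) / Dt t :=
          mul_le_mul_of_nonneg_left (sum_le_sum fun r _ => hrow r) (by positivity)
      _ = _ := by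
          rw [sum_const, card_range, nsmul_eq_mul]
          field_simp
  have e4 : (1 / (Dt s : ℝ)) ^ 2 * (∑ r ∈ range (Dt s), ∑ r' ∈ range (Dt s), KK f s r r') =
      ∑ t ∈ s.powerset, ct s t * ((1 / (Dt s : ℝ)) ^ 2 * ∑ r ∈ range (Dt s), ∑ r' ∈ range (Dt s), Rt f t r r') := by
    simp only [KK_expand]
    have e5 : ∑ r ∈ range (Dt s), ∑ r' ∈ range (Dt s), ∑ t ∈ s.powerset, ct s t * Rt f t r r' =
        ∑ t ∈ s.powerset, ct s t * ∑ r ∈ range (Dt s), ∑ r' ∈ range (Dt s), Rt f t r r' := by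
      have e6 : ∀ r ∈ range (Dt s), ∑ r' ∈ range (Dt s), ∑ t ∈ s.powerset, ct s t * Rt f t r r' =
          ∑ t ∈ s.powerset, ct s t * ∑ r' ∈ range (Dt s), Rt f t r r' := by
        intro r _
        rw [sum_comm]
        exact sum_congr rfl fun t _ => by rw [mul_sum]
      rw [sum_congr rfl e6, sum_comm]
      exact sum_congr rfl fun t _ => by rw [mul_sum]
    rw [e5, mul_sum]
    exact sum_congr rfl fun t _ => by ring
  -- the coefficients
  have e5 : ∀ t ∈ s.powerset, ct s t ≤ Vs pp s ^ 2 * ∏ j ∈ t, 4 / (pp j : ℝ) := by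
    intro t ht
    rw [mem_powerset] at ht
    have h1 : ∏ j ∈ s \ t, (1 - 2 / (pp j : ℝ)) ≤ (∏ j ∈ s \ t, (1 - 1 / (pp j : ℝ))) ^ 2 := by
      rw [← prod_pow]
      refine prod_le_prod (fun j _ => (al_01 j).1) fun j _ => ?_
      have : (1 - 1 / (pp j : ℝ)) ^ 2 = 1 - 2 / (pp j : ℝ) + (1 / (pp j : ℝ)) ^ 2 := by ring
      rw [this]
      have : 0 ≤ (1 / (pp j : ℝ)) ^ 2 := by positivity
      linarith
    have h2 : Vs pp s = (∏ j ∈ t, (1 - 1 / (pp j : ℝ))) * ∏ j ∈ s \ t, (1 - 1 / (pp j : ℝ)) := by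
      unfold Vs
      rw [mul_comm, prod_sdiff ht]
    have h3 : ∏ j ∈ t, 1 / (pp j : ℝ) ≤ (∏ j ∈ t, (1 - 1 / (pp j : ℝ))) ^ 2 * ∏ j ∈ t, 4 / (pp j : ℝ) := by
      rw [← prod_pow, ← prod_mul_distrib]
      refine prod_le_prod (fun j _ => by positivity) fun j _ => ?_
      have hj2 : (2 : ℝ) ≤ pp j := by exact_mod_cast pp_two j
      have h4 : 1 / (pp j : ℝ) ≤ 1 / 2 := one_div_le_one_div_of_le (by norm_num) hj2
      have h5 : (1 / 2 : ℝ) ^ 2 ≤ (1 - 1 / (pp j : ℝ)) ^ 2 := pow_le_pow_left₀ (by norm_num) (by linarith) 2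
      calc 1 / (pp j : ℝ) = (1 / 2 : ℝ) ^ 2 * (4 / (pp j : ℝ)) := by ring
        _ ≤ _ := mul_le_mul_of_nonneg_right h5 (by positivity)
    unfold ct
    calc (∏ j ∈ t, 1 / (pp j : ℝ)) * ∏ j ∈ s \ t, (1 - 2 / (pp j : ℝ)) ≤
          ((∏ j ∈ t, (1 - 1 / (pp j : ℝ))) ^ 2 * ∏ j ∈ t, 4 / (pp j : ℝ)) *
          (∏ j ∈ s \ t, (1 - 1 / (pp j : ℝ))) ^ 2 := by
          refine mul_le_mul h3 h1 (prod_nonneg fun j _ => (al_01 j).1) ?_
          exact mul_nonneg (sq_nonneg _) (prod_nonneg fun j _ => by positivity)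
      _ = _ := by
          rw [h2]
          ring
  have hc0 : ∀ t, 0 ≤ ct s t := fun t => (ct_bounds s t).1
  have e6 : ∀ t ∈ s.powerset, ct s t * ((1 / (Dt s : ℝ)) ^ 2 * ∑ r ∈ range (Dt s), ∑ r' ∈ range (Dt s), Rt f t r r') ≤
      Vs pp s ^ 2 * ∏ j ∈ t, (4 * Kf f * (pp j : ℝ) ^ (-(1 + 1 / (k : ℝ)))) := by
    intro t ht
    have hD : (0 : ℝ) < Dt t := by exact_mod_cast Dt_pos t
    have h2 : (Kf f : ℝ) ^ #(t.image pp) ≤ (Kf f : ℝ) ^ #t := pow_le_pow_right₀ hK1 card_image_le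
    have h3 : (1 : ℝ) / Dt t ≤ ∏ j ∈ t, (pp j : ℝ) ^ (-(1 / (k : ℝ))) := by
      rw [Real.finset_prod_rpow _ _ (fun j _ => by positivity)]
      have h4 : (∏ j ∈ t, (pp j : ℝ)) ≤ (Dt t : ℝ) ^ k := by
        have := prod_le_Dt t
        have h5 : ((∏ j ∈ t, pp j : ℕ) : ℝ) ≤ ((Dt t ^ k : ℕ) : ℝ) := by exact_mod_cast this
        push_cast at h5
        exact h5
      have h6 : (0 : ℝ) < ∏ j ∈ t, (pp j : ℝ) := prod_pos fun j _ => by exact_mod_cast j.1.2.pos
      calc (1 : ℝ) / Dt t = ((Dt t : ℝ) ^ k) ^ (-(1 / (k : ℝ))) := by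
            rw [← Real.rpow_natCast, ← Real.rpow_mul hD.le]
            have : (k : ℝ) * -(1 / (k : ℝ)) = -1 := by field_simp
            rw [this, Real.rpow_neg_one, one_div]
        _ ≤ (∏ j ∈ t, (pp j : ℝ)) ^ (-(1 / (k : ℝ))) := by
            refine Real.rpow_le_rpow_of_nonpos h6 h4 ?_
            have : 0 < 1 / (k : ℝ) := by positivity
            linarith
    calc _ ≤ (Vs pp s ^ 2 * ∏ j ∈ t, 4 / (pp j : ℝ)) * ((Kf f : ℝ) ^ #(t.image pp) / Dt t) := by
          refine mul_le_mul (e5 t ht) (e3 t ht) ?_ ?_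
          · exact mul_nonneg (by positivity) (sum_nonneg fun _ _ => sum_nonneg fun _ _ => Rt_nonneg _ _ _ _)
          · exact mul_nonneg (by positivity) (prod_nonneg fun j _ => by positivity)
      _ ≤ (Vs pp s ^ 2 * ∏ j ∈ t, 4 / (pp j : ℝ)) * ((Kf f : ℝ) ^ #t * ∏ j ∈ t, (pp j : ℝ) ^ (-(1 / (k : ℝ)))) := by
          refine mul_le_mul_of_nonneg_left ?_ (mul_nonneg (by positivity) (prod_nonneg fun j _ => by positivity))
          rw [div_eq_mul_one_div]
          exact mul_le_mul h2 h3 (by positivity) (by positivity)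
      _ = _ := by
          rw [← prod_const, mul_assoc, ← prod_mul_distrib, ← prod_mul_distrib]
          congr 1
          refine prod_congr rfl fun j _ => ?_
          have hj : (0 : ℝ) < pp j := by exact_mod_cast j.1.2.pos
          rw [neg_add, Real.rpow_add hj, Real.rpow_neg_one]
          field_simp
  rw [e1, div_le_iff₀ (by positivity), e4]
  refine (sum_le_sum e6).trans ?_
  rw [← mul_sum, mul_comm]
  refine mul_le_mul_of_nonneg_right ?_ (by positivity)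
  rw [← prod_add_one]
  calc ∏ j ∈ s, (4 * (Kf f : ℝ) * (pp j : ℝ) ^ (-(1 + 1 / (k : ℝ))) + 1) ≤
        ∏ j ∈ s, Real.exp (4 * (Kf f : ℝ) * (pp j : ℝ) ^ (-(1 + 1 / (k : ℝ)))) :=
        prod_le_prod (fun j _ => by positivity) fun j _ => Real.add_one_le_exp _
    _ = _ := by
        rw [← Real.exp_sum, ← mul_sum]

/-- the variance of the normalised density for large primes -/
lemma TT_var (h : RSys P (pp (k := k)) X) (hk : 1 ≤ k) {f : Fin k → ℤ[X]} (hf : ∀ i, 1 ≤ (f i).natDegree) :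
    ∃ C : ℝ, 0 < C ∧ ∀ m : ℕ, 1 ≤ m → ∀ s : Finset (Ix k), (∀ j ∈ s, m ≤ pp j) →
      ∫ ω, (TT f X s ω - 1) ^ 2 ∂P ≤ C * (m : ℝ) ^ (-(1 / (2 * k)) : ℝ) := by
  have hP := h.prob
  have hk0 : (0 : ℝ) < k := by exact_mod_cast hk
  obtain ⟨S, hS⟩ : ∃ S : ℝ, S = 4 * Kf f * (k * ∑' n : ℕ, (n : ℝ) ^ (-(1 + 1 / (2 * (k : ℝ))))) := ⟨_, rfl⟩
  have hsum : Summable (fun n : ℕ => (n : ℝ) ^ (-(1 + 1 / (2 * (k : ℝ))))) := by
    rw [Real.summable_nat_rpow]
    have : 0 < 1 / (2 * (k : ℝ)) := by positivity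
    linarith
  have hS0 : 0 ≤ S := by
    rw [hS]
    have : 0 ≤ ∑' n : ℕ, (n : ℝ) ^ (-(1 + 1 / (2 * (k : ℝ)))) := tsum_nonneg fun n => by positivity
    positivity
  refine ⟨S * Real.exp S + 1, by positivity, fun m hm s hs => ?_⟩
  have hm1 : (1 : ℝ) ≤ m := by exact_mod_cast hm
  obtain ⟨u, hu⟩ : ∃ u : ℝ, u = (m : ℝ) ^ (-(1 / (2 * k)) : ℝ) := ⟨_, rfl⟩
  have hu0 : 0 < u := by rw [hu]; positivity
  have hu1 : u ≤ 1 := by
    rw [hu]
    refine Real.rpow_le_one_of_one_le_of_nonpos hm1 ?_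
    have : 0 < 1 / (2 * (k : ℝ)) := by positivity
    linarith
  have h1 : ∑ j ∈ s, (pp j : ℝ) ^ (-(1 + 1 / (k : ℝ))) ≤ u * (k * ∑' n : ℕ, (n : ℝ) ^ (-(1 + 1 / (2 * (k : ℝ))))) := by
    calc ∑ j ∈ s, (pp j : ℝ) ^ (-(1 + 1 / (k : ℝ))) ≤ ∑ j ∈ s, u * (pp j : ℝ) ^ (-(1 + 1 / (2 * (k : ℝ)))) := by
          refine sum_le_sum fun j hj => ?_
          have hmj : (m : ℝ) ≤ pp j := by exact_mod_cast hs j hj
          have hj0 : (0 : ℝ) < pp j := by linarith
          have e : -(1 + 1 / (k : ℝ)) = -(1 / (2 * (k : ℝ))) + -(1 + 1 / (2 * (k : ℝ))) := by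
            field_simp
            ring
          rw [e, Real.rpow_add hj0]
          refine mul_le_mul_of_nonneg_right ?_ (by positivity)
          rw [hu]
          refine Real.rpow_le_rpow_of_nonpos (by linarith) hmj ?_
          have : 0 < 1 / (2 * (k : ℝ)) := by positivity
          linarith
      _ = u * ∑ j ∈ s, (pp j : ℝ) ^ (-(1 + 1 / (2 * (k : ℝ)))) := by rw [mul_sum]
      _ ≤ _ := mul_le_mul_of_nonneg_left (sum_pp s (fun n => (n : ℝ) ^ (-(1 + 1 / (2 * (k : ℝ)))))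
          (fun n => by positivity) hsum) hu0.le
  have h2 := TT_sq h hk hf s
  have h3 : ∫ ω, TT f X s ω ^ 2 ∂P ≤ Real.exp (u * S) := by
    refine h2.trans (Real.exp_le_exp.2 ?_)
    rw [hS]
    calc 4 * (Kf f : ℝ) * ∑ j ∈ s, (pp j : ℝ) ^ (-(1 + 1 / (k : ℝ))) ≤
          4 * (Kf f : ℝ) * (u * (k * ∑' n : ℕ, (n : ℝ) ^ (-(1 + 1 / (2 * (k : ℝ)))))) :=
          mul_le_mul_of_nonneg_left h1 (by positivity)
      _ = _ := by ring
  have i1 : Integrable (TT f X s) P := bdd_int h (TT_dep f s) (TT_abs f s)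
  have i2 : Integrable (fun ω => TT f X s ω ^ 2) P := by
    have hd : DepOn X s (fun ω => TT f X s ω ^ 2) := fun ω ω' h' => by
      simp only
      rw [TT_dep f s ω ω' h']
    refine bdd_int h hd (B := (1 / Vs pp s) ^ 2) fun ω => ?_
    rw [abs_pow]
    exact pow_le_pow_left₀ (abs_nonneg _) (TT_abs f s ω) 2
  have e : ∫ ω, (TT f X s ω - 1) ^ 2 ∂P = ∫ ω, TT f X s ω ^ 2 ∂P - 1 := by
    have e1 : ∀ ω, (TT f X s ω - 1) ^ 2 = TT f X s ω ^ 2 - (2 * TT f X s ω - 1) := fun ω => by ring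
    simp only [e1]
    have i3 : Integrable (fun ω => 2 * TT f X s ω - 1) P := (i1.const_mul 2).sub (integrable_const 1)
    rw [integral_sub i2 i3, integral_sub (i1.const_mul 2) (integrable_const 1), integral_const_mul, TT_mean h]
    simp
    ring
  rw [e, ← hu]
  have h4 : Real.exp (u * S) - 1 ≤ u * S * Real.exp S := by
    have h5 : 1 - u * S ≤ Real.exp (-(u * S)) := by
      have := Real.add_one_le_exp (-(u * S))
      linarith
    have h6 : Real.exp (u * S) * Real.exp (-(u * S)) = 1 := by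
      rw [← Real.exp_add]
      simp
    have h7 : Real.exp (u * S) ≤ Real.exp S := Real.exp_le_exp.2 (mul_le_of_le_one_left hS0 hu1)
    have h8 : Real.exp (u * S) * (1 - u * S) ≤ 1 :=
      (mul_le_mul_of_nonneg_left h5 (Real.exp_pos _).le).trans h6.le
    have h9 : u * S * Real.exp (u * S) ≤ u * S * Real.exp S := mul_le_mul_of_nonneg_left h7 (by positivity)
    linarith
  calc ∫ ω, TT f X s ω ^ 2 ∂P - 1 ≤ u * S * Real.exp S := by linarith
    _ ≤ (S * Real.exp S + 1) * u := by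
        have : 0 ≤ u := hu0.le
        nlinarith [Real.exp_pos S]

end Pool.Agent.L5helper2.RS
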