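import Pool.Agent.L5helper2.RS.S8

/-! Project RS (helper2): the law along sparse sequences, each component with its own level. -/

set_option autoImplicit false

namespace Pool.Agent.L5helper2.RS

open Finset Polynomial MeasureTheory ProbabilityTheory Filter Topology

variable {k : ℕ} {Ω : Type} [MeasurableSpace Ω] {P : Measure Ω} {X : Ix k → Ω → ℕ}

/-- the number of survivors up to `x` -/
noncomputable def Ns (f : Fin k → ℤ[X]) (X : Ix k → Ω → ℕ) (s : Finset (Ix k)) (x : ℕ) (ω : Ω) : ℝ :=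
  ∑ m ∈ Ioc 0 (0 + x), FF f X s m ω

omit [MeasurableSpace Ω] in
lemma LL_Ns (f : Fin k → ℤ[X]) (s : Finset (Ix k)) (x : ℕ) (ω : Ω) :
    LL 0 x (Dt s) (fun m => FF f X s m ω) = Ns f X s x ω - x * Wd f X s ω := by
  unfold LL Ns Wd
  ring

lemma sq_gen (h : RSys P (pp (k := k)) X) (f : Fin k → ℤ[X]) (s : Finset (Ix k)) (a L : ℕ) :
    ∫ ω, LL a L (Dt s) (fun m => FF f X s m ω) ^ 2 ∂P =
      LL a L (Dt s) (fun m => LL a L (Dt s) (KK f s m)) := by
  have hP := h.prob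
  have e : ∀ ω, LL a L (Dt s) (fun m => FF f X s m ω) ^ 2 = LL a L (Dt s) (fun m => LL a L (Dt s) (fun n =>
      FF f X s m ω * FF f X s n ω)) := by
    intro ω
    simp only [LL_mul_left]
    have e1 : ∀ m, FF f X s m ω * LL a L (Dt s) (fun n => FF f X s n ω) =
        LL a L (Dt s) (fun n => FF f X s n ω) * FF f X s m ω := fun m => mul_comm _ _
    simp only [e1]
    rw [LL_mul_left, sq]
  have hi : ∀ m n, Integrable (fun ω => FF f X s m ω * FF f X s n ω) P := by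
    intro m n
    refine bdd_int h ((FF_dep f s m).mul (FF_dep f s n)) (B := 1) fun ω => ?_
    have h1 := FF_01 (X := X) f s m ω
    have h2 := FF_01 (X := X) f s n ω
    rw [abs_of_nonneg (mul_nonneg h1.1 h2.1)]
    exact mul_le_one₀ h1.2 h2.1 h2.2
  simp only [e]
  rw [(int_LL fun m => (int_LL fun n => hi m n).1).2]
  refine LL_congr fun m => ?_
  rw [(int_LL fun n => hi m n).2]
  exact LL_congr fun n => FF_corr h f _ m n

lemma Ns_bound (f : Fin k → ℤ[X]) (s : Finset (Ix k)) (x : ℕ) (ω : Ω) :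
    |Ns f X s x ω - x * Wd f X s ω| ≤ 2 * x := by
  have h1 : 0 ≤ Ns f X s x ω := sum_nonneg fun m _ => (FF_01 f s m ω).1
  have h2 : Ns f X s x ω ≤ x := by
    unfold Ns
    calc _ ≤ ∑ _m ∈ Ioc 0 (0 + x), (1 : ℝ) := sum_le_sum fun m _ => (FF_01 f s m ω).2
      _ = x := by simp
  have h3 := Wd_nonneg f (X := X) s ω
  have h4 := Wd_le f (X := X) s ω
  have h5 : (x : ℝ) * Wd f X s ω ≤ x := mul_le_of_le_one_right (by positivity) h4
  have h6 : 0 ≤ (x : ℝ) * Wd f X s ω := by positivity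
  have hx : (0 : ℝ) ≤ x := by positivity
  rw [abs_le]
  constructor <;> linarith

/-- the probability of a large error -/
theorem prob_gen (h : RSys P (pp (k := k)) X) (hk : 1 ≤ k) {f : Fin k → ℤ[X]}
    (hf : ∀ i, 1 ≤ (f i).natDegree) (A : ℕ) :
    ∃ C : ℝ, 0 < C ∧ ∀ x : ℕ, 2 ≤ x → ∀ s : Finset (Ix k), (∀ j ∈ s, pp j ≤ x ^ A) →
    P.real {ω | (x : ℝ) ^ ((3 : ℝ) / 4) ≤ |Ns f X s x ω - x * Wd f X s ω|} ≤ C * (x : ℝ) ^ (-(1 / 4) : ℝ) := by
  have hP := h.prob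
  obtain ⟨C0, hC0, h1⟩ := B_total hk hf (show (0 : ℝ) < 1 / 8 by norm_num) (by norm_num)
  obtain ⟨C1, hC1, h2⟩ := Vs_low (k := k) (1 / (8 * (A + 1))) (by positivity)
  refine ⟨C0 * C1, by positivity, fun x hx s hs => ?_⟩
  have hx1 : (1 : ℝ) ≤ x := by exact_mod_cast (by omega : 1 ≤ x)
  have hx0 : (0 : ℝ) < x := by linarith
  have hp := pp_two (k := k)
  have h3 := (le_abs_self _).trans (h1 x hx 0 x (by omega) (by omega) s)
  rw [← sq_gen h] at h3
  simp only [LL_Ns] at h3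
  have hPi : ∏ j ∈ s, (1 / (pp j : ℝ) + 1) ≤ (Vs pp (Jx k 0 (x ^ A)))⁻¹ := by
    have h4 : ∏ j ∈ s, (1 / (pp j : ℝ) + 1) ≤ (Vs pp s)⁻¹ := by
      unfold Vs
      rw [← prod_inv_distrib]
      refine prod_le_prod (fun j _ => by positivity) fun j _ => ?_
      have h4 := one_sub_pos hp j
      rw [le_inv_comm₀ (by positivity) h4, ← one_div, le_div_iff₀ (by positivity)]
      have h5 : (1 - 1 / (pp j : ℝ)) * (1 / (pp j : ℝ) + 1) = 1 - (1 / (pp j : ℝ)) ^ 2 := by ring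
      rw [h5]
      have : 0 ≤ (1 / (pp j : ℝ)) ^ 2 := by positivity
      linarith
    refine h4.trans (inv_anti₀ (Vs_pos hp _) (Vs_anti hp ?_))
    intro j hj
    rw [mem_Jx]
    have := hp j
    exact ⟨by omega, hs j hj⟩
  have hVi : (Vs pp (Jx k 0 (x ^ A)))⁻¹ ≤ C1 * (x : ℝ) ^ ((1 : ℝ) / 8) := by
    have h4 := h2 (x ^ A) (Nat.pow_pos (by omega))
    refine h4.trans ?_
    refine mul_le_mul_of_nonneg_left ?_ (by linarith)
    push_cast
    rw [← Real.rpow_natCast, ← Real.rpow_mul hx0.le]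
    refine Real.rpow_le_rpow_of_exponent_le hx1 ?_
    rw [← mul_div_assoc, div_le_div_iff₀ (by positivity) (by norm_num)]
    have hA : (0 : ℝ) ≤ A := by positivity
    nlinarith
  have h4 : ∫ ω, (Ns f X s x ω - x * Wd f X s ω) ^ 2 ∂P ≤ C0 * C1 * (x : ℝ) ^ ((5 : ℝ) / 4) := by
    calc _ ≤ C0 * x * (x : ℝ) ^ ((1 : ℝ) / 8) * ∏ j ∈ s, (1 / (pp j : ℝ) + 1) := h3
      _ ≤ C0 * x * (x : ℝ) ^ ((1 : ℝ) / 8) * (C1 * (x : ℝ) ^ ((1 : ℝ) / 8)) :=
        mul_le_mul_of_nonneg_left (hPi.trans hVi) (by positivity)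
      _ = C0 * C1 * ((x : ℝ) ^ (1 : ℝ) * (x : ℝ) ^ ((1 : ℝ) / 8) * (x : ℝ) ^ ((1 : ℝ) / 8)) := by
          rw [Real.rpow_one]
          ring
      _ = _ := by
        rw [← Real.rpow_add hx0, ← Real.rpow_add hx0]
        norm_num
  obtain ⟨δ, hδd⟩ : ∃ δ : ℝ, δ = (x : ℝ) ^ ((3 : ℝ) / 4) := ⟨_, rfl⟩
  have hδ : 0 < δ := by rw [hδd]; positivity
  have hd : DepOn X s (fun ω => (Ns f X s x ω - x * Wd f X s ω) ^ 2) := fun ω ω' h' => by
    have e1 : Ns f X s x ω = Ns f X s x ω' := by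
      unfold Ns
      exact sum_congr rfl fun m _ => FF_dep f s m ω ω' h'
    simp only
    rw [e1, Wd_dep f s ω ω' h']
  have iF : Integrable (fun ω => (Ns f X s x ω - x * Wd f X s ω) ^ 2) P := by
    refine bdd_int h hd (B := (2 * x) ^ 2) fun ω => ?_
    rw [abs_pow]
    exact pow_le_pow_left₀ (abs_nonneg _) (Ns_bound f s x ω) 2
  have hm := mul_meas_ge_le_integral_of_nonneg (μ := P) (f := fun ω => (Ns f X s x ω - x * Wd f X s ω) ^ 2)
    (Filter.Eventually.of_forall fun ω => sq_nonneg _) iF (δ ^ 2)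
  have hset : {ω | δ ≤ |Ns f X s x ω - x * Wd f X s ω|} =
      {ω | δ ^ 2 ≤ (Ns f X s x ω - x * Wd f X s ω) ^ 2} := by
    ext ω
    simp only [Set.mem_ofPred_eq]
    rw [← sq_abs (Ns f X s x ω - x * Wd f X s ω)]
    constructor
    · intro h1
      exact pow_le_pow_left₀ hδ.le h1 2
    · intro h1
      exact (pow_le_pow_iff_left₀ hδ.le (abs_nonneg _) (by norm_num)).1 h1
  rw [← hδd, hset]
  have h5 := hm.trans h4
  have e : C0 * C1 * (x : ℝ) ^ ((5 : ℝ) / 4) = δ ^ 2 * (C0 * C1 * (x : ℝ) ^ (-(1 / 4) : ℝ)) := by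
    have e1 : (x : ℝ) ^ ((5 : ℝ) / 4) = δ ^ 2 * (x : ℝ) ^ (-(1 / 4) : ℝ) := by
      rw [hδd, ← Real.rpow_natCast, ← Real.rpow_mul hx0.le, ← Real.rpow_add hx0]
      norm_num
    rw [e1]
    ring
  rw [e] at h5
  exact le_of_mul_le_mul_left h5 (by positivity)

/-- the indices with the level `z i` for the component `i` -/
def Sz (z : Fin k → ℕ) : Finset (Ix k) := (Jx k 0 (univ.sup z)).filter (fun j => pp j ≤ z j.2)

lemma mem_Sz {z : Fin k → ℕ} {j : Ix k} : j ∈ Sz z ↔ pp j ≤ z j.2 := by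
  unfold Sz
  rw [mem_filter, mem_Jx]
  have h1 := pp_two j
  have h2 : z j.2 ≤ univ.sup z := le_sup (f := z) (mem_univ j.2)
  omega

lemma Vs_Sz (z : Fin k → ℕ) : Vs pp (Sz z) = ∏ i, Vp (z i) := by
  classical
  unfold Vs
  rw [← prod_fiberwise_of_maps_to (s := Sz z) (t := univ) (g := fun j : Ix k => j.2) fun j _ => mem_univ _]
  refine prod_congr rfl fun i _ => ?_
  rw [Vp_eq]
  refine prod_bij (fun j _ => pp j) ?_ ?_ ?_ ?_
  · intro j hj
    rw [mem_filter, mem_Sz] at hj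
    rw [mem_filter, mem_Icc]
    have := pp_two j
    exact ⟨⟨by omega, by rw [← hj.2]; exact hj.1⟩, j.1.2⟩
  · intro j hj j' hj' he
    rw [mem_filter] at hj hj'
    exact Prod.ext (Subtype.ext he) (hj.2.trans hj'.2.symm)
  · intro p hp
    rw [mem_filter, mem_Icc] at hp
    refine ⟨(⟨p, hp.2⟩, i), ?_, rfl⟩
    rw [mem_filter, mem_Sz]
    exact ⟨hp.1.2, rfl⟩
  · intro j _
    rfl

/-- the law along a sparse sequence -/
theorem sparse_law (h : RSys P (pp (k := k)) X) (hk : 1 ≤ k) {f : Fin k → ℤ[X]}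
    (hf : ∀ i, 1 ≤ (f i).natDegree) {u : ℕ} (hu : 4 ≤ u) {b : Fin k → ℕ} (hb : ∀ i, 16 * k ≤ b i) :
    ∀ᵐ ω ∂P, ∀ C : ℝ, Tendsto (fun n => TT f X (Jx k 0 n) ω) atTop (𝓝 C) →
      Tendsto (fun n : ℕ => Ns f X (Sz (fun i => lv (b i) n)) (lv (2 * u) n) ω *
        Real.log (lv (2 * u) n : ℕ) ^ k / (lv (2 * u) n : ℕ)) atTop
        (𝓝 (C * ∏ i, (Real.exp (-Real.eulerMascheroniConstant) * (2 * u / b i)))) := by
  classical
  have hP := h.prob
  obtain ⟨B, hB⟩ : ∃ B, B = univ.sup b := ⟨_, rfl⟩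
  have hbB : ∀ i, b i ≤ B := fun i => by rw [hB]; exact le_sup (f := b) (mem_univ i)
  obtain ⟨C1, hC1, h1⟩ := prob_gen h hk hf B
  have hb1 : ∀ i, 1 ≤ b i := fun i => by have := hb i; omega
  have hlvm : ∀ n, ∀ {M M' : ℕ}, M ≤ M' → lv M n ≤ lv M' n := by
    intro n M M' hMM
    exact Nat.pow_le_pow_right (by omega) hMM
  -- the errors
  have h2 : ∀ᶠ n : ℕ in atTop, P.real {ω | ((lv (2 * u) n : ℕ) : ℝ) ^ ((3 : ℝ) / 4) ≤
      |Ns f X (Sz (fun i => lv (b i) n)) (lv (2 * u) n) ω - (lv (2 * u) n : ℕ) * Wd f X (Sz (fun i => lv (b i) n)) ω|} ≤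
      C1 / ((n : ℝ) + 1) ^ 2 := by
    filter_upwards [eventually_ge_atTop 1] with n hn
    have hn0 : (0 : ℝ) < (n : ℝ) + 1 := by positivity
    have h3 : 2 ≤ lv (2 * u) n := by
      calc 2 ≤ n + 1 := by omega
        _ = lv 1 n := by unfold lv; rw [pow_one]
        _ ≤ lv (2 * u) n := hlvm n (by omega)
    refine (h1 _ h3 _ fun j hj => ?_).trans ?_
    · rw [mem_Sz] at hj
      refine hj.trans ?_
      calc lv (b j.2) n ≤ lv (2 * u * B) n := by
            refine hlvm n ((hbB j.2).trans ?_)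
            exact Nat.le_mul_of_pos_left B (by omega)
        _ = lv (2 * u) n ^ B := by
            unfold lv
            rw [← pow_mul]
    · rw [div_eq_mul_inv C1]
      refine mul_le_mul_of_nonneg_left ?_ hC1.le
      have e : ((lv (2 * u) n : ℕ) : ℝ) ^ (-(1 / 4) : ℝ) = ((n : ℝ) + 1) ^ (-(u / 2) : ℝ) := by
        unfold lv
        push_cast
        rw [← Real.rpow_natCast, ← Real.rpow_mul hn0.le]
        congr 1
        push_cast
        ring
      rw [e, ← Real.rpow_natCast, ← Real.rpow_neg hn0.le]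
      have hu' : (4 : ℝ) ≤ u := by exact_mod_cast hu
      refine Real.rpow_le_rpow_of_exponent_le (by linarith [(Nat.cast_nonneg n : (0 : ℝ) ≤ n)]) ?_
      push_cast
      linarith
  have h3 := bc h2
  have h4 := TT_tail h hk hf (t := fun n => Sz (fun i => lv (b i) n) \ Jx k 0 (lv (16 * k) n)) (fun n j hj => by
    rw [Finset.mem_sdiff, mem_Jx] at hj
    have := pp_two j
    omega)
  filter_upwards [h3, h4] with ω hω1 hω2 C hC
  -- the main term
  have h5 : Tendsto (fun n : ℕ => TT f X (Sz (fun i => lv (b i) n) \ Jx k 0 (lv (16 * k) n)) ω) atTop (𝓝 1) := by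
    rw [tendsto_iff_dist_tendsto_zero]
    have h6 : Tendsto (fun n : ℕ => 1 / ((n : ℝ) + 1) ^ 2) atTop (𝓝 0) := by
      have h7 : Tendsto (fun n : ℕ => ((n : ℝ) + 1) ^ 2) atTop atTop :=
        (tendsto_pow_atTop (by norm_num)).comp (tendsto_atTop_add_const_right _ _ tendsto_natCast_atTop_atTop)
      exact (tendsto_const_nhds (x := (1 : ℝ))).div_atTop h7
    refine squeeze_zero' (Eventually.of_forall fun n => dist_nonneg) ?_ h6
    filter_upwards [hω2] with n hn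
    rw [Real.dist_eq]
    exact hn.le
  have hM : 1 ≤ 16 * k := by omega
  have h6 := (hC.comp (lv_mono hM).tendsto_atTop).mul h5
  rw [mul_one] at h6
  have h7 : Tendsto (fun n : ℕ => ∏ i, (Vp (lv (b i) n) * Real.log (lv (2 * u) n : ℕ))) atTop
      (𝓝 (∏ i, (Real.exp (-Real.eulerMascheroniConstant) * (2 * u / b i)))) := by
    refine tendsto_finset_prod _ fun i _ => ?_
    have h8 := (Vp_mertens.comp (lv_mono (hb1 i)).tendsto_atTop).mul_const ((2 * u / b i : ℝ))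
    refine h8.congr fun n => ?_
    simp only [Function.comp]
    rw [log_lv, log_lv]
    have hbi : (0 : ℝ) < b i := by exact_mod_cast hb1 i
    push_cast
    field_simp
  have h8 := h6.mul h7
  -- the error term
  have h9 : Tendsto (fun n : ℕ => ((lv (2 * u) n : ℕ) : ℝ) ^ (-(1 / 4) : ℝ) * Real.log (lv (2 * u) n : ℕ) ^ k)
      atTop (𝓝 0) := by
    have h10 : Tendsto (fun x : ℝ => x ^ (-(1 / 4) : ℝ) * Real.log x ^ k) atTop (𝓝 0) := by
      have h11 : (fun x : ℝ => Real.log x ^ k) =o[Filter.atTop] fun x => x ^ ((1 : ℝ) / 4) := by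
        have := isLittleO_log_rpow_rpow_atTop ((k : ℕ) : ℝ) (show (0 : ℝ) < 1 / 4 by norm_num)
        simpa only [Real.rpow_natCast] using this
      refine h11.tendsto_div_nhds_zero.congr' ?_
      filter_upwards [eventually_gt_atTop 0] with x hx
      rw [Real.rpow_neg hx.le]
      field_simp
    exact h10.comp (tendsto_natCast_atTop_atTop.comp (lv_mono (by omega)).tendsto_atTop)
  have h10 : Tendsto (fun n : ℕ => (Ns f X (Sz (fun i => lv (b i) n)) (lv (2 * u) n) ω -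
      (lv (2 * u) n : ℕ) * Wd f X (Sz (fun i => lv (b i) n)) ω) * Real.log (lv (2 * u) n : ℕ) ^ k /
      (lv (2 * u) n : ℕ)) atTop (𝓝 0) := by
    rw [tendsto_zero_iff_abs_tendsto_zero]
    refine squeeze_zero' (Eventually.of_forall fun n => abs_nonneg _) ?_ h9
    filter_upwards [hω1] with n hn
    rw [not_le] at hn
    have hx : (0 : ℝ) < (lv (2 * u) n : ℕ) := by exact_mod_cast lv_pos _ _
    have hl : 0 ≤ Real.log (lv (2 * u) n : ℕ) := Real.log_natCast_nonneg _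
    simp only [Function.comp]
    rw [abs_div, abs_mul, abs_of_pos hx, abs_of_nonneg (pow_nonneg hl k), div_le_iff₀ hx]
    have e : ((lv (2 * u) n : ℕ) : ℝ) ^ (-(1 / 4) : ℝ) * Real.log (lv (2 * u) n : ℕ) ^ k * (lv (2 * u) n : ℕ) =
        ((lv (2 * u) n : ℕ) : ℝ) ^ ((3 : ℝ) / 4) * Real.log (lv (2 * u) n : ℕ) ^ k := by
      have e1 : ((lv (2 * u) n : ℕ) : ℝ) ^ ((3 : ℝ) / 4) = ((lv (2 * u) n : ℕ) : ℝ) ^ (-(1 / 4) : ℝ) *
          (lv (2 * u) n : ℕ) := by
        nth_rw 3 [← Real.rpow_one ((lv (2 * u) n : ℕ) : ℝ)]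
        rw [← Real.rpow_add hx]
        norm_num
      rw [e1]
      ring
    rw [e]
    exact mul_le_mul_of_nonneg_right hn.le (pow_nonneg hl k)
  have h11 := h10.add h8
  rw [zero_add] at h11
  refine h11.congr fun n => ?_
  have hx : (0 : ℝ) < (lv (2 * u) n : ℕ) := by exact_mod_cast lv_pos _ _
  have hsub : Jx k 0 (lv (16 * k) n) ⊆ Sz (fun i => lv (b i) n) := by
    intro j hj
    rw [mem_Jx] at hj
    rw [mem_Sz]
    exact hj.2.trans (hlvm n (hb j.2))
  have e1 : TT f X (Sz (fun i => lv (b i) n)) ω = TT f X (Jx k 0 (lv (16 * k) n)) ω *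
      TT f X (Sz (fun i => lv (b i) n) \ Jx k 0 (lv (16 * k) n)) ω := by
    have e2 : Sz (fun i => lv (b i) n) = Jx k 0 (lv (16 * k) n) ∪ (Sz (fun i => lv (b i) n) \ Jx k 0 (lv (16 * k) n)) :=
      (union_sdiff_of_subset hsub).symm
    conv_lhs => rw [e2]
    refine TT_mul f (fun i hi j hj => ?_) ω
    rw [mem_Jx] at hi
    rw [Finset.mem_sdiff, mem_Jx] at hj
    have := pp_two j
    omega
  have e3 : Wd f X (Sz (fun i => lv (b i) n)) ω = TT f X (Sz (fun i => lv (b i) n)) ω * ∏ i, Vp (lv (b i) n) := by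
    rw [← Vs_Sz (fun i => lv (b i) n)]
    unfold TT
    have := Vs_pos (pp_two (k := k)) (Sz (fun i => lv (b i) n))
    field_simp
  simp only [Function.comp]
  rw [← e1, prod_mul_distrib, prod_const, card_univ, Fintype.card_fin, ← mul_assoc, ← e3]
  field_simp
  ring

end Pool.Agent.L5helper2.RS
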