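import Pool.Agent.L5helper2.RS.Prob

/-! Project RS (helper2): the second moment. -/

set_option autoImplicit false

namespace Pool.Agent.L5helper2.RS

open Finset MeasureTheory ProbabilityTheory

variable {Ω : Type} [MeasurableSpace Ω] {ι : Type} {P : Measure Ω} {p : ι → ℕ} {X : ι → Ω → ℕ}

lemma integral_ind {P : Measure Ω} {S : Set Ω} (hS : MeasurableSet S) :
    ∫ ω, S.indicator (fun _ => (1 : ℝ)) ω ∂P = P.real S := by
  rw [integral_indicator hS, setIntegral_const, smul_eq_mul, mul_one]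

lemma ind_mul (S S' : Set Ω) (ω : Ω) : S.indicator (fun _ => (1 : ℝ)) ω * S'.indicator (fun _ => (1 : ℝ)) ω =
    (S ∩ S').indicator (fun _ => (1 : ℝ)) ω := by
  classical
  simp only [Set.indicator_apply, Set.mem_inter_iff]
  by_cases h1 : ω ∈ S <;> by_cases h2 : ω ∈ S' <;> simp [h1, h2]

lemma int_ind {P : Measure Ω} [IsProbabilityMeasure P] {S : Set Ω} (hS : MeasurableSet S) :
    Integrable (S.indicator (fun _ => (1 : ℝ))) P :=
  (integrable_const (1 : ℝ)).indicator hS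

lemma one_le_prodR {α : Type} {s : Finset α} {f : α → ℝ} (h : ∀ j ∈ s, 1 ≤ f j) : 1 ≤ ∏ j ∈ s, f j := by
  have := prod_le_prod (s := s) (f := fun _ => (1 : ℝ)) (g := f) (fun _ _ => zero_le_one) h
  rwa [prod_const_one] at this

open Classical in
/-- the second moment -/
theorem RSys.second (h : RSys P p X) {κ : Type} (M : Finset κ) (T : Finset ι) (U : κ → Finset ι)
    (hU : ∀ m, Disjoint T (U m)) (v : κ → ι → ℤ) :
    ∫ ω, (∑ m ∈ M, ((Av p X (T ∪ U m) (v m)).indicator (fun _ => (1 : ℝ)) ω -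
        Vs p (U m) * (Av p X T (v m)).indicator (fun _ => (1 : ℝ)) ω)) ^ 2 ∂P ≤
      ∑ m ∈ M, ∑ m' ∈ M, Vs p (U m) * Vs p (U m') * (∏ j ∈ U m ∩ U m', rf p (v m) (v m') j - 1) := by
  have hP := h.prob
  have hp := h.two
  obtain ⟨A, hA⟩ : ∃ A : κ → Set Ω, A = fun m => Av p X (T ∪ U m) (v m) := ⟨_, rfl⟩
  obtain ⟨B, hB⟩ : ∃ B : κ → Set Ω, B = fun m => Av p X T (v m) := ⟨_, rfl⟩
  have mA : ∀ m, MeasurableSet (A m) := fun m => by rw [hA]; exact h.mAv _ _
  have mB : ∀ m, MeasurableSet (B m) := fun m => by rw [hB]; exact h.mAv _ _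
  have e0 : ∀ ω, (∑ m ∈ M, ((Av p X (T ∪ U m) (v m)).indicator (fun _ => (1 : ℝ)) ω -
        Vs p (U m) * (Av p X T (v m)).indicator (fun _ => (1 : ℝ)) ω)) ^ 2 =
      ∑ m ∈ M, ∑ m' ∈ M, ((A m ∩ A m').indicator (fun _ => (1 : ℝ)) ω -
        Vs p (U m') * (A m ∩ B m').indicator (fun _ => (1 : ℝ)) ω -
        Vs p (U m) * (B m ∩ A m').indicator (fun _ => (1 : ℝ)) ω +
        Vs p (U m) * Vs p (U m') * (B m ∩ B m').indicator (fun _ => (1 : ℝ)) ω) := by
    intro ω
    rw [sq, sum_mul_sum]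
    refine sum_congr rfl fun m _ => sum_congr rfl fun m' _ => ?_
    rw [← ind_mul (A m) (A m'), ← ind_mul (A m) (B m'), ← ind_mul (B m) (A m'), ← ind_mul (B m) (B m'), hA, hB]
    ring
  simp_rw [e0]
  have i1 : ∀ m m', Integrable (fun ω => (A m ∩ A m').indicator (fun _ => (1 : ℝ)) ω) P :=
    fun m m' => int_ind ((mA m).inter (mA m'))
  have i2 : ∀ m m', Integrable (fun ω => (A m ∩ B m').indicator (fun _ => (1 : ℝ)) ω) P :=
    fun m m' => int_ind ((mA m).inter (mB m'))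
  have i3 : ∀ m m', Integrable (fun ω => (B m ∩ A m').indicator (fun _ => (1 : ℝ)) ω) P :=
    fun m m' => int_ind ((mB m).inter (mA m'))
  have i4 : ∀ m m', Integrable (fun ω => (B m ∩ B m').indicator (fun _ => (1 : ℝ)) ω) P :=
    fun m m' => int_ind ((mB m).inter (mB m'))
  have i5 : ∀ m m', Integrable (fun ω => (A m ∩ A m').indicator (fun _ => (1 : ℝ)) ω -
        Vs p (U m') * (A m ∩ B m').indicator (fun _ => (1 : ℝ)) ω) P :=
    fun m m' => (i1 m m').sub ((i2 m m').const_mul _)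
  have i6 : ∀ m m', Integrable (fun ω => (A m ∩ A m').indicator (fun _ => (1 : ℝ)) ω -
        Vs p (U m') * (A m ∩ B m').indicator (fun _ => (1 : ℝ)) ω -
        Vs p (U m) * (B m ∩ A m').indicator (fun _ => (1 : ℝ)) ω) P :=
    fun m m' => (i5 m m').sub ((i3 m m').const_mul _)
  have i7 : ∀ m m', Integrable (fun ω => (A m ∩ A m').indicator (fun _ => (1 : ℝ)) ω -
        Vs p (U m') * (A m ∩ B m').indicator (fun _ => (1 : ℝ)) ω -
        Vs p (U m) * (B m ∩ A m').indicator (fun _ => (1 : ℝ)) ω +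
        Vs p (U m) * Vs p (U m') * (B m ∩ B m').indicator (fun _ => (1 : ℝ)) ω) P :=
    fun m m' => (i6 m m').add ((i4 m m').const_mul _)
  rw [integral_finset_sum _ fun m _ => integrable_finset_sum _ fun m' _ => i7 m m']
  refine sum_le_sum fun m _ => ?_
  rw [integral_finset_sum _ fun m' _ => i7 m m']
  refine sum_le_sum fun m' _ => ?_
  rw [integral_add (i6 m m') ((i4 m m').const_mul _), integral_sub (i5 m m') ((i3 m m').const_mul _),
    integral_sub (i1 m m') ((i2 m m').const_mul _), integral_const_mul, integral_const_mul,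
    integral_const_mul, integral_ind ((mA m).inter (mA m')), integral_ind ((mA m).inter (mB m')),
    integral_ind ((mB m).inter (mA m')), integral_ind ((mB m).inter (mB m'))]
  obtain ⟨t, ht⟩ : ∃ t : ℝ, t = P.real (B m ∩ B m') := ⟨_, rfl⟩
  have ht0 : 0 ≤ t := by rw [ht]; exact measureReal_nonneg
  have ht1 : t ≤ 1 := by rw [ht]; exact measureReal_le_one
  have c1 : P.real (A m ∩ A m') ≤ t * (Vs p (U m) * Vs p (U m') * ∏ j ∈ U m ∩ U m', rf p (v m) (v m') j) := by
    rw [ht, hA, hB]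
    exact h.corr T (U m) (U m') (hU m) (hU m') (v m) (v m')
  have c2 : P.real (A m ∩ B m') = t * Vs p (U m) := by
    rw [ht, hA, hB]
    exact h.corr1 T (U m) (hU m) (v m) (v m')
  have c3 : P.real (B m ∩ A m') = t * Vs p (U m') := by
    rw [ht, hA, hB]
    have := h.corr1 T (U m') (hU m') (v m') (v m)
    rw [Set.inter_comm, this, Set.inter_comm (Av p X T (v m'))]
  rw [c2, c3, ← ht]
  have hV := Vs_pos hp (U m)
  have hV' := Vs_pos hp (U m')
  have hR : 1 ≤ ∏ j ∈ U m ∩ U m', rf p (v m) (v m') j := one_le_prodR fun j _ => rf_ge_one hp _ _ j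
  have hVV : 0 < Vs p (U m) * Vs p (U m') := mul_pos hV hV'
  nlinarith [mul_nonneg (mul_nonneg hVV.le (sub_nonneg.2 hR)) (sub_nonneg.2 ht1)]

open Classical in
/-- the inequality of Chebyshev -/
theorem RSys.cheb (h : RSys P p X) {κ : Type} (M : Finset κ) (T : Finset ι) (U : κ → Finset ι)
    (hU : ∀ m, Disjoint T (U m)) (v : κ → ι → ℤ) (δ : ℝ) (hδ : 0 < δ) :
    P.real {ω | δ ≤ |∑ m ∈ M, ((Av p X (T ∪ U m) (v m)).indicator (fun _ => (1 : ℝ)) ω -
        Vs p (U m) * (Av p X T (v m)).indicator (fun _ => (1 : ℝ)) ω)|} ≤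
      (∑ m ∈ M, ∑ m' ∈ M, Vs p (U m) * Vs p (U m') *
        (∏ j ∈ U m ∩ U m', rf p (v m) (v m') j - 1)) / δ ^ 2 := by
  have hP := h.prob
  have hs := h.second M T U hU v
  obtain ⟨F, hF⟩ : ∃ F : Ω → ℝ, F = fun ω => ∑ m ∈ M, ((Av p X (T ∪ U m) (v m)).indicator (fun _ => (1 : ℝ)) ω -
        Vs p (U m) * (Av p X T (v m)).indicator (fun _ => (1 : ℝ)) ω) := ⟨_, rfl⟩
  have e : ∀ ω, ∑ m ∈ M, ((Av p X (T ∪ U m) (v m)).indicator (fun _ => (1 : ℝ)) ω -
        Vs p (U m) * (Av p X T (v m)).indicator (fun _ => (1 : ℝ)) ω) = F ω := fun ω => by rw [hF]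
  simp only [e] at hs ⊢
  have mF : Measurable F := by
    rw [hF]
    refine Finset.measurable_sum _ fun m _ => ?_
    exact (measurable_const.indicator (h.mAv _ _)).sub ((measurable_const.indicator (h.mAv _ _)).const_mul _)
  have bF : ∀ ω, |F ω| ≤ 2 * M.card := by
    intro ω
    rw [hF]
    refine (abs_sum_le_sum_abs _ _).trans ?_
    have : ∀ m ∈ M, |(Av p X (T ∪ U m) (v m)).indicator (fun _ => (1 : ℝ)) ω -
        Vs p (U m) * (Av p X T (v m)).indicator (fun _ => (1 : ℝ)) ω| ≤ 2 := by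
      intro m _
      have h1 : ∀ S : Set Ω, 0 ≤ S.indicator (fun _ => (1 : ℝ)) ω ∧ S.indicator (fun _ => (1 : ℝ)) ω ≤ 1 := by
        intro S
        rw [Set.indicator_apply]
        split_ifs <;> norm_num
      have h2 := h1 (Av p X (T ∪ U m) (v m))
      have h3 := h1 (Av p X T (v m))
      have h4 := Vs_pos h.two (U m)
      have h5 := Vs_le h.two (U m)
      have h6 : Vs p (U m) * (Av p X T (v m)).indicator (fun _ => (1 : ℝ)) ω ≤ 1 := mul_le_one₀ h5 h3.1 h3.2
      have h7 : 0 ≤ Vs p (U m) * (Av p X T (v m)).indicator (fun _ => (1 : ℝ)) ω := mul_nonneg h4.le h3.1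
      rw [abs_le]
      constructor <;> linarith
    calc _ ≤ ∑ _m ∈ M, (2 : ℝ) := sum_le_sum this
      _ = _ := by rw [sum_const, nsmul_eq_mul, mul_comm]
  have iF : Integrable (fun ω => F ω ^ 2) P := by
    refine Integrable.of_bound (C := (2 * M.card) ^ 2) (mF.pow_const 2).aestronglyMeasurable ?_
    refine Filter.Eventually.of_forall fun ω => ?_
    rw [Real.norm_eq_abs, abs_pow]
    exact pow_le_pow_left₀ (abs_nonneg _) (bF ω) 2
  have hm := mul_meas_ge_le_integral_of_nonneg (μ := P) (f := fun ω => F ω ^ 2)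
    (Filter.Eventually.of_forall fun ω => sq_nonneg _) iF (δ ^ 2)
  have hset : {ω | δ ≤ |F ω|} = {ω | δ ^ 2 ≤ F ω ^ 2} := by
    ext ω
    simp only [Set.mem_ofPred_eq]
    rw [← sq_abs (F ω)]
    constructor
    · intro h1
      exact pow_le_pow_left₀ hδ.le h1 2
    · intro h1
      exact (pow_le_pow_iff_left₀ hδ.le (abs_nonneg _) (by norm_num)).1 h1
  rw [hset, le_div_iff₀ (by positivity), mul_comm]
  exact hm.trans hs

end Pool.Agent.L5helper2.RS
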